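import Pool.Agent.P.MP_cf639b_al.Red.Iface

/-! A wild algebra has a dense system of pp-pairs. -/

set_option linter.dupNamespace false

namespace Pool.Agent.P.MP_cf639b_al.Red

universe u
open Function

noncomputable section

variable {k : Type u} [Field k] {R : Type u} [Ring R] [Algebra k R]

namespace WT0

/-- a space with two operators -/
structure Ob (k : Type u) [Field k] where
  T : Type u
  [ag : AddCommGroup T]
  [mk' : Module k T]
  a : T →ₗ[k] T
  b : T →ₗ[k] T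

attribute [instance] Ob.ag Ob.mk'

/-- homomorphisms -/
def IsHom (Y Z : Ob k) (f : Y.T →ₗ[k] Z.T) : Prop :=
  (∀ y, f (Y.a y) = Z.a (f y)) ∧ ∀ y, f (Y.b y) = Z.b (f y)

/-- the formula of a word -/
def Ph (Y : Ob k) : List Bool → Y.T → Prop
  | [], t => t = 0
  | true :: w, t => Y.a t = 0 ∧ Y.b t = 0 ∧ ∃ y, t = Y.a y ∧ Ph Y w (Y.b y)
  | false :: w, t => Y.a t = 0 ∧ Ph Y w (Y.b t)

theorem ph_hom {Y Z : Ob k} {f : Y.T →ₗ[k] Z.T} (hf : IsHom Y Z f) :
    ∀ (w : List Bool) (t : Y.T), Ph Y w t → Ph Z w (f t)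
  | [], t, h => by rw [show t = 0 from h]; exact map_zero f
  | true :: w, t, ⟨h1, h2, y, h3, h4⟩ =>
    ⟨by rw [← hf.1, h1, map_zero], by rw [← hf.2, h2, map_zero], f y, by rw [h3, hf.1],
      hf.2 y ▸ ph_hom hf w _ h4⟩
  | false :: w, t, ⟨h1, h2⟩ => ⟨by rw [← hf.1, h1, map_zero], hf.2 t ▸ ph_hom hf w _ h2⟩

theorem ph_zero (Y : Ob k) : ∀ w : List Bool, Ph Y w 0
  | [] => rfl
  | true :: w => ⟨map_zero _, map_zero _, 0, (map_zero _).symm, by
      rw [map_zero]; exact ph_zero Y w⟩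
  | false :: w => ⟨map_zero _, by rw [map_zero]; exact ph_zero Y w⟩

theorem ph_append (Y : Ob k) {c c' : List Bool} (h : ∀ t, Ph Y c t → Ph Y c' t) :
    ∀ (w : List Bool) (t : Y.T), Ph Y (w ++ c) t → Ph Y (w ++ c') t
  | [], t, h1 => h t h1
  | true :: w, _, ⟨h1, h2, y, h3, h4⟩ => ⟨h1, h2, y, h3, ph_append Y h w _ h4⟩
  | false :: w, _, ⟨h1, h2⟩ => ⟨h1, ph_append Y h w _ h2⟩

/-- free realizations -/
theorem real : ∀ w : List Bool, ∃ (Y : Ob k) (p : Y.T), Module.Finite k Y.T ∧ Ph Y w p ∧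
    ∀ (Z : Ob k) (t : Z.T), Ph Z w t → ∃ f, IsHom Y Z f ∧ f p = t
  | [] => ⟨⟨PUnit, 0, 0⟩, 0, inferInstance, rfl, fun Z t h =>
      ⟨0, ⟨fun _ => (map_zero _).symm, fun _ => (map_zero _).symm⟩, h.symm⟩⟩
  | false :: w => by
    obtain ⟨Y, p, hY, hp, hu⟩ := real w
    refine ⟨⟨Y.T × k, Y.a.prodMap 0,
      (Y.b.coprod (LinearMap.toSpanSingleton k _ p)).prod 0⟩, (0, 1), inferInstance,
      ⟨by simp, ?_⟩, fun Z t h => ?_⟩
    · have h := ph_hom (Y := Y) (Z := ⟨Y.T × k, Y.a.prodMap 0,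
        (Y.b.coprod (LinearMap.toSpanSingleton k _ p)).prod 0⟩) (f := LinearMap.inl k _ _)
        ⟨fun y => by simp, fun y => by simp⟩ w p hp
      simpa using h
    · obtain ⟨f, hf, hfp⟩ := hu Z _ h.2
      refine ⟨f.coprod (LinearMap.toSpanSingleton k _ t), ⟨fun y => ?_, fun y => ?_⟩, by simp⟩
      · simp [hf.1, h.1]
      · simp [hf.2, hfp]
  | true :: w => by
    obtain ⟨Y, p, hY, hp, hu⟩ := real w
    refine ⟨⟨Y.T × k × k, Y.a.prodMap (LinearMap.prod 0 (LinearMap.fst k k k)),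
      (Y.b.coprod (LinearMap.toSpanSingleton k _ p ∘ₗ LinearMap.fst k k k)).prod 0⟩, (0, 0, 1),
      inferInstance, ⟨by simp, by simp, (0, 1, 0), by simp, ?_⟩, fun Z t h => ?_⟩
    · have h := ph_hom (Y := Y)
        (Z := ⟨Y.T × k × k, Y.a.prodMap (LinearMap.prod 0 (LinearMap.fst k k k)),
        (Y.b.coprod (LinearMap.toSpanSingleton k _ p ∘ₗ LinearMap.fst k k k)).prod 0⟩)
        (f := LinearMap.inl k _ _) ⟨fun y => by simp [Prod.ext_iff], fun y => by simp⟩ w p hp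
      simpa using h
    · obtain ⟨h1, h2, z, h3, h4⟩ := h
      obtain ⟨f, hf, hfp⟩ := hu Z _ h4
      refine ⟨f.coprod ((LinearMap.toSpanSingleton k _ z).coprod
        (LinearMap.toSpanSingleton k _ t)), ⟨fun y => ?_, fun y => ?_⟩, by simp⟩
      · simp [hf.1, h1, ← h3]
      · simp [hf.2, hfp, h2]

/-- the word `l` can be read in `x` from position `j` on -/
def Mt (x : ℕ → Bool) : ℕ → List Bool → Prop
  | _, [] => True
  | j, c :: l => x j = c ∧ Mt x (j + 1) l

theorem mt_congr {x x' : ℕ → Bool} : ∀ (l : List Bool) (j : ℕ), (∀ i, j ≤ i → x' i = x i) →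
    Mt x j l → Mt x' j l
  | [], _, _, _ => trivial
  | _ :: l, j, h, ⟨h1, h2⟩ =>
    ⟨(h j le_rfl).trans h1, mt_congr l (j + 1) (fun i hi => h i (by omega)) h2⟩

theorem mt_ex : ∀ (l : List Bool) (j : ℕ), ∃ x, Mt x j l
  | [], _ => ⟨fun _ => true, trivial⟩
  | c :: l, j => by
    obtain ⟨x, hx⟩ := mt_ex l (j + 1)
    exact ⟨update x j c, update_self .., mt_congr l (j + 1)
      (fun i hi => update_of_ne (by omega) ..) hx⟩

theorem mt_append {x : ℕ → Bool} {c : List Bool} : ∀ (l : List Bool) (j : ℕ),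
    Mt x j (l ++ c) → Mt x j l
  | [], _, _ => trivial
  | _ :: l, j, ⟨h1, h2⟩ => ⟨h1, mt_append l (j + 1) h2⟩

variable (k) in
/-- the string model -/
abbrev St (x : ℕ → Bool) (n : ℕ) : Ob k where
  T := ℕ × Bool → k
  a :=
    { toFun := fun s q => if q.2 = false ∧ x q.1 = true then s (q.1, true) else 0
      map_add' := fun s s' => funext fun q => by
        by_cases h : q.2 = false ∧ x q.1 = true <;> simp [h]
      map_smul' := fun c s => funext fun q => by
        by_cases h : q.2 = false ∧ x q.1 = true <;> simp [h] }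
  b :=
    { toFun := fun s q => if q.2 = false ∧ 0 < q.1 ∧ q.1 < n then s (q.1 - 1, x (q.1 - 1)) else 0
      map_add' := fun s s' => funext fun q => by
        by_cases h : q.2 = false ∧ 0 < q.1 ∧ q.1 < n <;> simp [h]
      map_smul' := fun c s => funext fun q => by
        by_cases h : q.2 = false ∧ 0 < q.1 ∧ q.1 < n <;> simp [h] }

theorem st_zero {x : ℕ → Bool} {n : ℕ} : ∀ (l : List Bool) (j : ℕ) (s : ℕ × Bool → k),
    Mt x j l → j + l.length < n → Ph (St k x n) l s → s (j, false) = 0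
  | [], j, s, _, _, h => congrFun h _
  | true :: l, j, s, ⟨h1, h2⟩, hn, ⟨_, _, y, h3, h4⟩ => by
    have h5 := st_zero l (j + 1) _ h2 (by simp at hn; omega) h4
    have h6 : j + 1 < n := by simp at hn; omega
    rw [h3]
    simpa [h1, h6] using h5
  | false :: l, j, s, ⟨h1, h2⟩, hn, ⟨_, h4⟩ => by
    have h5 := st_zero l (j + 1) _ h2 (by simp at hn; omega) h4
    have h6 : j + 1 < n := by simp at hn; omega
    simpa [h1, h6] using h5

/-- the points of the string model -/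
def pt (k : Type u) [Field k] (n j : ℕ) (c : Bool) : ℕ × Bool → k :=
  fun q => if q = (j, c) ∧ j < n then 1 else 0

theorem st_b {x : ℕ → Bool} {n j : ℕ} (hj : j < n) :
    (St k x n).b (pt k n j (x j)) = pt k n (j + 1) false := by
  funext ⟨i, c⟩
  change (if c = false ∧ 0 < i ∧ i < n then pt k n j (x j) (i - 1, x (i - 1)) else 0) = _
  by_cases h : i = j + 1
  · subst h
    cases c <;> simp [pt, hj]
  · have h2 : ¬ (0 < i ∧ i - 1 = j) := by omega
    simp only [pt, Prod.mk.injEq, h, false_and, if_false]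
    split_ifs with h3 h4
    · exact absurd ⟨h3.2.1, h4.1.1⟩ h2
    · rfl
    · rfl

theorem st_a0 {x : ℕ → Bool} {n j : ℕ} : (St k x n).a (pt k n j false) = 0 := by
  funext ⟨i, c⟩
  change (if c = false ∧ x i = true then pt k n j false (i, true) else 0) = 0
  simp [pt]

theorem st_ph {x : ℕ → Bool} {n : ℕ} : ∀ (l : List Bool) (j : ℕ),
    Mt x j l → j + l.length = n → Ph (St k x n) l (pt k n j false)
  | [], j, _, hn => funext fun q => by simp at hn; simp [pt, hn]; rfl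
  | true :: l, j, ⟨h1, h2⟩, hn => by
    have hj : j < n := by simp at hn; omega
    refine ⟨st_a0, ?_, pt k n j true, ?_, ?_⟩
    · funext ⟨i, c⟩
      change (if c = false ∧ 0 < i ∧ i < n then pt k n j false (i - 1, x (i - 1)) else 0) = 0
      simp only [pt, Prod.mk.injEq]
      split_ifs with h3 h4
      · rw [h4.1.1, h1] at h4
        exact absurd h4.1.2 (by simp)
      · rfl
      · rfl
    · funext ⟨i, c⟩
      change _ = if c = false ∧ x i = true then pt k n j true (i, true) else 0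
      by_cases h : i = j
      · subst h
        cases c <;> simp [pt, h1]
      · simp [pt, h]
    · rw [← h1, st_b hj]
      exact st_ph l (j + 1) h2 (by simp at hn; omega)
  | false :: l, j, ⟨h1, h2⟩, hn => by
    have hj : j < n := by simp at hn; omega
    refine ⟨st_a0, ?_⟩
    nth_rw 1 [← h1]
    rw [st_b hj]
    exact st_ph l (j + 1) h2 (by simp at hn; omega)

theorem proper (w : List Bool) : ∃ (Z : Ob k) (t : Z.T),
    Ph Z (w ++ [true, false, false]) t ∧ ¬ Ph Z w t := by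
  obtain ⟨x, hx⟩ := mt_ex (w ++ [true, false, false]) 0
  refine ⟨St k x (w.length + 3), _, st_ph _ 0 hx (by simp), fun h => ?_⟩
  have h2 := st_zero w 0 _ (mt_append w 0 hx) (by omega) h
  simp [pt] at h2

/-- the system of an object -/
def sys (Y : Ob k) (h : Module.Finite k Y.T) : Sys k where
  V := ⟨Y.T × Y.T⟩
  fd := inferInstanceAs (Module.Finite k (Y.T × Y.T))
  U := ![LinearMap.range (LinearMap.inl k Y.T Y.T), LinearMap.range (LinearMap.inr k Y.T Y.T),
    LinearMap.range (LinearMap.prod LinearMap.id LinearMap.id),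
    LinearMap.range (LinearMap.prod LinearMap.id Y.a),
    LinearMap.range (LinearMap.prod LinearMap.id Y.b)]
  dis := LinearMap.isCompl_range_inl_inr.inf_eq_bot

/-- the morphism of systems of a homomorphism -/
def sysH {Y Z : Ob k} (hY : Module.Finite k Y.T) (hZ : Module.Finite k Z.T) {f : Y.T →ₗ[k] Z.T}
    (hf : IsHom Y Z f) : SysH (sys Y hY) (sys Z hZ) where
  f := f.prodMap f
  mem i v hv := by
    fin_cases i <;> obtain ⟨y, rfl⟩ := hv
    · exact ⟨f y, Prod.ext rfl (map_zero f).symm⟩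
    · exact ⟨f y, Prod.ext (map_zero f).symm rfl⟩
    · exact ⟨f y, rfl⟩
    · exact ⟨f y, Prod.ext rfl (hf.1 y).symm⟩
    · exact ⟨f y, Prod.ext rfl (hf.2 y).symm⟩

theorem hom_of {Y Z : Ob k} (hY : Module.Finite k Y.T) (hZ : Module.Finite k Z.T)
    (g : SysH (sys Y hY) (sys Z hZ)) :
    ∃ f, IsHom Y Z f ∧ ∀ y, f y = (g.f ((y, 0) : Y.T × Y.T) : Z.T × Z.T).1 := by
  obtain ⟨G, hG⟩ : ∃ G : Y.T × Y.T →ₗ[k] Z.T × Z.T, G = g.f := ⟨_, rfl⟩
  have h0 : ∀ y, (G (y, 0)).2 = 0 := fun y => by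
    obtain ⟨z, hz⟩ := g.mem 0 ((y, 0) : Y.T × Y.T) ⟨y, rfl⟩
    exact hG ▸ (congrArg Prod.snd hz).symm
  have h1 : ∀ y, (G (0, y)).1 = 0 := fun y => by
    obtain ⟨z, hz⟩ := g.mem 1 ((0, y) : Y.T × Y.T) ⟨y, rfl⟩
    exact hG ▸ (congrArg Prod.fst hz).symm
  have hs : ∀ y y', G (y, y') = ((G (y, 0)).1, (G (0, y')).2) := fun y y' => by
    have e : G (y, y') = G (y, 0) + G (0, y') := by rw [← map_add]; simp
    rw [e]
    exact Prod.ext (by simp [h1]) (by simp [h0])
  have hgr : ∀ (c : Y.T →ₗ[k] Y.T) (c' : Z.T →ₗ[k] Z.T) (y : Y.T),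
      G (y, c y) ∈ LinearMap.range (LinearMap.prod LinearMap.id c') →
      (G (0, c y)).2 = c' (G (y, 0)).1 := by
    rintro c c' y ⟨z, hz⟩
    rw [hs] at hz
    have e1 : z = (G (y, 0)).1 := congrArg Prod.fst hz
    exact (congrArg Prod.snd hz).symm.trans (congrArg c' e1)
  have h2 : ∀ y, (G (0, y)).2 = (G (y, 0)).1 := fun y =>
    hgr LinearMap.id LinearMap.id y (hG ▸ g.mem 2 ((y, y) : Y.T × Y.T) ⟨y, rfl⟩)
  refine ⟨LinearMap.fst k _ _ ∘ₗ G ∘ₗ LinearMap.inl k _ _, ⟨fun y => ?_, fun y => ?_⟩,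
    fun y => hG ▸ rfl⟩
  · exact (h2 _).symm.trans
      (hgr Y.a Z.a y (hG ▸ g.mem 3 ((y, Y.a y) : Y.T × Y.T) ⟨y, rfl⟩))
  · exact (h2 _).symm.trans
      (hgr Y.b Z.b y (hG ▸ g.mem 4 ((y, Y.b y) : Y.T × Y.T) ⟨y, rfl⟩))

variable (k) in
/-- the free system on one vector -/
def S0 : Sys k where
  V := ⟨k⟩
  fd := inferInstanceAs (Module.Finite k k)
  U _ := ⊥
  dis := inf_idem _

/-- the morphism given by a point -/
def ptH (Y : Ob k) (hY : Module.Finite k Y.T) (p : Y.T) : SysH (S0 k) (sys Y hY) where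
  f := LinearMap.toSpanSingleton k (Y.T × Y.T) (p, 0)
  mem i v hv := by
    obtain rfl : v = 0 := hv
    exact (congrArg (· ∈ (sys Y hY).U i)
      (map_zero (LinearMap.toSpanSingleton k (Y.T × Y.T) (p, 0)))).mpr (zero_mem _)

theorem sysH_ext {S S' : Sys k} {g g' : SysH S S'} (h : g.f = g'.f) : g = g' := by
  cases g; cases g'; cases h; rfl

end WT0

open WT0 in
theorem t_WT0 : S_WT0 k R := by
  rintro ⟨Φ, m, hfd, hcomp, hrefl⟩ hND
  choose Y p hY hp hu using real (k := k)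
  let φ : List Bool → PP (Φ (S0 k)) := fun w => ⟨Φ (sys (Y w) (hY w)), hfd _, m (ptH _ _ (p w))⟩
  have hle : ∀ w w', (∀ (Z : Ob k) (t : Z.T), Ph Z w t → Ph Z w' t) → (φ w).le (φ w') := by
    intro w w' h
    obtain ⟨f, hf, hfp⟩ := hu w' (Y w) (p w) (h _ _ (hp w))
    refine PP.le_iff.2 ⟨m (sysH (hY w') (hY w) hf), ?_⟩
    refine Eq.trans (congrArg m (sysH_ext ?_)) (hcomp _ _ _ _ _)
    refine LinearMap.ext_ring (Prod.ext ?_ ?_)
    · change (1 : k) • p w = f ((1 : k) • p w')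
      rw [one_smul, one_smul, hfp]
    · change (1 : k) • (0 : (Y w).T) = f ((1 : k) • 0)
      rw [one_smul, one_smul, map_zero]
  have hnil : ∀ (w c : List Bool) (Z : Ob k) (t : Z.T), Ph Z w t → Ph Z (w ++ c) t :=
    fun w c Z t h => ph_append Z (c := []) (fun s hs => by
      rw [show s = 0 from hs]; exact ph_zero Z c) w t (by rwa [List.append_nil])
  refine hND ⟨Set.range fun w => ⟨Φ (S0 k), hfd _, φ (w ++ [true, false, false]), φ w⟩,
    Set.range_nonempty _, ?_⟩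
  rintro _ ⟨w, rfl⟩
  refine ⟨fun h => ?_, hle _ _ (hnil w _), Φ (S0 k), hfd _, LinearMap.id,
    φ (w ++ [true, false] ++ [true, false, false]), φ (w ++ [true, false]),
    φ (w ++ [true] ++ [true, false, false]), φ (w ++ [true]), ⟨_, rfl⟩, ⟨_, rfl⟩,
    hle _ _ fun Z t h => ?_, fun T t ht => hle _ _ (fun Z t h => ?_) T ht,
    fun T t _ ht => hle _ _ (hnil w _) T ht⟩
  · obtain ⟨g, hg⟩ := PP.le_iff.1 h
    obtain ⟨G, hG⟩ := hrefl _ _ _ _ _ g hg
    obtain ⟨f, hf, hf2⟩ := hom_of _ _ G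
    have h1 : ((1 : k) • (p (w ++ [true, false, false]), (0 : (Y (w ++ [true, false, false])).T))) =
        G.f ((1 : k) • (p w, (0 : (Y w).T))) := LinearMap.congr_fun hG (1 : k)
    rw [one_smul, one_smul] at h1
    have h2 : f (p w) = p (w ++ [true, false, false]) := (hf2 _).trans (congrArg Prod.fst h1).symm
    obtain ⟨Z, t, ht, ht2⟩ := proper (k := k) w
    obtain ⟨f', hf', hfp⟩ := hu _ Z t ht
    exact ht2 (hfp ▸ h2 ▸ ph_hom hf' w _ (ph_hom hf w _ (hp w)))
  · rw [List.append_assoc] at h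
    exact ph_append Z (c := [true] ++ [true, false, false]) (c' := [true, false])
      (fun _ ⟨h1, h2, y, h3, h4, h5, _⟩ => ⟨h1, h2, y, h3, h4, h5⟩) w t h
  · rw [List.append_assoc] at h
    exact ph_append Z (c := [true, false] ++ [true, false, false]) (c' := [true, false, false])
      (fun _ ⟨h1, h2, y, h3, h4, h5, h6, _⟩ => ⟨h1, h2, y, h3, h4, h5, h6⟩) w t h

end
end Pool.Agent.P.MP_cf639b_al.Red
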