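import Pool.Agent.P.MP_cf639b_al.Red.Iface

/-! Bases adapted to a filtration. -/

namespace Pool.Agent.P.MP_cf639b_al.Red

universe u

variable {k : Type u} [Field k] {R : Type u} [Ring R] [Algebra k R]

namespace ADAPT

theorem chain {H : Type u} [AddCommGroup H] [Module k H] (m : ℕ) :
    ∀ J : ℕ → Submodule k H, (∀ n, J (n + 1) ≤ J n) → J m = ⊥ →
      ∃ s : ℕ → Set H, (∀ n, s (n + 1) ⊆ s n) ∧ (∀ n, Submodule.span k (s n) = J n) ∧
        LinearIndepOn k id (s 0) := by
  induction m with
  | zero =>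
    intro J hJ h0
    refine ⟨fun _ => ∅, fun _ => le_rfl, fun n => ?_, by simp⟩
    have : J n ≤ J 0 := antitone_nat_of_succ_le hJ (Nat.zero_le n)
    rw [h0, le_bot_iff] at this
    simp [this]
  | succ m ih =>
    intro J hJ h0
    obtain ⟨s, h1, h2, h3⟩ := ih (fun n => J (n + 1)) (fun n => hJ (n + 1)) h0
    have h4 : s 0 ⊆ (J 0 : Set H) := fun x hx => hJ 0 (by
      have := Submodule.subset_span (R := k) hx
      rwa [h2] at this)
    refine ⟨fun n => Nat.casesOn n (h3.extend h4) s, fun n => ?_, fun n => ?_,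
      h3.linearIndepOn_extend h4⟩
    · cases n with
      | zero => exact h3.subset_extend h4
      | succ n => exact h1 n
    · cases n with
      | zero => exact (h3.span_extend_eq_span h4).trans (Submodule.span_eq _)
      | succ n => exact h2 n

end ADAPT

theorem t_ADAPT : S_ADAPT k := by
  classical
  intro H _ _ _ J n0 hT hJ h0
  obtain ⟨s, h1, h2, h3⟩ := ADAPT.chain n0 J hJ h0
  have hanti : Antitone s := antitone_nat_of_succ_le h1
  have hli : LinearIndependent k fun x : s 0 => (x : H) := h3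
  let b0 : Module.Basis (s 0) k H := Module.Basis.mk hli (by
    rw [Subtype.range_coe_subtype, Set.ofPred_mem_eq, h2, hT])
  have hb0 : ∀ x, b0 x = x := fun x => Module.Basis.mk_apply _ _ x
  haveI : Finite (s 0) := Module.Finite.finite_basis b0
  obtain ⟨N, ⟨e⟩⟩ := Finite.exists_equiv_fin (s 0)
  have hex : ∀ x : s 0, ∃ n, (x : H) ∉ s (n + 1) := fun x => ⟨n0, fun hx => by
    have h5 := Submodule.subset_span (R := k) (h1 n0 hx)
    rw [h2, h0] at h5
    exact hli.ne_zero x ((Submodule.mem_bot k).1 h5)⟩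
  have hlev : ∀ (x : s 0) n, Nat.find (hex x) < n ↔ (x : H) ∉ s n := fun x n => by
    cases n with
    | zero => simp
    | succ n =>
      rw [Nat.lt_succ_iff, Nat.find_le_iff]
      exact ⟨fun ⟨m, hm, h⟩ hx => h (hanti (Nat.succ_le_succ hm) hx), fun h => ⟨n, le_rfl, h⟩⟩
  refine ⟨Fin N, inferInstance, b0.reindex e, fun j => Nat.find (hex (e.symm j)), fun n φ => ?_⟩
  have himg : b0 '' {x | (x : H) ∈ s n} = s n := by
    ext y
    constructor
    · rintro ⟨x, hx, rfl⟩
      rwa [hb0]
    · intro hy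
      exact ⟨⟨y, hanti (Nat.zero_le n) hy⟩, hy, hb0 _⟩
  rw [← h2, ← himg, b0.mem_span_image]
  simp only [hlev, Module.Basis.repr_reindex_apply]
  constructor
  · intro h j hj
    by_contra hne
    exact hj (h (Finsupp.mem_support_iff.2 hne))
  · intro h x hx
    by_contra hn
    have := h (e x) (by simpa using hn)
    rw [e.symm_apply_apply] at this
    exact Finsupp.mem_support_iff.1 hx this

end Pool.Agent.P.MP_cf639b_al.Red
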