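import Pool.Agent.P.MP_cf639b_al.Red.Iface

set_option linter.dupNamespace false
set_option linter.unusedVariables false

namespace Pool.Agent.P.MP_cf639b_al.Red

universe u
open TensorProduct Polynomial

noncomputable section

variable {k : Type u} [Field k] {R : Type u} [Ring R] [Algebra k R]

theorem t_AX1 : S_AX1 k R := by
  intro P S hA hS
  refine ⟨fun e => ?_, fun V V' g => hA.chain_gm (S.TM g) (hS.w0n g), fun V V' w w' h => ?_⟩
  · obtain ⟨B, _, ν, i, p, h1, h2, h3⟩ := hA.proj e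
    let cur : ∀ V : S.ι → XV k, (∀ b, S.TT V (ν b)) →ₗ[k]
        ∀ x : (Σ b : B, S.U (ν b)), V (S.i x.2.1) := fun V =>
      LinearMap.pi fun x => S.prj V x.2 ∘ₗ LinearMap.proj x.1
    let unc : ∀ V : S.ι → XV k, (∀ x : (Σ b : B, S.U (ν b)), V (S.i x.2.1)) →ₗ[k]
        ∀ b, S.TT V (ν b) := fun V =>
      LinearMap.pi fun b => LinearMap.pi fun ω => LinearMap.proj (R := k)
        (φ := fun x : (Σ b : B, S.U (ν b)) => V (S.i x.2.1)) ⟨b, ω⟩
    refine ⟨Σ b : B, S.U (ν b), inferInstance, fun x => S.i x.2.1,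
      fun V => Pmap (cur V) ∘ₗ i (S.T V), fun V => p (S.T V) ∘ₗ Pmap (unc V), fun V => ?_,
      fun V V' g => ?_, fun V V' g => ?_⟩
    · have e : Pmap (R := R) (unc V) ∘ₗ Pmap (cur V) = LinearMap.id :=
        (Pmap_comp _ _).symm.trans Pmap_id
      exact (congrArg (fun z => p (S.T V) ∘ₗ z ∘ₗ i (S.T V)) e).trans (h1 (S.T V))
    · have e : Pmap (R := R) (cur V') ∘ₗ Pmap (piM ν fun v => (S.TM g v).1) =
          Pmap (piM (fun x : (Σ b : B, S.U (ν b)) => S.i x.2.1) fun j => (g j).1) ∘ₗ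
            Pmap (cur V) := (Pmap_comp _ _).symm.trans
              (Pmap_comp (piM (fun x : (Σ b : B, S.U (ν b)) => S.i x.2.1) fun j => (g j).1) (cur V))
      exact (congrArg (fun z => Pmap (cur V') ∘ₗ z) (h2 _ _ (S.TM g))).trans
        (congrArg (fun z => z ∘ₗ i (S.T V)) e)
    · have e : Pmap (R := R) (unc V') ∘ₗ
          Pmap (piM (fun x : (Σ b : B, S.U (ν b)) => S.i x.2.1) fun j => (g j).1) =
          Pmap (piM ν fun v => (S.TM g v).1) ∘ₗ Pmap (unc V) :=
        (Pmap_comp _ _).symm.trans (Pmap_comp (piM ν fun v => (S.TM g v).1) (unc V))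
      exact (congrArg (fun z => p (S.T V') ∘ₗ z) e).trans
        (congrArg (fun z => z ∘ₗ Pmap (unc V)) (h3 _ _ (S.TM g)))
  · rw [S.new_ms, S.new_ms] at h
    exact (S.unlift_lift w).symm.trans
      ((congrArg (S.unlift V V') (hA.minj _ _ h)).trans (S.unlift_lift w'))

end
end Pool.Agent.P.MP_cf639b_al.Red
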