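import Pool.Agent.P.MP_cf639b_al.Red.Iface

set_option linter.dupNamespace false

namespace Pool.Agent.P.MP_cf639b_al.Red

universe u

variable {k : Type u} [Field k] {R : Type u} [Ring R] [Algebra k R]

namespace AX2
variable {P : PD k R} {S : SD P}

theorem key {V V' : S.ι → XV k} (z : P.W (S.T V) (S.T V')) (h : ∀ a, S.fix a → z a = 0) :
    P.ms (S.T V) (S.T V') z = S.new.ms V V' (S.unlift V V' z) := by
  rw [S.new_ms, S.lift_unlift z h]

theorem old (hS : S.Ok) {V V' : S.ι → XV k} (a : S.Arr) {φ : H1 P.G (S.T V) (S.T V')}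
    (h : φ ∈ P.Mgt a.1.1 (S.T V) (S.T V')) : φ ∈ S.new.Mgt a V V' := by
  obtain ⟨z, hz, rfl⟩ := h
  refine ⟨S.unlift V V' z, fun a' ha' => ?_, key z fun a' ha' => hz a' (hS.min a' ha' _)⟩
  unfold SD.unlift
  rw [hz a'.1.1 fun e => ha' (Or.inl e), LinearMap.zero_comp, LinearMap.comp_zero]

theorem single {V V' : S.ι → XV k} (a : S.Arr) (u : S.TT V (P.s a.1.1) →ₗ[k] S.TT V' (P.t a.1.1))
    (hu : ∀ β α, ¬ S.wt a.2.2.1 - S.wt a.2.1.1 < S.wt α.1 - S.wt β.1 →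
      S.prj V' α ∘ₗ u ∘ₗ S.inc V β = 0) :
    (P.m a.1.1).app (S.T V) (S.T V') u ∈ S.new.Mgt a V V' := by
  classical
  obtain ⟨⟨a0, h0⟩, β0, α0⟩ := a
  let z : P.W (S.T V) (S.T V') := Pi.single a0 u
  have hz : ∀ a', a' ≠ a0 → z a' = 0 := fun a' h => Pi.single_eq_of_ne h _
  refine ⟨S.unlift V V' z, ?_, (PD.ms_single (V := S.T V) (V' := S.T V') a0 u).symm.trans
    (key z fun a' ha' => hz a' fun e => h0 (e ▸ ha'))⟩
  rintro ⟨⟨a1, h1⟩, β, α⟩ ha'
  unfold SD.unlift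
  by_cases e : a1 = a0
  · subst e
    have : z a1 = u := Pi.single_eq_same _ _
    exact (congrArg (fun y => S.prj V' α ∘ₗ y ∘ₗ S.inc V β) this).trans
      (hu β α fun h => ha' (Or.inr ⟨rfl, h⟩))
  · exact (congrArg (fun y => S.prj V' α ∘ₗ y ∘ₗ S.inc V β) (hz a1 e)).trans (by
      rw [LinearMap.zero_comp, LinearMap.comp_zero])

end AX2

theorem t_AX2 : S_AX2 k R := by
  intro P S hA hS
  refine ⟨fun V V' V'' r hr a w => ?_, fun V V' V'' r hr a w => ?_, fun V V' r hr => ?_⟩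
  · obtain ⟨r0, h0, b, hb, rfl⟩ := (S.mem_new_Rad r).1 hr
    have e : ((r0 + gm P.G b) false) ∘ₗ (S.new.m a).app V V' w =
        r0 false ∘ₗ (S.new.m a).app V V' w + (P.G false).map b ∘ₗ (S.new.m a).app V V' w :=
      LinearMap.add_comp _ _ _
    refine e ▸ add_mem (AX2.old hS a (hA.r2l r0 (hS.rad0_le _ _ h0) a.1.1 _)) ?_
    refine ((P.m a.1.1).natl (V := S.T V) b (S.inc V' a.2.2 ∘ₗ w ∘ₗ S.prj V a.2.1)) ▸
      AX2.single a _ fun β α h => LinearMap.ext fun y => ?_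
    change S.prj V'' α ((b _).1 (S.inc V' a.2.2 (w (S.inc V β y a.2.1)))) = 0
    by_cases e : a.2.1 = β
    · exact LinearMap.congr_fun ((S.Bsp_good hb).1 _ α a.2.2 fun h' => h (by
        rw [← e]; omega)) _
    · rw [inc_ne _ _ _ e, map_zero, map_zero, map_zero, map_zero]
  · obtain ⟨r0, h0, b, hb, rfl⟩ := (S.mem_new_Rad r).1 hr
    have e : (S.new.m a).app V' V'' w ∘ₗ ((r0 + gm P.G b) true) =
        (S.new.m a).app V' V'' w ∘ₗ r0 true + (S.new.m a).app V' V'' w ∘ₗ (P.G true).map b :=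
      LinearMap.comp_add _ _ _
    refine e ▸ add_mem (AX2.old hS a (hA.r2r r0 (hS.rad0_le _ _ h0) a.1.1 _)) ?_
    refine ((P.m a.1.1).natr (V'' := S.T V'') b (S.inc V'' a.2.2 ∘ₗ w ∘ₗ S.prj V' a.2.1)) ▸
      AX2.single a _ fun β α h => LinearMap.ext fun y => ?_
    change S.inc V'' a.2.2 (w (S.prj V' a.2.1 ((b _).1 (S.inc V β y)))) α = 0
    by_cases e : α = a.2.2
    · have : S.prj V' a.2.1 ((b _).1 (S.inc V β y)) = 0 :=
        LinearMap.congr_fun ((S.Bsp_good hb).1 _ a.2.1 β fun h' => h (by rw [e]; omega)) y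
      rw [this, map_zero, map_zero]
      rfl
    · exact inc_ne _ _ _ e _
  · obtain ⟨r0, h0, b, hb, rfl⟩ := (S.mem_new_Rad r).1 hr
    have h1 := hS.rad0_le _ _ h0
    obtain ⟨u, hu⟩ := hA.r3 r0 h1
    obtain ⟨z, hz, ez⟩ := hA.rad_ms h1 (S.w0 V)
    obtain ⟨z', hz', ez'⟩ := hA.ms_rad h1 (S.w0 V')
    have hc : S.new.br V V' (gm P.G b) = 0 :=
      sub_eq_zero.2 (hA.chain_gm (w := S.w0 V) (w' := S.w0 V') b (S.Bsp_good hb).2)
    refine ⟨S.unlift V V' (u + z' - z), ?_⟩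
    rw [← AX2.key (u + z' - z) fun a ha => by
      rw [Pi.sub_apply, Pi.add_apply, hS.r0z V V' r0 h0 u hu a ha, hz a (hS.min a ha),
        hz' a (hS.min a ha), add_zero, sub_zero], map_sub, map_add (P.ms _ _), ← hu, ← ez, ← ez']
    refine ((S.new.br V V').map_add r0 (gm P.G b)).trans ?_
    rw [hc, add_zero, PD.br_apply, PD.br_apply]
    change (P.d _ + P.ms _ _ (S.w0 V')) ∘ₗ r0 true - r0 false ∘ₗ (P.d _ + P.ms _ _ (S.w0 V)) = _
    rw [LinearMap.add_comp, LinearMap.comp_add]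
    abel

end Pool.Agent.P.MP_cf639b_al.Red
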