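import Pool.Agent.P.MP_cf639b_al.Red.Iface

set_option linter.dupNamespace false

namespace Pool.Agent.P.MP_cf639b_al.Red

universe u
open TensorProduct Polynomial

variable {k : Type u} [Field k] {R : Type u} [Ring R] [Algebra k R]

namespace AX3
variable {P : PD k R} {S : SD P}

theorem up_comp {V V' V'' : S.ι → XV k} {b : FH (S.T V') (S.T V'')} {b' : FH (S.T V) (S.T V')}
    (hb : S.Up b) (hb' : S.Up b') : S.Up (FH.comp b b') := by
  intro v α β h
  refine LinearMap.ext fun z => ?_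
  change S.prj V'' α ((b v).1 ((b' v).1 (S.inc V β z))) = 0
  rw [← S.sum_inc V' ((b' v).1 (S.inc V β z)), map_sum, map_sum]
  refine Finset.sum_eq_zero fun γ _ => ?_
  by_cases h1 : S.wt β.1 < S.wt γ.1
  · exact LinearMap.congr_fun (hb v α γ fun h2 => h (h1.trans h2)) _
  · have e : (b' v).1 (S.inc V β z) γ = 0 := LinearMap.congr_fun (hb' v γ β h1) z
    rw [e, map_zero, map_zero, map_zero]

theorem up_sub {V V' : S.ι → XV k} {b b' : FH (S.T V) (S.T V')} (hb : S.Up b) (hb' : S.Up b') :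
    S.Up (b - b') := fun v α β h => by
  rw [Pi.sub_apply, Submodule.coe_sub, LinearMap.sub_comp, LinearMap.comp_sub, hb v α β h,
    hb' v α β h, sub_zero]

theorem cm_comp {V V' V'' : S.ι → XV k} {b : FH (S.T V') (S.T V'')} {b' : FH (S.T V) (S.T V')}
    (hb : S.Cm b) (hb' : S.Cm b') : S.Cm (FH.comp b b') := fun a => by
  refine LinearMap.ext fun z => ?_
  exact (LinearMap.congr_fun (hb a) ((b' (P.s a)).1 z)).trans
    (congrArg (b (P.t a)).1 (LinearMap.congr_fun (hb' a) z))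

theorem bsp_comp (hS : S.Ok) {V V' V'' : S.ι → XV k} (hV : S.new.Al V)
    (hV'' : S.new.Al V'') {b : FH (S.T V') (S.T V'')} {b' : FH (S.T V) (S.T V')}
    (hb : b ∈ S.Bsp V' V'') (hb' : b' ∈ S.Bsp V V') : FH.comp b b' ∈ S.Bsp V V'' := by
  have h1 := S.Bsp_good hb
  have h2 := S.Bsp_good hb'
  obtain ⟨-, g, hg⟩ := hS.r0full V V'' hV hV'' 0 (zero_mem _) 0 (by rw [map_zero, map_zero])
    (FH.comp b b') (fun a _ => by rw [cm_comp h1.2 h2.2 a, sub_self, zero_add]; rfl)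
  have h3 := up_sub (up_comp h1.1 h2.1) (S.Bsp_good hg).1
  rw [sub_sub_cancel] at h3
  rw [S.eq_zero_of_Up hS.surj h3, map_zero, sub_zero] at hg
  exact hg

theorem br_comp {V V' V'' : P.ι → XV k} (r : HH P.G V' V'') (r' : HH P.G V V') :
    P.br V V'' (HH.comp r r') = P.br V' V'' r ∘ₗ r' true + r false ∘ₗ P.br V V' r' := by
  refine LinearMap.ext fun z => ?_
  simp [PD.br_apply]

theorem rad0_comp (hA : P.Ax) (hS : S.Ok) {V V' V'' : S.ι → XV k} (hV : S.new.Al V)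
    (hV' : S.new.Al V') (hV'' : S.new.Al V'') {r : HH P.G (S.T V') (S.T V'')}
    {r' : HH P.G (S.T V) (S.T V')} (hr : r ∈ S.Rad0 _ _) (hr' : r' ∈ S.Rad0 _ _) :
    HH.comp r r' ∈ S.Rad0 (S.T V) (S.T V'') := by
  have h1 := hS.rad0_le _ _ hr
  have h2 := hS.rad0_le _ _ hr'
  obtain ⟨w, hw⟩ := hA.r3 r h1
  obtain ⟨w', hw'⟩ := hA.r3 r' h2
  obtain ⟨z, hz, ez⟩ := hA.ms_rad h2 w
  obtain ⟨z', hz', ez'⟩ := hA.rad_ms h1 w'
  refine (hS.r0full V V'' hV hV'' _ (hA.r1 (hS.al hV) (hS.al hV') (hS.al hV'') r h1 r' h2)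
    (z + z') (by rw [br_comp, hw, hw', ez, ez', map_add]) 0 fun a ha => ?_).1
  rw [Pi.add_apply, hz a (hS.min a ha), hz' a (hS.min a ha)]
  simp

theorem comp_add {V V' V'' : P.ι → XV k} (r s : HH P.G V' V'') (r' s' : HH P.G V V') :
    HH.comp (r + s) (r' + s') = HH.comp r r' + HH.comp r s' + HH.comp s r' + HH.comp s s' := by
  funext e
  refine LinearMap.ext fun z => ?_
  simp only [HH.comp_apply, Pi.add_apply, LinearMap.comp_apply, LinearMap.add_apply, map_add]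
  abel
end AX3

theorem t_AX3 : S_AX3 k R := by
  intro P S hA hS
  refine ⟨fun V V' V'' hV hV' hV'' r hr r' hr' => ?_, fun V V' hV hV' g hg => ?_,
    fun V V' hV hV' w w' φ h => ?_⟩
  · obtain ⟨r0, h0, b, hb, rfl⟩ := (S.mem_new_Rad r).mp hr
    obtain ⟨r0', h0', b', hb', rfl⟩ := (S.mem_new_Rad r').mp hr'
    refine (S.mem_new_Rad _).mpr ⟨_, add_mem (add_mem (AX3.rad0_comp hA hS hV hV' hV'' h0 h0')
      (S.Rad0_right b' h0)) (S.Rad0_left b h0'), _, AX3.bsp_comp hS hV hV'' hb hb', ?_⟩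
    rw [gm_comp]
    exact AX3.comp_add (P := P) _ _ _ _
  · obtain ⟨r0, h0, b, hb, e⟩ := (S.mem_new_Rad _).mp hg
    have e1 : gm P.G (S.TM g - b) = r0 := by
      rw [map_sub, sub_eq_iff_eq_add]
      exact e
    have e2 := hA.r4 (hS.al hV) (hS.al hV') (S.TM g - b) (e1 ▸ hS.rad0_le _ _ h0)
    rw [sub_eq_zero] at e2
    exact S.eq_zero_of_Up hS.surj (e2 ▸ (S.Bsp_good hb).1)
  · have h1 := (S.new_chain φ).mp h
    obtain ⟨g, hg⟩ := hA.full (hS.al hV) (hS.al hV') _ _ φ h1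
    obtain ⟨u, hu⟩ := hA.r3 _ hg
    have h2 : P.Chain (S.T V) (S.w0 V + S.lift V V w) (S.T V') (S.w0 V' + S.lift V' V' w')
        (gm P.G g + (φ - gm P.G g)) := by
      rw [add_sub_cancel]
      exact h1
    obtain ⟨h3, g', hg'⟩ := hS.r0full V V' hV hV' _ hg u hu g fun a ha => by
      have := hA.comm hg h2 hu (hS.min a ha)
      rwa [Pi.add_apply, Pi.add_apply, S.lift_fix _ ha, S.lift_fix _ ha, add_zero, add_zero] at this
    refine ⟨g', (S.mem_new_Rad _).mpr ⟨_, h3, _, hg', ?_⟩⟩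
    rw [map_sub, sub_add_sub_cancel]
    rfl

end Pool.Agent.P.MP_cf639b_al.Red
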