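import Pool.Agent.P.MP_cf639b_al.Red.Iface

/-! Nilpotency of the radical of the new problem. -/

set_option linter.dupNamespace false
set_option linter.unusedVariables false

namespace Pool.Agent.P.MP_cf639b_al.Red

universe u
open TensorProduct Polynomial

variable {k : Type u} [Field k] {R : Type u} [Ring R] [Algebra k R]

namespace AX4
variable {P : PD k R} (S : SD P)

/-- the number of slots of smaller weight -/
def rk (ω : S.Ω) : ℕ := (Finset.univ.filter fun ω' => S.wt ω' < S.wt ω).card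

theorem rk_lt {α β : S.Ω} (h : S.wt β < S.wt α) : rk S β < rk S α := by
  refine Finset.card_lt_card ⟨fun ω hω => ?_, fun hs => ?_⟩
  · rw [Finset.mem_filter] at hω ⊢
    exact ⟨hω.1, hω.2.trans h⟩
  · have := hs (Finset.mem_filter.mpr ⟨Finset.mem_univ β, h⟩)
    exact lt_irrefl _ (Finset.mem_filter.mp this).2

theorem rk_card (ω : S.Ω) : rk S ω < Fintype.card S.Ω := by
  refine Finset.card_lt_card ⟨Finset.subset_univ _, fun hs => ?_⟩
  exact lt_irrefl _ (Finset.mem_filter.mp (hs (Finset.mem_univ ω))).2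

/-- the image lies in the slots of rank at least `j` -/
def Hi {V : S.ι → XV k} (j : ℕ) (h : FH (S.T V) (S.T V)) : Prop :=
  ∀ v (z : S.TT V v) (α : S.U v), rk S α.1 < j → S.prj V α ((h v).1 z) = 0

theorem hi_comp {V : S.ι → XV k} {j : ℕ} {b h : FH (S.T V) (S.T V)} (hb : S.Up b)
    (hh : Hi S j h) : Hi S (j + 1) (FH.comp b h) := by
  intro v z α hα
  have key : ∀ y : S.TT V v, (∀ β : S.U v, rk S β.1 < j → y β = 0) →
      (S.prj V α ∘ₗ (b v).1) y = 0 := by
    intro y hy
    rw [← S.sum_inc V y, map_sum]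
    refine Finset.sum_eq_zero fun β _ => ?_
    by_cases hw : S.wt β.1 < S.wt α.1
    · have : rk S β.1 < j := by
        have := rk_lt S hw
        omega
      rw [hy β this, map_zero, map_zero]
    · exact LinearMap.congr_fun (hb v α β hw) (y β)
  exact key ((h v).1 z) (hh v z)

theorem hi_zero {V : S.ι → XV k} {h : FH (S.T V) (S.T V)} (hh : Hi S (Fintype.card S.Ω) h) :
    h = 0 := FH.ext fun v z => funext fun α => hh v z α (rk_card S α.1)

theorem prod_eq (hA : P.Ax) (hS : S.Ok) {V : S.ι → XV k} (hV : S.new.Al V)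
    (l : List (∀ e, Module.End R ((P.G e).obj (S.T V)))) (hl : ∀ r ∈ l, r ∈ S.new.Rad V V) :
    ∃ r ∈ P.Rad (S.T V) (S.T V), ∃ h : FH (S.T V) (S.T V), Hi S l.length h ∧
      l.prod = r + gm P.G h := by
  induction l with
  | nil =>
    refine ⟨0, Submodule.zero_mem _, FH.id _, fun v z α hα => absurd hα (Nat.not_lt_zero _), ?_⟩
    rw [gm_id, zero_add]
    rfl
  | cons a l ih =>
    obtain ⟨r, hr, h, hh, e⟩ := ih fun r hr => hl r (List.mem_cons_of_mem _ hr)
    obtain ⟨r', hr', b, hb, e'⟩ := (S.mem_new_Rad a).mp (hl a List.mem_cons_self)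
    have hr'' := hS.rad0_le _ _ hr'
    have hT := hS.al hV
    refine ⟨HH.comp r' r + HH.comp r' (gm P.G h) + HH.comp (gm P.G b) r,
      Submodule.add_mem _ (Submodule.add_mem _ (hA.r1 hT hT hT r' hr'' r hr)
        (PD.Rad_right h hr'')) (PD.Rad_left b hr), FH.comp b h,
      hi_comp S (S.Bsp_good hb).1 hh, ?_⟩
    rw [List.prod_cons, e, e', gm_comp]
    refine funext fun c => LinearMap.ext fun z => ?_
    change (r' c + gm P.G b c) ((r c + gm P.G h c) z) =
      r' c (r c z) + r' c (gm P.G h c z) + gm P.G b c (r c z) + gm P.G b c (gm P.G h c z)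
    simp only [LinearMap.add_apply, map_add]
    abel

theorem prod_mem (hA : P.Ax) (hS : S.Ok) {V : S.ι → XV k} (hV : S.new.Al V)
    (l : List (∀ e, Module.End R ((P.G e).obj (S.T V)))) (hl : ∀ r ∈ l, r ∈ S.new.Rad V V)
    (hc : l.length = Fintype.card S.Ω) : l.prod ∈ P.Rad (S.T V) (S.T V) := by
  obtain ⟨r, hr, h, hh, e⟩ := prod_eq S hA hS hV l hl
  rw [hc] at hh
  rw [e, hi_zero S hh, map_zero, add_zero]
  exact hr

theorem group (hA : P.Ax) (hS : S.Ok) {V : S.ι → XV k} (hV : S.new.Al V) (n : ℕ)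
    (l : List (∀ e, Module.End R ((P.G e).obj (S.T V)))) (hl : ∀ r ∈ l, r ∈ S.new.Rad V V)
    (hc : l.length = n * Fintype.card S.Ω) :
    ∃ l' : List (∀ e, Module.End R ((P.G e).obj (S.T V))), l'.length = n ∧
      (∀ r ∈ l', r ∈ P.Rad (S.T V) (S.T V)) ∧ l'.prod = l.prod := by
  induction n generalizing l with
  | zero =>
    rw [zero_mul, List.length_eq_zero_iff] at hc
    subst hc
    exact ⟨[], rfl, by simp, rfl⟩
  | succ n ih =>
    rw [Nat.succ_mul] at hc
    obtain ⟨l', h1, h2, h3⟩ := ih (l.drop (Fintype.card S.Ω))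
      (fun r hr => hl r (List.mem_of_mem_drop hr)) (by rw [List.length_drop]; omega)
    refine ⟨(l.take (Fintype.card S.Ω)).prod :: l', by rw [List.length_cons, h1], ?_, ?_⟩
    · intro r hr
      rcases List.mem_cons.mp hr with rfl | hr
      · exact prod_mem S hA hS hV _ (fun r hr => hl r (List.mem_of_mem_take hr))
          (by rw [List.length_take]; omega)
      · exact h2 r hr
    · rw [List.prod_cons, h3, List.prod_take_mul_prod_drop]
end AX4

theorem t_AX4 : S_AX4 k R := by
  intro P S hA hS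
  obtain ⟨n, hn⟩ := hA.nil
  refine ⟨n * Fintype.card S.Ω, fun V hV l hc hl => ?_⟩
  obtain ⟨l', h1, h2, h3⟩ := AX4.group S hA hS hV n l hl hc
  exact h3.symm.trans (hn (S.T V) (hS.al hV) l' h1 h2)

end Pool.Agent.P.MP_cf639b_al.Red
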