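import Pool.Agent.P.MP_cf639b_al.Red.Iface

/-! Natural families of maps have zero Bockstein map. -/

set_option linter.dupNamespace false

namespace Pool.Agent.P.MP_cf639b_al.Red

universe u
open TensorProduct Polynomial

noncomputable section

variable {k : Type u} [Field k] {R : Type u} [Ring R] [Algebra k R]

namespace BOCK

/-- polynomials with coefficients in `V`, with `x` acting on the coefficients -/
abbrev V3 (V : XV k) : XV k := ⟨ℕ →₀ V, Finsupp.mapRange.linearMap V.x⟩

/-- the extension of `V[t]` with `x = t` by `V[t]` with `x` acting on the coefficients -/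
abbrev V2 (V : XV k) : XV k :=
  ⟨(ℕ →₀ V) × (ℕ →₀ V),
    (Finsupp.mapRange.linearMap V.x ∘ₗ LinearMap.fst k _ _ + LinearMap.snd k _ _).prod
      (shift k V ∘ₗ LinearMap.snd k _ _)⟩

theorem V2_x (V : XV k) (u : (ℕ →₀ V) × (ℕ →₀ V)) :
    (V2 V).x u = (Finsupp.mapRange.linearMap V.x u.1 + u.2, shift k V u.2) := rfl

theorem V3_pow (V : XV k) (i : ℕ) (u : ℕ →₀ V) (l : ℕ) :
    ((V3 V).x ^ i) u l = (V.x ^ i) (u l) := by
  induction i with
  | zero => rfl
  | succ n ih =>
    rw [pow_succ', pow_succ', Module.End.mul_apply, Module.End.mul_apply, ← ih]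
    rfl

theorem V2_pow (V : XV k) (i : ℕ) (v : V) :
    ((V2 V).x ^ i) (0, Finsupp.single 0 v) =
      (∑ l ∈ Finset.range i, Finsupp.single l ((V.x ^ (i - 1 - l)) v), Finsupp.single i v) := by
  induction i with
  | zero => rfl
  | succ n ih =>
    rw [pow_succ', Module.End.mul_apply, ih, V2_x, shift_single, Finset.sum_range_succ, map_sum]
    refine Prod.ext ?_ rfl
    refine congrArg₂ (· + ·) (Finset.sum_congr rfl fun l hl => ?_) (by simp)
    have e : n + 1 - 1 - l = n - 1 - l + 1 := by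
      have := Finset.mem_range.mp hl
      omega
    rw [e, pow_succ', Module.End.mul_apply]
    simp

/-- the monomials -/
def sgl (V : XV k) (l : ℕ) : XH V (V3 V) :=
  ⟨Finsupp.lsingle l, LinearMap.ext fun v => by simp⟩
/-- multiplication by `t` -/
def sh3 (V : XV k) : XH (V3 V) (V3 V) := ⟨shift k V, (mapRange_shift V.x).symm⟩
/-- the monomials in the first factor -/
def sgl2 (V : XV k) (l : ℕ) : XH V (V2 V) :=
  ⟨LinearMap.inl k _ _ ∘ₗ Finsupp.lsingle l, LinearMap.ext fun v => by
    change (Finsupp.single l (V.x v), 0) = (V2 V).x (Finsupp.single l v, 0)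
    rw [V2_x]
    simp⟩
/-- multiplication by `t` -/
def sh2 (V : XV k) : XH (V2 V) (V2 V) :=
  ⟨(shift k V).prodMap (shift k V), LinearMap.ext fun u => by
    change (shift k V (Finsupp.mapRange.linearMap V.x u.1 + u.2), shift k V (shift k V u.2)) =
      (V2 V).x (shift k V u.1, shift k V u.2)
    rw [V2_x, map_add]
    exact Prod.ext (congrArg (· + _) (LinearMap.congr_fun (mapRange_shift V.x) u.1).symm) rfl⟩

/-- the map `M[V[t]] → M[V][t]` -/
def kap (d : Fam R) (V : XV k) : M d (V3 V) →ₗ[R] (ℕ →₀ M d V) :=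
  Mlift d (V3 V) (T := ⟨ℕ →₀ M d V⟩) (fun b => Finsupp.mapRange.linearMap (gen d V b))
    (fun a u => Finsupp.ext fun l => by
      refine Eq.trans ?_ (gen_rel d V a (u l))
      rw [Finsupp.finset_sum_apply]
      refine Finset.sum_congr rfl fun i _ => ?_
      rw [Finsupp.finset_sum_apply]
      refine Finset.sum_congr rfl fun b _ => ?_
      rw [← V3_pow]
      rfl)

theorem kap_gen (d : Fam R) (V : XV k) (b : Fin d.n0) (u : ℕ →₀ V) :
    kap d V (gen d (V3 V) b u) = Finsupp.mapRange.linearMap (gen d V b) u :=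
  Mlift_gen d (V3 V) (T := ⟨ℕ →₀ M d V⟩) _ _ b u

theorem kap_sgl (d : Fam R) (V : XV k) (l : ℕ) :
    kap d V ∘ₗ (MN d).map (sgl V l) = Finsupp.lsingle l :=
  M_ext (T := ⟨ℕ →₀ M d V⟩) fun b v => by
    change kap d V ((MN d).map (sgl V l) (gen d V b v)) = Finsupp.single l (gen d V b v)
    rw [map_gen, kap_gen]
    change Finsupp.mapRange.linearMap (gen d V b) (Finsupp.single l v) = _
    simp

theorem kap_sh (d : Fam R) (V : XV k) :
    kap d V ∘ₗ (MN d).map (sh3 V) = shift R (M d V) ∘ₗ kap d V :=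
  M_ext (T := ⟨ℕ →₀ M d V⟩) fun b u => by
    change kap d V ((MN d).map (sh3 V) (gen d (V3 V) b u)) =
      shift R (M d V) (kap d V (gen d (V3 V) b u))
    rw [map_gen, kap_gen, kap_gen]
    change Finsupp.mapRange.linearMap (gen d V b) (shift k V u) = _
    induction u using Finsupp.induction_linear with
    | zero => simp
    | add f g hf hg => simp only [map_add, hf, hg]
    | single l v => simp

end BOCK

open BOCK in
theorem t_BOCK : S_BOCK k R := by
  intro d d' j hl hr V V' w
  refine LinearMap.ext fun v => ?_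
  let w2 : V2 V →ₗ[k] V3 V' := Finsupp.mapRange.linearMap w ∘ₗ LinearMap.fst k _ _
  let a2 : M d (V2 V) →ₗ[R] (ℕ →₀ M d' V') := kap d' V' ∘ₗ j (V2 V) (V3 V') w2
  have h1 : ∀ l, a2 ∘ₗ (MN d).map (sgl2 V l) = Finsupp.lsingle l ∘ₗ j V V' w := fun l => by
    have e : w2 ∘ₗ (sgl2 V l).1 = (sgl V' l).1 ∘ₗ w := LinearMap.ext fun z => by
      change Finsupp.mapRange.linearMap w (Finsupp.single l z) = Finsupp.single l (w z)
      simp
    rw [LinearMap.comp_assoc, ← hr, e, hl, ← LinearMap.comp_assoc, kap_sgl]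
  have h2 : a2 ∘ₗ (MN d).map (sh2 V) = shift R (M d' V') ∘ₗ a2 := by
    have e : w2 ∘ₗ (sh2 V).1 = (sh3 V').1 ∘ₗ w2 := LinearMap.ext fun z =>
      LinearMap.congr_fun (mapRange_shift w) z.1
    rw [LinearMap.comp_assoc, ← hr, e, hl, ← LinearMap.comp_assoc, kap_sh, LinearMap.comp_assoc]
  have h3 : ∀ b l z, a2 (gen d (V2 V) b (Finsupp.single l z, 0)) =
      Finsupp.single l (j V V' w (gen d V b z)) := fun b l z =>
    (congrArg a2 (map_gen d (sgl2 V l) b z)).symm.trans (LinearMap.congr_fun (h1 l) _)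
  have h4 : ∀ b i, a2 (gen d (V2 V) b (0, Finsupp.single i v)) =
      (shift R (M d' V') ^ i) (a2 (gen d (V2 V) b (0, Finsupp.single 0 v))) := fun b i => by
    induction i with
    | zero => rfl
    | succ n ih =>
      rw [pow_succ', Module.End.mul_apply, ← ih]
      refine Eq.trans ?_ (LinearMap.congr_fun h2 _)
      refine Eq.trans ?_ (congrArg a2 (map_gen d (sh2 V) b (0, Finsupp.single n v))).symm
      refine congrArg (fun z => a2 (gen d (V2 V) b z)) ?_
      change _ = (shift k V 0, shift k V (Finsupp.single n v))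
      rw [map_zero, shift_single]
  have h5 : ∀ b i, a2 (gen d (V2 V) b (((V2 V).x ^ i) (0, Finsupp.single 0 v))) =
      ∑ l ∈ Finset.range i, Finsupp.single l (j V V' w (gen d V b ((V.x ^ (i - 1 - l)) v))) +
        (shift R (M d' V') ^ i) (a2 (gen d (V2 V) b (0, Finsupp.single 0 v))) := fun b i => by
    have e : ((V2 V).x ^ i) (0, Finsupp.single 0 v) =
        ∑ l ∈ Finset.range i, ((Finsupp.single l ((V.x ^ (i - 1 - l)) v), 0) : V2 V) +
          (0, Finsupp.single i v) := by
      rw [V2_pow]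
      refine Prod.ext ?_ ?_
      · simp [Prod.fst_sum]
      · simp [Prod.snd_sum]
    rw [e, map_add, map_add, map_sum, map_sum, h4]
    exact congrArg (· + _) (Finset.sum_congr rfl fun l _ => h3 b l _)
  rw [Bock_apply, LinearMap.zero_apply, Emk_eq_zero]
  refine ⟨-fun b => a2 (gen d (V2 V) b (0, Finsupp.single 0 v)), ?_⟩
  rw [map_neg]
  refine funext fun a => ?_
  have h6 := congrArg a2 (gen_rel d (V2 V) a (0, Finsupp.single 0 v))
  rw [map_zero, map_sum] at h6
  rw [Pi.neg_apply, Dop_apply, neg_eq_iff_add_eq_zero, ← Finset.sum_add_distrib]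
  refine Eq.trans (Finset.sum_congr rfl fun i _ => ?_) h6
  rw [map_sum, Finset.sum_comm, ← Finset.sum_add_distrib]
  refine Finset.sum_congr rfl fun b _ => ?_
  rw [map_smul, h5, smul_add, add_comm, Finset.smul_sum]
  exact congrArg (· + _) (Finset.sum_congr rfl fun l _ => (Finsupp.smul_single _ _ _).symm)

end
end Pool.Agent.P.MP_cf639b_al.Red
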