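import Pool.Agent.P.MP_cf639b_al.Red.Iface

/-! A point and a functional adapted to an ideal. -/

namespace Pool.Agent.P.MP_cf639b_al.Red

universe u
open Polynomial

variable {k : Type u} [Field k]

theorem t_CA : S_CA k := by
  intro _ 𝔞 f hf h
  let S : Submonoid k[X][X] :=
    { carrier := {s | ∃ p q : k[X], p ≠ 0 ∧ q ≠ 0 ∧ s = C p * q.map C}
      one_mem' := ⟨1, 1, one_ne_zero, one_ne_zero, by simp⟩
      mul_mem' := by
        rintro _ _ ⟨p, q, hp, hq, rfl⟩ ⟨p', q', hp', hq', rfl⟩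
        exact ⟨p * p', q * q', mul_ne_zero hp hp', mul_ne_zero hq hq', by
          rw [map_mul, Polynomial.map_mul, mul_mul_mul_comm]⟩ }
  obtain ⟨P, hP, aP, dP⟩ := 𝔞.exists_le_prime_disjoint S (Set.disjoint_right.2 (by
    rintro _ ⟨p, q, hp, hq, rfl⟩
    exact h p q hp hq))
  obtain ⟨m, ⟨Pm, hm⟩, fm⟩ : ∃ m ∈ {J : Ideal k[X][X] | P ≤ J ∧ J.IsMaximal},
      C f * f.map C ∉ m := by
    by_contra! e
    exact Set.disjoint_right.1 dP ⟨f, f, hf, hf, rfl⟩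
      (IsJacobsonRing.out inferInstance hP.isRadical ▸ Ideal.mem_sInf.2 fun {J} => e J)
  let _ := Ideal.Quotient.field m
  have := finite_of_finite_type_of_isJacobsonRing k (k[X][X] ⧸ m)
  have sj := (IsAlgClosed.algebraMap_bijective_of_isIntegral (k := k) (K := k[X][X] ⧸ m)).2
  obtain ⟨lam, h1⟩ := sj (Ideal.Quotient.mk m (C X))
  obtain ⟨mu, h2⟩ := sj (Ideal.Quotient.mk m X)
  replace h1 : C (X - C lam) ∈ m := map_sub C X (C lam) ▸ Ideal.Quotient.eq.1 h1.symm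
  replace h2 : X - C (C mu) ∈ m := Ideal.Quotient.eq.1 h2.symm
  have h3 : (X - C mu).map (C : k →+* k[X]) = X - C (C mu) := by simp
  have h4 : X - C (C mu) ∉ P := Set.disjoint_right.1 dP
    ⟨1, X - C mu, one_ne_zero, X_sub_C_ne_zero mu, by simp⟩
  have f1 : f.eval lam ≠ 0 := fun e => fm (m.mul_mem_right _
    (m.mem_of_dvd (map_dvd C (dvd_iff_isRoot.2 e)) h1))
  have f2 : f.eval mu ≠ 0 := fun e => fm (m.mul_mem_left _
    (m.mem_of_dvd (h3 ▸ Polynomial.map_dvd C (dvd_iff_isRoot.2 e)) h2))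
  refine ⟨lam, mu, ?_⟩
  generalize C (X - C lam) = x at *
  generalize X - C (C mu) = y at *
  obtain ⟨n, hn⟩ : ∃ n, y ^ 4 ∉ 𝔞 ⊔ .span {y ^ 5} ⊔ .span {x * y ^ 4} ⊔ .span {x ^ n} := by
    by_contra! e
    obtain ⟨⟨r, hr⟩, e'⟩ := ((Ideal.span {x}).mem_iInf_smul_pow_eq_bot_iff
      (Ideal.Quotient.mk (𝔞 ⊔ .span {y ^ 5} ⊔ .span {x * y ^ 4}) (y ^ 4))).1
      ((Submodule.mem_iInf _).2 fun n => by
        obtain ⟨c, h1, _, h2, hc⟩ := Submodule.mem_sup.1 (e n)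
        obtain ⟨β, rfl⟩ := Ideal.mem_span_singleton'.1 h2
        rw [← congrArg (Ideal.Quotient.mk _) hc, map_add, Ideal.Quotient.eq_zero_iff_mem.2 h1,
          zero_add, mul_comm β]
        exact Submodule.smul_mem_smul (Ideal.pow_mem_pow (Ideal.mem_span_singleton_self x) n)
          (Submodule.mem_top (x := Ideal.Quotient.mk _ β)))
    obtain ⟨_, a1, _, a2, a3⟩ := Submodule.mem_sup.1 (Ideal.Quotient.eq.1 e')
    obtain ⟨a, ha, _, a4, rfl⟩ := Submodule.mem_sup.1 a1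
    obtain ⟨c, rfl⟩ := Ideal.mem_span_singleton'.1 a2
    obtain ⟨c', rfl⟩ := Ideal.mem_span_singleton'.1 a4
    have a5 : y ^ 4 * (r - c' * y - c * x - 1) ∈ P := by
      convert aP ha using 1
      linear_combination -a3
    refine hm.ne_top ((Ideal.eq_top_iff_one _).2 ?_)
    simpa using m.sub_mem (m.sub_mem (m.sub_mem ((Ideal.span_singleton_le_iff_mem _).2 h1 hr)
      (m.mul_mem_left c' h2)) (m.mul_mem_left c h1))
      (Pm ((hP.mem_or_mem a5).resolve_left fun e => h4 (hP.mem_of_pow_mem _ e)))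
  obtain ⟨χ, c1, c2⟩ := Submodule.exists_dual_map_eq_bot_of_notMem
    ((Submodule.restrictScalars_mem k _ _).not.2 hn) inferInstance
  have c3 : ∀ p ∈ 𝔞 ⊔ .span {y ^ 5} ⊔ .span {x * y ^ 4} ⊔ .span {x ^ n},
      ((χ (y ^ 4))⁻¹ • χ) p = 0 := fun p hp => by
    rw [LinearMap.smul_apply, LinearMap.le_ker_iff_map.2 c2 hp, smul_zero]
  have c4 : ∀ z p : k[X][X], z * p ∈ Ideal.span {z} := fun z p =>
    Ideal.mul_mem_right _ _ (Ideal.mem_span_singleton_self z)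
  exact ⟨n, _, f1, f2,
    fun p hp => c3 p (Ideal.mem_sup_left (Ideal.mem_sup_left (Ideal.mem_sup_left hp))),
    fun p => c3 _ (Ideal.mem_sup_right (c4 _ p)),
    fun p => c3 _ (Ideal.mem_sup_left (Ideal.mem_sup_left (Ideal.mem_sup_right (c4 _ p)))),
    fun p => c3 _ (Ideal.mem_sup_left (Ideal.mem_sup_right (c4 _ p))), inv_mul_cancel₀ c1⟩

end Pool.Agent.P.MP_cf639b_al.Red
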