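import Pool.Agent.P.MP_cf639b_al.Red.Iface

/-! Conjugation of a tracked object by a unipotent radical map. -/

set_option linter.dupNamespace false
set_option linter.unusedVariables false

namespace Pool.Agent.P.MP_cf639b_al.Red

universe u

noncomputable section

variable {k : Type u} [Field k] {R : Type u} [Ring R] [Algebra k R]

namespace CONJ
variable {P : PD k R}

/-- the ring of pairs of endomorphisms -/
abbrev EN (P : PD k R) (V : P.ι → XV k) : Type u := ∀ e, Module.End R ((P.G e).obj V)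

theorem mul_mem (hA : P.Ax) {V : P.ι → XV k} (hV : P.Al V) {a b : EN P V}
    (ha : a ∈ P.Rad V V) (hb : b ∈ P.Rad V V) : a * b ∈ P.Rad V V :=
  hA.r1 hV hV hV a ha b hb

theorem pow_mem (hA : P.Ax) {V : P.ι → XV k} (hV : P.Al V) {a : EN P V}
    (ha : a ∈ P.Rad V V) (i : ℕ) : a ^ (i + 1) ∈ P.Rad V V := by
  induction i with
  | zero => rw [zero_add, pow_one]; exact ha
  | succ i ih => rw [pow_succ]; exact mul_mem hA hV ih ha

/-- the inverse of `1 + r` -/
theorem exists_inv (hA : P.Ax) {V : P.ι → XV k} (hV : P.Al V) {r : EN P V}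
    (hr : r ∈ P.Rad V V) : ∃ s : EN P V, s ∈ P.Rad V V ∧ (1 + r) * (1 + s) = 1 ∧
      (1 + s) * (1 + r) = 1 := by
  obtain ⟨n, hn⟩ := hA.nil
  have hr' : (-r : EN P V) ∈ P.Rad V V := neg_mem hr
  have h0 : (-r) ^ n = 0 := by
    have := hn V hV (List.replicate n (-r)) List.length_replicate fun a ha => by
      rw [List.eq_of_mem_replicate ha]; exact hr'
    rwa [List.prod_replicate] at this
  have h1 : (-r) ^ (n + 1) = 0 := by rw [pow_succ, h0, zero_mul]
  have e : (1 + ∑ i ∈ Finset.range n, (-r) ^ (i + 1) : EN P V) =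
      ∑ i ∈ Finset.range (n + 1), (-r) ^ i := by
    rw [Finset.sum_range_succ', pow_zero, add_comm]
  refine ⟨∑ i ∈ Finset.range n, (-r) ^ (i + 1),
    Submodule.sum_mem _ fun i _ => pow_mem hA hV hr' i, ?_, ?_⟩
  · have := mul_neg_geom_sum (-r) (n + 1)
    rwa [h1, sub_zero, sub_neg_eq_add, ← e] at this
  · have := geom_sum_mul_neg (-r) (n + 1)
    rwa [h1, sub_zero, sub_neg_eq_add, ← e] at this

/-- the conjugated matrices -/
theorem exists_conj (hA : P.Ax) {V : P.ι → XV k} (w : P.W V V) {r s : EN P V}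
    (hr : r ∈ P.Rad V V) (hs : s ∈ P.Rad V V) (h1 : (1 + r) * (1 + s) = 1)
    (h2 : (1 + s) * (1 + r) = 1) {u : P.W V V} (hu : P.br V V r = P.ms V V u) :
    ∃ w1, P.Chain V w V w1 (1 + r : EN P V) ∧ P.Chain V w1 V w (1 + s : EN P V) ∧
      ∀ a, P.Min a → w1 a = w a - u a := by
  obtain ⟨z1, hz1, e1⟩ := hA.rad_ms hr w
  obtain ⟨z2, hz2, e2⟩ := hA.ms_rad hs (w + z1 - u)
  have i1 : ∀ e z, (1 + r : EN P V) e ((1 + s : EN P V) e z) = z := fun e z =>
    LinearMap.congr_fun (congrFun h1 e) z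
  have i2 : ∀ e z, (1 + s : EN P V) e ((1 + r : EN P V) e z) = z := fun e z =>
    LinearMap.congr_fun (congrFun h2 e) z
  have a1 : ∀ y, (1 + r : EN P V) false (P.D V w y) =
      P.d V ((1 + r : EN P V) true y) + P.ms V V (w + z1 - u) y := fun y => by
    rw [map_sub, map_add, ← hu, ← e1, PD.br_apply]
    simp only [PD.D, Pi.add_apply, Pi.one_apply, LinearMap.add_apply, Module.End.one_apply,
      map_add, LinearMap.sub_apply, LinearMap.comp_apply]
    abel
  have a2 : ∀ y, P.D V (w + z1 - u + z2) y =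
      (1 + r : EN P V) false (P.D V w ((1 + s : EN P V) true y)) := fun y => by
    rw [a1, i1, PD.D, map_add (P.ms V V) _ z2, ← e2]
    simp only [Pi.add_apply, Pi.one_apply, LinearMap.add_apply, Module.End.one_apply,
      LinearMap.comp_apply]
    rw [map_add (P.ms V V (w + z1 - u))]
  refine ⟨w + z1 - u + z2, LinearMap.ext fun y => ?_, LinearMap.ext fun y => ?_, fun a ha => ?_⟩
  · rw [LinearMap.comp_apply, LinearMap.comp_apply, a2, i2]
  · rw [LinearMap.comp_apply, LinearMap.comp_apply, a2, i2]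
  · rw [Pi.add_apply, Pi.sub_apply, Pi.add_apply, hz1 a ha, hz2 a ha, add_zero, add_zero]

/-- a family giving a chain map commutes with the matrices -/
theorem comm_of_chain (hA : P.Ax) {V : P.ι → XV k} {w : P.W V V} (g : FH V V)
    (h : P.Chain V w V w (gm P.G g)) (a : P.A) : w a ∘ₗ (g _).1 = (g _).1 ∘ₗ w a := by
  unfold PD.Chain PD.D at h
  rw [LinearMap.add_comp, LinearMap.comp_add, gm_apply, gm_apply, hA.dnat, PD.ms_left,
    PD.ms_right] at h
  exact congrFun (hA.minj V V (add_left_cancel h)) a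

theorem ring_id {A : Type u} [Ring A] (r s t q : A) :
    (1 + r) * ((t + q) * (1 + s)) =
      t + ((q + t * s + q * s) + r * t + r * (q + t * s + q * s)) := by
  noncomm_ring

theorem comm_id {A : Type u} [Ring A] {r s t : A} (h1 : (1 + r) * (1 + s) = 1)
    (h : r * t = t * r) : (1 + r) * (t * (1 + s)) = t := by
  have : (1 + r) * t = t * (1 + r) := by rw [add_mul, mul_add, h, one_mul, mul_one]
  rw [← mul_assoc, this, mul_assoc, h1, mul_one]

theorem comm_id' {A : Type u} [Ring A] {r s t : A} (h1 : (1 + r) * (1 + s) = 1)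
    (h2 : (1 + s) * (1 + r) = 1) (h : r * t = t * r) : (1 + s) * t = t * (1 + s) := by
  conv_lhs => rw [← comm_id h1 h, ← mul_assoc, h2, one_mul]
end CONJ

open CONJ in
theorem t_CONJ : S_CONJ k R := by
  intro P hA F _ _ E _ X V w ρ tr r hr hc u hu
  have hV := tr.al hA
  obtain ⟨s, hs, h1, h2⟩ := exists_inv hA hV (r := r) hr
  obtain ⟨w1, c1, c2, hw⟩ := exists_conj hA w (r := r) hr hs h1 h2 hu
  refine ⟨w1, ⟨tr.ok, fun a c => ?_, ?_, fun e => ?_, tr.fl⟩, hw⟩
  · have c0 := hA.chain_gm (scF V c) fun a => tr.wF a c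
    have c3 := c1.comp (c0.comp c2)
    have e : HH.comp (G := P.G) (1 + r : EN P _) (HH.comp (gm P.G (scF V c)) (1 + s : EN P _)) =
        gm P.G (scF V c) :=
      comm_id (A := EN P _) (t := gm P.G (scF V c)) h1 (hc c)
    rw [e] at c3
    exact comm_of_chain hA (scF V c) c3 a
  · obtain ⟨φ, hφ, hd⟩ := tr.iso
    let ψ : ∀ e, (P.G e).obj (fun v => (V v).V) ≃ₗ[R] (P.G e).obj (fun v => (V v).V) := fun e =>
      LinearEquiv.ofLinearMap ((1 + s : EN P _) e) ((1 + r : EN P _) e)
        (congrFun h2 e) (congrFun h1 e)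
    refine ⟨fun e => ψ e ≪≫ₗ φ e, fun e c z => ?_, fun z => ?_⟩
    · have e1 := LinearMap.congr_fun
        (congrFun (comm_id' (A := EN P _) (t := gm P.G (scF V c)) h1 h2 (hc c)) e) z
      exact (congrArg (φ e) e1).trans (hφ e c _)
    · exact (congrArg (φ false) (LinearMap.congr_fun c2 z).symm).trans (hd _)
  · obtain ⟨g, hg, q, hq, c0⟩ := tr.ch e
    have c3 := c1.comp (c0.comp c2)
    have m1 : (q + HH.comp (gm P.G g) s + HH.comp q s) ∈ P.Rad _ _ :=
      add_mem (add_mem hq (PD.Rad_left g hs)) (hA.r1 hV hV hV q hq s hs)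
    refine ⟨g, hg, _, add_mem (add_mem m1 (PD.Rad_right g hr)) (hA.r1 hV hV hV r hr _ m1), ?_⟩
    have e := ring_id (A := EN P _) r s (gm P.G g) q
    exact e ▸ c3

end
end Pool.Agent.P.MP_cf639b_al.Red
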