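import Pool.Agent.P.MP_cf639b_al.Red.Iface

/-! Decomposition of the regular module into indecomposables, sorted by isomorphism type. -/

set_option linter.dupNamespace false

namespace Pool.Agent.P.MP_cf639b_al.Red

universe u

noncomputable section

variable {k : Type u} [Field k] {R : Type u} [Ring R] [Algebra k R]

namespace DEC1

/-- nonzero, finite dimensional and indecomposable -/
def Ind (Q : Md k R) : Prop :=
  Q.fd ∧ Nontrivial Q ∧ ∀ A B : Submodule R Q, IsCompl A B → A = ⊥ ∨ B = ⊥

/-- a decomposition into indecomposables -/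
def Dec (M : Md k R) : Prop :=
  ∃ (J : Type) (_ : Fintype J) (Q : J → Md k R) (i : ∀ j, Q j →ₗ[R] M) (p : ∀ j, M →ₗ[R] Q j),
    (∀ j, Ind (Q j)) ∧ (∀ j x, p j (i j x) = x) ∧ (∀ j j', j ≠ j' → ∀ x, p j' (i j x) = 0) ∧
      ∀ x, ∑ j, i j (p j x) = x

theorem lt (M : Md k R) (h : M.fd) (A B : Submodule R M) (c : IsCompl A B) (hB : B ≠ ⊥) :
    (M.sub A).fd ∧ Module.finrank k (M.sub A) < Module.finrank k M := by
  have hA : A.restrictScalars k ≠ ⊤ := fun e => by
    rw [Submodule.restrictScalars_eq_top_iff] at e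
    exact hB (eq_bot_of_top_isCompl (e ▸ c))
  exact ⟨inferInstanceAs (Module.Finite k (A.restrictScalars k)), Submodule.finrank_lt hA⟩

theorem dec (n : ℕ) : ∀ M : Md k R, M.fd → Module.finrank k M < n → Dec M := by
  induction n with
  | zero => exact fun _ _ h => absurd h (Nat.not_lt_zero _)
  | succ n ih =>
    intro M hM hn
    rcases subsingleton_or_nontrivial M with h0 | h0
    · exact ⟨Empty, inferInstance, fun j => j.elim, fun j => j.elim, fun j => j.elim,
        fun j => j.elim, fun j => j.elim, fun j => j.elim, fun x => Subsingleton.elim _ _⟩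
    by_cases hI : Ind M
    · exact ⟨Unit, inferInstance, fun _ => M, fun _ => LinearMap.id, fun _ => LinearMap.id,
        fun _ => hI, fun _ _ => rfl, fun _ _ h => absurd rfl h, fun x => by simp⟩
    obtain ⟨A, B, c, hA, hB⟩ : ∃ A B : Submodule R M, IsCompl A B ∧ A ≠ ⊥ ∧ B ≠ ⊥ := by
      by_contra h
      refine hI ⟨hM, h0, fun A B c => ?_⟩
      by_contra h'
      exact h ⟨A, B, c, not_or.1 h'⟩
    obtain ⟨a1, a2⟩ := lt M hM A B c hB
    obtain ⟨b1, b2⟩ := lt M hM B A c.symm hA
    obtain ⟨J, _, Q, i, p, h1, h2, h3, h4⟩ := ih _ a1 (by omega)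
    obtain ⟨J', _, Q', i', p', h1', h2', h3', h4'⟩ := ih _ b1 (by omega)
    refine ⟨J ⊕ J', inferInstance, Sum.elim Q Q',
      fun j => match j with
        | .inl j => A.subtype ∘ₗ i j
        | .inr j => B.subtype ∘ₗ i' j,
      fun j => match j with
        | .inl j => p j ∘ₗ A.projectionOnto B c
        | .inr j => p' j ∘ₗ B.projectionOnto A c.symm, ?_, ?_, ?_, fun x => ?_⟩
    · rintro (j | j)
      exacts [h1 j, h1' j]
    · rintro (j | j) x
      · exact (congrArg (p j) (Submodule.projectionOnto_apply_left c _)).trans (h2 j x)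
      · exact (congrArg (p' j) (Submodule.projectionOnto_apply_left c.symm _)).trans (h2' j x)
    · rintro (j | j) (j' | j') h x
      · exact (congrArg (p j') (Submodule.projectionOnto_apply_left c _)).trans
          (h3 j j' (fun e => h (e ▸ rfl)) x)
      · exact (congrArg (p' j') (Submodule.projectionOnto_apply_right c.symm _)).trans
          (map_zero _)
      · exact (congrArg (p j') (Submodule.projectionOnto_apply_right c _)).trans
          (map_zero _)
      · exact (congrArg (p' j') (Submodule.projectionOnto_apply_left c.symm _)).trans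
          (h3' j j' (fun e => h (e ▸ rfl)) x)
    · rw [Fintype.sum_sum_type]
      have e1 := congrArg A.subtype (h4 (A.projectionOnto B c x))
      have e2 := congrArg B.subtype (h4' (B.projectionOnto A c.symm x))
      rw [map_sum] at e1 e2
      exact (congrArg₂ (· + ·) e1 e2).trans
        (Submodule.projection_add_projection_eq_self c x)

theorem fit {Q : Md k R} (h : Ind Q) (φ : Module.End R Q) :
    IsNilpotent φ ∨ Function.Bijective φ := by
  have := h.1
  have : IsArtinian R Q := isArtinian_of_tower k inferInstance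
  have : IsNoetherian R Q := isNoetherian_of_tower k inferInstance
  obtain ⟨n, c, hn⟩ := (φ.eventually_isCompl_ker_pow_range_pow.and
    (Filter.eventually_gt_atTop 0)).exists
  rcases h.2.2 _ _ c with e | e
  · exact Or.inr (IsArtinian.bijective_of_injective_endomorphism φ
      (Module.End.injective_of_iterate_injective hn.ne' (LinearMap.ker_eq_bot.1 e)))
  · exact Or.inl ⟨n, LinearMap.range_eq_bot.1 e⟩

theorem loc [IsAlgClosed k] {Q : Md k R} (h : Ind Q) (φ : Module.End R Q) :
    ∃ a : k, IsNilpotent (φ - a • 1) := by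
  have := h.1
  have := h.2.1
  obtain ⟨a, ha⟩ := Module.End.exists_eigenvalue (φ.restrictScalars k : Module.End k Q)
  obtain ⟨v, hv⟩ := ha.exists_hasEigenvector
  refine ⟨a, (fit h _).resolve_right fun hb => hv.2 (hb.1 ?_)⟩
  rw [map_zero]
  exact sub_eq_zero.2 hv.apply_eq_smul

theorem nil {Q Q' : Md k R} (h : Ind Q) (h' : Ind Q') (φ : Q →ₗ[R] Q') (ψ : Q' →ₗ[R] Q) :
    IsNilpotent (ψ ∘ₗ φ : Module.End R Q) ∨ Nonempty (Q ≃ₗ[R] Q') := by
  rcases fit h (ψ ∘ₗ φ) with e | e
  · exact Or.inl e
  rcases fit h' (φ ∘ₗ ψ) with ⟨n, hn⟩ | e'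
  · have key : ∀ (m : ℕ) y, ((ψ ∘ₗ φ : Module.End R Q) ^ m) (ψ y) =
        ψ (((φ ∘ₗ ψ : Module.End R Q') ^ m) y) := fun m => by
      induction m with
      | zero => exact fun _ => rfl
      | succ m ih => exact fun y => by rw [pow_succ, pow_succ]; exact ih _
    refine Or.inl ⟨n + 1, LinearMap.ext fun x => ?_⟩
    rw [pow_succ]
    refine (key n _).trans ?_
    rw [hn]
    exact map_zero _
  · exact Or.inr ⟨LinearEquiv.ofBijective φ
      ⟨Function.Injective.of_comp (f := ψ) e.1, Function.Surjective.of_comp (g := ψ) e'.2⟩⟩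

end DEC1

open DEC1 in
theorem t_DEC1 : S_DEC1 k R := by
  intro _ _
  classical
  obtain ⟨J, _, Q, i, p, h1, h2, h3, h4⟩ :=
    dec _ (⟨R⟩ : Md k R) (inferInstanceAs (Module.Finite k R)) (Nat.lt_succ_self _)
  let s : Setoid J := ⟨fun j j' => Nonempty (Q j ≃ₗ[R] Q j'), fun _ => ⟨LinearEquiv.refl _ _⟩,
    fun ⟨e⟩ => ⟨e.symm⟩, fun ⟨e⟩ ⟨e'⟩ => ⟨e.trans e'⟩⟩
  have he : ∀ (c : Quotient s) (b : {j // Quotient.mk s j = c}), Nonempty (Q c.out ≃ₗ[R] Q b.1) :=
    fun c b => Quotient.exact (c.out_eq.trans b.2.symm)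
  let e := fun c b => (he c b).some
  refine ⟨{
    C := Quotient s
    Q := fun c => Q c.out
    fd := fun c => (h1 _).1
    B := fun c => {j // Quotient.mk s j = c}
    ne := fun c => ⟨⟨_, c.out_eq⟩⟩
    i := fun c b => i b.1 ∘ₗ (e c b).toLinearMap
    p := fun c b => (e c b).symm.toLinearMap ∘ₗ p b.1
    pi_self := fun c b => LinearMap.ext fun x =>
      (congrArg (e c b).symm (h2 _ _)).trans ((e c b).symm_apply_apply x)
    pi_ne := fun c b c' b' h => LinearMap.ext fun x =>
      (congrArg (e c' b').symm (h3 _ _ (fun q => h ?_) _)).trans (map_zero _)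
    sum := LinearMap.ext fun x => ?_
    nt := fun c => (h1 _).2.1
    loc := fun c => loc (h1 _)
    nil := fun c c' h φ ψ => (nil (h1 _) (h1 _) φ ψ).resolve_right fun q =>
      h (c.out_eq.symm.trans ((Quotient.sound q).trans c'.out_eq)) }⟩
  · exact (Equiv.sigmaFiberEquiv (Quotient.mk s)).injective q
  · simp only [LinearMap.sum_apply]
    refine Eq.trans ?_ (h4 x)
    rw [← Finset.sum_fiberwise_of_maps_to (s := Finset.univ) (t := Finset.univ)
      (g := Quotient.mk s) fun _ _ => Finset.mem_univ _]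
    refine Finset.sum_congr rfl fun c _ => ?_
    rw [Finset.sum_subtype (p := fun j => Quotient.mk s j = c) _ (by simp)]
    exact Finset.sum_congr rfl fun b _ => congrArg (i b.1) ((e c b).apply_symm_apply _)

end

end Pool.Agent.P.MP_cf639b_al.Red
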