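import Pool.Agent.P.MP_cf639b_al.Red.Iface

/-! The radical filtration of a decomposition into indecomposable projectives. -/

set_option linter.dupNamespace false

namespace Pool.Agent.P.MP_cf639b_al.Red

universe u

variable {k : Type u} [Field k] {R : Type u} [Ring R] [Algebra k R]

namespace DEC2

variable (D : D1 k R)

/-- the endomorphism ring of the sum -/
abbrev Am : Type u := Module.End R (∀ c, D.Q c)

open Classical in
/-- the inclusion of a summand -/
noncomputable def inc (c : D.C) : D.Q c →ₗ[R] (∀ c, D.Q c) := LinearMap.single R (fun c => D.Q c) c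
/-- the projection to a summand -/
def prj (c : D.C) : (∀ c, D.Q c) →ₗ[R] D.Q c := LinearMap.proj c

theorem prj_inc (c : D.C) (x : D.Q c) : prj D c (inc D c x) = x := by simp [prj, inc]

/-- a map between summands as an endomorphism of the sum -/
noncomputable def emb (c c' : D.C) : (D.Q c →ₗ[R] D.Q c') →ₗ[k] Am D where
  toFun μ := inc D c' ∘ₗ μ ∘ₗ prj D c
  map_add' μ ν := LinearMap.ext fun x => by simp
  map_smul' a μ := LinearMap.ext fun x => by simp

theorem emb_apply (c c' : D.C) (μ : D.Q c →ₗ[R] D.Q c') (x) :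
    emb D c c' μ x = inc D c' (μ (prj D c x)) := rfl

theorem emb_comp (c c' c'' : D.C) (φ : D.Q c' →ₗ[R] D.Q c'') (ψ : D.Q c →ₗ[R] D.Q c') :
    emb D c c'' (φ ∘ₗ ψ) = emb D c' c'' φ * emb D c c' ψ := LinearMap.ext fun x => by
  rw [Module.End.mul_apply, emb_apply, emb_apply, emb_apply, prj_inc]; rfl

theorem emb_eq_zero {c c' : D.C} {μ : D.Q c →ₗ[R] D.Q c'} (h : emb D c c' μ = 0) : μ = 0 :=
  LinearMap.ext fun x => by
    have := congrArg (prj D c') (LinearMap.congr_fun h (inc D c x))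
    rwa [emb_apply, prj_inc, prj_inc, LinearMap.zero_apply, map_zero] at this

/-- the radical -/
abbrev Jac : Ideal (Am D) := Ideal.jacobson ⊥

theorem mem_Jac {c c' : D.C} {μ : D.Q c →ₗ[R] D.Q c'}
    (h : ∀ ν : D.Q c' →ₗ[R] D.Q c, IsNilpotent (ν ∘ₗ μ : Module.End R (D.Q c))) :
    emb D c c' μ ∈ Jac D := by
  refine Ideal.mem_jacobson_iff.2 fun y => ?_
  obtain ⟨n, hn⟩ := h (prj D c ∘ₗ y ∘ₗ inc D c')
  have e : ∀ (m : ℕ) x, prj D c (((y * emb D c c' μ) ^ m) x) =
      (((prj D c ∘ₗ y ∘ₗ inc D c') ∘ₗ μ : Module.End R (D.Q c)) ^ m) (prj D c x) := by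
    intro m
    induction m with
    | zero => intro x; rfl
    | succ m ih => intro x; rw [pow_succ, pow_succ, Module.End.mul_apply, ih]; rfl
  have h2 : IsNilpotent (y * emb D c c' μ) := ⟨n + 1, LinearMap.ext fun x => by
    rw [pow_succ', Module.End.mul_apply, Module.End.mul_apply, emb_apply, e, hn]; simp⟩
  obtain ⟨z, hz⟩ := h2.isUnit_add_one.exists_left_inv
  exact ⟨z, by rw [mul_assoc, ← mul_add_one, hz, sub_self]; exact zero_mem _⟩

theorem nil_mul (c : D.C) {N : Module.End R (D.Q c)} (h : IsNilpotent N)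
    (ν : Module.End R (D.Q c)) : IsNilpotent (ν * N) := by
  obtain ⟨b, hb⟩ := D.loc c (ν * N)
  by_cases h0 : b = 0
  · simpa [h0] using hb
  have := D.nt c
  have u1 : IsUnit (b • (1 : Module.End R (D.Q c))) :=
    ⟨⟨b • 1, b⁻¹ • 1, by simp [smul_smul, h0], by simp [smul_smul, h0]⟩, rfl⟩
  have u2 := hb.isUnit_add_right_of_commute u1 ((Commute.one_right _).smul_right b)
  rw [sub_add_cancel] at u2
  obtain ⟨z, hz⟩ := u2.exists_left_inv
  obtain ⟨n, hn⟩ := h
  have e : ∀ m : ℕ, (z * ν) ^ m * N ^ m = 1 := fun m => by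
    induction m with
    | zero => simp
    | succ m ih => rw [pow_succ, pow_succ', mul_assoc, ← mul_assoc (z * ν), mul_assoc z, hz,
        one_mul, ih]
  have e1 := e n
  rw [hn, mul_zero] at e1
  obtain ⟨x, hx⟩ := exists_ne (0 : D.Q c)
  exact absurd (LinearMap.congr_fun e1 x).symm hx

theorem jac_nil : ∃ n, Jac D ^ n = ⊥ := by
  have := D.fd
  have : Module.Finite k (Am D) := Module.Finite.of_injective
    (LinearMap.restrictScalarsₗ k R (∀ c, D.Q c) (∀ c, D.Q c) k) (LinearMap.restrictScalars_injective k)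
  have := IsArtinianRing.of_finite k (Am D)
  exact IsArtinianRing.isNilpotent_jacobson_bot

/-- the filtration -/
noncomputable def JJ (n : ℕ) (c c' : D.C) : Submodule k (D.Q c →ₗ[R] D.Q c') :=
  ((Jac D ^ n).restrictScalars k).comap (emb D c c')

theorem mem_J {n : ℕ} {c c' : D.C} {μ : D.Q c →ₗ[R] D.Q c'} :
    μ ∈ JJ D n c c' ↔ emb D c c' μ ∈ Jac D ^ n := Iff.rfl

theorem mem_J1 {c c' : D.C} {μ : D.Q c →ₗ[R] D.Q c'} :
    μ ∈ JJ D 1 c c' ↔ emb D c c' μ ∈ Jac D := by rw [mem_J, Submodule.pow_one]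

end DEC2

open DEC2 in
theorem t_DEC2 : S_DEC2 k R := fun D => by
  obtain ⟨n0, h0⟩ := jac_nil D
  refine ⟨⟨JJ D, fun c c' => eq_top_iff.2 fun μ _ => ?_,
    fun n c c' μ h => Ideal.pow_le_pow_right n.le_succ h, n0,
    fun c c' => eq_bot_iff.2 fun μ h => emb_eq_zero D ?_, fun n c c' c'' φ h1 ψ h2 => ?_,
    fun n c c' c'' φ h1 ψ h2 => ?_,
    fun c c' h => eq_top_iff.2 fun μ _ => (mem_J1 D).2 (mem_Jac D (D.nil c c' h μ)),
    fun c φ => (D.loc c φ).imp fun a h => (mem_J1 D).2 (mem_Jac D (nil_mul D c h)),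
    fun c a h => ?_⟩⟩
  · rw [mem_J, Submodule.pow_zero, Ideal.one_eq_top]; trivial
  · rwa [mem_J, h0] at h
  · rw [mem_J, emb_comp, Ideal.IsTwoSided.pow_succ]
    exact Ideal.mul_mem_mul ((mem_J1 D).1 h1) h2
  · rw [mem_J, emb_comp, Submodule.pow_succ]
    exact Ideal.mul_mem_mul h1 ((mem_J1 D).1 h2)
  · have h1 := Ideal.pow_mem_pow ((mem_J1 D).1 h) n0
    have e : ∀ m : ℕ, emb D c c (a • LinearMap.id) ^ (m + 1) =
        emb D c c (a ^ (m + 1) • LinearMap.id) := fun m => by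
      induction m with
      | zero => simp
      | succ m ih => rw [pow_succ, ih, ← emb_comp, LinearMap.smul_comp, LinearMap.id_comp, smul_smul,
          ← pow_succ]
    rw [h0, Ideal.mem_bot] at h1
    have h2 := emb_eq_zero D ((e n0).symm.trans (by rw [pow_succ, h1, zero_mul]))
    have := D.nt c
    obtain ⟨x, hx⟩ := exists_ne (0 : D.Q c)
    have h3 : a ^ (n0 + 1) • x = 0 := LinearMap.congr_fun h2 x
    exact pow_eq_zero_iff (Nat.succ_ne_zero _) |>.1 ((smul_eq_zero.1 h3).resolve_right hx)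

end Pool.Agent.P.MP_cf639b_al.Red
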