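import Pool.Agent.P.MP_cf639b_al.Red.Iface

set_option linter.dupNamespace false

namespace Pool.Agent.P.MP_cf639b_al.Red

universe u
open TensorProduct Polynomial

noncomputable section

variable {k : Type u} [Field k] {R : Type u} [Ring R] [Algebra k R]

namespace DECO

variable {P : PD k R} (hA : P.Ax)

/-- the map on cokernels given by a family -/
def hm {V V' : P.ι → XV k} (g : FH V V') : P.H V 0 →ₗ[R] P.H V' 0 :=
  PD.Hm (hA.chain_gm (w := 0) (w' := 0) g fun _ =>
    (LinearMap.zero_comp _).trans (LinearMap.comp_zero _).symm)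

theorem hm_comp {V V' V'' : P.ι → XV k} (g : FH V' V'') (f : FH V V') (z : P.H V 0) :
    hm hA g (hm hA f z) = hm hA (FH.comp g f) z := by
  obtain ⟨z, rfl⟩ := Submodule.Quotient.mk_surjective _ z
  exact congrArg Submodule.Quotient.mk (LinearMap.congr_fun ((P.G false).map_comp g f) z).symm

theorem hm_id {V : P.ι → XV k} (z : P.H V 0) : hm hA (FH.id V) z = z := by
  obtain ⟨z, rfl⟩ := Submodule.Quotient.mk_surjective _ z
  exact congrArg Submodule.Quotient.mk (LinearMap.congr_fun ((P.G false).map_id V) z)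

theorem hm_sum {V V' : P.ι → XV k} {ι : Type} (s : Finset ι) (g : ι → FH V V') (z : P.H V 0) :
    hm hA (∑ i ∈ s, g i) z = ∑ i ∈ s, hm hA (g i) z := by
  obtain ⟨z, rfl⟩ := Submodule.Quotient.mk_surjective _ z
  exact (congrArg (LinearMap.range (P.D V' 0)).mkQ ((LinearMap.congr_fun
    (map_sum (P.G false).map g s) z).trans (LinearMap.sum_apply _ _ _))).trans (map_sum _ _ _)

variable {ι : Type} (V : ι → XV k)

theorem pi_self (v : ι) : FH.comp (toAt (XH.id (V v))) (fromAt (XH.id (V v))) = FH.id _ :=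
  funext fun w => by
    by_cases h : w = v
    · subst h
      rw [FH.comp, fromAt_self]
      rfl
    · have := at_subsingleton h (V v)
      exact Subsingleton.elim _ _

theorem pi_ne {v w : ι} (h : v ≠ w) :
    FH.comp (toAt (XH.id (V w))) (fromAt (XH.id (V v))) = ∑ _i ∈ (∅ : Finset Unit), 0 :=
  funext fun u => by
    by_cases h1 : u = v
    · have := at_subsingleton (h1.trans_ne h) (V w)
      exact Subsingleton.elim _ _
    · have := at_subsingleton h1 (V v)
      exact Subsingleton.elim _ _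

theorem ip [Fintype ι] : ∑ v, FH.comp (fromAt (XH.id (V v))) (toAt (XH.id (V v))) = FH.id V :=
  funext fun w => by
    rw [Finset.sum_apply, Finset.sum_eq_single w (fun v _ h => by
      rw [FH.comp, fromAt_ne h.symm]; exact Subtype.ext (LinearMap.zero_comp _)) (by simp),
      FH.comp, fromAt_self]
    rfl

variable {V} in
theorem in_nat (g : FH V V) (v : ι) :
    FH.comp (fromAt (XH.id (V v))) (atM v (g v)) = FH.comp g (fromAt (XH.id (V v))) :=
  funext fun w => by
    by_cases h : w = v
    · subst h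
      rw [FH.comp, FH.comp, fromAt_self]
      rfl
    · have := at_subsingleton h (V v)
      exact Subsingleton.elim _ _

variable {V} in
theorem pr_nat (g : FH V V) (v : ι) :
    FH.comp (toAt (XH.id (V v))) g = FH.comp (atM v (g v)) (toAt (XH.id (V v))) :=
  FH.ext fun _ _ => funext fun ⟨h⟩ => by subst h; rfl

end DECO

open DECO in
theorem t_DECO : S_DECO k R := by
  intro P hA h0 d hd F _ _ E _ X V w ρ hT N ε hε sε kε
  obtain rfl : w = 0 := funext isEmptyElim
  choose ψ hψ using hd
  replace hψ : ∀ v W W' g z, ψ v W' ((MN (d v)).map g z) = hm hA (atM v g) (ψ v W z) :=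
    fun v W W' g => hψ v W W' g _
  obtain ⟨φ, φ1, φ2⟩ := hT.iso
  let q : P.H (fun v => (V v).V) 0 →ₗ[R] N.X := Submodule.liftQ _ (ε ∘ₗ (φ false).toLinearMap) (by
    rintro _ ⟨z, rfl⟩
    exact (congrArg ε (φ2 z)).trans (kε.ge ⟨_, rfl⟩))
  let e := LinearEquiv.ofBijective q ⟨(injective_iff_map_eq_zero _).2 fun z hz => by
      obtain ⟨z, rfl⟩ := Submodule.Quotient.mk_surjective _ z
      obtain ⟨t, ht⟩ := kε.le hz
      obtain ⟨t, rfl⟩ := (φ true).surjective t
      exact (Submodule.Quotient.mk_eq_zero _).2 ⟨t, (φ false).injective ((φ2 t).trans ht)⟩,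
    fun t => by
      obtain ⟨t, rfl⟩ := sε t
      obtain ⟨t, rfl⟩ := (φ false).surjective t
      exact ⟨Submodule.Quotient.mk t, rfl⟩⟩
  have he : ∀ c z, e (hm hA (scF V c) z) = N.act c (e z) := fun c z => by
    obtain ⟨z, rfl⟩ := Submodule.Quotient.mk_surjective _ z
    exact (congrArg ε (φ1 false c z)).trans (hε c _)
  refine ⟨fun v => e.toLinearMap ∘ₗ hm hA (fromAt (XH.id _)) ∘ₗ (ψ v _).toLinearMap,
    fun v => (ψ v _).symm.toLinearMap ∘ₗ hm hA (toAt (XH.id _)) ∘ₗ e.symm.toLinearMap,
    fun v c z => ?_, fun v c z => ?_, fun v => LinearMap.ext fun z => ?_,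
    fun v w h => LinearMap.ext fun z => ?_, LinearMap.ext fun z => ?_⟩
  · change e (hm hA _ (ψ v _ ((MN (d v)).map ((V v).sc c) z))) = N.act c (e (hm hA _ (ψ v _ z)))
    rw [hψ, ← he, hm_comp, hm_comp]
    exact congrArg (fun g => e (hm hA g _)) (in_nat (scF V c) v)
  · obtain ⟨z, rfl⟩ := e.surjective z
    refine (ψ v _).injective ?_
    change ψ v _ ((ψ v _).symm (hm hA _ (e.symm (N.act c (e z))))) =
      ψ v _ ((MN (d v)).map ((V v).sc c) ((ψ v _).symm (hm hA _ (e.symm (e z)))))
    rw [hψ, ← he, e.symm_apply_apply, e.symm_apply_apply, LinearEquiv.apply_symm_apply,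
      LinearEquiv.apply_symm_apply, hm_comp, hm_comp]
    exact congrArg (fun g => hm hA g z) (pr_nat (scF V c) v)
  · change (ψ v _).symm (hm hA _ (e.symm (e (hm hA _ (ψ v _ z))))) = z
    rw [e.symm_apply_apply, hm_comp, pi_self fun v => (V v).V, hm_id, LinearEquiv.symm_apply_apply]
  · change (ψ w _).symm (hm hA _ (e.symm (e (hm hA _ (ψ v _ z))))) = 0
    rw [e.symm_apply_apply, hm_comp, pi_ne (fun v => (V v).V) h, hm_sum, Finset.sum_empty, map_zero]
  · rw [LinearMap.sum_apply]
    refine Eq.trans (Finset.sum_congr rfl fun v _ => congrArg e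
      ((congrArg _ ((ψ v _).apply_symm_apply _)).trans (hm_comp hA _ _ _))) ?_
    rw [← map_sum, ← hm_sum, ip, hm_id]
    exact e.apply_symm_apply z

end
end Pool.Agent.P.MP_cf639b_al.Red
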