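import Pool.Agent.P.MP_cf639b_al.Red.Iface

/-! The case distinction at an arrow. -/

set_option linter.dupNamespace false

namespace Pool.Agent.P.MP_cf639b_al.Red

universe u
open TensorProduct Polynomial

noncomputable section

variable {k : Type u} [Field k] {R : Type u} [Ring R] [Algebra k R]

namespace DICH

variable {P : PD k R} {s t : P.ι} {V V' V'' : P.ι → XV k}

theorem br_left (hA : P.Ax) (ρ : NR P.G s t) (g : FH V' V'') {w : V s →ₗ[k] V' t} {u : P.W V V'}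
    (h : P.br V V' (ρ.app V V' w) = P.ms V V' u) :
    P.br V V'' (ρ.app V V'' ((g t).1 ∘ₗ w)) = P.ms V V'' fun a => (g _).1 ∘ₗ u a := by
  rw [← PD.ms_left, ← h, PD.br_apply, PD.br_apply, ρ.natl, ρ.natl, LinearMap.comp_sub,
    ← LinearMap.comp_assoc, hA.dnat, LinearMap.comp_assoc, LinearMap.comp_assoc]

theorem br_right (hA : P.Ax) (ρ : NR P.G s t) (g : FH V V') {w : V' s →ₗ[k] V'' t}
    {u : P.W V' V''} (h : P.br V' V'' (ρ.app V' V'' w) = P.ms V' V'' u) :
    P.br V V'' (ρ.app V V'' (w ∘ₗ (g s).1)) = P.ms V V'' fun a => u a ∘ₗ (g _).1 := by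
  rw [← PD.ms_right, ← h, PD.br_apply, PD.br_apply, ρ.natr, ρ.natr, LinearMap.sub_comp,
    LinearMap.comp_assoc _ _ (ρ.app V' V'' w false), ← hA.dnat, LinearMap.comp_assoc,
    LinearMap.comp_assoc]

/-- the projection to one vertex -/
def idem (V : P.ι → XV k) (v : P.ι) : FH V V :=
  FH.comp (fromAt (XH.id (V v))) (toAt (XH.id (V v)))

theorem idem_self (V : P.ι → XV k) (v : P.ι) : (idem V v v).1 = LinearMap.id := by
  rw [idem, FH.comp_val, fromAt_self, toAt_self]; rfl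

theorem idem_ne (V : P.ι → XV k) {v v' : P.ι} (h : v' ≠ v) : (idem V v v').1 = 0 := by
  rw [idem, FH.comp_val, fromAt_ne h]; rfl

theorem off (hA : P.Ax) (ρ : NR P.G s t) {a : P.A} (ha : P.s a ≠ s ∨ P.t a ≠ t)
    {w : V s →ₗ[k] V' t} {u : P.W V V'} (h : P.br V V' (ρ.app V V' w) = P.ms V V' u) :
    u a = 0 := by
  rcases ha with ha | ha
  · have := br_right hA ρ (idem V s) h
    rw [idem_self, LinearMap.comp_id, h] at this
    rw [congrFun (hA.minj _ _ this) a, idem_ne V ha, LinearMap.comp_zero]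
  · have := br_left hA ρ (idem V' t) h
    rw [idem_self, LinearMap.id_comp, h] at this
    rw [congrFun (hA.minj _ _ this) a, idem_ne V' ha, LinearMap.zero_comp]

/-- the `a`-component of the commutator is given by the polynomial `p` -/
def Rep (a : P.A) (ρ : NR P.G (P.s a) (P.t a)) (p : k[X][X]) : Prop :=
  ∀ V V' w u, P.br V V' (ρ.app V V' w) = P.ms V V' u → u a = act _ _ p w

theorem yoneda (hA : P.Ax) {a : P.A} (ρ : NR P.G (P.s a) (P.t a)) (hρ : P.InRad ρ) :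
    ∃ p, Rep a ρ p := by
  let A0 : XV k := ⟨k[X], LinearMap.mulLeft k X⟩
  let B0 : XV k := ⟨k[X][X], LinearMap.mulLeft k (C X)⟩
  let mc : k[X] →ₗ[k] k[X][X] :=
    { toFun := fun q => q.map C
      map_add' := fun _ _ => Polynomial.map_add _
      map_smul' := fun c q => by
        rw [Polynomial.map_smul]; exact algebraMap_smul k[X] c _ }
  let w0 : At (P.s a) A0 (P.s a) →ₗ[k] At (P.t a) B0 (P.t a) :=
    (atI (P.t a) B0).1 ∘ₗ mc ∘ₗ (atP (P.s a) A0).1
  obtain ⟨u0, h0⟩ := hA.r3 _ (hρ (At (P.s a) A0) (At (P.t a) B0) w0)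
  refine ⟨(atP (P.t a) B0).1 (u0 a ((atI (P.s a) A0).1 (1 : k[X]))), fun V V' w u h =>
    LinearMap.ext fun z => ?_⟩
  let h' : XH A0 (V (P.s a)) := ⟨LinearMap.applyₗ z ∘ₗ (aeval (V (P.s a)).x).toLinearMap,
    LinearMap.ext fun q : k[X] => by
      change aeval (V (P.s a)).x (X * q) z = (V (P.s a)).x (aeval (V (P.s a)).x q z)
      rw [map_mul, aeval_X]; rfl⟩
  let g : XH B0 (V' (P.t a)) := ⟨LinearMap.applyₗ z ∘ₗ LinearMap.applyₗ w ∘ₗ
    (act (V (P.s a)) (V' (P.t a))).toLinearMap, LinearMap.ext fun q : k[X][X] => by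
      change act _ _ (C X * q) w z = (V' (P.t a)).x (act _ _ q w z)
      rw [map_mul, Module.End.mul_apply, act_C, aeval_X]; rfl⟩
  have e : (fromAt (V := V') g (P.t a)).1 ∘ₗ w0 = w ∘ₗ (fromAt (V := V) h' (P.s a)).1 := by
    rw [fromAt_self, fromAt_self]
    exact LinearMap.ext fun y => LinearMap.congr_fun (act_map _ _ (y ⟨rfl⟩) w) z
  have h1 := br_left hA ρ (fromAt (V := V') g) h0
  rw [e, br_right hA ρ (fromAt (V := V) h') h] at h1
  have h2 := LinearMap.congr_fun (congrFun (hA.minj _ _ h1) a) ((atI (P.s a) A0).1 (1 : k[X]))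
  simp only [fromAt_self] at h2
  refine Eq.trans (congrArg (u a) ?_) h2
  change z = aeval (V (P.s a)).x (1 : k[X]) z
  rw [map_one]; rfl

/-- the ideal of the polynomials which occur -/
def idl (hA : P.Ax) (a : P.A) : Ideal k[X][X] where
  carrier := {p | ∃ ρ : NR P.G (P.s a) (P.t a), P.InRad ρ ∧ Rep a ρ p}
  zero_mem' := ⟨⟨fun _ _ => 0, fun _ _ _ => by simp, fun _ _ _ => by simp⟩,
    fun _ _ _ => Submodule.zero_mem _, fun V V' w u h => by
      rw [map_zero, hA.minj V V' (h.symm.trans ((map_zero _).trans (map_zero _).symm))]; rfl⟩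
  add_mem' := by
    rintro p q ⟨ρ, h1, h2⟩ ⟨ρ', h3, h4⟩
    refine ⟨⟨fun V V' => ρ.app V V' + ρ'.app V V', fun g w e => ?_, fun g w e => ?_⟩,
      fun V V' w => Submodule.add_mem _ (h1 V V' w) (h3 V V' w), fun V V' w u h => ?_⟩
    · simp [ρ.natl, ρ'.natl, LinearMap.comp_add]
    · simp [ρ.natr, ρ'.natr, LinearMap.add_comp]
    · obtain ⟨u1, e1⟩ := hA.r3 _ (h1 V V' w)
      obtain ⟨u2, e2⟩ := hA.r3 _ (h3 V V' w)
      rw [LinearMap.add_apply, map_add, e1, e2, ← map_add] at h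
      rw [← hA.minj V V' h, Pi.add_apply, h2 V V' w u1 e1, h4 V V' w u2 e2, map_add]; rfl
  smul_mem' := by
    rintro q p ⟨ρ, h1, h2⟩
    refine ⟨⟨fun V V' => ρ.app V V' ∘ₗ act _ _ q, fun g w e => ?_, fun g w e => ?_⟩,
      fun V V' w => h1 V V' _, fun V V' w u h => ?_⟩
    · rw [LinearMap.comp_apply, act_natl, ρ.natl]; rfl
    · rw [LinearMap.comp_apply, act_natr, ρ.natr]; rfl
    · rw [h2 V V' _ u h, smul_eq_mul, mul_comm, map_mul]; rfl

theorem idD (hA : P.Ax) (a : P.A) : P.IdD a (idl hA a) := by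
  intro V V' r hr
  induction hr using Submodule.span_induction with
  | mem r hr =>
    obtain ⟨⟨s, t, ρ⟩, h1, w, rfl⟩ := hr
    intro u h
    by_cases c : P.s a = s ∧ P.t a = t
    · obtain ⟨rfl, rfl⟩ := c
      have h2 : P.InRad ρ := fun V V' w => PD.app_mem h1 V V' w
      obtain ⟨p, hp⟩ := yoneda hA ρ h2
      exact Submodule.subset_span ⟨p, ⟨ρ, h2, hp⟩, w, hp V V' w u h⟩
    · rw [off hA ρ (not_and_or.1 c) h]; exact Submodule.zero_mem _
  | zero =>
    intro u h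
    rw [hA.minj V V' (h.symm.trans ((map_zero _).trans (map_zero _).symm))]
    exact Submodule.zero_mem _
  | add r r' hr hr' ih ih' =>
    intro u h
    obtain ⟨u1, e1⟩ := hA.r3 _ hr
    obtain ⟨u2, e2⟩ := hA.r3 _ hr'
    rw [map_add, e1, e2, ← map_add] at h
    rw [← hA.minj V V' h]
    exact Submodule.add_mem _ (ih u1 e1) (ih' u2 e2)
  | smul c r hr ih =>
    intro u h
    obtain ⟨u1, e1⟩ := hA.r3 _ hr
    rw [map_smul, e1, ← map_smul] at h
    rw [← hA.minj V V' h]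
    exact Submodule.smul_mem _ c (ih u1 e1)

theorem zer {a : P.A} {𝔞 : Ideal k[X][X]} (h : P.IdD a 𝔞) (h0 : ∀ V V', P.Semi V → P.Semi V' →
    ∀ p ∈ 𝔞, ∀ w, act (V (P.s a)) (V' (P.t a)) p w = 0) : P.Zer a := fun V V' h1 h2 r hr u e =>
  (Submodule.span_eq_bot.2 (by rintro _ ⟨p, hp, w, rfl⟩; exact h0 V V' h1 h2 p hp w)).le
    (h V V' r hr u e)

theorem act_src {A B : XV k} (h : A.x = 0) (p : k[X][X]) (w : A →ₗ[k] B) :
    act A B p w = aeval B.x (p.coeff 0) ∘ₗ w := by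
  nth_rw 1 [← divX_mul_X_add p]
  rw [map_add, map_mul, LinearMap.add_apply, Module.End.mul_apply, act_X, h, LinearMap.comp_zero,
    map_zero, zero_add, act_C]

theorem aeval_zero' (B : XV k) (h : B.x = 0) (p : k[X]) :
    aeval B.x p = p.eval 0 • (1 : Module.End k B) := by
  rw [h, ← coeff_zero_eq_eval_zero, ← Algebra.algebraMap_eq_smul_one, aeval_def, eval₂_at_zero]

theorem act_tgt {A B : XV k} (h : B.x = 0) (p : k[X][X]) (w : A →ₗ[k] B) :
    act A B p w = w ∘ₗ aeval A.x (p.map (evalRingHom 0)) := by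
  induction p using Polynomial.induction_on generalizing w with
  | C p =>
    rw [act_C, aeval_zero' B h, map_C, aeval_C, Algebra.algebraMap_eq_smul_one,
      LinearMap.smul_comp, LinearMap.comp_smul]
    rfl
  | add p q hp hq => simp [hp, hq, LinearMap.comp_add, Polynomial.map_add]
  | monomial n p ih =>
    rw [pow_succ, ← mul_assoc, map_mul _ _ X, Module.End.mul_apply, act_X, ih,
      Polynomial.map_mul _ (q := X), map_X, mul_comm _ X, map_mul _ X, aeval_X]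
    rfl

end DICH

open DICH

theorem t_DICH : S_DICH k R := by
  intro P hA a
  have hI := idD hA a
  cases hs : P.K (P.s a)
  · by_cases c : ∃ p ∈ idl hA a, p.coeff 0 ≠ 0 ∧ (P.K (P.t a) = false → (p.coeff 0).eval 0 ≠ 0)
    · obtain ⟨p, ⟨ρ, h1, h2⟩, h3, h4⟩ := c
      refine Or.inl ⟨ρ, p.coeff 0, 1, h1, h3, one_ne_zero, h4, fun _ => by simp,
        fun V V' s1 _ w u h => ?_⟩
      rw [h2 V V' w u h, act_src (s1 _ hs), map_one]; rfl
    · refine Or.inr (Or.inl ⟨zer hI fun V V' s1 s2 p hp w => ?_, Or.inl rfl⟩)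
      rw [act_src (s1 _ hs)]
      by_cases e : p.coeff 0 = 0
      · simp [e]
      · obtain ⟨e1, e2⟩ := Classical.not_imp.1 fun h => c ⟨p, hp, e, h⟩
        rw [aeval_zero' _ (s2 _ e1), not_not.1 e2, zero_smul]; rfl
  cases ht : P.K (P.t a)
  · by_cases c : ∃ p ∈ idl hA a, p.map (evalRingHom 0) ≠ 0
    · obtain ⟨p, ⟨ρ, h1, h2⟩, h3⟩ := c
      refine Or.inl ⟨ρ, 1, _, h1, one_ne_zero, h3, fun _ => by simp, fun e => by simp [hs] at e,
        fun V V' _ s2 w u h => ?_⟩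
      rw [h2 V V' w u h, act_tgt (s2 _ ht), map_one]; rfl
    · refine Or.inr (Or.inl ⟨zer hI fun V V' _ s2 p hp w => ?_, Or.inr rfl⟩)
      rw [act_tgt (s2 _ ht), not_not.1 fun e => c ⟨p, hp, e⟩, map_zero, LinearMap.comp_zero]
  by_cases c : ∃ p q : k[X], p ≠ 0 ∧ q ≠ 0 ∧ C p * q.map C ∈ idl hA a
  · obtain ⟨p, q, h3, h4, ρ, h1, h2⟩ := c
    refine Or.inl ⟨ρ, p, q, h1, h3, h4, fun e => by simp [ht] at e, fun e => by simp [hs] at e,
      fun V V' _ _ w u h => ?_⟩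
    rw [h2 V V' w u h, map_mul, Module.End.mul_apply, act_C, act_map]
  · exact Or.inr (Or.inr ⟨rfl, rfl, _, fun p q h1 h2 h3 => c ⟨p, q, h1, h2, h3⟩, hI⟩)

end

end Pool.Agent.P.MP_cf639b_al.Red
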