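import Pool.Agent.P.MP_cf639b_al.Red.Iface

set_option linter.dupNamespace false

namespace Pool.Agent.P.MP_cf639b_al.Red

universe u
open TensorProduct Polynomial

noncomputable section

variable {k : Type u} [Field k] {R : Type u} [Ring R] [Algebra k R]

namespace DROP

open Classical in
/-- deletion of the vertices outside `T` -/
abbrev S (P : PD k R) (T : P.ι → Prop) : SD P where
  ι := {v // T v}
  K j := P.K j.1
  f := P.f
  Ω := {v // T v}
  base := Subtype.val
  i := id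
  wt _ := 0
  fix _ := False
  w0 _ := 0
  rad0 := P.rad

variable {P : PD k R} {T : P.ι → Prop}

theorem uniq {v : P.ι} (α β : (S P T).U v) : α = β :=
  Subtype.ext (Subtype.ext (α.2.trans β.2.symm))

theorem ok (hA : P.Ax) : (S P T).Ok := by
  refine ⟨hA.hf, dvd_rfl, Function.surjective_id, fun _ h => h, fun _ h => h.elim, fun _ _ _ => rfl,
    fun g a => (LinearMap.zero_comp _).trans (LinearMap.comp_zero _).symm,
    fun ρ h V V' w => PD.app_mem h V V' w, fun _ _ _ _ _ _ _ h => h.elim,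
    fun V V' hV hV' r hr w _ g _ => ⟨hr, fun j => ⟨(S P T).prj V' ⟨j, rfl⟩ ∘ₗ (g j.1).1 ∘ₗ
      (S P T).inc V ⟨j, rfl⟩, LinearMap.ext fun z => ?_⟩, ?_⟩⟩
  · cases hK : P.K j.1
    · have h1 := LinearMap.congr_fun (hV.semi j hK)
      have h2 := LinearMap.congr_fun (hV'.semi j hK)
      exact (congrArg ((S P T).prj V' ⟨j, rfl⟩ ∘ₗ (g j.1).1 ∘ₗ (S P T).inc V ⟨j, rfl⟩)
        (h1 z)).trans ((map_zero _).trans (h2 _).symm)
    · have e : (S P T).inc V (v := j.1) ⟨j, rfl⟩ ((V j).x z) =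
          ((S P T).T V j.1).x ((S P T).inc V ⟨j, rfl⟩ z) := funext fun ω => by
        obtain rfl := uniq ω ⟨j, rfl⟩
        rw [(S P T).T_x_true V hK, inc_self, inc_self]
        rfl
      exact (congrArg (fun t => (g j.1).1 t ⟨j, rfl⟩) e).trans
        ((congrFun (XH.comm (g j.1) _) _).trans ((S P T).T_x_true V' hK _ _))
  · rw [sub_eq_zero.2 ((S P T).fam_ext fun v α β => ?_)]
    · exact zero_mem _
    · obtain rfl := uniq α β
      obtain ⟨j, rfl⟩ := α
      rw [(S P T).TM_inc]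
      exact LinearMap.ext fun z => (LinearMap.congr_fun ((S P T).prj_inc V' ⟨j, rfl⟩) _).symm

end DROP

theorem t_DROP : S_TSUB k R → S_DROP k R := by
  intro h P hA T
  refine ⟨DROP.S P T, DROP.ok hA, fun ω => ω.2, Subtype.val_injective,
    fun F _ _ E _ X V w ρ hT hs => h P _ hA (DROP.ok hA) F E X V w ρ hT (fun j => V j.1)
      (fun j => hT.ok j.1) (fun v => LinearEquiv.ofBijective
        (LinearMap.pi fun ω => cs (fun v => (V v).V) ω.2.symm) ?_) ?_ ?_ fun _ h => h.elim⟩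
  · by_cases hv : T v
    · refine ⟨fun z z' e => congrFun e ⟨⟨v, hv⟩, rfl⟩, fun z => ⟨z ⟨⟨v, hv⟩, rfl⟩, funext fun ω => ?_⟩⟩
      obtain rfl := DROP.uniq ω ⟨⟨v, hv⟩, rfl⟩
      rfl
    · have := hs v hv
      exact ⟨fun _ _ _ => Subsingleton.elim _ _, fun z => ⟨0, funext fun ω => (hv (ω.2 ▸ ω.1.2)).elim⟩⟩
  · rintro _ - z ⟨j, rfl⟩
    rfl
  · rintro _ c z ⟨j, rfl⟩
    rfl

end
end Pool.Agent.P.MP_cf639b_al.Red
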