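import Pool.Agent.P.MP_cf639b_al.Red.Iface

/-! The edge reduction. -/

set_option linter.dupNamespace false
set_option linter.unusedVariables false

namespace Pool.Agent.P.MP_cf639b_al.Red

universe u
open TensorProduct Polynomial

noncomputable section

variable {k : Type u} [Field k] {R : Type u} [Ring R] [Algebra k R]

namespace EDGE
variable (P : PD k R) (a : P.A)

/-- the old vertices -/
abbrev Old : Type := {v : P.ι // v ≠ P.s a ∧ v ≠ P.t a}
/-- base vertex of a slot -/
abbrev eb : Old P a ⊕ Bool × Bool → P.ι :=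
  Sum.elim Subtype.val fun p => cond p.1 (P.s a) (P.t a)
/-- new vertex of a slot -/
abbrev ei : Old P a ⊕ Bool × Bool → Old P a ⊕ Option Bool :=
  Sum.map id fun p => cond p.2 none (some p.1)
/-- kernel slot -/
abbrev sK : Sl (eb P a) (P.s a) := ⟨Sum.inr (true, false), rfl⟩
/-- coimage slot -/
abbrev sI : Sl (eb P a) (P.s a) := ⟨Sum.inr (true, true), rfl⟩
/-- image slot -/
abbrev tI : Sl (eb P a) (P.t a) := ⟨Sum.inr (false, true), rfl⟩
/-- cokernel slot -/
abbrev tC : Sl (eb P a) (P.t a) := ⟨Sum.inr (false, false), rfl⟩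
/-- slot of an old vertex -/
abbrev oS (v : Old P a) : Sl (eb P a) v.1 := ⟨Sum.inl v, rfl⟩

/-- the normal form of the arrow -/
def nf (V : Old P a ⊕ Option Bool → XV k) :
    TT (eb P a) (ei P a) V (P.s a) →ₗ[k] TT (eb P a) (ei P a) V (P.t a) :=
  inc (eb P a) (ei P a) V (tI P a) ∘ₗ prj (eb P a) (ei P a) V (sI P a)

open Classical in
/-- the edge substitution -/
abbrev ES : SD P where
  ι := Old P a ⊕ Option Bool
  K := Sum.elim (fun v => P.K v.1) fun _ => false
  f := P.f
  Ω := Old P a ⊕ Bool × Bool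
  base := eb P a
  i := ei P a
  wt := Sum.elim (fun _ => 0) fun p => cond p.2 1 (cond p.1 2 0)
  fix b := b = a
  w0 V := Pi.single a (nf P a V)
  rad0 := P.rad

theorem w0_self (V : Old P a ⊕ Option Bool → XV k) : (ES P a).w0 V a = nf P a V := by
  classical
  exact Pi.single_eq_same (M := fun b => (ES P a).T V (P.s b) →ₗ[k] (ES P a).T V (P.t b)) _ _
theorem w0_ne (V : Old P a ⊕ Option Bool → XV k) {b : P.A} (h : b ≠ a) :
    (ES P a).w0 V b = 0 := by
  classical
  exact Pi.single_eq_of_ne (M := fun b => (ES P a).T V (P.s b) →ₗ[k] (ES P a).T V (P.t b)) h _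
theorem sK_ne : sK P a ≠ sI P a := fun h => by simpa using congrArg Subtype.val h
theorem tC_ne : tC P a ≠ tI P a := fun h => by simpa using congrArg Subtype.val h
theorem nf_tI (V : Old P a ⊕ Option Bool → XV k) (z : TT (eb P a) (ei P a) V (P.s a)) :
    nf P a V z (tI P a) = z (sI P a) := inc_self _ _ V (tI P a) _
theorem nf_tC (V : Old P a ⊕ Option Bool → XV k) (z : TT (eb P a) (ei P a) V (P.s a)) :
    nf P a V z (tC P a) = 0 := inc_ne _ _ V (tC_ne P a) _

variable {P a}
theorem slots (h : P.s a ≠ P.t a) (α β : Old P a ⊕ Bool × Bool) (e : eb P a α = eb P a β) :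
    α = β ∨ (α = (sK P a).1 ∧ β = (sI P a).1) ∨ (α = (sI P a).1 ∧ β = (sK P a).1) ∨
      (α = (tI P a).1 ∧ β = (tC P a).1) ∨ (α = (tC P a).1 ∧ β = (tI P a).1) := by
  rcases α with v | ⟨_ | _, _ | _⟩ <;> rcases β with v' | ⟨_ | _, _ | _⟩ <;>
    first
    | exact Or.inl rfl
    | exact Or.inl (congrArg Sum.inl (Subtype.ext e))
    | exact (v.2.1 e).elim
    | exact (v.2.2 e).elim
    | exact (v'.2.1 e.symm).elim
    | exact (v'.2.2 e.symm).elim
    | exact (h e).elim
    | exact (h e.symm).elim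
    | simp
theorem slot_s (h : P.s a ≠ P.t a) (ω : Sl (eb P a) (P.s a)) : ω = sK P a ∨ ω = sI P a := by
  rcases slots h ω.1 (sK P a).1 ω.2 with e | e | e | e | e
  · exact Or.inl (Subtype.ext e)
  · simp at e
  · exact Or.inr (Subtype.ext e.1)
  · simp at e
  · simp at e
theorem slot_t (h : P.s a ≠ P.t a) (ω : Sl (eb P a) (P.t a)) : ω = tI P a ∨ ω = tC P a := by
  rcases slots h ω.1 (tI P a).1 ω.2 with e | e | e | e | e
  · exact Or.inl (Subtype.ext e)
  · simp at e
  · simp at e
  · simp at e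
  · exact Or.inr (Subtype.ext e.1)
theorem slot_o (h : P.s a ≠ P.t a) (v : Old P a) (ω : Sl (eb P a) v.1) : ω = oS P a v := by
  rcases slots h ω.1 (oS P a v).1 ω.2 with e | e | e | e | e
  · exact Subtype.ext e
  all_goals simp at e

theorem K_new (hs : P.K (P.s a) = false) (ht : P.K (P.t a) = false) (p : Bool × Bool) :
    P.K (eb P a (Sum.inr p)) = false := by
  rcases p with ⟨_ | _, _⟩
  exacts [ht, hs]

theorem cm_of {V V' : Old P a ⊕ Option Bool → XV k} (g : FH ((ES P a).T V) ((ES P a).T V'))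
    (h : nf P a V' ∘ₗ (g (P.s a)).1 = (g (P.t a)).1 ∘ₗ nf P a V) : (ES P a).Cm g := fun b => by
  by_cases hb : b = a
  · subst hb
    rw [w0_self, w0_self]
    exact h
  · rw [w0_ne P a V hb, w0_ne P a V' hb, LinearMap.zero_comp, LinearMap.comp_zero]

open Classical in
/-- indicator of a pair of slots -/
def ind (α0 β0 α β : Old P a ⊕ Bool × Bool) : k := if α = α0 ∧ β = β0 then 1 else 0
theorem ind_self (α β : Old P a ⊕ Bool × Bool) : ind α β α β = 1 := by simp [ind]
theorem ind_ne {α0 β0 α β : Old P a ⊕ Bool × Bool} (h : ¬ (α = α0 ∧ β = β0)) :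
    ind α0 β0 α β = 0 := if_neg h
theorem ind_K (hs : P.K (P.s a) = false) (ht : P.K (P.t a) = false) (p : Bool × Bool)
    (β0 α β : Old P a ⊕ Bool × Bool) (h : P.K (eb P a α) = true) : ind (Sum.inr p) β0 α β = 0 :=
  ind_ne fun e => by rw [e.1, K_new hs ht] at h; exact Bool.false_ne_true h

theorem good (c : Old P a ⊕ Bool × Bool → Old P a ⊕ Bool × Bool → k) (hc)
    (j j' : Old P a ⊕ Option Bool) (h1 : ∀ α β, ¬ (ES P a).wt β < (ES P a).wt α → c α β = 0)
    (h2 : ∀ β, c (sI P a).1 β = 0) (h3 : ∀ α, c α (tI P a).1 = 0) :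
    (ES P a).Good ((ES P a).blk c hc j j') := by
  intro V V' w
  refine ⟨fun v α β h => ?_, cm_of _ ?_⟩
  · rw [(ES P a).blk_comp, h1 _ _ h, zero_smul]
  · refine LinearMap.ext fun z => ?_
    have e1 : (((ES P a).blk c hc j j').app V V' w (P.s a)).1 z (sI P a) = 0 := by
      refine ((ES P a).blk_apply c hc j j' V V' w (P.s a) z (sI P a)).trans ?_
      exact Finset.sum_eq_zero fun β _ => by rw [h2, zero_smul]
    have e2 : ∀ y, (((ES P a).blk c hc j j').app V V' w (P.t a)).1
        (inc (eb P a) (ei P a) V (tI P a) y) = 0 := fun y => funext fun α => by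
      have := LinearMap.congr_fun ((ES P a).blk_comp c hc j j' V V' w (P.t a) α (tI P a)) y
      rw [h3, zero_smul] at this
      exact this
    refine Eq.trans ?_ (e2 _).symm
    exact (congrArg (inc (eb P a) (ei P a) V' (tI P a)) e1).trans (map_zero _)

theorem mem_Bsp (hs : P.K (P.s a) = false) (ht : P.K (P.t a) = false) (hst : P.s a ≠ P.t a)
    {V V' : Old P a ⊕ Option Bool → XV k} (h : FH ((ES P a).T V) ((ES P a).T V'))
    (hd : ∀ v α, (ES P a).prj V' α ∘ₗ (h v).1 ∘ₗ (ES P a).inc V α = 0)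
    (h1 : (ES P a).prj V' (sI P a) ∘ₗ (h _).1 ∘ₗ (ES P a).inc V (sK P a) = 0)
    (h2 : (ES P a).prj V' (tC P a) ∘ₗ (h _).1 ∘ₗ (ES P a).inc V (tI P a) = 0) :
    h ∈ (ES P a).Bsp V V' := by
  have e : h = ((ES P a).blk (ind (sK P a).1 (sI P a).1) (ind_K hs ht _ _) (Sum.inr none)
        (Sum.inr (some true))).app V V'
        ((ES P a).prj V' (sK P a) ∘ₗ (h _).1 ∘ₗ (ES P a).inc V (sI P a)) +
      ((ES P a).blk (ind (tI P a).1 (tC P a).1) (ind_K hs ht _ _) (Sum.inr (some false))
        (Sum.inr none)).app V V'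
        ((ES P a).prj V' (tI P a) ∘ₗ (h _).1 ∘ₗ (ES P a).inc V (tC P a)) := by
    refine (ES P a).fam_ext fun v α β => ?_
    rw [Pi.add_apply, Submodule.coe_add, LinearMap.add_comp, LinearMap.comp_add,
      (ES P a).blk_comp, (ES P a).blk_comp]
    obtain ⟨α, hα⟩ := α
    obtain ⟨β, hβ⟩ := β
    rcases slots hst α β (hα.trans hβ.symm) with e | ⟨e, e'⟩ | ⟨e, e'⟩ | ⟨e, e'⟩ | ⟨e, e'⟩
    · subst e
      rw [hd, ind_ne (fun e => by simpa using e.1.symm.trans e.2),
        ind_ne (fun e => by simpa using e.1.symm.trans e.2), zero_smul, zero_smul, add_zero]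
    · subst e e'
      obtain rfl : P.s a = v := hα
      rw [ind_self, ind_ne (by simp), zero_smul, add_zero, one_smul]
      exact (tf_self V V' _ _ _).symm
    · subst e e'
      obtain rfl : P.s a = v := hα
      rw [ind_ne (by simp), ind_ne (by simp), zero_smul, zero_smul, add_zero]
      exact h1
    · subst e e'
      obtain rfl : P.t a = v := hα
      rw [ind_self, ind_ne (by simp), zero_smul, zero_add, one_smul]
      exact (tf_self V V' _ _ _).symm
    · subst e e'
      obtain rfl : P.t a = v := hα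
      rw [ind_ne (by simp), ind_ne (by simp), zero_smul, zero_smul, add_zero]
      exact h2
  rw [e]
  refine add_mem (Submodule.subset_span ⟨_, _, _, good _ _ _ _ ?_ ?_ ?_, _, rfl⟩)
    (Submodule.subset_span ⟨_, _, _, good _ _ _ _ ?_ ?_ ?_, _, rfl⟩)
  · exact fun α β hw => ind_ne fun e => hw (by rw [e.1, e.2]; exact (by norm_num : (1 : ℤ) < 2))
  · exact fun β => ind_ne (by simp)
  · exact fun β => ind_ne (by simp)
  · exact fun α β hw => ind_ne fun e => hw (by rw [e.1, e.2]; exact (by norm_num : (0 : ℤ) < 1))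
  · exact fun β => ind_ne (by simp)
  · exact fun β => ind_ne (by simp)

theorem diag_x {P : PD k R} (S : SD P) {V V' : S.ι → XV k} (hV : S.new.Al V) (hV' : S.new.Al V')
    (g : FH (S.T V) (S.T V')) {v : P.ι} (ω : S.U v) (hK : S.K (S.i ω.1) = true → P.K v = true) :
    S.prj V' ω ∘ₗ (g v).1 ∘ₗ S.inc V ω ∈ XH (V (S.i ω.1)) (V' (S.i ω.1)) := by
  rw [mem_XH]
  cases hj : S.K (S.i ω.1)
  · rw [hV.semi _ hj, hV'.semi _ hj, LinearMap.comp_zero, LinearMap.zero_comp]
  · have hv := hK hj
    refine LinearMap.ext fun z => ?_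
    have e : S.inc V ω ((V _).x z) = (S.T V v).x (S.inc V ω z) := funext fun ω' => by
      rw [S.T_x_true V hv]
      by_cases h : ω' = ω
      · subst h
        rw [inc_self, inc_self]
      · rw [inc_ne _ _ _ h, inc_ne _ _ _ h, map_zero]
    change (g v).1 (S.inc V ω ((V _).x z)) ω = (V' _).x ((g v).1 (S.inc V ω z) ω)
    rw [e, ← S.T_x_true V' hv]
    exact congrFun (XH.comm (g v) _) ω

/-- the diagonal part of a family -/
def diag {V V' : Old P a ⊕ Option Bool → XV k} (hV : (ES P a).new.Al V)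
    (hV' : (ES P a).new.Al V') (g : FH ((ES P a).T V) ((ES P a).T V')) : FH V V' := fun j =>
  match j with
  | Sum.inl v => ⟨_, diag_x (ES P a) hV hV' g (oS P a v) id⟩
  | Sum.inr none => ⟨_, diag_x (ES P a) hV hV' g (sI P a) fun h => (Bool.false_ne_true h).elim⟩
  | Sum.inr (some true) =>
    ⟨_, diag_x (ES P a) hV hV' g (sK P a) fun h => (Bool.false_ne_true h).elim⟩
  | Sum.inr (some false) =>
    ⟨_, diag_x (ES P a) hV hV' g (tC P a) fun h => (Bool.false_ne_true h).elim⟩

theorem full (hs : P.K (P.s a) = false) (ht : P.K (P.t a) = false) (hst : P.s a ≠ P.t a)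
    {V V' : Old P a ⊕ Option Bool → XV k} (hV : (ES P a).new.Al V) (hV' : (ES P a).new.Al V')
    (g : FH ((ES P a).T V) ((ES P a).T V'))
    (h : nf P a V' ∘ₗ (g (P.s a)).1 = (g (P.t a)).1 ∘ₗ nf P a V) :
    g - (ES P a).TM (diag hV hV' g) ∈ (ES P a).Bsp V V' := by
  have n1 : ∀ z, nf P a V ((ES P a).inc V (sK P a) z) = 0 := fun z =>
    (congrArg (inc (eb P a) (ei P a) V (tI P a)) (inc_ne _ _ V (sK_ne P a).symm z)).trans
      (map_zero _)
  have n2 : ∀ z, nf P a V ((ES P a).inc V (sI P a) z) = (ES P a).inc V (tI P a) z := fun z =>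
    congrArg (inc (eb P a) (ei P a) V (tI P a)) (inc_self _ _ V (sI P a) z)
  have key : ∀ v (α β : (ES P a).U v), (ES P a).prj V' α ∘ₗ
      ((g - (ES P a).TM (diag hV hV' g)) v).1 ∘ₗ (ES P a).inc V β =
      (ES P a).prj V' α ∘ₗ (g v).1 ∘ₗ (ES P a).inc V β -
        ((ES P a).prj V' α ∘ₗ (ES P a).inc V' β) ∘ₗ (diag hV hV' g _).1 := fun v α β => by
    rw [Pi.sub_apply, Submodule.coe_sub, LinearMap.sub_comp, LinearMap.comp_sub,
      (ES P a).TM_inc, LinearMap.comp_assoc]
  refine mem_Bsp hs ht hst _ (fun v α => ?_) ?_ ?_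
  · rw [key, (ES P a).prj_inc, LinearMap.id_comp, sub_eq_zero]
    obtain ⟨α, rfl⟩ := α
    rcases α with v | ⟨_ | _, _ | _⟩
    · rfl
    · rfl
    · refine LinearMap.ext fun z => ?_
      have e := congrFun (LinearMap.congr_fun h ((ES P a).inc V (sI P a) z)) (tI P a)
      rw [LinearMap.comp_apply, LinearMap.comp_apply, nf_tI] at e
      exact (e.trans (congrFun (congrArg (g (P.t a)).1 (n2 z)) (tI P a))).symm
    · rfl
    · rfl
  · rw [key, (ES P a).prj_inc_ne V' (sK_ne P a).symm, LinearMap.zero_comp, sub_zero]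
    refine LinearMap.ext fun z => ?_
    have e := congrFun (LinearMap.congr_fun h ((ES P a).inc V (sK P a) z)) (tI P a)
    rw [LinearMap.comp_apply, LinearMap.comp_apply, nf_tI, n1, map_zero] at e
    exact e
  · rw [key, (ES P a).prj_inc_ne V' (tC_ne P a), LinearMap.zero_comp, sub_zero]
    refine LinearMap.ext fun z => ?_
    have e := congrFun (LinearMap.congr_fun h ((ES P a).inc V (sI P a) z)) (tC P a)
    rw [LinearMap.comp_apply, LinearMap.comp_apply, nf_tC] at e
    exact (e.trans (congrFun (congrArg (g (P.t a)).1 (n2 z)) (tC P a))).symm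

theorem ok (hA : P.Ax) (ha : P.Min a) (hs : P.K (P.s a) = false) (ht : P.K (P.t a) = false)
    (hst : P.s a ≠ P.t a) (hz : P.Zer a) : (ES P a).Ok where
  hf := hA.hf
  dvd := dvd_rfl
  surj j := by
    rcases j with v | _ | e
    exacts [⟨Sum.inl v, rfl⟩, ⟨Sum.inr (true, true), rfl⟩, ⟨Sum.inr (e, false), rfl⟩]
  Kc ω h := by
    rcases ω with v | p
    · exact h
    · rw [K_new hs ht] at h
      exact (Bool.false_ne_true h).elim
  min b hb := by rw [hb]; exact ha
  w0z V b hb := w0_ne P a V hb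
  w0n {V V'} g := cm_of _ (congrArg (fun φ => φ ∘ₗ (ES P a).prj V (sI P a))
    ((ES P a).TM_inc g (tI P a))).symm
  r0in ρ hρ V V' w := PD.app_mem hρ V V' w
  r0z V V' r hr w hw b hb := by
    rw [hb]
    exact hz _ _ ((ES P a).semi_T V) ((ES P a).semi_T V') r hr w hw
  r0full V V' hV hV' r hr w hw g hg := by
    refine ⟨hr, diag hV hV' g, full hs ht hst hV hV' g ?_⟩
    have e := hg a rfl
    rw [hz _ _ ((ES P a).semi_T V) ((ES P a).semi_T V') r hr w hw, add_zero, sub_eq_zero,
      w0_self, w0_self] at e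
    exact e

section tr
variable {F : Type u} [Field F] [Algebra k F]

variable (k F) in
/-- an `F`-space with `x = 0` -/
abbrev vsL (W : Type u) [AddCommGroup W] [Module k W] [Module F W] [IsScalarTower k F W] :
    FXV k F := vsF W (Algebra.lsmul k k W)

variable (V : P.ι → FXV k F) (y : (V (P.s a)).V →ₗ[F] (V (P.t a)).V)

/-- the new family -/
def nV : Old P a ⊕ Option Bool → FXV k F
  | Sum.inl v => V v.1
  | Sum.inr none => vsL k F (LinearMap.range y)
  | Sum.inr (some true) => vsL k F (LinearMap.ker y)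
  | Sum.inr (some false) => vsL k F ((V (P.t a)).V ⧸ LinearMap.range y)

variable (pK : (V (P.s a)).V →ₗ[F] LinearMap.ker y) (pR : (V (P.t a)).V →ₗ[F] LinearMap.range y)

/-- the components of the identification -/
def cmp : ∀ ω : Old P a ⊕ Bool × Bool, (V (eb P a ω)).V →ₗ[k] (nV V y (ei P a ω)).V
  | Sum.inl v => LinearMap.id
  | Sum.inr (true, false) => pK.restrictScalars k
  | Sum.inr (true, true) => y.rangeRestrict.restrictScalars k
  | Sum.inr (false, true) => pR.restrictScalars k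
  | Sum.inr (false, false) => (LinearMap.range y).mkQ.restrictScalars k

/-- the identification -/
def th (v : P.ι) : (V v).V →ₗ[k] TT (eb P a) (ei P a) (fun j => (nV V y j).V) v :=
  LinearMap.pi fun ω => cmp V y pK pR ω.1 ∘ₗ cs (fun v => (V v).V) ω.2.symm

theorem th_bij (hst : P.s a ≠ P.t a) (hK : ∀ z : LinearMap.ker y, pK z = z)
    (hR : ∀ z : LinearMap.range y, pR z = z) (v : P.ι) :
    Function.Bijective (th V y pK pR v) := by
  by_cases h1 : v = P.s a
  · subst h1
    refine ⟨(injective_iff_map_eq_zero _).mpr fun z hz => ?_, fun u => ?_⟩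
    · have e1 : pK z = 0 := congrFun hz (sK P a)
      have e2 : y.rangeRestrict z = 0 := congrFun hz (sI P a)
      have e3 : z ∈ LinearMap.ker y := congrArg Subtype.val e2
      exact congrArg Subtype.val ((hK ⟨z, e3⟩).symm.trans e1)
    · let u1 : LinearMap.ker y := u (sK P a)
      let u2 : LinearMap.range y := u (sI P a)
      obtain ⟨z, hz⟩ := u2.2
      refine ⟨z - pK z + u1, funext fun ω => ?_⟩
      rcases slot_s hst ω with rfl | rfl
      · change pK (z - pK z + u1) = u1
        rw [map_add, map_sub, hK, hK, sub_self, zero_add]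
      · refine Subtype.ext ?_
        change y (z - pK z + u1) = u2.1
        rw [map_add, map_sub, (pK z).2, u1.2, sub_zero, add_zero, hz]
  by_cases h2 : v = P.t a
  · subst h2
    refine ⟨(injective_iff_map_eq_zero _).mpr fun z hz => ?_, fun u => ?_⟩
    · have e1 : pR z = 0 := congrFun hz (tI P a)
      have e2 : (LinearMap.range y).mkQ z = 0 := congrFun hz (tC P a)
      have e3 : z ∈ LinearMap.range y := (Submodule.Quotient.mk_eq_zero _).mp e2
      exact congrArg Subtype.val ((hR ⟨z, e3⟩).symm.trans e1)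
    · let u1 : LinearMap.range y := u (tI P a)
      let u2 : (V (P.t a)).V ⧸ LinearMap.range y := u (tC P a)
      obtain ⟨z, hz⟩ := (LinearMap.range y).mkQ_surjective u2
      have q : ∀ r : LinearMap.range y, (LinearMap.range y).mkQ r = 0 := fun r =>
        (Submodule.Quotient.mk_eq_zero _).mpr r.2
      refine ⟨z - pR z + u1, funext fun ω => ?_⟩
      rcases slot_t hst ω with rfl | rfl
      · change pR (z - pR z + u1) = u1
        rw [map_add, map_sub, hR, hR, sub_self, zero_add]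
      · change (LinearMap.range y).mkQ (z - pR z + u1) = u2
        rw [map_add, map_sub, q, q, sub_zero, add_zero, hz]
  refine ⟨(injective_iff_map_eq_zero _).mpr fun z hz => congrFun hz (oS P a ⟨v, h1, h2⟩),
    fun u => ⟨u (oS P a ⟨v, h1, h2⟩), funext fun ω => ?_⟩⟩
  obtain rfl := slot_o hst ⟨v, h1, h2⟩ ω
  rfl
end tr

theorem trAll (hT : S_TSUB k R) (hA : P.Ax) (ha : P.Min a) (hs : P.K (P.s a) = false)
    (ht : P.K (P.t a) = false) (hst : P.s a ≠ P.t a) (hz : P.Zer a) : (ES P a).TrAll := by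
  intro F _ _ E _ X V w ρ htr
  let y : (V (P.s a)).V →ₗ[F] (V (P.t a)).V :=
    ⟨⟨w a, (w a).map_add⟩, fun c z => LinearMap.congr_fun (htr.wF a c) z⟩
  obtain ⟨pK, hK⟩ := (LinearMap.ker y).subtype.exists_leftInverse_of_injective
    (Submodule.ker_subtype _)
  obtain ⟨pR, hR⟩ := (LinearMap.range y).subtype.exists_leftInverse_of_injective
    (Submodule.ker_subtype _)
  have hK' : ∀ z : LinearMap.ker y, pK z = z := LinearMap.congr_fun hK
  have hR' : ∀ z : LinearMap.range y, pR z = z := LinearMap.congr_fun hR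
  refine hT P (ES P a) hA (ok hA ha hs ht hst hz) F E X V w ρ htr (nV V y) ?_
    (fun v => LinearEquiv.ofBijective _ (th_bij V y pK pR hst hK' hR' v)) ?_ ?_ ?_
  · rintro (v | _ | _ | _)
    · exact htr.ok v.1
    all_goals exact (if_neg Bool.false_ne_true).mpr rfl
  · rintro _ hv z ⟨v | p, rfl⟩
    · rfl
    · rw [K_new hs ht] at hv
      exact (Bool.false_ne_true hv).elim
  · rintro _ c z ⟨v | ⟨_ | _, _ | _⟩, rfl⟩
    · rfl
    · exact (LinearMap.range y).mkQ.map_smul c z
    · exact pR.map_smul c z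
    · exact pK.map_smul c z
    · exact y.rangeRestrict.map_smul c z
  · rintro b rfl z
    rw [w0_self]
    refine funext fun ω => ?_
    rcases slot_t hst ω with rfl | rfl
    · rw [nf_tI]
      exact hR' (y.rangeRestrict z)
    · rw [nf_tC]
      exact (Submodule.Quotient.mk_eq_zero _).mpr ⟨z, rfl⟩

end EDGE

theorem t_EDGE : S_TSUB k R → S_EDGE k R := fun hT P hA a ha hs ht hst hz =>
  ⟨EDGE.ES P a, EDGE.ok hA ha hs ht hst hz, rfl, EDGE.trAll hT hA ha hs ht hst hz⟩

end
end Pool.Agent.P.MP_cf639b_al.Red
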