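import Pool.Agent.P.MP_cf639b_al.Red.Iface

/-! The family at a vertex. -/

set_option linter.dupNamespace false

namespace Pool.Agent.P.MP_cf639b_al.Red

universe u
open TensorProduct

variable {k : Type u} [Field k] {R : Type u} [Ring R] [Algebra k R]

namespace FAM

theorem retr {ι : Type} {G : GF k R ι} (h : G.Proj) (v : ι) :
    ∃ (n : ℕ) (i : ∀ W : XV k, G.obj (At v W) →ₗ[R] R ⊗[k] (Fin n → W))
      (p : ∀ W : XV k, R ⊗[k] (Fin n → W) →ₗ[R] G.obj (At v W)), (∀ W z, p W (i W z) = z) ∧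
      (∀ W W' (g : XH W W') z, i W' (G.map (atM v g) z) = Pmap (g.1.compLeft _) (i W z)) ∧
      ∀ W W' (g : XH W W') z, p W' (Pmap (g.1.compLeft _) z) = G.map (atM v g) (p W z) := by
  classical
  obtain ⟨B, _, ν, i, p, h1, h2, h3⟩ := h
  let e := Fintype.equivFin B
  let a : ∀ W : XV k, (∀ β, At v W (ν β)) →ₗ[k] (Fin (Fintype.card B) → W) := fun W =>
    LinearMap.pi fun j => if h : ν (e.symm j) = v then
      (LinearMap.proj ⟨h⟩ : (PLift (ν (e.symm j) = v) → W) →ₗ[k] W) ∘ₗ LinearMap.proj (e.symm j)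
    else 0
  let b : ∀ W : XV k, (Fin (Fintype.card B) → W) →ₗ[k] (∀ β, At v W (ν β)) := fun W =>
    LinearMap.pi fun β => LinearMap.pi fun _ => LinearMap.proj (e β)
  have ba : ∀ W, b W ∘ₗ a W = LinearMap.id := fun W =>
    LinearMap.ext fun z => funext fun β => funext fun t => by
      have : ∀ γ (hγ : γ = β) (h : ν γ = v), z γ ⟨h⟩ = z β t := by rintro _ rfl _; rfl
      change (if h : ν (e.symm (e β)) = v then _ else (0 : _ →ₗ[k] W)) z = z β t
      rw [dif_pos (by rw [e.symm_apply_apply]; exact t.down)]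
      exact this _ (e.symm_apply_apply β) _
  have an : ∀ W W' (g : XH W W'), a W' ∘ₗ piM ν (fun w => (atM v g w).1) =
      g.1.compLeft _ ∘ₗ a W := fun W W' g => LinearMap.ext fun z => funext fun j => by
    change (if h : ν (e.symm j) = v then _ else (0 : _ →ₗ[k] W')) _ =
      g.1 ((if h : ν (e.symm j) = v then _ else (0 : _ →ₗ[k] W)) z)
    split_ifs
    · rfl
    · exact (map_zero g.1).symm
  have bn : ∀ W W' (g : XH W W'), b W' ∘ₗ g.1.compLeft _ =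
      piM ν (fun w => (atM v g w).1) ∘ₗ b W := fun W W' g => rfl
  refine ⟨_, fun W => Pmap (a W) ∘ₗ i _, fun W => p _ ∘ₗ Pmap (b W), fun W z => ?_,
    fun W W' g z => ?_, fun W W' g z => ?_⟩
  · change p _ ((Pmap (b W) ∘ₗ Pmap (a W)) (i _ z)) = z
    rw [← Pmap_comp, ba, Pmap_id]
    exact LinearMap.congr_fun (h1 _) z
  · change Pmap (a W') ((i _ ∘ₗ G.map (atM v g)) z) = (Pmap _ ∘ₗ Pmap (a W)) _
    rw [h2, ← Pmap_comp, ← an, Pmap_comp]
    rfl
  · change p _ ((Pmap (b W') ∘ₗ Pmap _) z) = (G.map (atM v g) ∘ₗ p _) _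
    rw [← h3, ← Pmap_comp, bn, Pmap_comp]
    rfl

theorem quot {F1 F0 G1 G0 : Type u} [AddCommGroup F1] [AddCommGroup F0] [AddCommGroup G1]
    [AddCommGroup G0] [Module R F1] [Module R F0] [Module R G1] [Module R G0] (D : F1 →ₗ[R] F0)
    (d : G1 →ₗ[R] G0) (i : G0 →ₗ[R] F0) (p : F0 →ₗ[R] G0) (h0 : ∀ z, p (i z) = z)
    (h1 : ∀ z, ∃ y, d y = p (D z)) (h2 : ∀ z, ∃ y, D y = i (d z))
    (h3 : ∀ z, ∃ y, D y = z - i (p z)) :
    ∃ ψ : (F0 ⧸ LinearMap.range D) ≃ₗ[R] (G0 ⧸ LinearMap.range d),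
      ∀ z, ψ (Submodule.Quotient.mk z) = Submodule.Quotient.mk (p z) :=
  ⟨LinearEquiv.ofLinear (Submodule.mapQ _ _ p (by rintro _ ⟨z, rfl⟩; exact h1 z))
    (Submodule.mapQ _ _ i (by rintro _ ⟨z, rfl⟩; exact h2 z))
    (Submodule.linearMap_qext _ (LinearMap.ext fun z => congrArg Submodule.Quotient.mk (h0 z)))
    (Submodule.linearMap_qext _ (LinearMap.ext fun z =>
      ((Submodule.Quotient.eq _).2 (h3 z)).symm)), fun _ => rfl⟩

end FAM

theorem t_FAM : S_YON k R → S_FAM k R := by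
  intro hY P hA v
  obtain ⟨m, i1, p1, a1, a2, a3⟩ := FAM.retr (hA.proj true) v
  obtain ⟨n, i0, p0, b1, b2, b3⟩ := FAM.retr (hA.proj false) v
  let q1 : ∀ W : XV k, (Fin (m + n) → W) →ₗ[k] (Fin m → W) := fun W =>
    LinearMap.funLeft k W (Fin.castAdd n)
  let q2 : ∀ W : XV k, (Fin (m + n) → W) →ₗ[k] (Fin n → W) := fun W =>
    LinearMap.funLeft k W (Fin.natAdd m)
  let s : ∀ W : XV k, ((Fin m → W) × (Fin n → W)) →ₗ[k] (Fin (m + n) → W) := fun W =>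
    LinearMap.pi (Fin.addCases (fun j => LinearMap.proj j ∘ₗ LinearMap.fst k _ _)
      fun j => LinearMap.proj j ∘ₗ LinearMap.snd k _ _)
  have s1 : ∀ W, q1 W ∘ₗ s W = LinearMap.fst k _ _ := fun W =>
    LinearMap.ext fun z => funext fun j => by simp [q1, s]
  have s2 : ∀ W, q2 W ∘ₗ s W = LinearMap.snd k _ _ := fun W =>
    LinearMap.ext fun z => funext fun j => by simp [q2, s]
  have p0' : ∀ {V V' : Type u} [AddCommGroup V] [Module k V] [AddCommGroup V'] [Module k V'],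
      Pmap (R := R) (0 : V →ₗ[k] V') = 0 := by
    intro V V' _ _ _ _
    simpa using Pmap_smul (R := R) (0 : k) (0 : V →ₗ[k] V')
  have sec : ∀ (W : XV k) (x : R ⊗[k] (Fin m → W)) (y : R ⊗[k] (Fin n → W)),
      ∃ z, Pmap (q1 W) z = x ∧ Pmap (q2 W) z = y := fun W x y => by
    refine ⟨Pmap (s W ∘ₗ LinearMap.inl k _ _) x + Pmap (s W ∘ₗ LinearMap.inr k _ _) y, ?_, ?_⟩ <;>
      rw [map_add, ← LinearMap.comp_apply, ← LinearMap.comp_apply, ← Pmap_comp, ← Pmap_comp,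
        ← LinearMap.comp_assoc, ← LinearMap.comp_assoc]
    · simp [s1, p0', Pmap_id]
    · simp [s2, p0', Pmap_id]
  let D : ∀ W : XV k, R ⊗[k] (Fin (m + n) → W) →ₗ[R] R ⊗[k] (Fin n → W) := fun W =>
    i0 W ∘ₗ P.d _ ∘ₗ p1 W ∘ₗ Pmap (q1 W) + (LinearMap.id - i0 W ∘ₗ p0 W) ∘ₗ Pmap (q2 W)
  have hD : ∀ W z, D W z = i0 W (P.d _ (p1 W (Pmap (q1 W) z))) +
      (Pmap (q2 W) z - i0 W (p0 W (Pmap (q2 W) z))) := fun _ _ => rfl
  obtain ⟨r, c, h⟩ := hY (m + n) n D fun V V' g => LinearMap.ext fun z => by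
    have e1 : Pmap (q1 V') (Pmap (g.1.compLeft _) z) = Pmap (g.1.compLeft _) (Pmap (q1 V) z) := by
      rw [← LinearMap.comp_apply, ← LinearMap.comp_apply, ← Pmap_comp, ← Pmap_comp]; rfl
    have e2 : Pmap (q2 V') (Pmap (g.1.compLeft _) z) = Pmap (g.1.compLeft _) (Pmap (q2 V) z) := by
      rw [← LinearMap.comp_apply, ← LinearMap.comp_apply, ← Pmap_comp, ← Pmap_comp]; rfl
    have e3 := fun y => LinearMap.congr_fun (hA.dnat (atM v g)) y
    simp only [LinearMap.comp_apply] at e3 ⊢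
    rw [hD, hD, e1, e2, a3, e3, b2, b3, b2, map_add, map_sub]
  have e0 : ∀ W : XV k, P.D (At v W) 0 = P.d _ := fun W => by rw [PD.D, map_zero, add_zero]
  choose ψ hψ using fun W : XV k => FAM.quot (Xd ⟨n, m + n, r, c⟩ W) (P.D (At v W) 0) (i0 W) (p0 W)
    (b1 W) (fun z => ⟨p1 W (Pmap (q1 W) z), by
      rw [← h, hD, e0, map_add, map_sub, b1, b1, sub_self, add_zero]⟩)
    (fun z => by
      obtain ⟨y, y1, y2⟩ := sec W (i1 W z) 0
      exact ⟨y, by rw [← h, hD, y1, y2, e0, a1]; simp⟩)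
    fun z => by
      obtain ⟨y, y1, y2⟩ := sec W 0 z
      exact ⟨y, by rw [← h, hD, y1, y2]; simp⟩
  refine ⟨⟨n, m + n, r, c⟩, ψ, fun W W' g hc z => ?_⟩
  obtain ⟨z, rfl⟩ := Submodule.Quotient.mk_surjective _ z
  exact (hψ W' (Pmap (g.1.compLeft _) z)).trans ((congrArg Submodule.Quotient.mk (b3 W W' g z)).trans
    (congrArg (PD.Hm hc) (hψ W z)).symm)

end Pool.Agent.P.MP_cf639b_al.Red
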