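import Pool.Agent.P.MP_cf639b_al.Red.Iface

set_option linter.dupNamespace false

namespace Pool.Agent.P.MP_cf639b_al.Red

universe u
open TensorProduct Polynomial

noncomputable section

variable {k : Type u} [Field k] {R : Type u} [Ring R] [Algebra k R]

namespace FIT

theorem cm {A : Type u} [Ring A] [Algebra k A] {y z : A} (h : Commute y z) (p : k[X]) :
    Commute (aeval y p) z := by
  induction p using Polynomial.induction_on' with
  | add p q hp hq => rw [map_add]; exact hp.add_left hq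
  | monomial n c =>
    rw [aeval_monomial]
    exact Commute.mul_left (Algebra.commutes c _) (h.pow_left n)

end FIT

theorem t_FIT : S_FIT k := by
  intro F _ _ E _ V ρ y hl h1 h2
  obtain ⟨_, _⟩ := isFiniteLength_iff_isNoetherian_isArtinian.1 (Module.length_ne_top_iff.1 hl)
  let L : k[X] → Module.End E (RM ρ) := fun p =>
    ⟨⟨aeval y p, map_add _⟩, fun e z => LinearMap.congr_fun (FIT.cm (h1 e) p).eq z⟩
  have sw : ∀ (p q : k[X]) z, aeval y p (aeval y q z) = aeval y q (aeval y p z) := fun p q z => by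
    rw [← Module.End.mul_apply, ← map_mul, mul_comm, map_mul, Module.End.mul_apply]
  obtain ⟨_, ⟨Q, hQ, rfl⟩, hm⟩ := set_has_maximal_iff_noetherian.2
    (inferInstance : IsNoetherian E (RM ρ))
    {N | ∃ p : k[X], p ≠ 0 ∧ N = LinearMap.ker (L p)} ⟨_, 1, one_ne_zero, rfl⟩
  have key : ∀ p : k[X], p ≠ 0 → ∀ z, aeval y p (aeval y Q z) = 0 → aeval y Q z = 0 :=
    fun p hp z hz => by
      have le : LinearMap.ker (L Q) ≤ LinearMap.ker (L (p * Q)) := fun t ht =>
        show aeval y (p * Q) t = 0 by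
          rw [map_mul]; exact (congrArg (aeval y p) ht).trans (map_zero _)
      exact (le.eq_or_lt.resolve_right (hm _ ⟨_, mul_ne_zero hp hQ, rfl⟩)).ge
        (show aeval y (p * Q) z = 0 by rw [map_mul]; exact hz)
  have sj : ∀ p : k[X], p ≠ 0 → ∀ z, ∃ t, aeval y p (aeval y Q t) = aeval y Q z := fun p hp z => by
    obtain ⟨⟨_, t, rfl⟩, ht⟩ := IsArtinian.surjective_of_injective_endomorphism
      ((L p).restrict (p := LinearMap.range (L Q)) (q := LinearMap.range (L Q)) (by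
        rintro _ ⟨t, rfl⟩; exact ⟨L p t, sw Q p t⟩))
      ((injective_iff_map_eq_zero _).2 (by
        rintro ⟨_, t, rfl⟩ ht; exact Subtype.ext (key p hp t (congrArg Subtype.val ht))))
      ⟨_, z, rfl⟩
    exact ⟨t, congrArg Subtype.val ht⟩
  have st : ∀ u : Module.End k V.V, y * u = u * y → ∀ z, aeval y Q (u z) = u (aeval y Q z) :=
    fun u hu => LinearMap.congr_fun (FIT.cm hu Q).eq
  refine ⟨Q, hQ, LinearMap.ker (aeval y Q), LinearMap.range (aeval y Q), ⟨Submodule.disjoint_def.2 ?_,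
    codisjoint_iff.2 (Submodule.eq_top_iff'.2 fun z => ?_)⟩,
    fun c z hz => (st _ (h2 c) z).trans (by rw [LinearMap.mem_ker.1 hz, map_zero]), ?_,
    fun z hz => (st _ rfl z).trans (by rw [LinearMap.mem_ker.1 hz, map_zero]), ?_, fun _ hz => hz,
    fun p hp => ⟨?_, ?_⟩⟩
  · rintro _ h ⟨t, rfl⟩
    exact key Q hQ t h
  · obtain ⟨t, ht⟩ := sj Q hQ z
    exact Submodule.mem_sup.2 ⟨z - aeval y Q t, by rw [LinearMap.mem_ker, map_sub, ht, sub_self], _,
      ⟨t, rfl⟩, sub_add_cancel _ _⟩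
  · rintro c _ ⟨t, rfl⟩
    exact ⟨_, st _ (h2 c) t⟩
  · rintro _ ⟨t, rfl⟩
    exact ⟨_, st _ rfl t⟩
  · rintro _ ⟨t, rfl⟩
    exact key p hp t
  · rintro _ ⟨t, rfl⟩
    obtain ⟨s, hs⟩ := sj p hp t
    exact ⟨_, ⟨s, rfl⟩, hs⟩

end
end Pool.Agent.P.MP_cf639b_al.Red
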