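import Pool.Agent.P.MP_cf639b_al.Red.Iface

set_option linter.dupNamespace false

namespace Pool.Agent.P.MP_cf639b_al.Red

universe u
open TensorProduct Polynomial

noncomputable section

variable {k : Type u} [Field k] {R : Type u} [Ring R] [Algebra k R]

namespace INIT1
variable (D : Dc k R)

theorem ent_zero {c c' : D.C} (μ : D.Q c →ₗ[R] D.Q c') (e e' : Bool) (V V' : D.C × Bool → XV k)
    (w : V (c, e) →ₗ[k] V' (c', e')) (z : D.GT e V) (h : z c = 0) : D.ent μ e e' V V' w z = 0 := by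
  funext c''
  by_cases h' : c'' = c'
  · subst h'
    rw [D.ent_self, h, map_zero]
    rfl
  · exact D.ent_ne h' _ _ _ _ _ _ _

/-- the entry map as a function of `μ` -/
def entL {c c' : D.C} (e e' : Bool) (V V' : D.C × Bool → XV k)
    (w : V (c, e) →ₗ[k] V' (c', e')) :
    (D.Q c →ₗ[R] D.Q c') →ₗ[k] (D.GT e V →ₗ[R] D.GT e' V') where
  toFun μ := D.ent μ e e' V V' w
  map_add' μ ν := LinearMap.ext fun z => funext fun c'' => by
    change _ = D.ent μ e e' V V' w z c'' + D.ent ν e e' V V' w z c''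
    by_cases h : c'' = c'
    · subst h
      have e1 : tm (μ + ν) w = tm μ w + tm ν w :=
        AlgebraTensorModule.ext fun _ _ => by simp [add_tmul]
      rw [D.ent_self, D.ent_self, D.ent_self, e1, LinearMap.add_apply]
    · rw [D.ent_ne h, D.ent_ne h, D.ent_ne h, add_zero]
  map_smul' a μ := LinearMap.ext fun z => funext fun c'' => by
    change _ = a • D.ent μ e e' V V' w z c''
    by_cases h : c'' = c'
    · subst h
      have e1 : tm (a • μ) w = a • tm μ w :=
        AlgebraTensorModule.ext fun _ _ => by simp [smul_tmul']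
      rw [D.ent_self, D.ent_self, e1, LinearMap.smul_apply]
    · rw [D.ent_ne h, D.ent_ne h, smul_zero]

theorem ent_comp {c c' c'' : D.C} (ν : D.Q c' →ₗ[R] D.Q c'') (μ : D.Q c →ₗ[R] D.Q c')
    (e e' e'' : Bool) (V V' V'' : D.C × Bool → XV k) (w' : V' (c', e') →ₗ[k] V'' (c'', e''))
    (w : V (c, e) →ₗ[k] V' (c', e')) :
    D.ent ν e' e'' V' V'' w' ∘ₗ D.ent μ e e' V V' w = D.ent (ν ∘ₗ μ) e e'' V V'' (w' ∘ₗ w) := by
  refine LinearMap.ext fun z => funext fun c3 => ?_
  rw [LinearMap.comp_apply]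
  by_cases h : c3 = c''
  · subst h
    rw [D.ent_self, D.ent_self, D.ent_self]
    exact LinearMap.congr_fun (tm_comp ν μ w' w) (z c)
  · rw [D.ent_ne h, D.ent_ne h]

theorem ent_comp_ne {c c' c1 c'' : D.C} (h : c1 ≠ c') (ν : D.Q c1 →ₗ[R] D.Q c'')
    (μ : D.Q c →ₗ[R] D.Q c') (e e' e'' : Bool) (V V' V'' : D.C × Bool → XV k)
    (w' : V' (c1, e') →ₗ[k] V'' (c'', e'')) (w : V (c, e) →ₗ[k] V' (c', e')) :
    D.ent ν e' e'' V' V'' w' ∘ₗ D.ent μ e e' V V' w = 0 :=
  LinearMap.ext fun _ => ent_zero D ν e' e'' V' V'' w' _ (D.ent_ne h _ _ _ _ _ _ _)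

theorem b_mem {c c' : D.C} (j : D.I c c') : D.b c c' j ∈ D.F.J (D.lev c c' j) c c' := by
  classical
  refine (D.hb _ _ _ _).mpr fun j' hj => ?_
  rw [Module.Basis.repr_self, Finsupp.single_apply, if_neg]
  rintro rfl
  exact lt_irrefl _ hj

theorem ent_mem (a : D.P.A) {c c' : D.C} (ν : D.Q c →ₗ[R] D.Q c')
    (hν : ν ∈ D.F.J (D.lev _ _ a.2.2 + 1) c c') (V V' : D.C × Bool → XV k)
    (w : V (c, true) →ₗ[k] V' (c', false)) : D.ent ν true false V V' w ∈ D.P.Mgt a V V' := by
  classical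
  have e : D.ent ν true false V V' w =
      ∑ j, (D.b c c').repr ν j • D.ent (D.b c c' j) true false V V' w := by
    have e1 := congrArg (entL D true false V V' w) ((D.b c c').sum_repr ν)
    rw [map_sum] at e1
    exact e1.symm.trans (Finset.sum_congr rfl fun j _ => map_smul (entL D true false V V' w) _ _)
  rw [e]
  refine Submodule.sum_mem (D.P.Mgt a V V') fun j _ => ?_
  by_cases h : D.lev c c' j < D.lev _ _ a.2.2 + 1
  · rw [(D.hb _ _ _ _).mp hν j h, zero_smul]
    exact zero_mem _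
  · refine Submodule.smul_mem _ _ ⟨_, fun a' ha => ?_,
      (PD.ms_single (P := D.P) (⟨c, c', j⟩ : D.P.A) w).symm⟩
    refine @Pi.single_eq_of_ne _ _ _ (fun _ _ => Classical.propDecidable _) _ _ ?_ _
    rintro rfl
    exact ha (by change D.lev _ _ a.2.2 < D.lev c c' j; omega)

open Classical in
/-- the component of a map -/
def cmp {e e' : Bool} {V V' : D.C × Bool → XV k} (φ : D.GT e V →ₗ[R] D.GT e' V') (c c' : D.C) :
    D.Q c ⊗[k] V (c, e) →ₗ[R] D.Q c' ⊗[k] V' (c', e') :=
  LinearMap.proj c' ∘ₗ φ ∘ₗ LinearMap.single R (fun c => D.Q c ⊗[k] V (c, e)) c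

theorem cmp_ext {e e' : Bool} {V V' : D.C × Bool → XV k} {φ ψ : D.GT e V →ₗ[R] D.GT e' V'}
    (h : ∀ c c', cmp D φ c c' = cmp D ψ c c') : φ = ψ := by
  classical
  exact LinearMap.pi_ext fun c y => funext fun c' => LinearMap.congr_fun (h c c') y

theorem cmp_ms (V V' : D.C × Bool → XV k) (w : D.P.W V V') (c c' : D.C) :
    cmp D (D.P.ms V V' w) c c' = ∑ j, tm (D.b c c' j) (w ⟨c, c', j⟩) := by
  classical
  refine LinearMap.ext fun y => ?_
  have e : D.P.ms V V' w = ∑ c1, ∑ c2, ∑ j, D.ent (D.b c1 c2 j) true false V V' (w ⟨c1, c2, j⟩) :=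
    (D.P.ms_apply V V' w).trans ((Fintype.sum_sigma _).trans
      (Finset.sum_congr rfl fun c1 _ => Fintype.sum_sigma _))
  rw [e]
  change (∑ c1, ∑ c2, ∑ j, D.ent (D.b c1 c2 j) true false V V' (w ⟨c1, c2, j⟩))
    (Pi.single c y) c' = _
  simp only [LinearMap.sum_apply, Finset.sum_apply]
  rw [Finset.sum_eq_single c (fun c1 _ h => Finset.sum_eq_zero fun c2 _ =>
      Finset.sum_eq_zero fun j _ => congrFun (ent_zero D _ _ _ _ _ _ _ (Pi.single_eq_of_ne h _)) c')
      (by simp),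
    Finset.sum_eq_single c' (fun c2 _ h => Finset.sum_eq_zero fun j _ =>
      D.ent_ne (Ne.symm h) _ _ _ _ _ _ _) (by simp)]
  refine Finset.sum_congr rfl fun j _ => ?_
  rw [D.ent_self, Pi.single_eq_same]

theorem bij (hT : S_TEN k R) (V V' : D.C × Bool → XV k) : Function.Bijective (D.P.ms V V') := by
  have h := fun c c' => hT (D.Q c) (D.Q c') (D.fd c) (D.fd c') _ (D.b c c') (V (c, true))
    (V' (c', false))
  constructor
  · intro w w' e
    funext a
    obtain ⟨c, c', j⟩ := a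
    have e1 := (h c c').1 (a₁ := fun j => w ⟨c, c', j⟩) (a₂ := fun j => w' ⟨c, c', j⟩)
      ((cmp_ms D V V' w c c').symm.trans ((congrArg (fun φ => cmp D φ c c') e).trans
        (cmp_ms D V V' w' c c')))
    exact congrFun e1 j
  · intro φ
    choose u hu using fun c c' => (h c c').2 (cmp D φ c c')
    exact ⟨fun a => u a.1 a.2.1 a.2.2, cmp_ext D fun c c' => (cmp_ms D V V' _ c c').trans (hu c c')⟩

theorem r2l (V V' V'' : D.C × Bool → XV k) (r : HH D.P.G V' V'') (hr : r ∈ D.P.Rad V' V'')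
    (a : D.P.A) (w : V (D.P.s a) →ₗ[k] V' (D.P.t a)) :
    r false ∘ₗ (D.P.m a).app V V' w ∈ D.P.Mgt a V V'' := by
  induction hr using Submodule.span_induction with
  | mem φ h =>
    obtain ⟨_, ⟨c1, c2, e, μ, hμ, rfl⟩, w', rfl⟩ := h
    obtain ⟨c, c', j⟩ := a
    by_cases h : c1 = c'
    · subst h
      exact (ent_comp D μ (D.b c c1 j) true false false V V' V'' _ w).symm ▸
        ent_mem D ⟨c, c1, j⟩ _ (D.F.l _ _ _ _ _ hμ _ (b_mem D j)) V V'' _
    · exact (ent_comp_ne D h μ (D.b c c' j) true false false V V' V'' _ w).symm ▸ zero_mem _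
  | zero => exact zero_mem _
  | add x y _ _ hx hy => exact add_mem hx hy
  | smul c x _ hx => exact Submodule.smul_mem _ c hx

theorem r2r (V V' V'' : D.C × Bool → XV k) (r : HH D.P.G V V') (hr : r ∈ D.P.Rad V V')
    (a : D.P.A) (w : V' (D.P.s a) →ₗ[k] V'' (D.P.t a)) :
    (D.P.m a).app V' V'' w ∘ₗ r true ∈ D.P.Mgt a V V'' := by
  induction hr using Submodule.span_induction with
  | mem φ h =>
    obtain ⟨_, ⟨c1, c2, e, μ, hμ, rfl⟩, w', rfl⟩ := h
    obtain ⟨c, c', j⟩ := a
    by_cases h : c = c2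
    · subst h
      exact (ent_comp D (D.b c c' j) μ true true false V V' V'' w _).symm ▸
        ent_mem D ⟨c, c', j⟩ _ (D.F.r _ _ _ _ _ (b_mem D j) _ hμ) V V'' _
    · exact (ent_comp_ne D h (D.b c c' j) μ true true false V V' V'' w _).symm ▸ zero_mem _
  | zero => rw [Pi.zero_apply, LinearMap.comp_zero]; exact zero_mem _
  | add x y _ _ hx hy => rw [Pi.add_apply, LinearMap.comp_add]; exact add_mem hx hy
  | smul c x _ hx =>
    rw [Pi.smul_apply, LinearMap.comp_smul]
    exact Submodule.smul_mem _ c hx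

open Classical in
/-- the inclusion into the free module -/
def pI (b : ∀ c, D.B c) (e : Bool) (V : D.C × Bool → XV k) :
    D.GT e V →ₗ[R] R ⊗[k] (∀ c, V (c, e)) :=
  ∑ c, AlgebraTensorModule.map (D.i c (b c)) (LinearMap.single k (fun c => V (c, e)) c) ∘ₗ
    LinearMap.proj c

/-- the projection from the free module -/
def pP (b : ∀ c, D.B c) (e : Bool) (V : D.C × Bool → XV k) :
    R ⊗[k] (∀ c, V (c, e)) →ₗ[R] D.GT e V :=
  LinearMap.pi fun c => AlgebraTensorModule.map (D.p c (b c))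
    (LinearMap.proj (R := k) (φ := fun c => V (c, e)) c)

open Classical in
theorem pI_single (b : ∀ c, D.B c) (e : Bool) (V : D.C × Bool → XV k) (c : D.C) (q : D.Q c)
    (v : V (c, e)) : pI D b e V (Pi.single c (q ⊗ₜ v)) = D.i c (b c) q ⊗ₜ Pi.single c v := by
  rw [pI, LinearMap.sum_apply, Finset.sum_eq_single c (fun c1 _ h => by
    rw [LinearMap.comp_apply, LinearMap.proj_apply, Pi.single_eq_of_ne h, map_zero]) (by simp),
    LinearMap.comp_apply, LinearMap.proj_apply, Pi.single_eq_same]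
  rfl

theorem pP_tmul (b : ∀ c, D.B c) (e : Bool) (V : D.C × Bool → XV k) (r : R) (z : ∀ c, V (c, e))
    (c : D.C) : pP D b e V (r ⊗ₜ z) c = D.p c (b c) r ⊗ₜ z c := rfl

open Classical in
theorem GT_ext {e : Bool} {V : D.C × Bool → XV k} {T : Type u} [AddCommGroup T] [Module R T]
    {f g : D.GT e V →ₗ[R] T}
    (h : ∀ c q v, f (Pi.single c (q ⊗ₜ v)) = g (Pi.single c (q ⊗ₜ v))) : f = g :=
  LinearMap.pi_ext fun c y => by
    induction y using TensorProduct.induction_on with
    | zero => rw [Pi.single_zero, map_zero, map_zero]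
    | tmul q v => exact h c q v
    | add x y hx hy => rw [Pi.single_add, map_add, map_add, hx, hy]

theorem proj (e : Bool) : (D.P.G e).Proj := by
  classical
  have b : ∀ c, D.B c := fun c => (D.ne c).some
  refine ⟨D.C, inferInstance, fun c => (c, e), pI D b e, pP D b e, fun V => ?_, fun V V' g => ?_,
    fun V V' g => P_ext fun z => rfl⟩
  · refine GT_ext D fun c q v => funext fun c' => ?_
    change pP D b e V (pI D b e V _) c' = _
    rw [pI_single, pP_tmul]
    change _ = (Pi.single c (q ⊗ₜ v) : D.GT e V) c'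
    by_cases h : c' = c
    · subst h
      rw [Pi.single_eq_same, Pi.single_eq_same]
      exact congrArg (· ⊗ₜ[k] v) (LinearMap.congr_fun (D.pi_self c' (b c')) q)
    · rw [Pi.single_eq_of_ne h, Pi.single_eq_of_ne h, tmul_zero]
  · refine GT_ext D fun c q v => ?_
    have e1 : DFunLike.coe (F := D.GT e V →ₗ[R] D.GT e V') ((D.G e).map g) (Pi.single c (q ⊗ₜ v)) =
        Pi.single c (q ⊗ₜ (g (c, e)).1 v) := funext fun c' => by
      rw [D.G_map]
      by_cases h : c' = c
      · subst h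
        rw [Pi.single_eq_same, Pi.single_eq_same]
        rfl
      · rw [Pi.single_eq_of_ne h, Pi.single_eq_of_ne h, map_zero]
    refine (congrArg (pI D b e V') e1).trans ?_
    change _ = Pmap _ (pI D b e V _)
    rw [pI_single, pI_single, Pmap_tmul]
    refine congrArg _ (funext fun c' => ?_)
    rw [piM_apply]
    by_cases h : c' = c
    · subst h
      rw [Pi.single_eq_same, Pi.single_eq_same]
    · rw [Pi.single_eq_of_ne h, Pi.single_eq_of_ne h, map_zero]

end INIT1

theorem t_INIT1 : S_TEN k R → S_INIT1 k R := fun hT D =>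
  ⟨INIT1.proj D, INIT1.bij D hT, fun V V' V'' r hr => INIT1.r2l D V V' V'' r hr,
    fun V V' V'' r hr => INIT1.r2r D V V' V'' r hr⟩

end
end Pool.Agent.P.MP_cf639b_al.Red
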