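import Pool.Agent.P.MP_cf639b_al.Red.Iface

set_option linter.dupNamespace false

namespace Pool.Agent.P.MP_cf639b_al.Red

universe u
open TensorProduct

noncomputable section

variable {k : Type u} [Field k] {R : Type u} [Ring R] [Algebra k R]

namespace INIT2

section sp
variable {A B C : Md k R} {U U' U'' : Type u} [AddCommGroup U] [Module k U] [AddCommGroup U']
  [Module k U'] [AddCommGroup U''] [Module k U'']

variable (U U') in
/-- the span of the maps `μ ⊗ w`, `μ ∈ J` -/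
def Sp (J : Submodule k (A →ₗ[R] B)) : Submodule k (A ⊗[k] U →ₗ[R] B ⊗[k] U') :=
  Submodule.span k {φ | ∃ μ ∈ J, ∃ w, φ = tm μ w}

theorem tm_mem {J : Submodule k (A →ₗ[R] B)} {μ : A →ₗ[R] B} (h : μ ∈ J) (w : U →ₗ[k] U') :
    tm μ w ∈ Sp U U' J := Submodule.subset_span ⟨μ, h, w, rfl⟩

theorem Sp_mono {J J' : Submodule k (A →ₗ[R] B)} (h : J ≤ J') : Sp U U' J ≤ Sp U U' J' :=
  Submodule.span_mono fun _ ⟨μ, h1, h2⟩ => ⟨μ, h h1, h2⟩

theorem Sp_bot : Sp U U' (⊥ : Submodule k (A →ₗ[R] B)) = ⊥ :=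
  Submodule.span_eq_bot.2 (by
    rintro _ ⟨μ, h, w, rfl⟩
    rw [(Submodule.mem_bot k).1 h]
    exact AlgebraTensorModule.ext fun _ _ => by simp)

theorem Sp_comp {J : Submodule k (B →ₗ[R] C)} {J' : Submodule k (A →ₗ[R] B)}
    {J'' : Submodule k (A →ₗ[R] C)} (h : ∀ μ ∈ J, ∀ ν ∈ J', μ ∘ₗ ν ∈ J'')
    {φ : B ⊗[k] U' →ₗ[R] C ⊗[k] U''} (hφ : φ ∈ Sp U' U'' J) {ψ : A ⊗[k] U →ₗ[R] B ⊗[k] U'}
    (hψ : ψ ∈ Sp U U' J') : φ ∘ₗ ψ ∈ Sp U U'' J'' := by
  induction hφ using Submodule.span_induction with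
  | mem φ h1 =>
    obtain ⟨μ, hμ, w, rfl⟩ := h1
    induction hψ using Submodule.span_induction with
    | mem ψ h2 =>
      obtain ⟨ν, hν, w', rfl⟩ := h2
      rw [tm_comp]
      exact tm_mem (h μ hμ ν hν) _
    | zero => rw [LinearMap.comp_zero]; exact zero_mem _
    | add a b _ _ ha hb => rw [LinearMap.comp_add]; exact add_mem ha hb
    | smul c a _ ha => rw [LinearMap.comp_smul]; exact Submodule.smul_mem _ c ha
  | zero => rw [LinearMap.zero_comp]; exact zero_mem _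
  | add a b _ _ ha hb => rw [LinearMap.add_comp]; exact add_mem ha hb
  | smul c a _ ha => rw [LinearMap.smul_comp]; exact Submodule.smul_mem _ c ha

theorem tm_repr {I : Type} [Fintype I] (b : Module.Basis I k (A →ₗ[R] B)) (μ : A →ₗ[R] B)
    (w : U →ₗ[k] U') : tm μ w = ∑ j, tm (b j) (b.repr μ j • w) :=
  AlgebraTensorModule.ext fun a v => by
    conv_lhs => rw [← b.sum_repr μ]
    simp only [LinearMap.sum_apply, tm_tmul, LinearMap.smul_apply, sum_tmul, smul_tmul]

theorem Sp_coord {I : Type} [Fintype I] (b : Module.Basis I k (A →ₗ[R] B)) (p : I → Prop)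
    {J : Submodule k (A →ₗ[R] B)} (hJ : ∀ μ ∈ J, ∀ j, p j → b.repr μ j = 0)
    {φ : A ⊗[k] U →ₗ[R] B ⊗[k] U'} (hφ : φ ∈ Sp U U' J) :
    ∃ w : I → U →ₗ[k] U', (∀ j, p j → w j = 0) ∧ φ = ∑ j, tm (b j) (w j) := by
  induction hφ using Submodule.span_induction with
  | mem φ h1 =>
    obtain ⟨μ, hμ, w, rfl⟩ := h1
    exact ⟨fun j => b.repr μ j • w, fun j hj => by simp only [hJ μ hμ j hj, zero_smul],
      tm_repr b μ w⟩
  | zero => exact ⟨0, fun _ _ => rfl, by simp⟩
  | add _ _ _ _ ha hb =>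
    obtain ⟨w, h1, rfl⟩ := ha
    obtain ⟨w', h2, rfl⟩ := hb
    exact ⟨w + w', fun j hj => by simp [h1 j hj, h2 j hj], by simp [Finset.sum_add_distrib]⟩
  | smul c _ _ ha =>
    obtain ⟨w, h1, rfl⟩ := ha
    exact ⟨c • w, fun j hj => by simp [h1 j hj], by simp [Finset.smul_sum]⟩

theorem tm_sub (μ : A →ₗ[R] B) (a : k) (ν : A →ₗ[R] B) (w : U →ₗ[k] U') :
    tm (μ - a • ν) w = tm μ w - tm ν (a • w) :=
  AlgebraTensorModule.ext fun x v => by
    simp only [LinearMap.sub_apply, tm_tmul, LinearMap.smul_apply, sub_tmul, smul_tmul]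
end sp

variable (D : Dc k R)

theorem Sp_top (hT : S_TEN k R) (c c' : D.C) {U U' : Type u} [AddCommGroup U] [Module k U]
    [AddCommGroup U'] [Module k U'] (φ : D.Q c ⊗[k] U →ₗ[R] D.Q c' ⊗[k] U') :
    φ ∈ Sp U U' (⊤ : Submodule k (D.Q c →ₗ[R] D.Q c')) := by
  obtain ⟨w, rfl⟩ := (hT _ _ (D.fd c) (D.fd c') _ (D.b c c') U U').2 φ
  exact Submodule.sum_mem _ fun j _ => tm_mem Submodule.mem_top _

variable {V V' V'' : D.C × Bool → XV k} {e : Bool}

open Classical in
/-- a component -/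
def cp (c c' : D.C) : (D.GT e V →ₗ[R] D.GT e V') →ₗ[k]
    (D.Q c ⊗[k] V (c, e) →ₗ[R] D.Q c' ⊗[k] V' (c', e)) where
  toFun φ := LinearMap.proj c' ∘ₗ φ ∘ₗ LinearMap.single R (fun c => D.Q c ⊗[k] V (c, e)) c
  map_add' _ _ := rfl
  map_smul' _ _ := rfl

open Classical in
theorem cp_apply (c c' : D.C) (φ : D.GT e V →ₗ[R] D.GT e V') (z : D.Q c ⊗[k] V (c, e)) :
    cp D c c' φ z = φ (Pi.single c z) c' := rfl

theorem cp_sum (φ : D.GT e V →ₗ[R] D.GT e V') (z : D.GT e V) (c' : D.C) :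
    φ z c' = ∑ c, cp D c c' φ (z c) := by
  classical
  conv_lhs => rw [← Finset.univ_sum_single z, map_sum, Finset.sum_apply]
  exact Finset.sum_congr rfl fun c _ => by rw [cp_apply]

theorem cp_comp (φ : D.GT e V' →ₗ[R] D.GT e V'') (ψ : D.GT e V →ₗ[R] D.GT e V') (c c'' : D.C) :
    cp D c c'' (φ ∘ₗ ψ) = ∑ c', cp D c' c'' φ ∘ₗ cp D c c' ψ :=
  LinearMap.ext fun z => by
    rw [LinearMap.sum_apply, cp_apply, LinearMap.comp_apply, cp_sum]
    rfl

variable (V V') in
/-- maps with components in the `n`-th step of the filtration -/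
def Cn (n : ℕ) : Submodule k (HH D.G V V') where
  carrier := {φ | ∀ e c c', cp D c c' (φ e) ∈ Sp (V (c, e)) (V' (c', e)) (D.F.J n c c')}
  add_mem' h1 h2 e c c' := add_mem (h1 e c c') (h2 e c c')
  zero_mem' _ _ _ := zero_mem _
  smul_mem' a _ h e c c' := Submodule.smul_mem _ a (h e c c')

theorem Cn_comp {n : ℕ} {φ : HH D.G V' V''} {ψ : HH D.G V V'} (h : φ ∈ Cn D V' V'' 1)
    (h' : ψ ∈ Cn D V V' n) : HH.comp φ ψ ∈ Cn D V V'' (n + 1) := fun e c c'' => by
  have := cp_comp D (φ e) (ψ e) c c''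
  refine this ▸ Submodule.sum_mem _ fun c' _ => ?_
  exact Sp_comp (D.F.l n c c' c'') (h e c' c'') (h' e c c')

theorem rad_le : D.P.Rad V V' ≤ Cn D V V' 1 := by
  classical
  refine Submodule.span_le.2 ?_
  rintro _ ⟨_, ⟨c, c', e, μ, hμ, rfl⟩, w, rfl⟩ e' a a'
  change cp D a a' (D.ent μ e' e' V V' (tf V V' (c, e) (c', e) (c, e') (c', e') w)) ∈ _
  generalize tf V V' (c, e) (c', e) (c, e') (c', e') w = w'
  by_cases h' : a' = c'
  · subst h'
    by_cases h : a = c
    · subst h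
      have : cp D a a' (D.ent μ e' e' V V' w') = tm μ w' := LinearMap.ext fun z => by
        rw [cp_apply, Dc.ent_self, Pi.single_eq_same]
      exact this ▸ tm_mem hμ w'
    · have : cp D a a' (D.ent μ e' e' V V' w') = 0 := LinearMap.ext fun z => by
        rw [cp_apply, Dc.ent_self, Pi.single_eq_of_ne (Ne.symm h), map_zero, LinearMap.zero_apply]
      exact this ▸ zero_mem _
  · have : cp D a a' (D.ent μ e' e' V V' w') = 0 := LinearMap.ext fun z => by
      rw [cp_apply, D.ent_ne h', LinearMap.zero_apply]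
    exact this ▸ zero_mem _

open Classical in
/-- the map with one component -/
def em (c c' : D.C) : (D.Q c ⊗[k] V (c, e) →ₗ[R] D.Q c' ⊗[k] V' (c', e)) →ₗ[k]
    (D.GT e V →ₗ[R] D.GT e V') where
  toFun φ := LinearMap.single R (fun c => D.Q c ⊗[k] V' (c, e)) c' ∘ₗ φ ∘ₗ LinearMap.proj c
  map_add' w w' := by simp [LinearMap.add_comp, LinearMap.comp_add]
  map_smul' a w := LinearMap.ext fun z => by simp [Pi.single_smul]

theorem sum_em (φ : D.GT e V →ₗ[R] D.GT e V') : ∑ c, ∑ c', em D c c' (cp D c c' φ) = φ := by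
  classical
  refine LinearMap.ext fun z => funext fun a => ?_
  rw [cp_sum D φ, LinearMap.sum_apply, Finset.sum_apply]
  refine Finset.sum_congr rfl fun c _ => ?_
  rw [LinearMap.sum_apply, Finset.sum_apply, Finset.sum_eq_single a
    (fun b _ h => by simp [em, Ne.symm h]) (by simp)]
  simp [em]

theorem le_rad : Cn D V V' 1 ≤ D.P.Rad V V' := fun φ h => by
  rw [← Finset.univ_sum_single φ]
  refine Submodule.sum_mem _ fun e _ => ?_
  let s : (D.GT e V →ₗ[R] D.GT e V') →ₗ[k] HH D.G V V' :=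
    LinearMap.single k (fun e => (D.G e).obj V →ₗ[R] (D.G e).obj V') e
  change s (φ e) ∈ _
  rw [← sum_em D (φ e), map_sum]
  refine Submodule.sum_mem _ fun c _ => ?_
  rw [map_sum]
  refine Submodule.sum_mem _ fun c' _ => ?_
  have key : Sp (V (c, e)) (V' (c', e)) (D.F.J 1 c c') ≤
      (D.P.Rad V V').comap (s ∘ₗ em D c c') := by
    refine Submodule.span_le.2 ?_
    rintro _ ⟨μ, hμ, w, rfl⟩
    refine Submodule.subset_span ⟨⟨(c, e), (c', e), D.rd μ e⟩, ⟨c, c', e, μ, hμ, rfl⟩, w,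
      funext fun e' => ?_⟩
    refine Eq.trans ?_ (D.rd_app μ e e' V V' w).symm
    by_cases he : e' = e
    · subst he
      rw [tf_self]
      exact Pi.single_eq_same _ _
    · rw [tf_of_ne (Or.inl fun h => he (congrArg Prod.snd h)), map_zero]
      exact Pi.single_eq_of_ne he _
  exact key (h e c c')

theorem cp_gm (g : FH V V') (c : D.C) :
    cp D c c ((D.G e).map g) = tm LinearMap.id (g (c, e)).1 := LinearMap.ext fun z => by
  classical
  rw [cp_apply, Dc.G_map, Pi.single_eq_same]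

end INIT2

open INIT2 in
theorem t_INIT2 : S_TEN k R → S_INIT2 k R := by
  intro hT D
  refine ⟨fun V V' V'' r hr r' hr' => le_rad D fun e c c' =>
    Sp_mono (D.F.anti 1 c c') (Cn_comp D (rad_le D hr) (rad_le D hr') e c c'),
    ⟨D.F.n0, fun V l hl h => ?_⟩, fun V V' g h => ?_, fun V V' hV hV' φ => ?_⟩
  · have key : ∀ l : List (∀ e, Module.End R ((D.P.G e).obj V)), (∀ r ∈ l, r ∈ D.P.Rad V V) →
        l.prod ∈ Cn D V V l.length := fun l => by
      induction l with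
      | nil => exact fun _ e c c' => (D.F.J0 c c').symm ▸ Sp_top D hT c c' _
      | cons a l ih =>
        intro h
        rw [List.prod_cons]
        exact Cn_comp D (rad_le D (h a List.mem_cons_self))
          (ih fun r hr => h r (List.mem_cons_of_mem a hr))
    have h1 := key l h
    rw [hl] at h1
    refine funext fun e => (sum_em D (l.prod e)).symm.trans
      (Finset.sum_eq_zero fun c _ => Finset.sum_eq_zero fun c' _ => ?_)
    have h2 := h1 e c c'
    rw [D.F.bot, Sp_bot, Submodule.mem_bot] at h2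
    rw [h2, map_zero]
  · refine funext fun ⟨c, e⟩ => Subtype.ext ?_
    have h1 : cp D c c ((D.G e).map g) ∈ _ := rad_le D h e c c
    rw [cp_gm] at h1
    obtain ⟨w, h2, h3⟩ := Sp_coord (D.b c c) (fun j => D.lev c c j < 1)
      (fun μ hμ => (D.hb 1 c c μ).1 hμ) h1
    rw [tm_repr (D.b c c)] at h3
    have h4 := (hT _ _ (D.fd c) (D.fd c) _ (D.b c c) _ _).1 h3
    by_contra hne
    refine one_ne_zero (D.F.inj c 1 ((D.hb 1 c c _).2 fun j hj => ?_))
    rw [one_smul]
    exact (smul_eq_zero.1 ((congrFun h4 j).trans (h2 j hj))).resolve_right hne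
  · choose w hw using fun e c =>
      (hT _ _ (D.fd c) (D.fd c) _ (D.b c c) (V (c, e)) (V' (c, e))).2 (cp D c c (φ e))
    choose a ha using fun c j => D.F.sc c (D.b c c j)
    obtain ⟨g, hg⟩ : ∃ g : FH V V', ∀ c e, (g (c, e)).1 = ∑ j, a c j • w e c j :=
      ⟨fun v => ⟨∑ j, a v.1 j • w v.2 v.1 j, by
        rw [mem_XH, allowed_false.1 (hV v), allowed_false.1 (hV' v), LinearMap.comp_zero,
          LinearMap.zero_comp]⟩, fun _ _ => rfl⟩
    refine ⟨g, le_rad D fun e c c' => ?_⟩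
    by_cases h : c = c'
    · subst h
      have e1 : cp D c c ((φ - gm D.P.G g) e) = cp D c c (φ e) - cp D c c ((D.G e).map g) :=
        map_sub (cp D c c) (φ e) ((D.G e).map g)
      have e2 : cp D c c (φ e) = ∑ j, tm (D.b c c j) (w e c j) := (hw e c).symm
      rw [e1, cp_gm, hg, e2, map_sum (tm LinearMap.id), ← Finset.sum_sub_distrib]
      refine Submodule.sum_mem _ fun j _ => ?_
      rw [← tm_sub]
      exact tm_mem (ha c j) _
    · rw [D.F.ne c c' h]
      exact Sp_top D hT c c' _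

end
end Pool.Agent.P.MP_cf639b_al.Red
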