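import Pool.Agent.P.MP_cf639b_al.Red.Iface

/-! Jordan form of an operator with a split annihilating polynomial. -/

set_option linter.dupNamespace false

namespace Pool.Agent.P.MP_cf639b_al.Red

universe u
open Polynomial

variable {k : Type u} [Field k]

namespace JORD

variable {F : Type u} [Field F] [Algebra k F]

theorem act_pol (V : FXV k F) (a : F) (p : k[X]) (z : V.V) :
    V.act a (aeval V.V.x p z) = aeval V.V.x p (V.act a z) :=
  XH.comm_pol (V.sc a) p z

theorem pol_pol (x : XV k) (p q : k[X]) (z : x) :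
    aeval x.x p (aeval x.x q z) = aeval x.x q (aeval x.x p z) := by
  rw [← Module.End.mul_apply, ← Module.End.mul_apply, ← map_mul, ← map_mul, mul_comm]

theorem act_mem (V : FXV k F) (p : k[X]) (a : F) :
    ∀ z ∈ LinearMap.ker (aeval V.V.x p), V.act a z ∈ LinearMap.ker (aeval V.V.x p) :=
  fun z hz => by rw [LinearMap.mem_ker, ← act_pol, LinearMap.mem_ker.1 hz, map_zero]

theorem pol_mem (V : XV k) (p q : k[X]) :
    ∀ z ∈ LinearMap.ker (aeval V.x p), aeval V.x q z ∈ LinearMap.ker (aeval V.x p) :=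
  fun z hz => by rw [LinearMap.mem_ker, pol_pol, LinearMap.mem_ker.1 hz, map_zero]

/-- the kernel of `p(x)` with the operator `q(x)` -/
noncomputable def sub (V : FXV k F) (p q : k[X]) : FXV k F where
  V := ⟨LinearMap.ker (aeval V.V.x p), (aeval V.V.x q).restrict (pol_mem V.V p q)⟩
  act :=
    { toFun := fun a => (V.act a).restrict (act_mem V p a)
      map_one' := by ext; simp
      map_mul' := fun a b => by ext; simp
      map_zero' := by ext; simp
      map_add' := fun a b => by ext; simp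
      commutes' := fun c => by ext; simp [Algebra.algebraMap_eq_smul_one] }
  comm a := LinearMap.ext fun z => Subtype.ext (act_pol V a q z.1)

theorem sub_nil (V : FXV k F) (q : k[X]) (N : ℕ) : (sub V (q ^ N) q).V.x ^ N = 0 := by
  refine LinearMap.ext fun z => Subtype.ext ?_
  have h : (aeval V.V.x q ^ N) z.1 = 0 :=
    (LinearMap.congr_fun (map_pow (aeval V.V.x) q N) z.1).symm.trans z.2
  exact (congrArg Subtype.val (LinearMap.congr_fun
    (Module.End.pow_restrict N (pol_mem V.V (q ^ N) q)) z)).trans h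

theorem idem {m : ℕ} {q : Fin m → k[X]} (hq : Pairwise (Function.onFun IsCoprime q)) (V : XV k)
    (h : aeval V.x (∏ l, q l) = 0) : ∃ e : Fin m → k[X], (∀ z, ∑ l, aeval V.x (e l) z = z) ∧
      (∀ l z, aeval V.x (q l) (aeval V.x (e l) z) = 0) ∧
      ∀ l l', l ≠ l' → ∀ z, aeval V.x (q l') z = 0 → aeval V.x (e l) z = 0 := by
  rcases isEmpty_or_nonempty (Fin m) with hm | hm
  · refine ⟨fun _ => 0, fun z => ?_, fun l => hm.elim l, fun l => hm.elim l⟩
    rw [Fintype.prod_empty, map_one] at h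
    rw [Fintype.sum_empty]
    exact (LinearMap.congr_fun h z).symm
  obtain ⟨μ, hμ⟩ := exists_sum_eq_one_iff_pairwise_coprime'.2 hq
  refine ⟨fun l => μ l * ∏ j ∈ {l}ᶜ, q j, fun z => ?_, fun l z => ?_, fun l l' hl z hz => ?_⟩
  · rw [← LinearMap.sum_apply, ← map_sum, hμ, map_one, Module.End.one_apply]
  · rw [← Module.End.mul_apply, ← map_mul, mul_left_comm, ← Fintype.prod_eq_mul_prod_compl,
      map_mul, h, mul_zero, LinearMap.zero_apply]
  · obtain ⟨r, hr⟩ := Finset.dvd_prod_of_mem q (s := {l}ᶜ) (a := l') (by simpa using hl.symm)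
    dsimp only
    rw [hr, mul_comm (q l'), ← mul_assoc, map_mul, Module.End.mul_apply, hz, map_zero]

end JORD

open JORD in
theorem t_JORD : S_NILP k → S_JORD k := by
  intro hN F _ _ m Λ hΛ N V h
  obtain ⟨e, e1, e2, e3⟩ := idem (q := fun l => (X - C (Λ l)) ^ N)
    (fun l l' hl => (pairwise_coprime_X_sub_C hΛ hl).pow) V.V h
  choose A θ a1 a2 a3 using fun l => hN F N (sub V ((X - C (Λ l)) ^ N) (X - C (Λ l)))
    (sub_nil V _ N)
  let E : ∀ l, V.V →ₗ[k] (sub V ((X - C (Λ l)) ^ N) (X - C (Λ l))).V := fun l =>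
    LinearMap.codRestrict (LinearMap.ker (aeval V.V.x ((X - C (Λ l)) ^ N))) (aeval V.V.x (e l))
      (e2 l)
  let Θ : V.V →ₗ[k] ∀ σ : Fin m × JS N, (A σ.1 σ.2.1.1).V :=
    LinearMap.pi fun σ => LinearMap.proj σ.2 ∘ₗ (θ σ.1).toLinearMap ∘ₗ E σ.1
  have hΘ : ∀ z σ, Θ z σ = θ σ.1 (E σ.1 z) σ.2 := fun _ _ => rfl
  have hb : Function.Bijective Θ := by
    refine ⟨(injective_iff_map_eq_zero Θ).2 fun z hz => ?_, fun y => ?_⟩
    · rw [← e1 z]
      refine Finset.sum_eq_zero fun l _ => ?_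
      have : θ l (E l z) = 0 := funext fun s => congrFun hz (l, s)
      exact congrArg Subtype.val ((θ l).map_eq_zero_iff.1 this)
    · refine ⟨∑ l, ((θ l).symm fun s => y (l, s)).1, funext fun σ => ?_⟩
      have : E σ.1 (∑ l, ((θ l).symm fun s => y (l, s)).1) =
          (θ σ.1).symm fun s => y (σ.1, s) := by
        refine Subtype.ext ?_
        change aeval V.V.x (e σ.1) _ = _
        rw [map_sum, Finset.sum_eq_single σ.1
          (fun l _ hl => e3 _ _ hl.symm _ ((θ l).symm fun s => y (l, s)).2) (by simp)]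
        refine Eq.trans ?_ (e1 _)
        exact (Finset.sum_eq_single σ.1
          (fun l _ hl => e3 _ _ hl _ ((θ σ.1).symm fun s => y (σ.1, s)).2) (by simp)).symm
      rw [hΘ, this, LinearEquiv.apply_symm_apply]
  refine ⟨fun j => A j.1 j.2, LinearEquiv.ofBijective Θ hb, fun j => a1 j.1 j.2,
    fun c z σ => ?_, fun z σ => ?_⟩
  · have : E σ.1 (V.act c z) = (sub V _ _).act c (E σ.1 z) :=
      Subtype.ext (act_pol V c (e σ.1) z).symm
    exact (congrArg (fun w => θ σ.1 w σ.2) this).trans (a2 σ.1 c _ σ.2)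
  · have : E σ.1 (V.V.x z) = Λ σ.1 • E σ.1 z + (sub V _ _).V.x (E σ.1 z) := by
      refine Subtype.ext ?_
      change aeval V.V.x (e σ.1) (V.V.x z) =
        Λ σ.1 • aeval V.V.x (e σ.1) z + aeval V.V.x (X - C (Λ σ.1)) (aeval V.V.x (e σ.1) z)
      rw [pol_pol, ← map_smul, ← map_add]
      simp [Algebra.algebraMap_eq_smul_one]
    refine (congrArg (fun w => θ σ.1 w σ.2) this).trans ?_
    simp only [map_add, map_smul, Pi.add_apply, Pi.smul_apply]
    exact congrArg (fun w => Λ σ.1 • θ σ.1 (E σ.1 z) σ.2 + w) (a3 σ.1 _ σ.2)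

end Pool.Agent.P.MP_cf639b_al.Red
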