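import Pool.Agent.P.MP_cf639b_al.Red.Iface

set_option linter.dupNamespace false
set_option linter.unusedVariables false

namespace Pool.Agent.P.MP_cf639b_al.Red

universe u
open TensorProduct Polynomial

noncomputable section

variable {k : Type u} [Field k] {R : Type u} [Ring R] [Algebra k R]

theorem t_LEN : S_LEN k := by
  intro E _ Ω _ wt A ρ' ρ h
  classical
  let W : ∀ s : Finset Ω, (∀ a b, b ∈ s → wt b < wt a → a ∈ s) → Submodule E (RM ρ) := fun s hs =>
    { carrier := {z | ∀ b, b ∉ s → (z : ∀ ω, A ω) b = 0}
      add_mem' := fun {x y} hx hy b hb => by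
        change (x : ∀ ω, A ω) b + (y : ∀ ω, A ω) b = 0
        rw [hx b hb, hy b hb, add_zero]
      zero_mem' := fun _ _ => rfl
      smul_mem' := fun e z hz b hb => by
        change ρ e z b = 0
        rw [h e b z fun β hβ => hz β fun hβs => hb (hs b β hβs hβ), hz b hb, map_zero] }
  have key : ∀ (n : ℕ) (s : Finset Ω) (hs : ∀ a b, b ∈ s → wt b < wt a → a ∈ s), s.card = n →
      Module.length E (W s hs) = ∑ ω ∈ s, ln (ρ' ω) := by
    intro n
    induction n with
    | zero =>
      intro s hs hc
      obtain rfl := Finset.card_eq_zero.mp hc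
      have : Subsingleton (W ∅ hs) := ⟨fun x y => Subtype.ext (funext fun b =>
        (x.2 b (Finset.notMem_empty b)).trans (y.2 b (Finset.notMem_empty b)).symm)⟩
      simp
    | succ n ih =>
      intro s hs hc
      obtain ⟨w0, hw0, hmin⟩ := Finset.exists_min_image s wt (Finset.card_pos.mp (by omega))
      have hs' : ∀ a b, b ∈ s.erase w0 → wt b < wt a → a ∈ s.erase w0 := fun a b hb hab => by
        refine Finset.mem_erase.mpr ⟨?_, hs a b (Finset.mem_of_mem_erase hb) hab⟩
        rintro rfl
        exact absurd (hmin b (Finset.mem_of_mem_erase hb)) (not_le.mpr hab)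
      have hle : W (s.erase w0) hs' ≤ W s hs := fun z hz b hb =>
        hz b fun hb' => hb (Finset.mem_of_mem_erase hb')
      let π : W s hs →ₗ[E] RM (ρ' w0) :=
        { toFun := fun z => (z.1 : ∀ ω, A ω) w0
          map_add' := fun _ _ => rfl
          map_smul' := fun e z => h e w0 z.1 fun β hβ => z.2 β fun hβs =>
            absurd (hmin β hβs) (not_le.mpr hβ) }
      have hπ : Function.Surjective π := fun y =>
        ⟨⟨(Pi.single w0 y : ∀ ω, A ω), fun b hb =>
          Pi.single_eq_of_ne (fun e : b = w0 => hb (e ▸ hw0)) _⟩, Pi.single_eq_same (M := fun ω => A ω) w0 y⟩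
      have hex : Function.Exact (Submodule.inclusion hle) π := fun z =>
        ⟨fun hz => ⟨⟨z.1, fun b hb => by
            by_cases e : b = w0
            · subst e
              exact hz
            · exact z.2 b fun hb' => hb (Finset.mem_erase.mpr ⟨e, hb'⟩)⟩, rfl⟩, by
          rintro ⟨y, rfl⟩
          exact y.2 w0 (Finset.notMem_erase w0 s)⟩
      rw [Module.length_eq_add_of_exact _ π (Submodule.inclusion_injective hle) hπ hex,
        ih _ hs' (by rw [Finset.card_erase_of_mem hw0]; omega), ← Finset.sum_erase_add _ _ hw0]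
      rfl
  have e : W Finset.univ (fun _ _ _ _ => Finset.mem_univ _) = ⊤ :=
    eq_top_iff.mpr fun z _ b hb => (hb (Finset.mem_univ b)).elim
  rw [← key _ Finset.univ (fun _ _ _ _ => Finset.mem_univ _) rfl, e, Module.length_top]
  rfl

end
end Pool.Agent.P.MP_cf639b_al.Red
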