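import Pool.Agent.P.MP_cf639b_al.Red.Iface

set_option linter.dupNamespace false
set_option linter.unusedVariables false

namespace Pool.Agent.P.MP_cf639b_al.Red

universe u
open TensorProduct Polynomial

noncomputable section

variable {k : Type u} [Field k] {R : Type u} [Ring R] [Algebra k R]

theorem LIFT.projective {ι : Type} {G : GF k R ι} (h : G.Proj) (V : ι → XV k) :
    Module.Projective R (G.obj V) := by
  obtain ⟨B, _, ν, i, p, h1, -⟩ := h
  exact Module.Projective.of_split (i V) (p V) (h1 V)

theorem t_LIFT : S_LIFT k R := by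
  intro P hA V w V' w' a
  have p0 := LIFT.projective (hA.proj false) V
  have p1 := LIFT.projective (hA.proj true) V
  obtain ⟨f0, h0⟩ := Module.projective_lifting_property
    (LinearMap.range (P.D V' w')).mkQ (a ∘ₗ (LinearMap.range (P.D V w)).mkQ)
    (Submodule.mkQ_surjective _)
  have hm : ∀ z, (f0 ∘ₗ P.D V w) z ∈ LinearMap.range (P.D V' w') := fun z => by
    rw [← Submodule.Quotient.mk_eq_zero]
    refine (LinearMap.congr_fun h0 (P.D V w z)).trans ?_
    have e : (LinearMap.range (P.D V w)).mkQ (P.D V w z) = 0 :=
      (Submodule.Quotient.mk_eq_zero _).mpr ⟨z, rfl⟩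
    exact (congrArg a e).trans (map_zero a)
  obtain ⟨f1, h1⟩ := Module.projective_lifting_property (P.D V' w').rangeRestrict
    (LinearMap.codRestrict _ (f0 ∘ₗ P.D V w) hm) (LinearMap.surjective_rangeRestrict _)
  let φ : HH P.G V V' := fun e => match e with
    | true => f1
    | false => f0
  have hc : P.Chain V w V' w' φ :=
    LinearMap.ext fun z => congrArg Subtype.val (LinearMap.congr_fun h1 z)
  exact ⟨φ, hc, Submodule.linearMap_qext _ h0⟩

end
end Pool.Agent.P.MP_cf639b_al.Red
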