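import Pool.Agent.P.MP_cf639b_al.Red.Iface

/-! The loop substitution is admissible. -/

set_option linter.dupNamespace false
set_option linter.unusedVariables false

namespace Pool.Agent.P.MP_cf639b_al.Red

universe u
open TensorProduct Polynomial

noncomputable section

variable {k : Type u} [Field k] {R : Type u} [Ring R] [Algebra k R]

namespace LOOPOK

section lin
variable {ι : Type} {v0 : ι} {m N : ℕ}

/-- block vertices -/
abbrev bv (l : Fin m) (n : Fin N) : Lι v0 m N := Sum.inr (Sum.inl (l, n))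
/-- the generic vertex -/
abbrev gv : Lι v0 m N := Sum.inr (Sum.inr ())
/-- block slots -/
abbrev sl (l : Fin m) (n : Fin N) (j : ℕ) (h : j ≤ n.1) : Sl (lbase v0 m N) v0 :=
  ⟨Sum.inr (Sum.inl (l, ⟨(n, ⟨j, by omega⟩), h⟩)), rfl⟩
/-- the generic slot -/
abbrev gs : Sl (lbase v0 m N) v0 := ⟨Sum.inr (Sum.inr ()), rfl⟩
/-- the space at the loop vertex -/
abbrev TV (V : Lι v0 m N → XV k) : Type u := TT (lbase v0 m N) (li v0 m N) V v0

theorem sl_cases {p : Sl (lbase v0 m N) v0 → Prop} (hb : ∀ l n j h, p (sl l n j h)) (hg : p gs) :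
    ∀ ω, p ω := by
  rintro ⟨v | ⟨l, ⟨n, j⟩, h⟩ | o, hω⟩
  · exact (v.2 hω).elim
  · exact hb l n j.1 h
  · exact hg

variable (V : Lι v0 m N → XV k)

/-- inclusion of a slot -/
abbrev In (ω : Sl (lbase v0 m N) v0) : V (li v0 m N ω.1) →ₗ[k] TV V :=
  inc (lbase v0 m N) (li v0 m N) V ω
/-- projection to a slot -/
abbrev Out (ω : Sl (lbase v0 m N) v0) : TV V →ₗ[k] V (li v0 m N ω.1) :=
  prj (lbase v0 m N) (li v0 m N) V ω
/-- inclusion of a block position -/
def Eb (l : Fin m) (n : Fin N) (j : ℕ) : V (bv l n) →ₗ[k] TV V :=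
  if h : j ≤ n.1 then In V (sl l n j h) else 0
/-- projection to a block position, shifted by one -/
def Qb (l : Fin m) (n : Fin N) : ℕ → (TV V →ₗ[k] V (bv l n))
  | 0 => 0
  | j + 1 => if h : j ≤ n.1 then Out V (sl l n j h) else 0
/-- inclusion of the generic slot -/
def Eg : V gv →ₗ[k] TV V := In V gs
/-- projection to the generic slot -/
def Qg : TV V →ₗ[k] V gv := Out V gs

variable {V}

theorem In_self (ω : Sl (lbase v0 m N) v0) (z : V (li v0 m N ω.1)) : In V ω z ω = z :=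
  inc_self _ _ V ω z
theorem In_ne {ω ω' : Sl (lbase v0 m N) v0} (h : ω'.1 ≠ ω.1) (z : V (li v0 m N ω.1)) :
    In V ω z ω' = 0 := inc_ne _ _ V (fun e => h (congrArg _ e)) z
theorem Eb_le {l : Fin m} {n : Fin N} {j : ℕ} (h : j ≤ n.1) (z : V (bv l n)) :
    Eb V l n j z = In V (sl l n j h) z := LinearMap.congr_fun (dif_pos h) z
theorem Eb_gt {l : Fin m} {n : Fin N} {j : ℕ} (h : n.1 < j) (z : V (bv l n)) :
    Eb V l n j z = 0 := LinearMap.congr_fun (dif_neg (not_le.2 h)) z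
theorem Qb_le {l : Fin m} {n : Fin N} {j : ℕ} (h : j ≤ n.1) (u : TV V) :
    Qb V l n (j + 1) u = u (sl l n j h) := LinearMap.congr_fun (dif_pos h) u
theorem Qb_gt {l : Fin m} {n : Fin N} {j : ℕ} (h : n.1 < j) (u : TV V) :
    Qb V l n (j + 1) u = 0 := LinearMap.congr_fun (dif_neg (not_le.2 h)) u
theorem Qb_zero (l : Fin m) (n : Fin N) (u : TV V) : Qb V l n 0 u = 0 := rfl

theorem ext_q {u u' : TV V} (hb : ∀ l n i, i ≤ n.1 → Qb V l n (i + 1) u = Qb V l n (i + 1) u')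
    (hg : Qg V u = Qg V u') : u = u' :=
  funext (sl_cases (fun l n i h => (Qb_le h u).symm.trans ((hb l n i h).trans (Qb_le h u'))) hg)

theorem Qb_Eb (l : Fin m) (n : Fin N) (i j : ℕ) (z : V (bv l n)) :
    Qb V l n i (Eb V l n j z) = if i = j + 1 ∧ j ≤ n.1 then z else 0 := by
  by_cases hj : j ≤ n.1
  · rcases i with _ | i
    · rw [Qb_zero, if_neg (by omega)]
    · by_cases hi : i ≤ n.1
      · rw [Qb_le hi, Eb_le hj]
        by_cases e : i = j
        · subst e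
          rw [if_pos ⟨rfl, hj⟩]
          exact In_self (sl l n i hj) z
        · rw [if_neg (by omega)]
          exact In_ne (ω := sl l n j hj) (by simp [e]) z
      · rw [Qb_gt (by omega), if_neg (by omega)]
  · rw [Eb_gt (by omega), if_neg (by omega), map_zero]

theorem Qb_Eb_ne {l l' : Fin m} {n n' : Fin N} (h : ¬ (l' = l ∧ n' = n)) (i j : ℕ)
    (z : V (bv l n)) : Qb V l' n' i (Eb V l n j z) = 0 := by
  by_cases hj : j ≤ n.1
  · rcases i with _ | i
    · rfl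
    · by_cases hi : i ≤ n'.1
      · rw [Qb_le hi, Eb_le hj]
        exact In_ne (ω := sl l n j hj) (by simp; tauto) z
      · rw [Qb_gt (by omega)]
  · rw [Eb_gt (by omega), map_zero]

theorem Qg_Eb (l : Fin m) (n : Fin N) (j : ℕ) (z : V (bv l n)) : Qg V (Eb V l n j z) = 0 := by
  by_cases hj : j ≤ n.1
  · rw [Eb_le hj]
    exact In_ne (ω := sl l n j hj) (ω' := gs) (by simp) z
  · rw [Eb_gt (by omega), map_zero]

theorem Qb_Eg (l : Fin m) (n : Fin N) (i : ℕ) (z : V gv) : Qb V l n i (Eg V z) = 0 := by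
  rcases i with _ | i
  · rfl
  · by_cases hi : i ≤ n.1
    · rw [Qb_le hi]
      exact In_ne (ω := gs) (ω' := sl l n i hi) (by simp) z
    · rw [Qb_gt (by omega)]

theorem Qg_Eg (z : V gv) : Qg V (Eg V z) = z := In_self gs z

variable (Λ : Fin m → k)

theorem Qb_y (l : Fin m) (n : Fin N) {i : ℕ} (h : i ≤ n.1) (u : TV V) :
    Qb V l n (i + 1) (ly v0 N Λ V u) = Λ l • Qb V l n (i + 1) u + Qb V l n i u := by
  rw [Qb_le h, Qb_le h]
  refine (ly_blk v0 N Λ V u (l, ⟨(n, ⟨i, by omega⟩), h⟩)).trans (congrArg _ ?_)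
  rcases i with _ | i
  · exact dif_neg (lt_irrefl 0)
  · exact (dif_pos (Nat.succ_pos i)).trans (Qb_le (Nat.le_of_succ_le h) u).symm

theorem Qg_y (u : TV V) : Qg V (ly v0 N Λ V u) = (V gv).x (Qg V u) := rfl

theorem y_Eb (l : Fin m) (n : Fin N) (j : ℕ) (z : V (bv l n)) :
    ly v0 N Λ V (Eb V l n j z) = Λ l • Eb V l n j z + Eb V l n (j + 1) z := by
  refine ext_q (fun l' n' i hi => ?_) ?_
  · rw [Qb_y Λ l' n' hi, map_add, map_smul]
    by_cases h : l' = l ∧ n' = n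
    · obtain ⟨rfl, rfl⟩ := h
      rw [Qb_Eb l' n' i j, Qb_Eb l' n' (i + 1) (j + 1)]
      exact congrArg _ (if_congr (by omega) rfl rfl)
    · simp only [Qb_Eb_ne h, smul_zero]
  · rw [Qg_y, map_add, map_smul, Qg_Eb, Qg_Eb, map_zero, smul_zero, add_zero]

theorem y_Eg (z : V gv) : ly v0 N Λ V (Eg V z) = Eg V ((V gv).x z) := by
  refine ext_q (fun l n i hi => ?_) ?_
  · rw [Qb_y Λ l n hi, Qb_Eg, Qb_Eg, Qb_Eg, smul_zero, add_zero]
  · rw [Qg_y, Qg_Eg, Qg_Eg]

theorem down {n : ℕ} {p : ℕ → Prop} (h0 : ∀ j, n < j → p j) (h1 : ∀ j, p (j + 1) → p j) (j : ℕ) :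
    p j := by
  by_cases h : n < j
  · exact h0 j h
  · exact Nat.decreasingInduction' (P := p) (n := n + 1) (fun i _ _ => h1 i) (by omega)
      (h0 _ (by omega))

variable {Λ} {V' : Lι v0 m N → XV k} {G : TV V →ₗ[k] TV V'}
  (hG : ∀ u, ly v0 N Λ V' (G u) = G (ly v0 N Λ V u))
include hG

theorem rel (l l' : Fin m) (n n' : Fin N) {i : ℕ} (h : i ≤ n'.1) (j : ℕ) (z : V (bv l n)) :
    Λ l' • Qb V' l' n' (i + 1) (G (Eb V l n j z)) + Qb V' l' n' i (G (Eb V l n j z)) =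
      Λ l • Qb V' l' n' (i + 1) (G (Eb V l n j z)) +
        Qb V' l' n' (i + 1) (G (Eb V l n (j + 1) z)) := by
  rw [← Qb_y Λ l' n' h, hG, y_Eb, map_add, map_smul, map_add, map_smul]

theorem bb_ne {l l' : Fin m} (hl : Λ l' ≠ Λ l) (n n' : Fin N) (i : ℕ) (h : i ≤ n'.1 + 1) (j : ℕ)
    (z : V (bv l n)) : Qb V' l' n' i (G (Eb V l n j z)) = 0 := by
  induction i generalizing j with
  | zero => rfl
  | succ i ih =>
    refine down (n := n.1) (p := fun j => Qb V' l' n' (i + 1) (G (Eb V l n j z)) = 0)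
      (fun j hj => by rw [Eb_gt hj, map_zero, map_zero]) (fun j hj => ?_) j
    have e := rel hG l l' n n' (i := i) (by omega) j z
    rw [hj, ih (by omega), add_zero, add_zero, ← sub_eq_zero, ← sub_smul, smul_eq_zero] at e
    exact e.resolve_left (sub_ne_zero.2 hl)

theorem bb_eq (l : Fin m) (n n' : Fin N) (j i : ℕ) (h : i ≤ n'.1 + 1) (z : V (bv l n)) :
    Qb V' l n' i (G (Eb V l n j z)) = Qb V' l n' (i - j) (G (Eb V l n 0 z)) := by
  induction j generalizing i with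
  | zero => rfl
  | succ j ih =>
    rcases i with _ | i
    · rw [Nat.zero_sub, Qb_zero, Qb_zero]
    · rw [Nat.add_sub_add_right, ← ih i (by omega)]
      exact (add_left_cancel (rel hG l l n n' (i := i) (by omega) j z)).symm

theorem bb_far (l : Fin m) (n n' : Fin N) (c : ℕ) (h : c + n.1 < n'.1) (z : V (bv l n)) :
    Qb V' l n' (c + 1) (G (Eb V l n 0 z)) = 0 := by
  have e := bb_eq hG l n n' (n.1 + 1) (c + 1 + (n.1 + 1)) (by omega) z
  rw [Eb_gt (Nat.lt_succ_self _), map_zero, map_zero, Nat.add_sub_cancel] at e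
  exact e.symm

theorem gb (l : Fin m) (hl : Function.Surjective (aeval (V gv).x (X - C (Λ l)))) (n : Fin N)
    (i : ℕ) (h : i ≤ n.1 + 1) (z : V gv) : Qb V' l n i (G (Eg V z)) = 0 := by
  induction i generalizing z with
  | zero => rfl
  | succ i ih =>
    obtain ⟨z, rfl⟩ := hl z
    have e := Qb_y Λ l n (i := i) (by omega) (G (Eg V z))
    rw [ih (by omega), add_zero, hG, y_Eg] at e
    simp [e, Algebra.algebraMap_eq_smul_one]

theorem bg (l : Fin m) (hl : Function.Injective (aeval (V' gv).x (X - C (Λ l)))) (n : Fin N)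
    (j : ℕ) (z : V (bv l n)) : Qg V' (G (Eb V l n j z)) = 0 := by
  refine down (n := n.1) (p := fun j => Qg V' (G (Eb V l n j z)) = 0)
    (fun j hj => by rw [Eb_gt hj, map_zero, map_zero]) (fun j hj => ?_) j
  have e := Qg_y Λ (G (Eb V l n j z))
  rw [hG, y_Eb, map_add, map_add, hj, add_zero, map_smul, map_smul] at e
  refine hl ?_
  simp [← e, Algebra.algebraMap_eq_smul_one]

theorem gg (z : V gv) : Qg V' (G (Eg V ((V gv).x z))) = (V' gv).x (Qg V' (G (Eg V z))) := by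
  rw [← Qg_y Λ, hG, y_Eg]

end lin

section coef
variable {ι : Type} {v0 : ι} {m N : ℕ}
/-- position of a slot -/
def pos : LΩ v0 m N → ℕ := Sum.elim (fun _ => 0) (Sum.elim (fun σ => σ.2.1.2.1) fun _ => 0)
open Classical in
/-- the coefficients of the shift by `c` -/
def ind (c : ℕ) (α β : LΩ v0 m N) : k := if lbase v0 m N α = v0 ∧ pos α = pos β + c then 1 else 0
theorem ind_ne {c : ℕ} {α β : LΩ v0 m N} (h : ¬ (lbase v0 m N α = v0 ∧ pos α = pos β + c)) :
    (ind c α β : k) = 0 := if_neg h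
theorem ind_eq {c : ℕ} {α β : LΩ v0 m N} (h : lbase v0 m N α = v0 ∧ pos α = pos β + c) :
    (ind c α β : k) = 1 := if_pos h
theorem li_inv {ω : LΩ v0 m N} {l : Fin m} {n : Fin N} (h : li v0 m N ω = bv l n) :
    ∃ j hj, ω = (sl l n j hj).1 := by
  rcases ω with v | ⟨l', ⟨n', j⟩, hj⟩ | o
  · cases h
  · cases h
    exact ⟨j.1, hj, rfl⟩
  · cases h
theorem cs_inj (V : ι → XV k) {a b : ι} (h : a = b) : Function.Injective (cs V h) := by
  subst h
  exact fun _ _ e => e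
/-- the component of a family -/
def ev (V V' : ι → XV k) (v : ι) : FH V V' →ₗ[k] (V v →ₗ[k] V' v) :=
  (XH (V v) (V' v)).subtype ∘ₗ LinearMap.proj v
end coef

variable {P : PD k R} {a : P.A} (h : P.s a = P.t a) {m : ℕ} (Λ : Fin m → k) {N : ℕ}
  (hK : P.K (P.s a) = false) {V V' : Lι (P.s a) m N → XV k}

include h Λ in
theorem ext_e {W : Type u} [AddCommGroup W] [Module k W] {φ ψ : TV V →ₗ[k] W}
    (hb : ∀ l n j z, j ≤ n.1 → φ (Eb V l n j z) = ψ (Eb V l n j z))
    (hg : ∀ z, φ (Eg V z) = ψ (Eg V z)) : φ = ψ := LinearMap.ext fun u => by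
  have e := (loopS P a h Λ N).sum_inc V (v := P.s a) u
  refine (congrArg φ e.symm).trans (Eq.trans ?_ (congrArg ψ e))
  refine (map_sum φ _ _).trans (Eq.trans (Finset.sum_congr rfl fun ω _ => ?_) (map_sum ψ _ _).symm)
  refine sl_cases (p := fun ω => φ (In V ω (u ω)) = ψ (In V ω (u ω))) (fun l n j hj => ?_)
    (hg _) ω
  exact (congrArg φ (Eb_le hj _)).symm.trans ((hb l n j _ hj).trans (congrArg ψ (Eb_le hj _)))

/-- the component at the loop vertex -/
abbrev c0 (g : FH ((loopS P a h Λ N).T V) ((loopS P a h Λ N).T V')) : TV V →ₗ[k] TV V' :=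
  (g (P.s a)).1

theorem w0_a (V : Lι (P.s a) m N → XV k) : (loopS P a h Λ N).w0 V a =
    cs ((loopS P a h Λ N).T V) h ∘ₗ ly (P.s a) N Λ V := by
  classical
  exact Pi.single_eq_same (M := fun b => (loopS P a h Λ N).T V (P.s b) →ₗ[k]
    (loopS P a h Λ N).T V (P.t b)) a _
theorem w0_ne (V : Lι (P.s a) m N → XV k) {b : P.A} (hb : b ≠ a) :
    (loopS P a h Λ N).w0 V b = 0 := by
  classical
  exact Pi.single_eq_of_ne (M := fun b => (loopS P a h Λ N).T V (P.s b) →ₗ[k]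
    (loopS P a h Λ N).T V (P.t b)) hb _

theorem cm_iff (g : FH ((loopS P a h Λ N).T V) ((loopS P a h Λ N).T V')) :
    (loopS P a h Λ N).w0 V' a ∘ₗ (g (P.s a)).1 = (g (P.t a)).1 ∘ₗ (loopS P a h Λ N).w0 V a ↔
      ∀ u, ly (P.s a) N Λ V' (c0 h Λ g u) = c0 h Λ g (ly (P.s a) N Λ V u) := by
  have e := fun u => LinearMap.congr_fun (cs_nat (fun v => (g v).1) h) (ly (P.s a) N Λ V u)
  rw [w0_a, w0_a]
  exact ⟨fun H u => cs_inj _ h ((LinearMap.congr_fun H u).trans (e u).symm),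
    fun H => LinearMap.ext fun u => (congrArg (cs ((loopS P a h Λ N).T V') h) (H u)).trans (e u)⟩

theorem cm_of (g : FH ((loopS P a h Λ N).T V) ((loopS P a h Λ N).T V'))
    (H : ∀ u, ly (P.s a) N Λ V' (c0 h Λ g u) = c0 h Λ g (ly (P.s a) N Λ V u)) :
    (loopS P a h Λ N).Cm g := fun b => by
  by_cases hb : b = a
  · subst hb
    exact (cm_iff h Λ g).2 H
  · rw [w0_ne h Λ _ hb, w0_ne h Λ _ hb, LinearMap.comp_zero, LinearMap.zero_comp]

theorem tm_y (g : FH V V') (u : TV V) :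
    ly (P.s a) N Λ V' (c0 h Λ ((loopS P a h Λ N).TM g) u) =
      c0 h Λ ((loopS P a h Λ N).TM g) (ly (P.s a) N Λ V u) := by
  have e : ∀ l n i u, Qb V' l n i (c0 h Λ ((loopS P a h Λ N).TM g) u) =
      (g (bv l n)).1 (Qb V l n i u) := by
    intro l n i u
    rcases i with _ | i
    · exact (map_zero _).symm
    · by_cases hi : i ≤ n.1
      · rw [Qb_le hi, Qb_le hi]
        rfl
      · rw [Qb_gt (by omega), Qb_gt (by omega), map_zero]
  refine ext_q (fun l n i hi => ?_) (XH.comm (g gv) _).symm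
  rw [Qb_y Λ l n hi, e, e, e, Qb_y Λ l n hi, map_add, map_smul]

/-- the shifted block maps -/
def B (l : Fin m) (n n' : Fin N) (c : ℕ) :
    NB (k := k) P.K (lbase (P.s a) m N) (li (P.s a) m N) (bv l n) (bv l n') :=
  (loopS P a h Λ N).blk (ind c) (fun α β e => ind_ne fun e' => by
    have : P.K (lbase (P.s a) m N α) = true := e
    rw [e'.1, hK] at this
    cases this) (bv l n) (bv l n')

theorem B_comp (l : Fin m) (n n' : Fin N) (c : ℕ) (w : V (bv l n) →ₗ[k] V' (bv l n')) (v : P.ι)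
    (α β : (loopS P a h Λ N).U v) :
    (loopS P a h Λ N).prj V' α ∘ₗ ((B h Λ hK l n n' c).app V V' w v).1 ∘ₗ
      (loopS P a h Λ N).inc V β = (ind c α.1 β.1 : k) • tf V V' (bv l n) (bv l n') _ _ w :=
  (loopS P a h Λ N).blk_comp _ _ _ _ V V' w v α β

theorem B_In (l : Fin m) (n n' : Fin N) (c : ℕ) (w : V (bv l n) →ₗ[k] V' (bv l n'))
    (α β : Sl (lbase (P.s a) m N) (P.s a)) (z : V (li (P.s a) m N β.1)) :
    c0 h Λ ((B h Λ hK l n n' c).app V V' w) (In V β z) α = (ind c α.1 β.1 : k) •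
      tf V V' (bv l n) (bv l n') (li (P.s a) m N β.1) (li (P.s a) m N α.1) w z :=
  LinearMap.congr_fun (B_comp h Λ hK l n n' c w _ α β) z

theorem B_In_ne (l : Fin m) (n n' : Fin N) (c : ℕ) (w : V (bv l n) →ₗ[k] V' (bv l n'))
    (β : Sl (lbase (P.s a) m N) (P.s a)) (hβ : li (P.s a) m N β.1 ≠ bv l n)
    (z : V (li (P.s a) m N β.1)) : c0 h Λ ((B h Λ hK l n n' c).app V V' w) (In V β z) = 0 :=
  funext fun α => by
    rw [B_In, tf_of_ne (Or.inl hβ), LinearMap.zero_apply, smul_zero]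
    rfl

theorem B_Eg (l : Fin m) (n n' : Fin N) (c : ℕ) (w : V (bv l n) →ₗ[k] V' (bv l n')) (z : V gv) :
    c0 h Λ ((B h Λ hK l n n' c).app V V' w) (Eg V z) = 0 :=
  B_In_ne h Λ hK l n n' c w gs (by simp) z

theorem B_Eb_ne (l : Fin m) (n n' : Fin N) (c : ℕ) (w : V (bv l n) →ₗ[k] V' (bv l n'))
    {l1 : Fin m} {n1 : Fin N} (e : ¬ (l1 = l ∧ n1 = n)) (j : ℕ) (z : V (bv l1 n1)) :
    c0 h Λ ((B h Λ hK l n n' c).app V V' w) (Eb V l1 n1 j z) = 0 := by
  by_cases hj : j ≤ n1.1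
  · rw [Eb_le hj]
    exact B_In_ne h Λ hK l n n' c w (sl l1 n1 j hj) (by simpa using e) z
  · rw [Eb_gt (by omega), map_zero]

theorem B_Eb (l : Fin m) (n n' : Fin N) (c : ℕ) (w : V (bv l n) →ₗ[k] V' (bv l n')) (j : ℕ)
    (hj : j ≤ n.1 ∨ n'.1 ≤ c + n.1) (z : V (bv l n)) :
    c0 h Λ ((B h Λ hK l n n' c).app V V' w) (Eb V l n j z) = Eb V' l n' (j + c) (w z) := by
  by_cases hj' : j ≤ n.1
  · rw [Eb_le hj']
    refine ext_q (fun l1 n1 i hi => ?_) ?_
    · refine (Qb_le hi _).trans ((B_In h Λ hK l n n' c w (sl l1 n1 i hi) (sl l n j hj') z).trans ?_)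
      by_cases e : l1 = l ∧ n1 = n'
      · obtain ⟨rfl, rfl⟩ := e
        rw [Qb_Eb]
        refine (congrArg _ (LinearMap.congr_fun (tf_self V V' _ _ w) z)).trans ?_
        by_cases e' : i = j + c
        · rw [ind_eq (α := (sl l1 n1 i hi).1) (β := (sl l1 n j hj').1) ⟨rfl, e'⟩,
            if_pos (by omega)]
          exact one_smul _ _
        · rw [ind_ne (α := (sl l1 n1 i hi).1) (β := (sl l1 n j hj').1) fun e => e' e.2,
            if_neg (by omega)]
          exact zero_smul _ _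
      · rw [Qb_Eb_ne e, tf_of_ne (Or.inr (by simpa using e))]
        exact smul_zero _
    · refine (B_In h Λ hK l n n' c w gs (sl l n j hj') z).trans ?_
      rw [Qg_Eb, tf_of_ne (Or.inr (by simp))]
      exact smul_zero _
  · rw [Eb_gt (by omega), Eb_gt (by omega), map_zero]

theorem B_good (l : Fin m) (n n' : Fin N) (c : ℕ) (h1 : n'.1 ≤ c + n.1) (h2 : ¬ (c = 0 ∧ n' = n)) :
    (loopS P a h Λ N).Good (B h Λ hK l n n' c) := by
  refine fun V V' w => ⟨fun v α β hw => ?_, cm_of h Λ _ fun u => ?_⟩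
  · rw [B_comp]
    by_cases e : li (P.s a) m N β.1 = bv l n ∧ li (P.s a) m N α.1 = bv l n'
    · obtain ⟨j, hj, e1⟩ := li_inv e.1
      obtain ⟨i, hi, e2⟩ := li_inv e.2
      rw [ind_ne, zero_smul]
      rintro ⟨-, e3⟩
      rw [e1, e2] at hw e3
      have e4 : i = j + c := e3
      have e5 : ¬ 2 * (j : ℤ) - n.1 < 2 * (i : ℤ) - n'.1 := hw
      exact h2 ⟨by omega, Fin.ext (by omega)⟩
    · rw [tf_of_ne (not_and_or.1 e), smul_zero]
  · refine LinearMap.congr_fun (ext_e h Λ (φ := ly (P.s a) N Λ V' ∘ₗ c0 h Λ _)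
      (ψ := c0 h Λ _ ∘ₗ ly (P.s a) N Λ V) (fun l1 n1 j z hj => ?_) fun z => ?_) u
    · rw [LinearMap.comp_apply, LinearMap.comp_apply, y_Eb, map_add, map_smul]
      by_cases e : l1 = l ∧ n1 = n
      · obtain ⟨rfl, rfl⟩ := e
        rw [B_Eb _ _ _ _ _ _ _ _ _ (Or.inr h1), B_Eb _ _ _ _ _ _ _ _ _ (Or.inr h1), y_Eb,
          Nat.add_right_comm]
      · rw [B_Eb_ne _ _ _ _ _ _ _ _ e, B_Eb_ne _ _ _ _ _ _ _ _ e, map_zero, smul_zero, add_zero]
    · rw [LinearMap.comp_apply, LinearMap.comp_apply, y_Eg, B_Eg, B_Eg, map_zero]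

theorem B_ne (l : Fin m) (n n' : Fin N) (c : ℕ) (w : V (bv l n) →ₗ[k] V' (bv l n')) {v : P.ι}
    (hv : v ≠ P.s a) : ((B h Λ hK l n n' c).app V V' w v).1 = 0 :=
  (loopS P a h Λ N).comp_ext fun α β => by
    refine (B_comp h Λ hK l n n' c w v α β).trans ?_
    rw [ind_ne fun e => hv (α.2.symm.trans e.1), zero_smul, LinearMap.zero_comp,
      LinearMap.comp_zero]

include hK in
theorem mem_Bsp (hΛ : Function.Injective Λ)
    (hs : ∀ l, Function.Surjective (aeval (V gv).x (X - C (Λ l))))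
    (hi : ∀ l, Function.Injective (aeval (V' gv).x (X - C (Λ l))))
    (D : FH ((loopS P a h Λ N).T V) ((loopS P a h Λ N).T V')) (h0 : ∀ v ≠ P.s a, (D v).1 = 0)
    (hG : ∀ u, ly (P.s a) N Λ V' (c0 h Λ D u) = c0 h Λ D (ly (P.s a) N Λ V u))
    (h1 : ∀ z, Qg V' (c0 h Λ D (Eg V z)) = 0)
    (h2 : ∀ l n z, Qb V' l n 1 (c0 h Λ D (Eb V l n 0 z)) = 0) :
    D ∈ (loopS P a h Λ N).Bsp V V' := by
  let w : ∀ p : Fin m × Fin N × Fin N × Fin N, V (bv p.1 p.2.1) →ₗ[k] V' (bv p.1 p.2.2.1) :=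
    fun p => Qb V' p.1 p.2.2.1 (p.2.2.2.1 + 1) ∘ₗ c0 h Λ D ∘ₗ Eb V p.1 p.2.1 0
  let b : Fin m × Fin N × Fin N × Fin N → FH ((loopS P a h Λ N).T V) ((loopS P a h Λ N).T V') :=
    fun p => (B h Λ hK p.1 p.2.1 p.2.2.1 p.2.2.2.1).app V V' (w p)
  have key : D = ∑ p, b p := by
    refine funext fun v => Subtype.ext (Eq.trans ?_ (map_sum (ev _ _ v) b _).symm)
    by_cases hv : v = P.s a
    · subst hv
      change c0 h Λ D = ∑ p, c0 h Λ (b p)
      refine ext_e h Λ (fun l n j z hj => ?_) fun z => ?_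
      · rw [LinearMap.sum_apply]
        refine ext_q (fun l1 n1 i hi => ?_) ?_
        · rw [map_sum, Finset.sum_eq_single (l, n, n1, ⟨i - j, by omega⟩) ?_ (by simp),
            B_Eb _ _ _ _ _ _ _ _ _ (Or.inl hj)]
          · by_cases e : l1 = l
            · subst e
              rw [Qb_Eb, bb_eq hG _ _ _ _ _ (by omega)]
              by_cases e' : j ≤ i
              · rw [if_pos (by simp only; omega), Nat.sub_add_comm e']
                rfl
              · rw [if_neg (by simp only; omega), show i + 1 - j = 0 by omega, Qb_zero]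
            · rw [Qb_Eb_ne fun e' => e e'.1, bb_ne hG (fun e' => e (hΛ e')) _ _ _ (by omega)]
          · rintro ⟨l2, n2, n3, c⟩ - hp
            by_cases e : l = l2 ∧ n = n2
            · obtain ⟨rfl, rfl⟩ := e
              rw [B_Eb _ _ _ _ _ _ _ _ _ (Or.inl hj)]
              by_cases e' : l1 = l ∧ n1 = n3
              · obtain ⟨rfl, rfl⟩ := e'
                rw [Qb_Eb, if_neg]
                rintro ⟨e1, -⟩
                have e2 : i + 1 = j + c.1 + 1 := e1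
                exact hp (by
                  have : c = ⟨i - j, by omega⟩ := Fin.ext (by simp only; omega)
                  rw [this])
              · exact Qb_Eb_ne e' _ _ _
            · rw [B_Eb_ne _ _ _ _ _ _ _ _ e, map_zero]
        · rw [bg hG l (hi l), map_sum]
          refine (Finset.sum_eq_zero ?_).symm
          rintro ⟨l2, n2, n3, c⟩ -
          by_cases e : l = l2 ∧ n = n2
          · obtain ⟨rfl, rfl⟩ := e
            rw [B_Eb _ _ _ _ _ _ _ _ _ (Or.inl hj), Qg_Eb]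
          · rw [B_Eb_ne _ _ _ _ _ _ _ _ e, map_zero]
      · rw [LinearMap.sum_apply, Finset.sum_eq_zero fun p _ => B_Eg h Λ hK _ _ _ _ _ z]
        refine ext_q (fun l n i hi => ?_) ?_
        · rw [gb hG l (hs l) n _ (by omega), map_zero]
        · rw [h1, map_zero]
    · rw [h0 v hv]
      exact (Finset.sum_eq_zero fun p _ => B_ne h Λ hK _ _ _ _ _ hv).symm
  rw [key]
  refine Submodule.sum_mem _ ?_
  rintro ⟨l, n, n', c⟩ -
  by_cases e : n'.1 ≤ c.1 + n.1 ∧ ¬ (c.1 = 0 ∧ n' = n)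
  · exact Submodule.subset_span ⟨_, _, _, B_good h Λ hK l n n' c.1 e.1 e.2, _, rfl⟩
  · have e0 : w (l, n, n', c) = 0 := LinearMap.ext fun z => by
      by_cases e1 : n'.1 ≤ c.1 + n.1
      · obtain ⟨e2, rfl⟩ : c.1 = 0 ∧ n' = n := by tauto
        change Qb V' l n' (c.1 + 1) _ = 0
        rw [e2]
        exact h2 l n' z
      · exact bb_far hG l n n' c.1 (by omega) z
    change (B h Λ hK l n n' c.1).app V V' (w (l, n, n', c)) ∈ _
    rw [e0, map_zero]
    exact zero_mem _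

theorem old_eq {v : P.ι} (hv : v ≠ P.s a) (ω : (loopS P a h Λ N).U v) :
    ω = ⟨Sum.inl ⟨v, hv⟩, rfl⟩ := by
  rcases ω with ⟨v' | o, rfl⟩
  · rfl
  · exact (hv rfl).elim

theorem full (hΛ : Function.Injective Λ) (hK : P.K (P.s a) = false)
    (hV : (loopS P a h Λ N).new.Al V) (hV' : (loopS P a h Λ N).new.Al V')
    (g : FH ((loopS P a h Λ N).T V) ((loopS P a h Λ N).T V'))
    (hG : ∀ u, ly (P.s a) N Λ V' (c0 h Λ g u) = c0 h Λ g (ly (P.s a) N Λ V u)) :
    ∃ g' : FH V V', g - (loopS P a h Λ N).TM g' ∈ (loopS P a h Λ N).Bsp V V' := by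
  have hb : ∀ {V : Lι (P.s a) m N → XV k}, (loopS P a h Λ N).new.Al V → ∀ l,
      Function.Bijective (aeval (V gv).x (X - C (Λ l))) := fun hV l =>
    bij_of_dvd _ (Dvd.dvd.mul_left (Finset.dvd_prod_of_mem _ (Finset.mem_univ l)) P.f)
      (allowed_true.1 (hV gv))
  let o : ∀ v : {v // v ≠ P.s a}, (loopS P a h Λ N).U v.1 := fun v => ⟨Sum.inl v, rfl⟩
  let g' : FH V V' := fun j => match j with
    | Sum.inl v => ⟨(loopS P a h Λ N).prj V' (o v) ∘ₗ (g v.1).1 ∘ₗ (loopS P a h Λ N).inc V (o v), by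
        cases hv : P.K v.1
        · rw [mem_XH, hV.semi (Sum.inl v) hv, hV'.semi (Sum.inl v) hv, LinearMap.comp_zero,
            LinearMap.zero_comp]
        · refine LinearMap.ext fun z => ?_
          have e : (loopS P a h Λ N).inc V (o v) ((V (Sum.inl v)).x z) =
              ((loopS P a h Λ N).T V v.1).x ((loopS P a h Λ N).inc V (o v) z) :=
            funext fun ω => by
              obtain rfl := old_eq h Λ v.2 ω
              refine Eq.trans ?_ ((loopS P a h Λ N).T_x_true V hv _ _).symm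
              have e := LinearMap.congr_fun ((loopS P a h Λ N).prj_inc V (o v))
              exact (e _).trans (congrArg (V (Sum.inl v)).x (e z).symm)
          exact (congrFun ((congrArg (g v.1).1 e).trans (XH.comm (g v.1) _)) (o v)).trans
            ((loopS P a h Λ N).T_x_true V' hv _ _)⟩
    | Sum.inr (Sum.inl σ) => ⟨Qb V' σ.1 σ.2 1 ∘ₗ c0 h Λ g ∘ₗ Eb V σ.1 σ.2 0, by
        rw [mem_XH, hV.semi (Sum.inr (Sum.inl σ)) rfl, hV'.semi (Sum.inr (Sum.inl σ)) rfl,
          LinearMap.comp_zero, LinearMap.zero_comp]⟩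
    | Sum.inr (Sum.inr _) => ⟨Qg V' ∘ₗ c0 h Λ g ∘ₗ Eg V, LinearMap.ext (gg hG)⟩
  refine ⟨g', mem_Bsp h Λ hK hΛ (fun l => (hb hV l).2) (fun l => (hb hV' l).1) _ (fun v hv => ?_)
    (fun u => ?_) (fun z => ?_) fun l n z => ?_⟩
  · refine sub_eq_zero.2 ((loopS P a h Λ N).comp_ext fun α β => ?_)
    obtain rfl := old_eq h Λ hv α
    obtain rfl := old_eq h Λ hv β
    rw [SD.TM_inc, ← LinearMap.comp_assoc _ ((loopS P a h Λ N).inc V' _), SD.prj_inc]
    rfl
  · exact (map_sub _ _ _).trans (congrArg₂ _ (hG u) (tm_y h Λ g' u))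
  · refine (map_sub (Qg V') _ _).trans (sub_eq_zero.2 ?_)
    exact congrArg (g' gv).1 (Qg_Eg z).symm
  · refine (map_sub (Qb V' l n 1) _ _).trans (sub_eq_zero.2 ?_)
    refine Eq.trans ?_ (Qb_le (Nat.zero_le _) _).symm
    refine congrArg (g' (bv l n)).1 (Eq.symm ?_)
    exact (Qb_le (Nat.zero_le _) _).symm.trans ((Qb_Eb l n 1 0 z).trans
      (if_pos ⟨rfl, Nat.zero_le _⟩))

end LOOPOK

open LOOPOK in
theorem t_LOOPOK : S_LOOPOK k R := by
  intro P hA a ha hK h hZ m Λ hΛ N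
  refine ⟨mul_ne_zero hA.hf (Finset.prod_ne_zero_iff.2 fun l _ => X_sub_C_ne_zero _),
    dvd_mul_right _ _, ?_, ?_, fun b hb => hb ▸ ha, fun V b hb => w0_ne h Λ V hb,
    fun g => cm_of h Λ _ (tm_y h Λ g), fun ρ hρ V V' w => PD.app_mem hρ V V' w, ?_, ?_⟩
  · rintro (v | ⟨l, n⟩ | o)
    · exact ⟨Sum.inl v, rfl⟩
    · exact ⟨(sl l n 0 (Nat.zero_le _)).1, rfl⟩
    · exact ⟨Sum.inr (Sum.inr o), rfl⟩
  · rintro (v | σ | o) e
    · exact e
    · exact absurd (hK.symm.trans e) Bool.false_ne_true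
    · rfl
  · intro V V' r hr w hw b hb
    obtain rfl : a = b := hb.symm
    exact hZ _ _ (SD.semi_T _ V) (SD.semi_T _ V') r hr w hw
  · intro V V' hV hV' r hr w hw g hg
    have e := hg a rfl
    rw [hZ _ _ (SD.semi_T _ V) (SD.semi_T _ V') r hr w hw, add_zero, sub_eq_zero] at e
    exact ⟨hr, full h Λ hΛ hK hV hV' g ((cm_iff h Λ g).1 e)⟩

end
end Pool.Agent.P.MP_cf639b_al.Red
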