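import Pool.Agent.P.MP_cf639b_al.Red.Iface

/-! Transfer of tracked objects along the loop substitution. -/

set_option linter.dupNamespace false

namespace Pool.Agent.P.MP_cf639b_al.Red

universe u
open Polynomial

variable {k : Type u} [Field k] {R : Type u} [Ring R] [Algebra k R]

namespace LOOPTR

variable {F : Type u} [Field F] [Algebra k F]

/-- a stable subspace, with `x` acting as `y` -/
noncomputable abbrev sub (V : FXV k F) (y : Module.End k V.V)
    (hy : ∀ c z, y (V.act c z) = V.act c (y z)) (W : Submodule k V.V)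
    (h1 : ∀ c, ∀ z ∈ W, V.act c z ∈ W) (h2 : ∀ z ∈ W, y z ∈ W) : FXV k F where
  V := ⟨W, y.restrict h2⟩
  act :=
    { toFun := fun a => (V.act a).restrict (h1 a)
      map_one' := by ext; simp
      map_mul' := fun a b => by ext; simp
      map_zero' := by ext; simp
      map_add' := fun a b => by ext; simp
      commutes' := fun c => by ext; simp [Algebra.algebraMap_eq_smul_one] }
  comm a := LinearMap.ext fun z => Subtype.ext (hy a z).symm

theorem aeval_sub {W0 : Type u} [AddCommGroup W0] [Module k W0] (y : Module.End k W0)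
    {W : Submodule k W0} (h2 : ∀ z ∈ W, y z ∈ W) (p : k[X]) (z : W) :
    (aeval (y.restrict h2) p z : W0) = aeval y p z :=
  XH.comm_pol (V := ⟨W, y.restrict h2⟩) (V' := ⟨W0, y⟩) ⟨W.subtype, rfl⟩ p z

theorem split (hJ : S_JORD k) {m : ℕ} {Λ : Fin m → k} (hΛ : Function.Injective Λ) {N : ℕ}
    (V : FXV k F) (y : Module.End k V.V) (hy : ∀ c z, y (V.act c z) = V.act c (y z))
    (h : Fit V y (∏ l, (X - C (Λ l)) ^ N)) : ∃ (A : Fin m × Fin N → FXV k F) (B : FXV k F)
    (θ : V.V ≃ₗ[k] (∀ σ : Fin m × JS N, (A (σ.1, σ.2.1.1)).V) × B.V),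
    (∀ j, (A j).V.x = 0) ∧ KSp B.V ∧ (∀ c z σ, (θ (V.act c z)).1 σ = (A _).act c ((θ z).1 σ)) ∧
    (∀ c z, (θ (V.act c z)).2 = B.act c (θ z).2) ∧
    (∀ z σ, (θ (y z)).1 σ = Λ σ.1 • (θ z).1 σ +
      if h : 0 < σ.2.1.2.1 then (θ z).1 (σ.1, σ.2.pred h) else 0) ∧
    ∀ z, (θ (y z)).2 = B.V.x (θ z).2 := by
  obtain ⟨W1, W2, hc, a1, a2, y1, y2, q1, q2⟩ := h
  obtain ⟨A, θ, b1, b2, b3⟩ := hJ F m Λ hΛ N (sub V y hy W1 a1 y1)
    (LinearMap.ext fun z => Subtype.ext ((aeval_sub y y1 _ z).trans (q1 _ z.2)))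
  have key : ∀ (g : Module.End k V.V) (g1 : ∀ z ∈ W1, g z ∈ W1) (g2 : ∀ z ∈ W2, g z ∈ W2) z,
      (W1.prodEquivOfIsCompl W2 hc).symm (g z) =
        (g.restrict g1 ((W1.prodEquivOfIsCompl W2 hc).symm z).1,
          g.restrict g2 ((W1.prodEquivOfIsCompl W2 hc).symm z).2) := fun g g1 g2 z => by
    obtain ⟨z, rfl⟩ := (W1.prodEquivOfIsCompl W2 hc).surjective z
    rw [LinearEquiv.symm_apply_eq, LinearEquiv.symm_apply_apply]
    exact map_add g _ _
  refine ⟨A, sub V y hy W2 a2 y2, (W1.prodEquivOfIsCompl W2 hc).symm.trans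
    (θ.prodCongr (LinearEquiv.refl k W2)), b1, fun p hp => ⟨?_, fun z => ?_⟩, fun c z σ => ?_,
    fun c z => congrArg Prod.snd (key _ (a1 c) (a2 c) z), fun z σ => ?_,
    fun z => congrArg Prod.snd (key _ y1 y2 z)⟩
  · refine (injective_iff_map_eq_zero _).2 fun z hz => Subtype.ext ((q2 p hp).1 _ z.2 ?_)
    exact (aeval_sub y y2 p z).symm.trans (congrArg Subtype.val hz)
  · obtain ⟨z', h1, h2⟩ := (q2 p hp).2 _ z.2
    exact ⟨⟨z', h1⟩, Subtype.ext ((aeval_sub y y2 p _).trans h2)⟩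
  · exact (congrArg (fun t => θ (Prod.fst t) σ) (key _ (a1 c) (a2 c) z)).trans (b2 c _ σ)
  · exact (congrArg (fun t => θ (Prod.fst t) σ) (key _ y1 y2 z)).trans (b3 _ σ)

section
variable {ι : Type} {v0 : ι} {m N : ℕ} (V : ι → FXV k F) (A : Fin m × Fin N → FXV k F)
  (B : FXV k F)

/-- the new family -/
abbrev nw : Lι v0 m N → FXV k F := Sum.elim (fun v => V v.1) (Sum.elim A fun _ => B)

variable {A B} (θ : (V v0).V ≃ₗ[k] (∀ σ : Fin m × JS N, (A (σ.1, σ.2.1.1)).V) × B.V)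

/-- the comparison map -/
noncomputable def th (v : ι) :
    (V v).V →ₗ[k] TT (lbase v0 m N) (li v0 m N) (fun j => (nw V A B j).V) v :=
  LinearMap.pi fun ω => match ω with
    | ⟨Sum.inl _, h⟩ => cs (fun v => (V v).V) h.symm
    | ⟨Sum.inr (Sum.inl σ), h⟩ => LinearMap.proj σ ∘ₗ LinearMap.fst k _ _ ∘ₗ θ.toLinearMap ∘ₗ
        cs (fun v => (V v).V) h.symm
    | ⟨Sum.inr (Sum.inr _), h⟩ => LinearMap.snd k _ _ ∘ₗ θ.toLinearMap ∘ₗ
        cs (fun v => (V v).V) h.symm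

theorem th_bij (v : ι) : Function.Bijective (th V θ v) := by
  by_cases h : v = v0
  · subst h
    refine ⟨fun z z' e => θ.injective (Prod.ext (funext fun σ =>
      congrFun e ⟨Sum.inr (Sum.inl σ), rfl⟩) (congrFun e ⟨Sum.inr (Sum.inr ()), rfl⟩)), fun t => ?_⟩
    obtain ⟨z, hz⟩ := θ.surjective (fun σ => t ⟨Sum.inr (Sum.inl σ), rfl⟩,
      t ⟨Sum.inr (Sum.inr ()), rfl⟩)
    refine ⟨z, funext ?_⟩
    rintro ⟨v | σ | o, h⟩
    · exact (v.2 h).elim
    · exact congrFun (congrArg Prod.fst hz) σ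
    · exact congrArg Prod.snd hz
  · refine ⟨fun z z' e => congrFun e ⟨Sum.inl ⟨v, h⟩, rfl⟩,
      fun t => ⟨t ⟨Sum.inl ⟨v, h⟩, rfl⟩, funext ?_⟩⟩
    rintro ⟨⟨v', hv⟩ | σ, e⟩
    · obtain rfl : v' = v := e
      rfl
    · exact (h e.symm).elim

theorem th_cs {v v' : ι} (h : v = v') (K : ι → Bool) (z : (V v).V) :
    th V θ v' (cs (fun v => (V v).V) h z) =
      cs (Th K (lbase v0 m N) (li v0 m N) fun j => (nw V A B j).V) h (th V θ v z) := by
  subst h; rfl
end

theorem cs_cs {ι : Type} (V : ι → XV k) {a b : ι} (h : a = b) (z : V b) :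
    cs V h (cs V h.symm z) = z := by subst h; rfl

end LOOPTR

open LOOPTR

theorem t_LOOPTR : S_LOOPOK k R → S_TSUB k R → S_JORD k → S_LOOPTR k R := by
  intro hO hT hJ P hP a ha hK h hZ m Λ hΛ N F _ _ E _ X' V w ρ tr hF
  obtain ⟨A, B, θ, b1, b2, b3, b4, b5, b6⟩ := split hJ hΛ _ _ (fun c z => by
    have e1 := LinearMap.congr_fun (tr.wF a c) z
    have e2 := LinearMap.congr_fun (cs_nat (V := fun v => (V v).V) (V' := fun v => (V v).V)
      (fun v => (V v).act c) h.symm) (w a z)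
    exact (congrArg (cs (fun v => (V v).V) h.symm) e1).trans e2) hF
  refine hT P _ hP (hO P hP a ha hK h hZ m Λ hΛ N) F E X' V w ρ tr (nw V A B) ?_
    (fun v => LinearEquiv.ofBijective (th V θ v) (th_bij V θ v)) ?_ ?_ ?_
  · rintro (v | j | o)
    · exact tr.ok v.1
    · exact b1 j
    · exact b2
  · rintro v hv z ⟨⟨v', h'⟩ | σ, e⟩
    · obtain rfl : v' = v := e
      rfl
    · obtain rfl : P.s a = v := e
      exact absurd (hv.symm.trans hK) (by simp)
  · rintro v c z ⟨⟨v', h'⟩ | σ | o, e⟩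
    · obtain rfl : v' = v := e
      rfl
    · obtain rfl : P.s a = v := e
      exact b3 c z σ
    · obtain rfl : P.s a = v := e
      exact b4 c z
  · intro a' ha' z
    obtain rfl : a = a' := Eq.symm ha'
    classical
    have e : th V θ _ (cs (fun v => (V v).V) h.symm (w a z)) =
        ly (P.s a) N Λ (fun j => (nw V A B j).V) (th V θ _ z) := by
      refine funext ?_
      rintro ⟨v | σ | o, e⟩
      · exact (v.2 e).elim
      · exact (b5 z σ).trans (ly_blk _ N Λ (fun j => (nw V A B j).V) (th V θ _ z) σ).symm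
      · exact b6 z
    have e2 := th_cs V θ h P.K (cs (fun v => (V v).V) h.symm (w a z))
    rw [cs_cs, e] at e2
    refine e2.trans ?_
    simp only [Pi.single_eq_same]
    rfl

end Pool.Agent.P.MP_cf639b_al.Red
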