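import Pool.Agent.P.MP_cf639b_al.Red.Iface

/-! Jordan form of a nilpotent operator. -/

namespace Pool.Agent.P.MP_cf639b_al.Red

universe u

variable {k : Type u} [Field k] {R : Type u} [Ring R] [Algebra k R]

namespace NILP

open LinearMap (ker)

variable {F W : Type u} [Field F] [AddCommGroup W] [Module F W] (x : Module.End F W)
  (A : ℕ → Submodule F W) (N : ℕ)

/-- the sum of the Jordan chains -/
noncomputable def Phi : (∀ σ : JS N, A σ.1.1) →ₗ[F] W :=
  ∑ σ : JS N, (x ^ σ.1.2.1) ∘ₗ (A σ.1.1).subtype ∘ₗ LinearMap.proj σ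

theorem Phi_apply (c : ∀ σ : JS N, A σ.1.1) :
    Phi x A N c = ∑ σ : JS N, (x ^ σ.1.2.1) (c σ : W) := by
  simp [Phi]

theorem pp (a b : ℕ) (z : W) : (x ^ a) ((x ^ b) z) = (x ^ (a + b)) z := by
  rw [pow_add, Module.End.mul_apply]

theorem kz {a b : ℕ} {z : W} (h : (x ^ a) z = 0) (hab : a ≤ b) : (x ^ b) z = 0 := by
  rw [← Nat.sub_add_cancel hab, ← pp, h, map_zero]

variable {x A N}

theorem shift (hA : ∀ n, A n ≤ ker (x ^ (n + 1))) (c : ∀ σ : JS N, A σ.1.1) :
    Phi x A N (fun σ => if h : 0 < σ.1.2.1 then c (σ.pred h) else 0) = x (Phi x A N c) := by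
  rw [Phi_apply, Phi_apply, map_sum, ← Finset.sum_filter_of_ne (p := fun σ : JS N => 0 < σ.1.2.1)
    fun σ _ h => by_contra fun a => h (by simp [a])]
  refine Finset.sum_of_injOn (fun σ => ⟨(σ.1.1, ⟨σ.1.2.1 - 1, by omega⟩), by
    have := σ.2; rw [Fin.le_def] at this ⊢; simp only; omega⟩) ?_ (fun _ _ => by simp) ?_ ?_
  · intro σ h σ' h' e
    simp only [Finset.coe_filter, Finset.mem_univ, true_and, Set.mem_ofPred_eq, Subtype.mk.injEq,
      Prod.mk.injEq, Fin.mk.injEq] at h h' e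
    exact Subtype.ext (Prod.ext e.1 (Fin.ext (by omega)))
  · intro σ _ h
    have h1 := σ.2
    rw [Fin.le_def] at h1
    rcases h1.eq_or_lt with a | a
    · rw [← Module.End.mul_apply, ← pow_succ', a]
      exact hA _ (c σ).2
    · exact absurd ⟨⟨(σ.1.1, ⟨σ.1.2.1 + 1, by omega⟩), by rw [Fin.le_def]; exact a⟩, by simp, rfl⟩ h
  · intro σ h
    rw [Finset.mem_filter] at h
    rw [dif_pos h.2, ← Module.End.mul_apply, ← pow_succ', Nat.sub_add_cancel h.2]
    rfl

theorem core (hN : x ^ N = 0) : ∃ A : ℕ → Submodule F W, (∀ n, A n ≤ ker (x ^ (n + 1))) ∧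
    Function.Bijective (Phi x A N) := by
  have hU : ∀ n, ker (x ^ n) ⊔ (ker (x ^ (n + 2))).map x ≤ ker (x ^ (n + 1)) := fun n =>
    sup_le (fun z hz => kz x hz n.le_succ) (by
      rintro _ ⟨z, hz, rfl⟩
      rw [LinearMap.mem_ker, ← Module.End.mul_apply, ← pow_succ]
      exact hz)
  choose A h1 h2 using fun n => IsModularLattice.exists_disjoint_and_sup_eq (hU n)
  have hA : ∀ n, A n ≤ ker (x ^ (n + 1)) := fun n => h2 n ▸ le_sup_right
  refine ⟨A, hA, (injective_iff_map_eq_zero _).2 fun c hc => ?_, LinearMap.range_eq_top.1 ?_⟩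
  · by_contra hn
    classical
    obtain ⟨σ, hσ, hm⟩ := (Finset.univ.filter fun σ => c σ ≠ 0).exists_max_image
      (fun σ => toLex (σ.1.1.1 - σ.1.2.1, N - σ.1.2.1))
      (by simpa [Finset.filter_nonempty_iff, funext_iff] using hn)
    simp only [Finset.mem_filter, Finset.mem_univ, true_and, Prod.Lex.toLex_le_toLex] at hσ hm
    have s1 := Fin.le_def.1 σ.2
    set U := ker (x ^ σ.1.1.1) ⊔ (ker (x ^ (σ.1.1.1 + 2))).map x
    have key : ∀ τ ∈ Finset.univ.erase σ,
        (x ^ (σ.1.1.1 - σ.1.2.1)) ((x ^ τ.1.2.1) (c τ : W)) ∈ U.map (x ^ σ.1.1.1) := fun τ hτ => by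
      by_cases a : c τ = 0
      · simp [a]
      have s2 := Fin.le_def.1 τ.2
      have s3 := τ.1.2.2
      have s4 := σ.1.2.2
      have b : (x ^ (τ.1.1.1 + 1)) (c τ : W) = 0 := hA _ (c τ).2
      rcases hm τ a with e | ⟨e, e'⟩
      · rw [pp, kz x b (by omega)]
        exact zero_mem _
      · have e2 : σ.1.2.1 < τ.1.2.1 := lt_of_le_of_ne (by omega) fun e3 =>
          Finset.ne_of_mem_erase hτ (Subtype.ext (Prod.ext (Fin.ext (by omega)) (Fin.ext e3.symm)))
        refine ⟨x ((x ^ (τ.1.2.1 - σ.1.2.1 - 1)) (c τ)), Submodule.mem_sup_right ⟨_, ?_, rfl⟩, ?_⟩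
        · exact (pp ..).trans (kz x b (by omega))
        · rw [← Module.End.mul_apply, ← pow_succ, pp, pp]
          congr 2; omega
    have e := congrArg (x ^ (σ.1.1.1 - σ.1.2.1)) hc
    rw [Phi_apply, ← Finset.add_sum_erase _ _ (Finset.mem_univ σ), map_add, map_sum, map_zero, pp,
      Nat.sub_add_cancel s1, add_eq_zero_iff_eq_neg] at e
    obtain ⟨r, hr, e'⟩ := e ▸ neg_mem (sum_mem key)
    have : (c σ : W) ∈ U := by
      rw [← sub_add_cancel (c σ : W) r]
      exact add_mem (Submodule.mem_sup_left (by rw [LinearMap.mem_ker, map_sub, e', sub_self])) hr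
    exact hσ (Subtype.ext (Submodule.disjoint_def.1 (h1 _) _ this (c σ).2))
  · set S := LinearMap.range (Phi x A N)
    have hS : S.map x ≤ S := by
      rintro _ ⟨_, ⟨c, rfl⟩, rfl⟩
      exact ⟨_, shift hA c⟩
    have hAS : ∀ n < N, A n ≤ S := fun n hn z hz => by
      classical
      refine ⟨Pi.single (M := fun σ : JS N => A σ.1.1) ⟨(⟨n, hn⟩, ⟨0, by omega⟩), Nat.zero_le _⟩
        ⟨z, hz⟩, ?_⟩
      rw [Phi_apply, Finset.sum_eq_single ⟨(⟨n, hn⟩, ⟨0, by omega⟩), Nat.zero_le _⟩
        (fun τ _ h => by simp [Pi.single_eq_of_ne h]) (by simp)]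
      simp
    have d : ∀ m n, N ≤ n + m → ker (x ^ (n + 1)) ≤ ker (x ^ n) ⊔ S := fun m => by
      induction m with
      | zero => exact fun n hn z _ => Submodule.mem_sup_left (kz x (by simp [hN]) hn)
      | succ m ih =>
        intro n hn
        by_cases a : N ≤ n
        · exact fun z _ => Submodule.mem_sup_left (kz x (by simp [hN]) a)
        rw [← h2 n]
        refine sup_le (sup_le le_sup_left ?_) ((hAS n (by omega)).trans le_sup_right)
        refine (Submodule.map_mono (ih (n + 1) (by omega))).trans ?_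
        rw [Submodule.map_sup]
        refine sup_le_sup ?_ hS
        rintro _ ⟨z, hz, rfl⟩
        rw [LinearMap.mem_ker, ← Module.End.mul_apply, ← pow_succ]
        exact hz
    have u : ∀ n, ker (x ^ n) ≤ S := fun n => by
      induction n with
      | zero => exact fun z hz => (show z = 0 from hz) ▸ zero_mem _
      | succ n ih => exact (d N n (by omega)).trans (sup_le ih le_rfl)
    exact top_le_iff.1 fun z _ => u N (by simp [hN])

end NILP

open NILP in
theorem t_NILP : S_NILP k := by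
  intro F _ _ N V hN
  let x : Module.End F V.V :=
    ⟨V.V.x.toAddHom, fun a z => (LinearMap.congr_fun (V.comm a) z).symm⟩
  have hx : ∀ n z, (x ^ n) z = (V.V.x ^ n) z := fun n z => by
    rw [Module.End.pow_apply, Module.End.pow_apply]; rfl
  obtain ⟨A, hA, hb⟩ := core (x := x) (N := N) (LinearMap.ext fun z => by rw [hx, hN]; rfl)
  refine ⟨fun n => vsF (A n) (Algebra.lsmul k k (A n)),
    (LinearEquiv.ofBijective _ hb).symm.restrictScalars k, fun _ => rfl, fun c z σ => ?_,
    fun z σ => ?_⟩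
  · exact congrFun ((LinearEquiv.ofBijective _ hb).symm.map_smul c z) σ
  · obtain ⟨c, rfl⟩ := hb.2 z
    have e := (LinearEquiv.ofBijective _ hb).symm_apply_apply
    have e1 := congrFun ((congrArg (LinearEquiv.ofBijective _ hb).symm
      (NILP.shift hA c).symm).trans (e _)) σ
    refine e1.trans ?_
    split_ifs with h
    · exact (congrFun (e c) _).symm
    · rfl

end Pool.Agent.P.MP_cf639b_al.Red
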