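import Pool.Agent.P.MP_cf639b_al.Red.Iface

/-! The junk ideal of a problem without arrows. -/

set_option linter.dupNamespace false
set_option linter.unusedVariables false

namespace Pool.Agent.P.MP_cf639b_al.Red

universe u
open TensorProduct Polynomial

noncomputable section

variable {k : Type u} [Field k] {R : Type u} [Ring R] [Algebra k R]

namespace RD

theorem bock_add (d : Fam R) (V : XV k) {T : Md k R} (a b : M d V →ₗ[R] T) :
    Bock d V (a + b) = Bock d V a + Bock d V b := LinearMap.ext fun v => by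
  rw [LinearMap.add_apply, Bock_apply, Bock_apply, Bock_apply, ← map_add]
  congr 1
  funext a'
  simp [Finset.sum_add_distrib]

theorem bock_smul (d : Fam R) (V : XV k) {T : Md k R} (c : k) (a : M d V →ₗ[R] T) :
    Bock d V (c • a) = c • Bock d V a := LinearMap.ext fun v => by
  rw [LinearMap.smul_apply, Bock_apply, Bock_apply, ← map_smul]
  congr 1
  funext a'
  simp [Finset.smul_sum, smul_comm c]

theorem bock_zero (d : Fam R) (V : XV k) (T : Md k R) : Bock d V (0 : M d V →ₗ[R] T) = 0 := by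
  simpa using bock_smul d V (0 : k) (0 : M d V →ₗ[R] T)

variable {P : PD k R} {V V' V'' : P.ι → XV k} {A B C : Md k R}

/-- the map `j` is induced by the pair `φ` -/
def Rp (ψ : A ≃ₗ[R] P.H V 0) (ψ' : B ≃ₗ[R] P.H V' 0) (j : A →ₗ[R] B) (φ : HH P.G V V') : Prop :=
  ∀ y : (P.G false).obj V,
    ψ' (j (ψ.symm (Submodule.Quotient.mk y))) = Submodule.Quotient.mk (φ false y)

variable {ψ : A ≃ₗ[R] P.H V 0} {ψ' : B ≃ₗ[R] P.H V' 0} {ψ'' : C ≃ₗ[R] P.H V'' 0}

theorem Rp.zero : Rp ψ ψ' 0 0 := fun y => by simp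

theorem Rp.add {j j' : A →ₗ[R] B} {φ φ' : HH P.G V V'} (h : Rp ψ ψ' j φ) (h' : Rp ψ ψ' j' φ') :
    Rp ψ ψ' (j + j') (φ + φ') := fun y => by
  rw [LinearMap.add_apply, map_add, h, h']
  rfl

theorem Rp.sub {j j' : A →ₗ[R] B} {φ φ' : HH P.G V V'} (h : Rp ψ ψ' j φ) (h' : Rp ψ ψ' j' φ') :
    Rp ψ ψ' (j - j') (φ - φ') := fun y => by
  rw [LinearMap.sub_apply, map_sub, h, h']
  rfl

theorem Rp.smul (c : k) {j : A →ₗ[R] B} {φ : HH P.G V V'} (h : Rp ψ ψ' j φ) :
    Rp ψ ψ' (c • j) (c • φ) := fun y =>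
  (ψ'.toLinearMap.map_smul_of_tower c _).trans (congrArg (c • ·) (h y))

theorem Rp.comp {j' : B →ₗ[R] C} {j : A →ₗ[R] B} {φ' : HH P.G V' V''} {φ : HH P.G V V'}
    (h' : Rp ψ' ψ'' j' φ') (h : Rp ψ ψ' j φ) : Rp ψ ψ'' (j' ∘ₗ j) (HH.comp φ' φ) := fun y => by
  rw [LinearMap.comp_apply, ← ψ'.symm_apply_apply (j _), h, h']
  rfl

theorem Rp.uniq {j j' : A →ₗ[R] B} {φ : HH P.G V V'} (h : Rp ψ ψ' j φ) (h' : Rp ψ ψ' j' φ) :
    j = j' := LinearMap.ext fun z => ψ'.injective (by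
  obtain ⟨y, hy⟩ := Submodule.Quotient.mk_surjective _ (ψ z)
  rw [← ψ.symm_apply_apply z, ← hy, h, h'])

variable (ψ ψ') in
/-- the map induced by a chain map -/
def ind {φ : HH P.G V V'} (h : P.Chain V 0 V' 0 φ) : A →ₗ[R] B :=
  ψ'.symm.toLinearMap ∘ₗ PD.Hm h ∘ₗ ψ.toLinearMap

theorem rp_ind {φ : HH P.G V V'} (h : P.Chain V 0 V' 0 φ) : Rp ψ ψ' (ind ψ ψ' h) φ := fun y => by
  change ψ' (ψ'.symm (PD.Hm h (ψ (ψ.symm _)))) = _
  rw [ψ'.apply_symm_apply, ψ.apply_symm_apply]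
  rfl

theorem chain_rad (hA : P.Ax) [IsEmpty P.A] {r : HH P.G V V'} (hr : r ∈ P.Rad V V') :
    P.Chain V 0 V' 0 r := by
  obtain ⟨w, hw⟩ := hA.r3 r hr
  rw [Subsingleton.elim w 0, map_zero, PD.br_apply, sub_eq_zero] at hw
  unfold PD.Chain PD.D
  rw [map_zero, map_zero, add_zero, add_zero, hw]

theorem exists_rp (hL : S_LIFT k R) (hA : P.Ax) (h : P.Al V) (h' : P.Al V') (a : A →ₗ[R] B) :
    ∃ g : FH V V', ∃ r ∈ P.Rad V V', Rp ψ ψ' a (gm P.G g + r) := by
  obtain ⟨φ, hφ, e⟩ := hL P hA V 0 V' 0 (ψ'.toLinearMap ∘ₗ a ∘ₗ ψ.symm.toLinearMap)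
  obtain ⟨g, hg⟩ := hA.full h h' 0 0 φ hφ
  refine ⟨g, _, hg, fun y => ?_⟩
  rw [add_sub_cancel]
  exact (LinearMap.congr_fun e (Submodule.Quotient.mk y)).symm

variable (ψ ψ') in
/-- the maps induced by radical maps -/
def JJ : Submodule k (A →ₗ[R] B) where
  carrier := {j | ∃ r ∈ P.Rad V V', Rp ψ ψ' j r}
  add_mem' := by
    rintro _ _ ⟨r, hr, h⟩ ⟨r', hr', h'⟩
    exact ⟨r + r', add_mem hr hr', h.add h'⟩
  zero_mem' := ⟨0, zero_mem _, Rp.zero⟩
  smul_mem' := by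
    rintro c _ ⟨r, hr, h⟩
    exact ⟨c • r, Submodule.smul_mem _ c hr, h.smul c⟩

theorem list_rp (l : List (Module.End R A)) (hl : ∀ j ∈ l, j ∈ JJ ψ ψ) :
    ∃ l' : List (∀ e, Module.End R ((P.G e).obj V)), l'.length = l.length ∧
      (∀ r ∈ l', r ∈ P.Rad V V) ∧ Rp ψ ψ l.prod l'.prod := by
  induction l with
  | nil => exact ⟨[], rfl, by simp, fun y => ψ.apply_symm_apply _⟩
  | cons j l ih =>
    obtain ⟨l', h1, h2, h3⟩ := ih fun j hj => hl j (List.mem_cons_of_mem _ hj)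
    obtain ⟨r, hr, h⟩ := hl j List.mem_cons_self
    refine ⟨r :: l', by simp [h1], by simpa [hr] using h2, ?_⟩
    rw [List.prod_cons, List.prod_cons]
    exact h.comp h3

theorem at_zero {v w s t : P.ι} (h : ¬ (s = v ∧ t = w)) {W W' : XV k}
    (g : At v W s →ₗ[k] At w W' t) : g = 0 := LinearMap.ext fun z => by
  by_cases hs : s = v
  · exact (at_subsingleton (fun ht => h ⟨hs, ht⟩) W').elim _ _
  · rw [(at_subsingleton hs W).elim z 0, map_zero, map_zero]

end RD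

open _root_.Pool.Agent.P.MP_cf639b_al.Red.RD in
theorem t_RD : S_BOCK k R → S_LIFT k R → S_RD k R := by
  intro hB hL P hA h5 hE d hd
  choose ψ hψ using hd
  have al := allowed_at P.K P.f
  have cg : ∀ {V V' : P.ι → XV k} (g : FH V V'), P.Chain V 0 V' 0 (gm P.G g) := fun g =>
    hA.chain_gm g fun a => isEmptyElim a
  have hM : ∀ v W W' (g : XH W W'),
      Rp (ψ v W) (ψ v W') ((MN (d v)).map g) (gm P.G (atM v g)) := fun v W W' g y => by
    rw [hψ v W W' g (cg _), LinearEquiv.apply_symm_apply]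
    rfl
  obtain ⟨s, hs⟩ := hA.nil
  refine ⟨fun v V w V' => JJ (ψ v V) (ψ w V'), s, ?_, ?_, ?_, ?_, ?_, ?_, ?_⟩
  · rintro v V w V' u V'' h1 h2 h3 j ⟨r, hr, h⟩ a
    obtain ⟨g, r', hr', h'⟩ :=
      exists_rp (ψ := ψ w V') (ψ' := ψ u V'') hL hA (al _ _ h2) (al _ _ h3) a
    refine ⟨_, ?_, h'.comp h⟩
    rw [show HH.comp (gm P.G g + r') r = HH.comp (gm P.G g) r + HH.comp r' r from
      funext fun e => LinearMap.add_comp _ _ _]
    exact add_mem (PD.Rad_left g hr) (hA.r1 (al _ _ h1) (al _ _ h2) (al _ _ h3) _ hr' _ hr)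
  · rintro v V w V' u V'' h1 h2 h3 j ⟨r, hr, h⟩ a
    obtain ⟨g, r', hr', h'⟩ :=
      exists_rp (ψ := ψ v V) (ψ' := ψ w V') hL hA (al _ _ h1) (al _ _ h2) a
    refine ⟨_, ?_, h.comp h'⟩
    rw [show HH.comp r (gm P.G g + r') = HH.comp r (gm P.G g) + HH.comp r r' from
      funext fun e => LinearMap.comp_add _ _ _]
    exact add_mem (PD.Rad_right g hr) (hA.r1 (al _ _ h1) (al _ _ h2) (al _ _ h3) _ hr _ hr')
  · intro v V h l h1 h2
    obtain ⟨l', h3, h4, h6⟩ := list_rp l h2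
    rw [hs _ (al _ _ h) l' (h3.trans h1) h4] at h6
    exact h6.uniq Rp.zero
  · rintro v V w V' j ⟨r, hr, h⟩
    induction hr using Submodule.span_induction generalizing j with
    | mem φ hφ =>
      obtain ⟨⟨s, t, ρ⟩, hρ, u, rfl⟩ := hφ
      by_cases hst : s = v ∧ t = w
      · obtain ⟨rfl, rfl⟩ := hst
        have ch : ∀ (W W' : XV k) (u : W →ₗ[k] W'), P.Chain (At s W) 0 (At t W') 0
            (ρ.app (At s W) (At t W') ((atI t W').1 ∘ₗ u ∘ₗ (atP s W).1)) := fun W W' u =>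
          chain_rad hA (PD.app_mem hρ _ _ _)
        have := hB (d s) (d t) (fun W W' =>
          { toFun := fun u => ind (ψ s W) (ψ t W') (ch W W' u)
            map_add' := fun u u' => (rp_ind _).uniq (by
              rw [LinearMap.add_comp, LinearMap.comp_add, map_add]
              exact (rp_ind _).add (rp_ind _))
            map_smul' := fun c u => (rp_ind _).uniq (by
              rw [LinearMap.smul_comp, LinearMap.comp_smul, map_smul]
              exact (rp_ind _).smul c) })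
          (fun W W' W'' g u => (rp_ind (ch W W'' _)).uniq (by
            rw [show ρ.app (At s W) (At t W'') ((atI t W'').1 ∘ₗ (g.1 ∘ₗ u) ∘ₗ (atP s W).1) = _ from
              funext fun e => ρ.natl (atM t g) ((atI t W').1 ∘ₗ u ∘ₗ (atP s W).1) e]
            exact (hM t W' W'' g).comp (rp_ind (ch W W' u))))
          (fun W W' W'' g u => (rp_ind (ch W W'' _)).uniq (by
            rw [show ρ.app (At s W) (At t W'') ((atI t W'').1 ∘ₗ (u ∘ₗ g.1) ∘ₗ (atP s W).1) = _ from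
              funext fun e => ρ.natr (atM s g) ((atI t W'').1 ∘ₗ u ∘ₗ (atP s W').1) e]
            exact (rp_ind (ch W' W'' u)).comp (hM s W W' g)))
          V V' ((atP t V').1 ∘ₗ u ∘ₗ (atI s V).1)
        rwa [h.uniq (rp_ind (ch V V' ((atP t V').1 ∘ₗ u ∘ₗ (atI s V).1)))]
      · rw [at_zero hst u, map_zero] at h
        rw [h.uniq Rp.zero, bock_zero]
    | zero => rw [h.uniq Rp.zero, bock_zero]
    | add r r' hr hr' ih ih' =>
      have h1 := rp_ind (ψ := ψ v V) (ψ' := ψ w V') (chain_rad hA hr)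
      have h2 := rp_ind (ψ := ψ v V) (ψ' := ψ w V') (chain_rad hA hr')
      rw [h.uniq (h1.add h2), bock_add, ih _ h1, ih' _ h2, add_zero]
    | smul c r hr ih =>
      have h1 := rp_ind (ψ := ψ v V) (ψ' := ψ w V') (chain_rad hA hr)
      rw [h.uniq (h1.smul c), bock_smul, ih _ h1, smul_zero]
  · intro v V w V' h1 h2 h
    refine eq_top_iff.2 fun a _ => ?_
    obtain ⟨g, r, hr, h'⟩ :=
      exists_rp (ψ := ψ v V) (ψ' := ψ w V') hL hA (al _ _ h1) (al _ _ h2) a
    rw [show g = 0 from funext fun u => Subtype.ext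
      (at_zero (fun e => h (e.1.symm.trans e.2)) _), map_zero, zero_add] at h'
    exact ⟨r, hr, h'⟩
  · intro v V V' h1 h2 a
    obtain ⟨g, r, hr, h'⟩ :=
      exists_rp (ψ := ψ v V) (ψ' := ψ v V') hL hA (al _ _ h1) (al _ _ h2) a
    have e : atM v (XH.comp (atP v V') (XH.comp (g v) (atI v V))) = g := funext fun u => by
      by_cases hu : u = v
      · subst hu
        exact Subtype.ext (LinearMap.ext fun z => funext fun ⟨a⟩ => rfl)
      · exact Subtype.ext ((at_zero (fun e => hu e.1) _).trans (at_zero (fun e => hu e.1) _).symm)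
    have h3 := h'.sub (hM v V V' (XH.comp (atP v V') (XH.comp (g v) (atI v V))))
    rw [e, add_sub_cancel_left] at h3
    exact ⟨_, r, hr, h3⟩
  · rintro v V V' h1 h2 hv g ⟨r, hr, h⟩
    have h3 := h5 _ _ (al _ _ h1) (al _ _ h2) 0 0 (atM v g) (-r) (neg_mem hr)
      ((cg _).add (chain_rad hA (neg_mem hr))) (by
        rintro _ ⟨y, rfl⟩
        rw [← sub_eq_add_neg]
        exact (Submodule.Quotient.eq _).1 ((hM v V V' g y).symm.trans (h y))) v hv
    exact Subtype.ext (LinearMap.ext fun z =>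
      congrArg (fun φ : XH (At v V v) (At v V' v) => φ.1 ((atI v V).1 z) ⟨rfl⟩) h3)

end
end Pool.Agent.P.MP_cf639b_al.Red
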