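import Pool.Agent.P.MP_cf639b_al.Red.Iface

set_option linter.dupNamespace false
set_option linter.unusedVariables false

namespace Pool.Agent.P.MP_cf639b_al.Red

universe u
open TensorProduct Polynomial

variable {k : Type u} [Field k] {R : Type u} [Ring R] [Algebra k R]

namespace REG
noncomputable section
variable {P : PD k R}

theorem ex_li (hA : P.Ax) (V V' : P.ι → XV k) :
    ∃ g : H1 P.G V V' →ₗ[k] P.W V V', g ∘ₗ P.ms V V' = LinearMap.id :=
  (P.ms V V').exists_leftInverse_of_injective (LinearMap.ker_eq_bot.2 (hA.minj V V'))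

/-- the `a`-component of the commutator with `d` -/
def tau (hA : P.Ax) (a : P.A) (V V' : P.ι → XV k) :
    HH P.G V V' →ₗ[k] (V (P.s a) →ₗ[k] V' (P.t a)) :=
  LinearMap.proj a ∘ₗ (ex_li hA V V').choose ∘ₗ P.br V V'

theorem tau_eq (hA : P.Ax) (a : P.A) {V V' : P.ι → XV k} {r : HH P.G V V'} {u : P.W V V'}
    (h : P.br V V' r = P.ms V V' u) : tau hA a V V' r = u a := by
  change (ex_li hA V V').choose (P.br V V' r) a = u a
  rw [h]
  exact congrFun (LinearMap.congr_fun (ex_li hA V V').choose_spec u) a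

theorem tau_left (hA : P.Ax) (a : P.A) {V V' V1 : P.ι → XV k} (g : FH V' V1) {r : HH P.G V V'}
    (hr : r ∈ P.Rad V V') :
    tau hA a V V1 (HH.comp (gm P.G g) r) = (g _).1 ∘ₗ tau hA a V V' r := by
  obtain ⟨u, hu⟩ := hA.r3 r hr
  rw [tau_eq hA a hu]
  refine tau_eq hA a (u := fun b => (g _).1 ∘ₗ u b) ?_
  rw [← PD.ms_left, ← hu, PD.br_apply, PD.br_apply, HH.comp_apply, HH.comp_apply, gm_apply,
    gm_apply, ← LinearMap.comp_assoc, hA.dnat, LinearMap.comp_sub]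
  rfl

theorem tau_right (hA : P.Ax) (a : P.A) {V0 V V' : P.ι → XV k} (g : FH V0 V) {r : HH P.G V V'}
    (hr : r ∈ P.Rad V V') :
    tau hA a V0 V' (HH.comp r (gm P.G g)) = tau hA a V V' r ∘ₗ (g _).1 := by
  obtain ⟨u, hu⟩ := hA.r3 r hr
  rw [tau_eq hA a hu]
  refine tau_eq hA a (u := fun b => u b ∘ₗ (g _).1) ?_
  rw [← PD.ms_right, ← hu, PD.br_apply, PD.br_apply, HH.comp_apply, HH.comp_apply, gm_apply,
    gm_apply, LinearMap.comp_assoc, ← hA.dnat, LinearMap.sub_comp]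
  rfl

theorem nl {s t : P.ι} (ρ : NR P.G s t) {V V' V1 : P.ι → XV k} (g : FH V' V1)
    (w : V s →ₗ[k] V' t) : ρ.app V V1 ((g t).1 ∘ₗ w) = HH.comp (gm P.G g) (ρ.app V V' w) :=
  funext fun e => ρ.natl g w e

theorem nr {s t : P.ι} (ρ : NR P.G s t) {V0 V V' : P.ι → XV k} (g : FH V0 V)
    (w : V s →ₗ[k] V' t) : ρ.app V0 V' (w ∘ₗ (g s).1) = HH.comp (ρ.app V V' w) (gm P.G g) :=
  funext fun e => ρ.natr g w e

theorem idem (V : P.ι → XV k) (s : P.ι) :
    ∃ e : FH V V, (e s).1 = LinearMap.id ∧ ∀ v, v ≠ s → (e v).1 = 0 := by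
  refine ⟨FH.comp (fromAt (XH.id (V s))) (toAt (XH.id (V s))), ?_, fun v hv => ?_⟩
  · rw [FH.comp_val, fromAt_self]
    rfl
  · rw [FH.comp_val, fromAt_ne hv]
    rfl

theorem tau_ne (hA : P.Ax) (a : P.A) {s t : P.ι} (ρ : NR P.G s t) (hρ : P.InRad ρ)
    (h : ¬ (s = P.s a ∧ t = P.t a)) (V V' : P.ι → XV k) (w : V s →ₗ[k] V' t) :
    tau hA a V V' (ρ.app V V' w) = 0 := by
  by_cases hs : s = P.s a
  · obtain ⟨e, h1, h2⟩ := idem V' t
    have h3 := nl ρ e w
    rw [h1, LinearMap.id_comp] at h3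
    rw [h3, tau_left hA a e (hρ V V' w), h2 _ fun ht => h ⟨hs, ht.symm⟩, LinearMap.zero_comp]
  · obtain ⟨e, h1, h2⟩ := idem V s
    have h3 := nr ρ e w
    rw [h1, LinearMap.comp_id] at h3
    rw [h3, tau_right hA a e (hρ V V' w), h2 _ (Ne.symm hs), LinearMap.comp_zero]

/-- the map `w ↦ p(x) w q(x)` -/
def U (p q : k[X]) (A B : XV k) : (A →ₗ[k] B) →ₗ[k] (A →ₗ[k] B) where
  toFun w := aeval B.x p ∘ₗ w ∘ₗ aeval A.x q
  map_add' w w' := by simp [LinearMap.add_comp, LinearMap.comp_add]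
  map_smul' c w := by simp [LinearMap.smul_comp, LinearMap.comp_smul]

theorem U_left (p q : k[X]) {A B B' : XV k} (g : XH B B') (w : A →ₗ[k] B) :
    U p q A B' (g.1 ∘ₗ w) = g.1 ∘ₗ U p q A B w :=
  LinearMap.ext fun _ => (XH.comm_pol g p _).symm

theorem U_right (p q : k[X]) {A A' B : XV k} (g : XH A A') (w : A' →ₗ[k] B) :
    U p q A B (w ∘ₗ g.1) = U p q A' B w ∘ₗ g.1 :=
  LinearMap.ext fun z => congrArg (fun y => aeval B.x p (w y)) (XH.comm_pol g q z)

theorem U_bij {p q : k[X]} {A B : XV k} (hp : Function.Bijective (aeval B.x p))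
    (hq : Function.Bijective (aeval A.x q)) : Function.Bijective (U p q A B) := by
  refine ⟨fun w w' e => LinearMap.ext fun z => ?_, fun w => ?_⟩
  · obtain ⟨y, rfl⟩ := hq.2 z
    exact hp.1 (LinearMap.congr_fun e y)
  · let ep := LinearEquiv.ofBijective _ hp
    let eq := LinearEquiv.ofBijective _ hq
    refine ⟨ep.symm.toLinearMap ∘ₗ w ∘ₗ eq.symm.toLinearMap, LinearMap.ext fun z => ?_⟩
    exact (ep.apply_symm_apply _).trans (congrArg w (eq.symm_apply_apply z))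

theorem tau_U (hA : P.Ax) (a : P.A) (ρ : NR P.G (P.s a) (P.t a)) (hρ : P.InRad ρ) (p q : k[X])
    (V V' : P.ι → XV k) (w : V (P.s a) →ₗ[k] V' (P.t a)) :
    tau hA a V V' (ρ.app V V' (U p q _ _ w)) = U p q _ _ (tau hA a V V' (ρ.app V V' w)) := by
  have h1 := nl ρ (FH.pol V' p) (w ∘ₗ (FH.pol V q _).1)
  rw [nr ρ (FH.pol V q) w] at h1
  refine (congrArg _ h1).trans ?_
  rw [tau_left hA a _ (PD.Rad_right _ (hρ V V' w)), tau_right hA a _ (hρ V V' w)]
  rfl

theorem bij0 {A : XV k} (h : A.x = 0) {p : k[X]} (hp : p.eval 0 ≠ 0) :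
    Function.Bijective (aeval A.x p) := by
  have e : aeval A.x p = algebraMap k _ (p.eval 0) := by
    rw [h, ← map_zero (algebraMap k (Module.End k A)), aeval_algebraMap_apply_eq_algebraMap_eval]
  rw [e, ← Module.End.isUnit_iff]
  exact (IsUnit.mk0 _ hp).map _

/-- the corrected natural map -/
def cor (hA : P.Ax) (a : P.A) (ρ r0 : NR P.G (P.s a) (P.t a)) (hρ : P.InRad ρ) (p q : k[X]) :
    NR P.G (P.s a) (P.t a) where
  app V V' := ρ.app V V' ∘ₗ U p q _ _ - r0.app V V' ∘ₗ tau hA a V V' ∘ₗ ρ.app V V'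
  natl {V V' V''} g w e := by
    change ρ.app V V'' (U p q _ _ ((g _).1 ∘ₗ w)) e -
      r0.app V V'' (tau hA a V V'' (ρ.app V V'' ((g _).1 ∘ₗ w))) e = (P.G e).map g ∘ₗ
        (ρ.app V V' (U p q _ _ w) e - r0.app V V' (tau hA a V V' (ρ.app V V' w)) e)
    rw [U_left, ρ.natl, nl ρ g w, tau_left hA a g (hρ V V' w), r0.natl, LinearMap.comp_sub]
  natr {V V' V''} g w e := by
    change ρ.app V V'' (U p q _ _ (w ∘ₗ (g _).1)) e -
      r0.app V V'' (tau hA a V V'' (ρ.app V V'' (w ∘ₗ (g _).1))) e =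
        (ρ.app V' V'' (U p q _ _ w) e - r0.app V' V'' (tau hA a V' V'' (ρ.app V' V'' w)) e) ∘ₗ
          (P.G e).map g
    rw [U_right, ρ.natr, nr ρ g w, tau_right hA a g (hρ V' V'' w), r0.natr, LinearMap.sub_comp]

theorem cor_app (hA : P.Ax) (a : P.A) (ρ r0 : NR P.G (P.s a) (P.t a)) (hρ : P.InRad ρ)
    (p q : k[X]) (V V' : P.ι → XV k) (w : V (P.s a) →ₗ[k] V' (P.t a)) :
    (cor hA a ρ r0 hρ p q).app V V' w =
      ρ.app V V' (U p q _ _ w) - r0.app V V' (tau hA a V V' (ρ.app V V' w)) := rfl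

/-- the substitution -/
abbrev regS (hA : P.Ax) (a : P.A) (p q : k[X]) : SD P where
  ι := P.ι
  K := P.K
  f := P.f * p * q
  Ω := P.ι
  base v := v
  i v := v
  wt _ := 0
  fix b := b = a
  w0 _ := 0
  rad0 := {ρ | P.InRad ρ.2.2 ∧ ∀ V V', P.Semi V → P.Semi V' → ∀ w,
    tau hA a V V' (ρ.2.2.app V V' w) = 0}

theorem full (hA : P.Ax) (a : P.A) (r0 : NR P.G (P.s a) (P.t a)) (h0 : P.InRad r0) (p q : k[X])
    (hU : ∀ V V', P.Semi V → P.Semi V' → ∀ w, tau hA a V V' (r0.app V V' w) = U p q _ _ w)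
    {V V' : P.ι → XV k} (hb : Function.Bijective (U p q (V (P.s a)) (V' (P.t a))))
    {r : HH P.G V V'} (hr : r ∈ P.Rad V V') (hz : tau hA a V V' r = 0) :
    r ∈ (regS hA a p q).Rad0 V V' := by
  have key : ∃ w, U p q _ _ w = tau hA a V V' r ∧
      r - r0.app V V' w ∈ (regS hA a p q).Rad0 V V' := by
    clear hz
    induction hr using Submodule.span_induction with
    | mem φ h =>
      obtain ⟨⟨s, t, ρ⟩, hρ, w, rfl⟩ := h
      have hρ' : P.InRad ρ := fun V V' w => PD.app_mem hρ V V' w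
      by_cases hst : s = P.s a ∧ t = P.t a
      · obtain ⟨rfl, rfl⟩ := hst
        obtain ⟨w0, rfl⟩ := hb.2 w
        refine ⟨tau hA a V V' (ρ.app V V' w0), (tau_U hA a ρ hρ' p q V V' w0).symm,
          Submodule.subset_span ⟨⟨_, _, cor hA a ρ r0 hρ' p q⟩,
            ⟨fun V V' w => sub_mem (hρ' V V' _) (h0 V V' _), fun V V' h h' w => ?_⟩, w0, rfl⟩⟩
        rw [cor_app, map_sub, tau_U hA a ρ hρ', hU V V' h h', sub_self]
      · refine ⟨0, (map_zero _).trans (tau_ne hA a ρ hρ' hst V V' w).symm, ?_⟩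
        rw [map_zero, sub_zero]
        exact Submodule.subset_span ⟨⟨s, t, ρ⟩,
          ⟨hρ', fun V V' _ _ w => tau_ne hA a ρ hρ' hst V V' w⟩, w, rfl⟩
    | zero => exact ⟨0, by simp, by simp⟩
    | add x y _ _ hx hy =>
      obtain ⟨w, e, h⟩ := hx
      obtain ⟨w', e', h'⟩ := hy
      refine ⟨w + w', by rw [map_add, map_add, e, e'], ?_⟩
      rw [map_add, add_sub_add_comm]
      exact add_mem h h'
    | smul c x _ hx =>
      obtain ⟨w, e, h⟩ := hx
      refine ⟨c • w, by rw [map_smul, map_smul, e], ?_⟩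
      rw [map_smul, ← smul_sub]
      exact Submodule.smul_mem _ c h
  obtain ⟨w, e, h⟩ := key
  have e0 : w = 0 := hb.1 (e.trans (hz.trans (map_zero _).symm))
  rwa [e0, map_zero, sub_zero] at h

theorem slot {hA : P.Ax} {a : P.A} {p q : k[X]} {v : P.ι} (ω : (regS hA a p q).U v) :
    ω = ⟨v, rfl⟩ := Subtype.ext ω.2

theorem T_bij (hA : P.Ax) (a : P.A) (p q : k[X]) {V : P.ι → XV k}
    (hV : (regS hA a p q).new.Al V) (v : P.ι) {h : k[X]} (hd : h ∣ P.f * p * q)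
    (h0 : P.K v = false → h.eval 0 ≠ 0) :
    Function.Bijective (aeval ((regS hA a p q).T V v).x h) := by
  cases hv : P.K v
  · exact bij0 ((regS hA a p q).semi_T V v hv) (h0 hv)
  · refine (regS hA a p q).T_bij V hv h fun ω => bij_of_dvd _ hd ?_
    rw [slot ω]
    have h1 : Allowed (P.K v) (P.f * p * q) (V v) := hV v
    rwa [hv, allowed_true] at h1

theorem diag (hA : P.Ax) (a : P.A) (p q : k[X]) {V V' : P.ι → XV k}
    (hV : (regS hA a p q).new.Al V) (hV' : (regS hA a p q).new.Al V')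
    (g : FH ((regS hA a p q).T V) ((regS hA a p q).T V')) :
    ∃ g' : FH V V', g = (regS hA a p q).TM g' := by
  refine ⟨fun j => ⟨(regS hA a p q).prj V' ⟨j, rfl⟩ ∘ₗ (g j).1 ∘ₗ (regS hA a p q).inc V ⟨j, rfl⟩,
    ?_⟩, (regS hA a p q).fam_ext fun v α β => ?_⟩
  · rw [mem_XH]
    cases hv : P.K j
    · have h1 : Allowed (P.K j) (P.f * p * q) (V j) := hV j
      have h2 : Allowed (P.K j) (P.f * p * q) (V' j) := hV' j
      rw [hv, allowed_false] at h1 h2
      rw [h1, h2, LinearMap.comp_zero, LinearMap.zero_comp]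
    · refine LinearMap.ext fun z => ?_
      have e1 : (regS hA a p q).inc V (v := j) ⟨j, rfl⟩ ((V j).x z) =
          ((regS hA a p q).T V j).x ((regS hA a p q).inc V (v := j) ⟨j, rfl⟩ z) := by
        funext ω
        rw [(regS hA a p q).T_x_true V hv, slot ω, inc_self, inc_self]
      exact (congrArg (fun y => (g j).1 y ⟨j, rfl⟩) e1).trans
        ((congrFun (XH.comm (g j) _) ⟨j, rfl⟩).trans ((regS hA a p q).T_x_true V' hv _ ⟨j, rfl⟩))
  · rw [slot α, slot β, SD.TM_inc]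
    exact LinearMap.ext fun z => (inc_self _ _ V' (⟨v, rfl⟩ : (regS hA a p q).U v) _).symm

/-- the identification of a space with its substitution -/
def th (hA : P.Ax) (a : P.A) (p q : k[X]) (V : P.ι → XV k) (v : P.ι) :
    V v ≃ₗ[k] (regS hA a p q).TT V v :=
  LinearEquiv.ofLinear ((regS hA a p q).inc V ⟨v, rfl⟩) ((regS hA a p q).prj V ⟨v, rfl⟩)
    (LinearMap.ext fun z => funext fun ω => by
      rw [slot ω]
      exact inc_self _ _ _ _ _)
    ((regS hA a p q).prj_inc V ⟨v, rfl⟩)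

theorem th_apply (hA : P.Ax) (a : P.A) (p q : k[X]) (V : P.ι → XV k) (v : P.ι) (z : V v) :
    th hA a p q V v z ⟨v, rfl⟩ = z := inc_self _ _ _ _ _

end
end REG

theorem t_REG : S_CONJ k R → S_TSUB k R → S_REG k R := by
  intro hC hT P hA a ha ⟨r0, p, q, h0, hp, hq, hp0, hq0, hU0⟩
  have hU : ∀ V V', P.Semi V → P.Semi V' → ∀ w,
      REG.tau hA a V V' (r0.app V V' w) = REG.U p q _ _ w := by
    intro V V' h h' w
    obtain ⟨u, hu⟩ := hA.r3 _ (h0 V V' w)
    exact (REG.tau_eq hA a hu).trans (hU0 V V' h h' w u hu)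
  have hS : (REG.regS hA a p q).Ok := by
    refine ⟨mul_ne_zero (mul_ne_zero hA.hf hp) hq, (dvd_mul_right _ p).trans (dvd_mul_right _ q),
      fun v => ⟨v, rfl⟩, fun _ h => h, fun b hb => hb ▸ ha, fun _ _ _ => rfl,
      fun g b => (LinearMap.zero_comp _).trans (LinearMap.comp_zero _).symm, fun ρ h => h.1,
      fun V V' r hr w hw b hb => ?_, fun V V' hV hV' r hr w hw g hg => ⟨?_, ?_⟩⟩
    · obtain rfl : b = a := hb
      have h1 : (REG.regS hA b p q).Rad0 ((REG.regS hA b p q).T V) ((REG.regS hA b p q).T V') ≤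
          LinearMap.ker (REG.tau hA b _ _) := by
        refine Submodule.span_le.2 ?_
        rintro _ ⟨ρ, hρ, w, rfl⟩
        exact hρ.2 _ _ (SD.semi_T _ V) (SD.semi_T _ V') w
      exact (REG.tau_eq hA b hw).symm.trans (h1 hr)
    · refine REG.full hA a r0 h0 p q hU (REG.U_bij
        (REG.T_bij hA a p q hV' _ ((dvd_mul_left p _).trans (dvd_mul_right _ q)) hp0)
        (REG.T_bij hA a p q hV _ (dvd_mul_left q _) hq0)) hr ((REG.tau_eq hA a hw).trans ?_)
      have h1 := hg a rfl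
      refine Eq.trans ?_ h1
      exact LinearMap.ext fun z => by simp
    · obtain ⟨g', e⟩ := REG.diag hA a p q hV hV' g
      exact ⟨g', by rw [← e, sub_self]; exact zero_mem _⟩
  refine ⟨_, hS, rfl, fun F _ _ E _ X V w ρ h => ?_⟩
  have hsemi := (h.al hA).semi
  have hb : ∀ (v : P.ι) (f : k[X]), f ≠ 0 → (P.K v = false → f.eval 0 ≠ 0) →
      Function.Bijective (aeval (V v).V.x f) := by
    intro v f hf hf0
    have h1 := h.ok v
    cases hv : P.K v
    · exact REG.bij0 (hsemi v hv) (hf0 hv)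
    · rw [hv] at h1
      exact (by simpa using h1 : KSp (V v).V) f hf
  have hbij := REG.U_bij (hb _ p hp hp0) (hb _ q hq hq0)
  obtain ⟨w0, hw0⟩ := hbij.2 (w a)
  obtain ⟨u, hu⟩ := hA.r3 _ (h0 (fun v => (V v).V) (fun v => (V v).V) w0)
  obtain ⟨w1, h1, h2⟩ := hC P hA F E X V w ρ h _ (h0 _ _ w0) (fun c => by
    rw [← REG.nl, ← REG.nr]
    refine congrArg _ (hbij.1 ?_)
    refine (REG.U_right p q (scF V c _) w0).trans
      (Eq.trans ?_ (REG.U_left p q (scF V c _) w0).symm)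
    rw [hw0]
    exact h.wF a c) u hu
  have h3 : w1 a = 0 := by
    rw [h2 a ha, hU0 _ _ hsemi hsemi w0 u hu]
    exact sub_eq_zero.2 hw0.symm
  refine hT P _ hA hS F E X V w1 ρ h1 V h1.ok (REG.th hA a p q fun v => (V v).V)
    (fun v _ z ω => ?_) (fun v c z ω => ?_) fun b hb z => ?_
  · rw [REG.slot ω, REG.th_apply, REG.th_apply]
  · rw [REG.slot ω, REG.th_apply, REG.th_apply]
  · obtain rfl : b = a := hb
    rw [h3]
    exact map_zero _

end Pool.Agent.P.MP_cf639b_al.Red
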