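import Pool.Agent.P.MP_cf639b_al.Red.Iface

/-! Maps between tensor products. -/

namespace Pool.Agent.P.MP_cf639b_al.Red

universe u
open TensorProduct

variable {k : Type u} [Field k] {R : Type u} [Ring R] [Algebra k R]

namespace TEN

variable {A B : Md k R} {V V' : Type u} [AddCommGroup V] [Module k V] [AddCommGroup V']
  [Module k V']

/-- contraction with a functional -/
noncomputable def sr (B : Md k R) (ξ : Module.Dual k V') : B ⊗[k] V' →ₗ[R] B :=
  (AlgebraTensorModule.rid k R B).toLinearMap ∘ₗ AlgebraTensorModule.map LinearMap.id ξ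

theorem sr_tmul (ξ : Module.Dual k V') (y : B) (x : V') : sr B ξ (y ⊗ₜ x) = ξ x • y := rfl

theorem sep (x : B ⊗[k] V') (h : ∀ ξ, sr B ξ x = 0) : x = 0 := by
  let c := Module.Free.chooseBasis k B
  obtain ⟨z, rfl⟩ := eq_repr_basis_left c x
  have : z = 0 := Finsupp.ext fun q => (Module.forall_dual_apply_eq_zero_iff k _).1 fun ξ => by
    by_cases hq : q ∈ z.support
    · refine linearIndependent_iff'.1 c.linearIndependent _ (fun i => ξ (z i)) ?_ q hq
      simpa only [Finsupp.sum, map_sum, sr_tmul] using h ξ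
    · rw [Finsupp.notMem_support_iff.1 hq, map_zero]
  rw [this, Finsupp.sum_zero_index]

/-- slices -/
noncomputable def sl (φ : A ⊗[k] V →ₗ[R] B ⊗[k] V') (v : V) (ξ : Module.Dual k V') : A →ₗ[R] B :=
  sr B ξ ∘ₗ φ ∘ₗ (AlgebraTensorModule.mk k R A V).flip v

theorem sl_sum {I : Type} [Fintype I] (b : I → A →ₗ[R] B) (w : I → V →ₗ[k] V') (v : V)
    (ξ : Module.Dual k V') : sl (∑ j, tm (b j) (w j)) v ξ = ∑ j, ξ (w j v) • b j := by
  ext a
  simp [sl, sr_tmul]

end TEN

open TEN in
theorem t_TEN : S_TEN k R := by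
  intro A B hA _ I _ b V V' _ _ _ _
  have : FiniteDimensional k A := hA
  refine ⟨fun w w' h => funext fun j => LinearMap.ext fun v =>
    (Module.eval_apply_injective k) (LinearMap.ext fun ξ => ?_), fun φ => ?_⟩
  · exact Fintype.linearIndependent_iffₛ.1 b.linearIndependent _ _
      ((sl_sum b w v ξ).symm.trans ((congrArg (sl · v ξ) h).trans (sl_sum b w' v ξ))) j
  choose L hL using fun j => LinearMap.dualMap_surjective_of_injective
    (f := LinearMap.restrictScalarsₗ k R A B k) (LinearMap.restrictScalars_injective k) (b.coord j)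
  let Θ := rTensorHomEquivHomRTensor k A B V'
  have key : ∀ (L : Module.Dual k (A →ₗ[k] B)) ξ t, ξ (TensorProduct.lid k V' (L.rTensor V' t)) =
      L ((sr B ξ).restrictScalars k ∘ₗ Θ t) := fun L ξ t => by
    induction t with
    | zero => simp
    | add x y hx hy => simp only [map_add, hx, hy, LinearMap.comp_add]
    | tmul f x =>
      rw [show (sr B ξ).restrictScalars k ∘ₗ Θ (f ⊗ₜ x) = ξ x • f from
        LinearMap.ext fun a => by simp [Θ, sr_tmul]]
      simp [mul_comm]
  refine ⟨fun j => (TensorProduct.lid k V').toLinearMap ∘ₗ (L j).rTensor V' ∘ₗ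
    Θ.symm.toLinearMap ∘ₗ (curry (φ.restrictScalars k)).flip, AlgebraTensorModule.ext fun a v =>
      sub_eq_zero.1 (sep _ fun ξ => ?_)⟩
  rw [map_sub, sub_eq_zero]
  refine LinearMap.congr_fun ((sl_sum b _ v ξ).trans (.trans (Finset.sum_congr rfl fun j _ => ?_)
    (b.sum_repr (sl φ v ξ)))) a
  refine congrArg (· • b j) ((key _ _ _).trans ?_)
  rw [LinearMap.comp_apply, LinearEquiv.coe_coe, Θ.apply_symm_apply]
  exact LinearMap.congr_fun (hL j) (sl φ v ξ)

end Pool.Agent.P.MP_cf639b_al.Red
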