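import Pool.Agent.P.MP_cf639b_al.Red.Iface

/-! Modules attached to representations of a minimal arrow. -/

set_option linter.dupNamespace false
set_option linter.unusedVariables false

namespace Pool.Agent.P.MP_cf639b_al.Red

universe u
open TensorProduct Polynomial

noncomputable section

variable {k : Type u} [Field k] {R : Type u} [Ring R] [Algebra k R]

namespace W0

/-- first projection -/
def fstX (A B : XV k) : XH (XV.prod A B) A := ⟨LinearMap.fst k A B, rfl⟩
/-- second projection -/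
def sndX (A B : XV k) : XH (XV.prod A B) B := ⟨LinearMap.snd k A B, rfl⟩
/-- first inclusion -/
def inlX (A B : XV k) : XH A (XV.prod A B) :=
  ⟨LinearMap.inl k A B, LinearMap.ext fun z => Prod.ext rfl (map_zero B.x).symm⟩
/-- second inclusion -/
def inrX (A B : XV k) : XH B (XV.prod A B) :=
  ⟨LinearMap.inr k A B, LinearMap.ext fun z => Prod.ext (map_zero A.x).symm rfl⟩
/-- product of maps -/
def pmX {A A' B B' : XV k} (g : XH A A') (h : XH B B') : XH (XV.prod A B) (XV.prod A' B') :=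
  ⟨g.1.prodMap h.1, LinearMap.ext fun z => Prod.ext (XH.comm g z.1) (XH.comm h z.2)⟩

theorem allowed_prod {b : Bool} {f : k[X]} {A B : XV k} (hA : Allowed b f A)
    (hB : Allowed b f B) : Allowed b f (XV.prod A B) := by
  cases b
  · rw [allowed_false] at hA hB ⊢
    exact LinearMap.ext fun z =>
      Prod.ext (LinearMap.congr_fun hA z.1) (LinearMap.congr_fun hB z.2)
  · rw [allowed_true] at hA hB ⊢
    have e : ∀ z : XV.prod A B, aeval (XV.prod A B).x f z =
        (aeval A.x f z.1, aeval B.x f z.2) := fun z =>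
      Prod.ext (XH.comm_pol (fstX A B) f z) (XH.comm_pol (sndX A B) f z)
    refine ⟨fun z z' h => ?_, fun z => ?_⟩
    · rw [e, e] at h
      exact Prod.ext (hA.1 (congrArg Prod.fst h)) (hB.1 (congrArg Prod.snd h))
    · obtain ⟨x, hx⟩ := hA.2 z.1
      obtain ⟨y, hy⟩ := hB.2 z.2
      exact ⟨(x, y), by rw [e]; exact Prod.ext hx hy⟩

section fam
variable {ι : Type} (s t : ι)

/-- the family with `A` at `s` and `B` at `t` -/
abbrev VV (A B : XV k) : ι → XV k := fun v => XV.prod (At s A v) (At t B v)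
/-- inclusion of `A` -/
def iA (A B : XV k) : XH A (VV s t A B s) := XH.comp (inlX _ _) (atI s A)
/-- projection to `A` -/
def pA (A B : XV k) : XH (VV s t A B s) A := XH.comp (atP s A) (fstX _ _)
/-- inclusion of `B` -/
def iB (A B : XV k) : XH B (VV s t A B t) := XH.comp (inrX _ _) (atI t B)
/-- projection to `B` -/
def pB (A B : XV k) : XH (VV s t A B t) B := XH.comp (atP t B) (sndX _ _)
/-- the family of maps given by a pair of maps -/
def UU {A A' B B' : XV k} (g : XH A A') (h : XH B B') : FH (VV s t A B) (VV s t A' B') :=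
  fun v => pmX (atM s g v) (atM t h v)

theorem pA_iA (A B : XV k) (z : A) : (pA s t A B).1 ((iA s t A B).1 z) = z := rfl
theorem pB_iB (A B : XV k) (z : B) : (pB s t A B).1 ((iB s t A B).1 z) = z := rfl
theorem pA_UU {A A' B B' : XV k} (g : XH A A') (h : XH B B') (z : VV s t A B s) :
    (pA s t A' B').1 ((UU s t g h s).1 z) = g.1 ((pA s t A B).1 z) := rfl
theorem pB_UU {A A' B B' : XV k} (g : XH A A') (h : XH B B') (z : VV s t A B t) :
    (pB s t A' B').1 ((UU s t g h t).1 z) = h.1 ((pB s t A B).1 z) := rfl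
theorem UU_iA {A A' B B' : XV k} (g : XH A A') (h : XH B B') (z : A) :
    (UU s t g h s).1 ((iA s t A B).1 z) = (iA s t A' B').1 (g.1 z) :=
  Prod.ext rfl (funext fun _ => map_zero h.1)
theorem UU_iB {A A' B B' : XV k} (g : XH A A') (h : XH B B') (z : B) :
    (UU s t g h t).1 ((iB s t A B).1 z) = (iB s t A' B').1 (h.1 z) :=
  Prod.ext (funext fun _ => map_zero g.1) rfl
theorem UU_comp {A A' A'' B B' B'' : XV k} (g' : XH A' A'') (g : XH A A') (h' : XH B' B'')
    (h : XH B B') : UU s t (XH.comp g' g) (XH.comp h' h) =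
      FH.comp (UU s t g' h') (UU s t g h) := rfl
theorem finite_VV {A B : XV k} (hA : Module.Finite k A) (hB : Module.Finite k B) (v : ι) :
    Module.Finite k (VV s t A B v) := by
  change Module.Finite k ((PLift (v = s) → A) × (PLift (v = t) → B))
  infer_instance
end fam

variable (P : PD k R) (a : P.A)

theorem al_VV {A B : XV k} (hA : Allowed (P.K (P.s a)) P.f A)
    (hB : Allowed (P.K (P.t a)) P.f B) : P.Al (VV (P.s a) (P.t a) A B) := fun v =>
  allowed_prod (allowed_at P.K P.f _ A hA v) (allowed_at P.K P.f _ B hB v)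

open Classical in
/-- the matrices given by `ω` -/
def ww {A B : XV k} (ω : A →ₗ[k] B) :
    P.W (VV (P.s a) (P.t a) A B) (VV (P.s a) (P.t a) A B) :=
  Pi.single a ((iB (P.s a) (P.t a) A B).1 ∘ₗ ω ∘ₗ (pA (P.s a) (P.t a) A B).1)
theorem ww_self {A B : XV k} (ω : A →ₗ[k] B) : ww P a ω a =
    (iB (P.s a) (P.t a) A B).1 ∘ₗ ω ∘ₗ (pA (P.s a) (P.t a) A B).1 := by
  classical
  unfold ww
  rw [Pi.single_eq_same]
theorem ww_ne {A B : XV k} (ω : A →ₗ[k] B) {b : P.A} (h : b ≠ a) : ww P a ω b = 0 := by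
  classical
  unfold ww
  rw [Pi.single_eq_of_ne h]

variable {P} in
theorem chain_UU (hA : P.Ax) {A A' B B' : XV k} (ω : A →ₗ[k] B) (ω' : A' →ₗ[k] B')
    (g : XH A A') (h : XH B B') (e : ω' ∘ₗ g.1 = h.1 ∘ₗ ω) :
    P.Chain _ (ww P a ω) _ (ww P a ω') (gm P.G (UU (P.s a) (P.t a) g h)) := by
  refine hA.chain_gm _ fun b => ?_
  by_cases hb : b = a
  · subst hb
    rw [ww_self, ww_self]
    refine LinearMap.ext fun z => ?_
    change (iB (P.s b) (P.t b) A' B').1 (ω' ((pA (P.s b) (P.t b) A' B').1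
      ((UU (P.s b) (P.t b) g h (P.s b)).1 z))) =
      (UU (P.s b) (P.t b) g h (P.t b)).1 ((iB (P.s b) (P.t b) A B).1
        (ω ((pA (P.s b) (P.t b) A B).1 z)))
    rw [pA_UU, UU_iB]
    exact congrArg _ (LinearMap.congr_fun e _)
  · rw [ww_ne P a ω hb, ww_ne P a ω' hb, LinearMap.zero_comp, LinearMap.comp_zero]

theorem fd_of_surj {M N : Md k R} (f : M →ₗ[R] N) (hf : Function.Surjective f) (h : M.fd) :
    N.fd := Module.Finite.of_surjective (f.restrictScalars k) hf

theorem fd_P [FiniteDimensional k R] (W : Type u) [AddCommGroup W] [Module k W]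
    (h : Module.Finite k W) : Module.Finite k (R ⊗[k] W) := inferInstance

variable {P} in
theorem fd_H [FiniteDimensional k R] (hA : P.Ax) (V : P.ι → XV k) (w : P.W V V)
    (hV : ∀ v, Module.Finite k (V v)) : (P.H V w).fd := by
  obtain ⟨B, _, ν, i, p, hp, -, -⟩ := hA.proj false
  have hs : Function.Surjective (p V) := fun z => ⟨i V z, LinearMap.congr_fun (hp V) z⟩
  have h0 : Module.Finite k (∀ β, V (ν β)) := Module.Finite.pi
  have h1 : ((P.G false).obj V).fd :=
    fd_of_surj (M := MP_cf639b_al.P R (∀ β, V (ν β))) (p V) hs (fd_P _ h0)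
  exact fd_of_surj (M := (P.G false).obj V) (N := P.H V w) (LinearMap.range (P.D V w)).mkQ
    (Submodule.mkQ_surjective _) h1

variable {P} in
theorem Hm_comp {V V' V'' : P.ι → XV k} {w w' w''} {φ : HH P.G V' V''} {ψ : HH P.G V V'}
    {χ : HH P.G V V''} (h : P.Chain V' w' V'' w'' φ) (h' : P.Chain V w V' w' ψ)
    (h'' : P.Chain V w V'' w'' χ) (e : χ = HH.comp φ ψ) :
    PD.Hm h'' = PD.Hm h ∘ₗ PD.Hm h' := by
  subst e
  exact Submodule.linearMap_qext _ rfl

variable {P} in
/-- the consequence of `P5` for a factorization on cokernels -/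
theorem fac (hA : P.Ax) (h5 : P.P5) {V0 V V' : P.ι → XV k} (h0 : P.Al V0) (hV : P.Al V)
    {w0 : P.W V0 V0} {w : P.W V V} {w' : P.W V' V'} {u : FH V0 V} {u' : FH V0 V'}
    {g : FH V' V} {φ : HH P.G V' V} (hu : P.Chain V0 w0 V w (gm P.G u))
    (hu' : P.Chain V0 w0 V' w' (gm P.G u')) (hφ : P.Chain V' w' V w φ)
    (hr : φ - gm P.G g ∈ P.Rad V' V) (e : PD.Hm hu = PD.Hm hφ ∘ₗ PD.Hm hu') (v : P.ι)
    (hv : P.K v = true) : u v = XH.comp (g v) (u' v) := by
  have hc := hu.sub (hφ.comp hu')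
  have e1 : gm P.G u - HH.comp φ (gm P.G u') =
      gm P.G (u - FH.comp g u') + -HH.comp (φ - gm P.G g) (gm P.G u') := by
    rw [map_sub, gm_comp]
    funext b
    simp only [Pi.sub_apply, Pi.add_apply, Pi.neg_apply, HH.comp_apply, LinearMap.sub_comp]
    abel
  have hm : -HH.comp (φ - gm P.G g) (gm P.G u') ∈ P.Rad V0 V := neg_mem (PD.Rad_right u' hr)
  have hle : LinearMap.range ((gm P.G u - HH.comp φ (gm P.G u')) false) ≤
      LinearMap.range (P.D V w) := by
    rintro _ ⟨z, rfl⟩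
    have := LinearMap.congr_fun e (Submodule.Quotient.mk z)
    rw [LinearMap.comp_apply, PD.Hm_mk, PD.Hm_mk, PD.Hm_mk] at this
    exact (Submodule.Quotient.eq _).mp this
  rw [e1] at hc hle
  exact sub_eq_zero.mp (h5 V0 V h0 hV w0 w _ _ hm hc hle v hv)
end W0

open W0 in
theorem t_W0 : S_LIFT k R → S_W0 k R := by
  intro hL _ P hA h5 a ha T hT1 hT2 A B mA mB ω cA cB fA fB aA aB hω hrefl
  have al : ∀ S, P.Al (VV (P.s a) (P.t a) (A S) (B S)) := fun S => al_VV P a (aA S) (aB S)
  have ch : ∀ S S' (f : SysH S S'), P.Chain _ (ww P a (ω S)) _ (ww P a (ω S'))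
      (gm P.G (UU (P.s a) (P.t a) (mA S S' f) (mB S S' f))) := fun S S' f =>
    chain_UU a hA _ _ _ _ (hω S S' f)
  refine ⟨fun S => P.H _ (ww P a (ω S)), fun {S S'} f => PD.Hm (ch S S' f), fun S =>
    fd_H hA _ _ (finite_VV _ _ (fA S) (fB S)), fun S S' S'' g f => ?_,
    fun S0 S S' u u' h e => ?_⟩
  · refine Hm_comp (ch S' S'' g) (ch S S' f) (ch S S'' (g.comp f)) ?_
    rw [cA, cB, UU_comp, gm_comp]
  · obtain ⟨φ, hφ, rfl⟩ := hL P hA _ (ww P a (ω S')) _ (ww P a (ω S)) h
    obtain ⟨g, hr⟩ := hA.full (al S') (al S) _ _ φ hφ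
    obtain ⟨y, hy⟩ := hA.r3 _ hr
    have hφ' : P.Chain _ (ww P a (ω S')) _ (ww P a (ω S)) (gm P.G g + (φ - gm P.G g)) := by
      rw [add_sub_cancel]
      exact hφ
    have hc := hA.comm hr hφ' hy ha
    rw [ww_self, ww_self] at hc
    have hmem := hT2 _ _ _ _ (iA (P.s a) (P.t a) (A S') (B S')) (pB (P.s a) (P.t a) (A S) (B S))
      _ (hT1 _ _ (al S') (al S) _ hr y hy)
    obtain ⟨g0, hg0⟩ := hrefl S S'
      (XH.comp (pA (P.s a) (P.t a) (A S) (B S))
        (XH.comp (g (P.s a)) (iA (P.s a) (P.t a) (A S') (B S'))))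
      (XH.comp (pB (P.s a) (P.t a) (A S) (B S))
        (XH.comp (g (P.t a)) (iB (P.s a) (P.t a) (A S') (B S')))) (by
        refine (neg_mem_iff.mp ?_)
        refine (Eq.mpr (congrArg (fun z => z ∈ T (A S') (B S)) ?_) hmem)
        refine LinearMap.ext fun z => ?_
        have h1 := congrArg (pB (P.s a) (P.t a) (A S) (B S)).1
          (LinearMap.congr_fun hc ((iA (P.s a) (P.t a) (A S') (B S')).1 z))
        rw [LinearMap.add_apply, LinearMap.sub_apply, LinearMap.zero_apply, map_zero, map_add,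
          map_sub] at h1
        exact neg_eq_of_add_eq_zero_right h1)
    refine ⟨g0, hg0 S0 u u' (fun hK => ?_) fun hK => ?_⟩
    · have h1 := fac hA h5 (al S0) (al S) (ch S0 S u) (ch S0 S' u') hφ hr e _ hK
      refine Subtype.ext (LinearMap.ext fun z => ?_)
      have h2 := congrArg (pA (P.s a) (P.t a) (A S) (B S)).1 (LinearMap.congr_fun
        (congrArg Subtype.val h1) ((iA (P.s a) (P.t a) (A S0) (B S0)).1 z))
      rw [XH.comp_val, LinearMap.comp_apply, UU_iA, UU_iA, pA_iA] at h2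
      exact h2
    · have h1 := fac hA h5 (al S0) (al S) (ch S0 S u) (ch S0 S' u') hφ hr e _ hK
      refine Subtype.ext (LinearMap.ext fun z => ?_)
      have h2 := congrArg (pB (P.s a) (P.t a) (A S) (B S)).1 (LinearMap.congr_fun
        (congrArg Subtype.val h1) ((iB (P.s a) (P.t a) (A S0) (B S0)).1 z))
      rw [XH.comp_val, LinearMap.comp_apply, UU_iB, UU_iB, pB_iB] at h2
      exact h2

end
end Pool.Agent.P.MP_cf639b_al.Red
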