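import Pool.Agent.P.MP_cf639b_al.Red.Iface

/-! The wild configuration with two transcendental ends. -/

set_option linter.dupNamespace false
set_option linter.unusedVariables false

namespace Pool.Agent.P.MP_cf639b_al.Red

universe u
open TensorProduct Polynomial

noncomputable section

variable {k : Type u} [Field k] {R : Type u} [Ring R] [Algebra k R]

namespace W1

theorem shift {W : Type u} [AddCommGroup W] {m : ℕ} {G G' : ℕ → W} (h0 : 0 < m → G 0 = 0)
    (h1 : ∀ a, a + 1 < m → G (a + 1) = G' a) (h2 : ∀ a, a + 1 = m → G' a = 0) :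
    ∑ a ∈ Finset.range m, G a = ∑ a ∈ Finset.range m, G' a := by
  cases m with
  | zero => rfl
  | succ m =>
    rw [Finset.sum_range_succ', Finset.sum_range_succ, h0 (by omega), h2 m rfl]
    exact congrArg (· + 0) (Finset.sum_congr rfl fun a ha =>
      h1 a (by have := Finset.mem_range.1 ha; omega))

section con
variable {H W : Type u} [AddCommGroup H] [Module k H] [AddCommGroup W] [Module k W]
  (x y : k[X][X]) (m n : ℕ) (F : ℕ → ℕ → H →ₗ[k] W)

/-- the contraction with a functional -/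
def Con (c : k[X][X] →ₗ[k] k) : H →ₗ[k] W :=
  ∑ a ∈ Finset.range m, ∑ b ∈ Finset.range n, c (x ^ a * y ^ b) • F a b

theorem Con_apply (c : k[X][X] →ₗ[k] k) (φ : H) : Con x y m n F c φ =
    ∑ a ∈ Finset.range m, ∑ b ∈ Finset.range n, c (x ^ a * y ^ b) • F a b φ := by
  simp [Con]

/-- the contraction is compatible with the action of `p` -/
def Good (ρ : k[X][X] →ₐ[k] Module.End k H) (p : k[X][X]) : Prop :=
  ∀ c : k[X][X] →ₗ[k] k, (∀ q, c (x ^ m * q) = 0) → (∀ q, c (y ^ n * q) = 0) → ∀ φ,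
    Con x y m n F c (ρ p φ) = Con x y m n F (c ∘ₗ LinearMap.mulLeft k p) φ

variable {x y m n F} {ρ : k[X][X] →ₐ[k] Module.End k H}

theorem Good.add {p q : k[X][X]} (hp : Good x y m n F ρ p) (hq : Good x y m n F ρ q) :
    Good x y m n F ρ (p + q) := fun c c1 c2 φ => by
  rw [map_add, LinearMap.add_apply, map_add, hp c c1 c2, hq c c1 c2]
  simp [Con_apply, add_mul, add_smul, Finset.sum_add_distrib]

theorem Good.mul {p q : k[X][X]} (hp : Good x y m n F ρ p) (hq : Good x y m n F ρ q) :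
    Good x y m n F ρ (p * q) := fun c c1 c2 φ => by
  rw [map_mul, Module.End.mul_apply, hp c c1 c2, hq, LinearMap.mulLeft_mul, LinearMap.comp_assoc]
  · exact fun r => (congrArg c (mul_left_comm _ _ _)).trans (c1 _)
  · exact fun r => (congrArg c (mul_left_comm _ _ _)).trans (c2 _)

theorem Good.const (a : k) : Good x y m n F ρ (C (C a)) := fun c c1 c2 φ => by
  have e : (C (C a) : k[X][X]) = algebraMap k _ a := rfl
  rw [e, AlgHom.commutes, Module.algebraMap_end_apply, map_smul]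
  simp only [Con_apply, Finset.smul_sum, LinearMap.comp_apply, LinearMap.mulLeft_apply,
    ← Algebra.smul_def, map_smul, smul_assoc]

theorem Good.pow {p : k[X][X]} (hp : Good x y m n F ρ p) (i : ℕ) : Good x y m n F ρ (p ^ i) := by
  induction i with
  | zero => simpa using Good.const (x := x) (y := y) (m := m) (n := n) (F := F) (ρ := ρ) 1
  | succ i ih => rw [pow_succ]; exact ih.mul hp

theorem good_x (h0 : ∀ b φ, F 0 b (ρ x φ) = 0)
    (h1 : ∀ a b φ, a + 1 < m → F (a + 1) b (ρ x φ) = F a b φ) : Good x y m n F ρ x :=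
  fun c c1 c2 φ => by
    rw [Con_apply, Con_apply]
    refine shift (fun _ => by simp [h0]) (fun a ha => Finset.sum_congr rfl fun b _ => ?_)
      fun a ha => Finset.sum_eq_zero fun b _ => ?_
    · rw [h1 a b φ ha, pow_succ', mul_assoc]
      rfl
    · have e : (c ∘ₗ LinearMap.mulLeft k x) (x ^ a * y ^ b) = c (x ^ m * y ^ b) := by
        rw [← ha, pow_succ', mul_assoc]
        rfl
      rw [e, c1, zero_smul]

theorem good_y (h0 : ∀ a φ, 0 < n → F a 0 (ρ y φ) = 0)
    (h1 : ∀ a b φ, b + 1 < n → F a (b + 1) (ρ y φ) = F a b φ) : Good x y m n F ρ y :=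
  fun c c1 c2 φ => by
    rw [Con_apply, Con_apply]
    refine Finset.sum_congr rfl fun a _ => shift (fun h => by rw [h0 a φ h, smul_zero])
      (fun b hb => ?_) fun b hb => ?_
    · rw [h1 a b φ hb, pow_succ', mul_left_comm]
      rfl
    · have e : (c ∘ₗ LinearMap.mulLeft k y) (x ^ a * y ^ b) = c (y ^ n * x ^ a) := by
        rw [← hb, pow_succ', mul_assoc, mul_comm (y ^ b)]
        rfl
      rw [e, c2, zero_smul]

theorem good_all {lam mu : k} (h1 : Good x y m n F ρ (C (X - C lam)))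
    (h2 : Good x y m n F ρ (X - C (C mu))) (p : k[X][X]) : Good x y m n F ρ p := by
  have e1 : Good x y m n F ρ (C X) := by simpa using h1.add (Good.const lam)
  have e2 : Good x y m n F ρ X := by simpa using h2.add (Good.const mu)
  have e3 : ∀ q : k[X], Good x y m n F ρ (C q) := fun q => by
    induction q using Polynomial.induction_on' with
    | add p q hp hq => rw [C_add]; exact hp.add hq
    | monomial i a =>
      rw [← C_mul_X_pow_eq_monomial, C_mul, C_pow]
      exact (Good.const a).mul (e1.pow i)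
  induction p using Polynomial.induction_on' with
  | add p q hp hq => exact hp.add hq
  | monomial i a =>
    rw [← C_mul_X_pow_eq_monomial]
    exact (e3 a).mul (e2.pow i)

end con

theorem aeval_sh (E : Type u) [AddCommGroup E] [Module k E] (μ : k) (n : ℕ) :
    aeval (μ • 1 + sh k E n) (X - C μ) = sh k E n := by
  rw [map_sub, aeval_X, aeval_C, Algebra.algebraMap_eq_smul_one μ, add_sub_cancel_left]

/-- a coordinate -/
def co (E : Type u) [AddCommGroup E] [Module k E] (m a : ℕ) : (Fin m → E) →ₗ[k] E :=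
  if h : a < m then LinearMap.proj ⟨a, h⟩ else 0

theorem co_lt {E : Type u} [AddCommGroup E] [Module k E] {m a : ℕ} (h : a < m) (z : Fin m → E) :
    co (k := k) E m a z = z ⟨a, h⟩ := by simp [co, h]

theorem co_ge {E : Type u} [AddCommGroup E] [Module k E] {m a : ℕ} (h : ¬ a < m) (z : Fin m → E) :
    co (k := k) E m a z = 0 := by simp [co, h]

/-- the coefficients of a map to a Jordan block -/
def FF {A E : Type u} [AddCommGroup A] [Module k A] [AddCommGroup E] [Module k E]
    (N : Module.End k A) (v : A) (m n a b : ℕ) : (A →ₗ[k] (Fin m → E)) →ₗ[k] E :=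
  co E m a ∘ₗ LinearMap.applyₗ ((N ^ (n - 1 - b)) v)

theorem FF_apply {A E : Type u} [AddCommGroup A] [Module k A] [AddCommGroup E] [Module k E]
    (N : Module.End k A) (v : A) (m n a b : ℕ) (φ : A →ₗ[k] (Fin m → E)) :
    FF N v m n a b φ = co (k := k) E m a (φ ((N ^ (n - 1 - b)) v)) := rfl

theorem kill {A : XV k} {E : Type u} [AddCommGroup E] [Module k E] {lam mu : k} {m n : ℕ} {v : A}
    (hv : (aeval A.x (X - C mu) ^ n) v = 0) {𝔞 : Ideal k[X][X]} {c : k[X][X] →ₗ[k] k}
    (c0 : ∀ p ∈ 𝔞, c p = 0) (c1 : ∀ q, c (C (X - C lam) ^ m * q) = 0)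
    (c2 : ∀ q, c ((X - C (C mu)) ^ n * q) = 0) {φ : A →ₗ[k] (Fin m → E)}
    (hφ : φ ∈ Submodule.span k {φ | ∃ p ∈ 𝔞, ∃ w, φ = act A (Jb E lam m) p w}) :
    Con (C (X - C lam)) (X - C (C mu)) m n (FF (aeval A.x (X - C mu)) v m n) c φ = 0 := by
  have e1 : ∀ φ : A →ₗ[k] (Fin m → E),
      act A (Jb E lam m) (C (X - C lam)) φ = sh k E m ∘ₗ φ := fun φ =>
    (act_C A (Jb E lam m) _ φ).trans (congrArg (· ∘ₗ φ) (aeval_sh E lam m))
  have e2 : ∀ φ : A →ₗ[k] (Fin m → E),
      act A (Jb E lam m) (X - C (C mu)) φ = φ ∘ₗ aeval A.x (X - C mu) := fun φ => by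
    have := act_map A (Jb E lam m) (X - C mu) φ
    rwa [Polynomial.map_sub, map_X, map_C] at this
  have g := good_all (x := C (X - C lam)) (y := X - C (C mu)) (m := m) (n := n)
    (F := FF (E := E) (aeval A.x (X - C mu)) v m n) (ρ := act A (Jb E lam m)) (lam := lam)
    (mu := mu) (good_x (fun b φ => by
      rw [e1, FF_apply, LinearMap.comp_apply]
      by_cases h : 0 < m
      · rw [co_lt h, sh_apply, dif_neg (by simp)]
      · exact co_ge h _) fun a b φ h => by
      rw [e1, FF_apply, FF_apply, LinearMap.comp_apply, co_lt h, co_lt (by omega), sh_apply,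
        dif_pos (by simp)]
      rfl) (good_y (fun a φ h => by
      rw [e2, FF_apply, LinearMap.comp_apply, ← Module.End.mul_apply, ← pow_succ',
        show n - 1 - 0 + 1 = n by omega, hv, map_zero, map_zero]) fun a b φ h => by
      rw [e2, FF_apply, FF_apply, LinearMap.comp_apply, ← Module.End.mul_apply, ← pow_succ',
        show n - 1 - (b + 1) + 1 = n - 1 - b by omega])
  refine Submodule.span_le (p := LinearMap.ker _) |>.2 ?_ hφ
  rintro _ ⟨p, hp, w, rfl⟩
  refine (g p c c1 c2 w).trans ?_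
  rw [Con_apply]
  refine Finset.sum_eq_zero fun a _ => Finset.sum_eq_zero fun b _ => ?_
  rw [LinearMap.comp_apply, LinearMap.mulLeft_apply, c0 _ (𝔞.mul_mem_right _ hp), zero_smul]

theorem Con_eval {A E : Type u} [AddCommGroup A] [Module k A] [AddCommGroup E] [Module k E]
    {N : Module.End k A} {v : A} {x y : k[X][X]} {m i : ℕ} {c : k[X][X] →ₗ[k] k}
    (d2 : ∀ (b : ℕ) q, i < b → c (y ^ b * q) = 0) (d3 : ∀ a : ℕ, c (x ^ (a + 1) * y ^ i) = 0)
    (d4 : c (x ^ 0 * y ^ i) = 1) {φ : A →ₗ[k] (Fin (m + 1) → E)}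
    (h : ∀ l, i < l → φ ((N ^ l) v) = 0) :
    Con x y (m + 1) (2 * i + 1) (FF N v (m + 1) (2 * i + 1)) c φ = φ ((N ^ i) v) 0 := by
  have e : ∀ a, ∑ b ∈ Finset.range (2 * i + 1), c (x ^ a * y ^ b) •
      FF N v (m + 1) (2 * i + 1) a b φ = c (x ^ a * y ^ i) • co (k := k) E (m + 1) a
        (φ ((N ^ i) v)) := fun a => by
    rw [Finset.sum_eq_single i (fun b hb hn => ?_) (fun b => absurd (by simp; omega) b), FF_apply,
      show 2 * i + 1 - 1 - i = i by omega]
    rcases lt_or_gt_of_ne hn with h1 | h1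
    · rw [FF_apply, h _ (by omega), map_zero, smul_zero]
    · rw [mul_comm, d2 b _ h1, zero_smul]
  simp only [Con_apply, e, Finset.sum_range_succ', d3, d4, zero_smul, Finset.sum_const_zero,
    zero_add, one_smul]
  exact co_lt (by omega) _

/-- the underlying space of the source -/
abbrev AT (S : Sys k) : Type u := ∀ i : Fin 5, Fin (2 * i + 1) → S.U i

/-- the source -/
abbrev AA (mu : k) (S : Sys k) : XV k :=
  ⟨AT S, LinearMap.pi fun i => (mu • 1 + sh k (S.U i) (2 * i + 1)) ∘ₗ LinearMap.proj i⟩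

/-- projection to a block -/
def prA (mu : k) (S : Sys k) (i : Fin 5) : XH (AA mu S) (Jb (S.U i) mu (2 * i + 1)) :=
  ⟨LinearMap.proj i, rfl⟩

theorem AA_pol (mu : k) (S : Sys k) (p : k[X]) (z : AT S) (i : Fin 5) :
    aeval (AA mu S).x p z i = aeval (mu • 1 + sh k (S.U i) (2 * i + 1)) p (z i) :=
  XH.comm_pol (prA mu S i) p z

theorem AA_N (mu : k) (S : Sys k) (l : ℕ) (z : AT S) (i : Fin 5) :
    (aeval (AA mu S).x (X - C mu) ^ l) z i = (sh k (S.U i) (2 * i + 1) ^ l) (z i) := by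
  rw [← map_pow, AA_pol, map_pow, aeval_sh]

/-- functoriality of the source -/
def mA (mu : k) (S S' : Sys k) (f : SysH S S') : XH (AA mu S) (AA mu S') :=
  ⟨LinearMap.pi fun i => (JbM mu (2 * i + 1) (f.f.restrict (f.mem i))).1 ∘ₗ LinearMap.proj i,
    LinearMap.ext fun z => funext fun i : Fin 5 =>
      XH.comm (JbM mu (2 * i + 1) (f.f.restrict (f.mem i))) (z i)⟩

/-- the sum of the middle coordinates -/
def mid (S : Sys k) : AT S →ₗ[k] S.V :=
  ∑ i : Fin 5, (S.U i).subtype ∘ₗ LinearMap.proj (⟨i, by omega⟩ : Fin (2 * i + 1)) ∘ₗ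
    LinearMap.proj i

theorem mid_apply (S : Sys k) (z : AT S) :
    mid S z = ∑ i : Fin 5, (z i ⟨i, by omega⟩ : S.V) := by
  simp [mid]

theorem mid_pow (mu : k) (S : Sys k) (i : Fin 5) {y : AT S}
    (hy : (aeval (AA mu S).x (X - C mu) ^ (2 * i + 1 : ℕ)) y = 0) {l : ℕ} (hl : i ≤ l) :
    mid S ((aeval (AA mu S).x (X - C mu) ^ l) y) = if l = i then (y i 0 : S.V) else 0 := by
  rw [mid_apply, Finset.sum_eq_single i (fun j _ hj => ?_) (by simp), AA_N, sh_pow_apply]
  · split_ifs with h1 h2 h2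
    · subst h2
      simp
    · simp at h1; omega
    · simp at h1; omega
    · rfl
  · rw [AA_N, sh_pow_apply]
    split_ifs with h1
    · have h3 : (i : ℕ) < j := lt_of_le_of_ne (hl.trans h1) fun e => hj (Fin.ext e.symm)
      have := congrFun (congrFun hy j) ⟨j - l + (2 * i + 1), by simp at h1; omega⟩
      rw [AA_N, sh_pow_apply, dif_pos (by simp)] at this
      simp only [Nat.add_sub_cancel] at this
      rw [this]
      rfl
    · rfl

theorem mid_single (mu : k) (S : Sys k) (i : Fin 5) (e : S.U i) (l : ℕ) :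
    mid S ((aeval (AA mu S).x (X - C mu) ^ l) (Pi.single i (Pi.single 0 e))) =
      if l = i then (e : S.V) else 0 := by
  rw [mid_apply, Finset.sum_eq_single i (fun j _ hj => ?_) (by simp), AA_N, sh_pow_apply,
    Pi.single_eq_same]
  · split_ifs with h1 h2 h2
    · subst h2
      simp
    · rw [Pi.single_eq_of_ne (fun e => by simp [Fin.ext_iff] at e h1; omega)]
      rfl
    · simp at h1; omega
    · rfl
  · rw [AA_N, Pi.single_eq_of_ne hj, map_zero]
    rfl

theorem refl {lam mu : k} {m : ℕ} {𝔞 : Ideal k[X][X]} {χ : k[X][X] →ₗ[k] k}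
    (c0 : ∀ p ∈ 𝔞, χ p = 0) (c1 : ∀ p, χ (C (X - C lam) ^ (m + 1) * p) = 0)
    (c2 : ∀ p, χ ((X - C (C mu)) ^ 5 * p) = 0)
    (c3 : ∀ p, χ (C (X - C lam) * (X - C (C mu)) ^ 4 * p) = 0) (c4 : χ ((X - C (C mu)) ^ 4) = 1)
    {S S' : Sys k} (gA : XH (AA mu S') (AA mu S)) (gB : (Fin (m + 1) → S'.V) →ₗ[k] (Fin (m + 1) → S.V))
    (h : (LinearMap.single k (fun _ : Fin (m + 1) => S.V) 0 ∘ₗ mid S) ∘ₗ gA.1 -
      gB ∘ₗ (LinearMap.single k (fun _ : Fin (m + 1) => S'.V) 0 ∘ₗ mid S') ∈ Submodule.span k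
        {φ | ∃ p ∈ 𝔞, ∃ w, φ = act (AA mu S') (Jb S.V lam (m + 1)) p w})
    (i : Fin 5) (e : S'.U i) : gB (Pi.single 0 e) 0 ∈ S.U i := by
  have hi := i.2
  have hv : (aeval (AA mu S').x (X - C mu) ^ (2 * i + 1 : ℕ)) (Pi.single i (Pi.single 0 e)) = 0 :=
    funext fun j => by
      rw [AA_N]
      by_cases b : j = i
      · subst b
        rw [sh_pow_eq_zero le_rfl]
        rfl
      · rw [Pi.single_eq_of_ne b, map_zero]
        rfl
  have nat : ∀ (l : ℕ) (z : AT S'), gA.1 ((aeval (AA mu S').x (X - C mu) ^ l) z) =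
      (aeval (AA mu S).x (X - C mu) ^ l) (gA.1 z) := fun l z => by
    rw [← map_pow, ← map_pow]
    exact XH.comm_pol gA _ z
  have hy := (nat _ _).symm.trans ((congrArg _ hv).trans (map_zero _))
  generalize hc : χ ∘ₗ LinearMap.mulLeft k ((X - C (C mu) : k[X][X]) ^ (4 - i : ℕ)) = c
  have ec : ∀ p, c p = χ ((X - C (C mu)) ^ (4 - i : ℕ) * p) := fun p => hc ▸ rfl
  have d2 : ∀ (b : ℕ) q, i < b → c ((X - C (C mu)) ^ b * q) = 0 := fun b q hb => by
    rw [ec, ← mul_assoc, ← pow_add, show 4 - i + b = 5 + (b - i - 1) by omega, pow_add, mul_assoc,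
      c2]
  have d3 : ∀ a : ℕ, c (C (X - C lam) ^ (a + 1) * (X - C (C mu)) ^ (i : ℕ)) = 0 := fun a => by
    rw [ec, mul_left_comm, ← pow_add, show 4 - (i : ℕ) + i = 4 by omega, pow_succ, mul_assoc, mul_comm,
      c3]
  have d4 : c (C (X - C lam) ^ 0 * (X - C (C mu)) ^ (i : ℕ)) = 1 := by
    rw [ec, pow_zero, one_mul, ← pow_add, show 4 - (i : ℕ) + i = 4 by omega, c4]
  have key := kill hv (c := c) (fun p hp => by rw [ec, c0 _ (𝔞.mul_mem_left _ hp)])
    (fun q => by rw [ec, mul_left_comm, c1]) (fun q => d2 _ q (by omega)) h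
  rw [map_sub, sub_eq_zero, Con_eval d2 d3 d4, Con_eval d2 d3 d4] at key
  · simp only [LinearMap.comp_apply, LinearMap.single_apply, Pi.single_eq_same] at key
    rw [nat, mid_pow mu S i hy le_rfl, mid_single, if_pos rfl, if_pos rfl] at key
    exact key ▸ SetLike.coe_mem _
  · intro l hl
    simp only [LinearMap.comp_apply]
    rw [mid_single, if_neg hl.ne', map_zero, map_zero]
  · intro l hl
    simp only [LinearMap.comp_apply]
    rw [nat, mid_pow mu S i hy hl.le, if_neg hl.ne', map_zero]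

end W1

open W1 in
theorem t_W1 : S_CA k → S_W0 k R → S_W1 k R := by
  intro hCA hW0 _ _ P hA h5 a ha hs ht 𝔞 h𝔞 hI
  obtain ⟨lam, mu, m, χ, f1, f2, c0, c1, c2, c3, c4⟩ := hCA 𝔞 P.f hA.hf h𝔞
  cases m with
  | zero =>
    have := c1 ((X - C (C mu)) ^ 4)
    rw [pow_zero, one_mul, c4] at this
    exact absurd this one_ne_zero
  | succ m =>
  refine hW0 P hA h5 a ha (fun A B => Submodule.span k {φ | ∃ p ∈ 𝔞, ∃ w, φ = act A B p w})
    (fun V V' _ _ => hI V V') (fun A A' B B' g g' φ hφ => ?_) (AA mu)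
    (fun S => Jb S.V lam (m + 1)) (mA mu) (fun S S' f => JbM lam (m + 1) f.f)
    (fun S => LinearMap.single k (fun _ : Fin (m + 1) => S.V) 0 ∘ₗ mid S)
    (fun _ _ _ _ _ => rfl) (fun _ _ _ _ _ => rfl) (fun S => ?_) (fun S => ?_) (fun S => ?_)
    (fun S => ?_) (fun S S' f => ?_) fun S S' gA gB h => ?_
  · refine Submodule.span_le (p := Submodule.comap (LinearMap.llcomp k _ _ _ g'.1 ∘ₗ
      LinearMap.lcomp k _ g.1) (Submodule.span k {φ | ∃ p ∈ 𝔞, ∃ w, φ = act A' B' p w})) |>.2 ?_ hφ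
    rintro _ ⟨p, hp, w, rfl⟩
    refine Submodule.subset_span ⟨p, hp, g'.1 ∘ₗ w ∘ₗ g.1, ?_⟩
    rw [act_natl, act_natr]
    rfl
  · have := S.fd
    exact inferInstanceAs (Module.Finite k (AT S))
  · have := S.fd
    exact inferInstanceAs (Module.Finite k (Fin (m + 1) → S.V))
  · rw [hs, allowed_true]
    have b := fun i : Fin 5 => Jb_bij (S.U i) mu (2 * i + 1) f2
    refine ⟨fun z z' e => funext fun i => (b i).1 ?_, fun z => ?_⟩
    · rw [← AA_pol, ← AA_pol, e]
    · choose y hy using fun i => (b i).2 (z i)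
      exact ⟨y, funext fun i => by rw [AA_pol, hy]⟩
  · rw [ht, allowed_true]
    exact Jb_bij S.V lam (m + 1) f1
  · refine LinearMap.ext fun z => funext fun j => ?_
    have e : mid S' ((mA mu S S' f).1 z) = f.f (mid S z) := by
      rw [mid_apply, mid_apply, map_sum]
      rfl
    change (Pi.single 0 (mid S' ((mA mu S S' f).1 z)) : Fin (m + 1) → S'.V) j =
      f.f ((Pi.single 0 (mid S z) : Fin (m + 1) → S.V) j)
    rw [e]
    by_cases b : j = 0
    · subst b; simp
    · simp [b]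
  · refine ⟨⟨LinearMap.proj (0 : Fin (m + 1)) ∘ₗ gB.1 ∘ₗ LinearMap.single k (fun _ => S'.V) 0,
      fun i v hv => refl c0 c1 c2 c3 c4 gA gB.1 h i ⟨v, hv⟩⟩, fun S0 u u' _ e => ?_⟩
    refine LinearMap.ext fun v => ?_
    have := congrFun (LinearMap.congr_fun (congrArg Subtype.val (e ht))
      (Pi.single 0 v : Fin (m + 1) → S0.V)) 0
    have e2 : (JbM lam (m + 1) u'.f).1 (Pi.single 0 v : Fin (m + 1) → S0.V) =
        (Pi.single 0 (u'.f v) : Fin (m + 1) → S'.V) := funext fun j => by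
      rw [JbM_apply]
      by_cases b : j = 0
      · subst b; simp
      · simp [b]
    rw [XH.comp_val, LinearMap.comp_apply, e2, JbM_apply, Pi.single_eq_same] at this
    exact this

end
end Pool.Agent.P.MP_cf639b_al.Red
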