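import Pool.Agent.P.MP_cf639b_al.Red.Iface

/-! Wild configurations with one transcendental end. -/

set_option linter.dupNamespace false
set_option linter.unusedVariables false

namespace Pool.Agent.P.MP_cf639b_al.Red

universe u
open TensorProduct Polynomial

noncomputable section

variable {k : Type u} [Field k] {R : Type u} [Ring R] [Algebra k R]

namespace W2

section
variable {E E' : Type u} [AddCommGroup E] [Module k E] [AddCommGroup E'] [Module k E']

theorem comm_sh {μ : k} {n : ℕ} (g : XH (Jb E μ n) (Jb E' μ n)) (z : Fin n → E) :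
    DFunLike.coe (F := (Fin n → E) →ₗ[k] (Fin n → E')) g.1 (sh k E n z) =
      sh k E' n (DFunLike.coe (F := (Fin n → E) →ₗ[k] (Fin n → E')) g.1 z) := by
  have h := XH.comm g z
  change g.1 (μ • z + sh k E n z) = μ • g.1 z + sh k E' n (g.1 z) at h
  rw [map_add, map_smul] at h
  exact add_left_cancel h

theorem sh_single (i : Fin 5) (v : E) :
    (sh k E 5 ^ i.1) (Pi.single 0 v) = Pi.single i v := funext fun j => by
  rw [sh_pow_apply]
  split_ifs with h
  · by_cases e : j = i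
    · subst e
      simp
    · rw [Pi.single_eq_of_ne e, Pi.single_eq_of_ne]
      intro e'
      have := congrArg Fin.val e'
      exact e (Fin.ext (by simp at this; omega))
  · rw [Pi.single_eq_of_ne]
    rintro rfl
    exact h le_rfl

/-- the corner of a map of Jordan blocks -/
def cor {μ : k} (g : XH (Jb E μ 5) (Jb E' μ 5)) : E →ₗ[k] E' :=
  LinearMap.proj (0 : Fin 5) ∘ₗ (g.1 : (Fin 5 → E) →ₗ[k] (Fin 5 → E')) ∘ₗ
    LinearMap.single k (fun _ : Fin 5 => E) 0

theorem diag {μ : k} (g : XH (Jb E μ 5) (Jb E' μ 5)) (i : Fin 5) (v : E) :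
    DFunLike.coe (F := (Fin 5 → E) →ₗ[k] (Fin 5 → E')) g.1 (Pi.single i v) i = cor g v := by
  have e : ∀ (c : ℕ) (z : Fin 5 → E),
      DFunLike.coe (F := (Fin 5 → E) →ₗ[k] (Fin 5 → E')) g.1 ((sh k E 5 ^ c) z) =
      (sh k E' 5 ^ c) (DFunLike.coe (F := (Fin 5 → E) →ₗ[k] (Fin 5 → E')) g.1 z) := by
    intro c z
    induction c with
    | zero => rfl
    | succ c ih => rw [pow_succ', pow_succ', Module.End.mul_apply, Module.End.mul_apply,
        comm_sh, ih]
  rw [← sh_single (k := k), e, sh_pow_apply, dif_pos le_rfl]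
  exact congrArg _ (Fin.ext (Nat.sub_self _))

theorem fac {E0 : Type u} [AddCommGroup E0] [Module k E0] {μ : k}
    (g : XH (Jb E μ 5) (Jb E' μ 5)) (u : E0 →ₗ[k] E') (u' : E0 →ₗ[k] E)
    (h : JbM μ 5 u = XH.comp g (JbM μ 5 u')) : u = cor g ∘ₗ u' := by
  refine LinearMap.ext fun v => ?_
  have h1 := congrArg (fun φ : XH (Jb E0 μ 5) (Jb E' μ 5) =>
    DFunLike.coe (F := (Fin 5 → E0) →ₗ[k] (Fin 5 → E')) φ.1 (Pi.single 0 v) 0) h
  have h2 : DFunLike.coe (F := (Fin 5 → E0) →ₗ[k] (Fin 5 → E)) (JbM μ 5 u').1 (Pi.single 0 v) =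
      Pi.single 0 (u' v) := funext fun j => by
    rw [JbM_apply]
    exact Pi.apply_single (fun _ => u') (fun _ => map_zero _) 0 v j
  change u (Pi.single (M := fun _ : Fin 5 => E0) 0 v 0) =
    DFunLike.coe (F := (Fin 5 → E) →ₗ[k] (Fin 5 → E')) g.1
      (DFunLike.coe (F := (Fin 5 → E0) →ₗ[k] (Fin 5 → E)) (JbM μ 5 u').1 (Pi.single 0 v)) 0 at h1
  rw [h2, Pi.single_eq_same, diag] at h1
  exact h1
end

/-- the product of the subspaces -/
abbrev SA (S : Sys k) : XV k := ⟨∀ i : Fin 5, S.U i, 0⟩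
/-- the product of the quotients -/
abbrev SB (S : Sys k) : XV k := ⟨∀ i : Fin 5, S.V ⧸ S.U i, 0⟩
/-- functoriality -/
def mA {S S' : Sys k} (f : SysH S S') : XH (SA S) (SA S') :=
  ⟨LinearMap.pi fun i => f.f.restrict (f.mem i) ∘ₗ LinearMap.proj i, by
    rw [mem_XH, LinearMap.comp_zero, LinearMap.zero_comp]⟩
/-- functoriality -/
def mB {S S' : Sys k} (f : SysH S S') : XH (SB S) (SB S') :=
  ⟨LinearMap.pi fun i => Submodule.mapQ _ _ f.f (f.mem i) ∘ₗ LinearMap.proj i, by
    rw [mem_XH, LinearMap.comp_zero, LinearMap.zero_comp]⟩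
/-- inclusion -/
def oA (S : Sys k) : (∀ i : Fin 5, S.U i) →ₗ[k] (Fin 5 → S.V) :=
  LinearMap.pi fun i => (S.U i).subtype ∘ₗ LinearMap.proj i
/-- projection -/
def oB (S : Sys k) : (Fin 5 → S.V) →ₗ[k] (∀ i : Fin 5, S.V ⧸ S.U i) :=
  LinearMap.pi fun i => (S.U i).mkQ ∘ₗ LinearMap.proj i

theorem oA_single (S : Sys k) (i : Fin 5) (v : S.U i) :
    oA S (Pi.single i v) = Pi.single i v.1 := funext fun j =>
  Pi.apply_single (fun j => (S.U j).subtype) (fun _ => map_zero _) i v j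
theorem oB_single (S : Sys k) (i : Fin 5) (v : S.V) (hv : v ∈ S.U i) :
    oB S (Pi.single i v) = 0 := funext fun j => by
  change (S.U j).mkQ (Pi.single (M := fun _ : Fin 5 => S.V) i v j) = 0
  by_cases e : j = i
  · subst e
    simpa using hv
  · rw [Pi.single_eq_of_ne e, map_zero]
end W2

open W2 in
theorem t_W2 : S_W0 k R → S_W2 k R := by
  intro h0 _ _ P hA h5 a ha hK hZ
  obtain ⟨lam, hl⟩ : ∃ lam : k, P.f.eval lam ≠ 0 := by
    by_contra hc
    push Not at hc
    exact hA.hf (Polynomial.funext fun x => by rw [hc x, eval_zero])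
  have hT : ∀ V V', P.Al V → P.Al V' → ∀ r ∈ P.Rad V V', ∀ u, P.br V V' r = P.ms V V' u →
      u a ∈ (⊥ : Submodule k (V (P.s a) →ₗ[k] V' (P.t a))) :=
    fun V V' hV hV' r hr u hu => hZ V V' hV.semi hV'.semi r hr u hu
  have hT' : ∀ (A A' B B' : XV k) (g : XH A' A) (g' : XH B B'),
      ∀ φ ∈ (⊥ : Submodule k (A →ₗ[k] B)),
      g'.1 ∘ₗ φ ∘ₗ g.1 ∈ (⊥ : Submodule k (A' →ₗ[k] B')) := by
    intro A A' B B' g g' φ hφ
    rw [(Submodule.mem_bot k).mp hφ, LinearMap.zero_comp, LinearMap.comp_zero]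
    exact zero_mem _
  have hJ : ∀ S : Sys k, Module.Finite k (Jb S.V lam 5) := fun S => by
    have := S.fd
    exact inferInstanceAs (Module.Finite k (Fin 5 → S.V))
  cases hs : P.K (P.s a)
  · have ht : P.K (P.t a) = true := by
      rw [hs] at hK
      simpa using hK
    refine h0 P hA h5 a ha (fun _ _ => ⊥) hT hT' SA (fun S => Jb S.V lam 5) (fun _ _ f => mA f)
      (fun _ _ f => JbM lam 5 f.f) oA (fun _ _ _ _ _ => rfl) (fun _ _ _ _ _ => rfl)
      (fun S => ?_) hJ (fun S => ?_) (fun S => ?_) (fun _ _ _ => rfl) fun S S' gA gB hg => ?_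
    · have := S.fd
      exact inferInstanceAs (Module.Finite k (∀ i : Fin 5, S.U i))
    · rw [hs]; exact allowed_false.mpr rfl
    · rw [ht]; exact allowed_true.mpr (Jb_bij _ lam 5 hl)
    · have hg' := sub_eq_zero.mp ((Submodule.mem_bot k).mp hg)
      refine ⟨⟨cor gB, fun i v hv => ?_⟩, fun S0 u u' _ h => fac gB u.f u'.f (h ht)⟩
      have h1 := congrFun (LinearMap.congr_fun hg' (Pi.single i ⟨v, hv⟩)) i
      change _ = DFunLike.coe (F := (Fin 5 → S'.V) →ₗ[k] (Fin 5 → S.V)) gB.1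
        (oA S' (Pi.single i ⟨v, hv⟩)) i at h1
      rw [oA_single, diag] at h1
      rw [← h1]
      exact (gA.1 (Pi.single i ⟨v, hv⟩) i).2
  · have ht : P.K (P.t a) = false := by
      rw [hs] at hK
      simpa using hK
    refine h0 P hA h5 a ha (fun _ _ => ⊥) hT hT' (fun S => Jb S.V lam 5) SB
      (fun _ _ f => JbM lam 5 f.f) (fun _ _ f => mB f) oB (fun _ _ _ _ _ => rfl)
      (fun _ _ _ g f => ?_) hJ (fun S => ?_) (fun S => ?_) (fun S => ?_) (fun _ _ _ => rfl)
      fun S S' gA gB hg => ?_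
    · exact Subtype.ext (LinearMap.ext fun z => _root_.funext fun i =>
        LinearMap.congr_fun (Submodule.mapQ_comp _ _ _ f.f g.f (f.mem i) (g.mem i)) (z i))
    · have := S.fd
      exact inferInstanceAs (Module.Finite k (∀ i : Fin 5, S.V ⧸ S.U i))
    · rw [hs]; exact allowed_true.mpr (Jb_bij _ lam 5 hl)
    · rw [ht]; exact allowed_false.mpr rfl
    · have hg' := sub_eq_zero.mp ((Submodule.mem_bot k).mp hg)
      refine ⟨⟨cor gA, fun i v hv => ?_⟩, fun S0 u u' h _ => fac gA u.f u'.f (h hs)⟩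
      have h1 := congrFun (LinearMap.congr_fun hg' (Pi.single i v)) i
      change (S.U i).mkQ (DFunLike.coe (F := (Fin 5 → S'.V) →ₗ[k] (Fin 5 → S.V)) gA.1
        (Pi.single i v) i) = gB.1 (oB S' (Pi.single i v)) i at h1
      rw [oB_single _ _ _ hv, diag, map_zero] at h1
      exact (Submodule.Quotient.mk_eq_zero _).mp h1

end
end Pool.Agent.P.MP_cf639b_al.Red
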