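import Pool.Agent.P.MP_cf639b_al.Red.Iface

set_option linter.dupNamespace false
set_option linter.unusedVariables false

namespace Pool.Agent.P.MP_cf639b_al.Red

universe u
open TensorProduct Polynomial

noncomputable section

variable {k : Type u} [Field k] {R : Type u} [Ring R] [Algebra k R]

namespace YON
/-- coefficient extraction -/
def co {n : ℕ} (i : ℕ) (b : Fin n) : R ⊗[k] (Fin n → k[X]) →ₗ[k] R :=
  (TensorProduct.rid k R).toLinearMap ∘ₗ LinearMap.lTensor R (lcoeff k i ∘ₗ LinearMap.proj b)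

theorem expand {n : ℕ} (z : R ⊗[k] (Fin n → k[X])) : ∀ᶠ r in Filter.atTop,
    z = ∑ i ∈ Finset.range (r + 1), ∑ b, co i b z ⊗ₜ[k] Pi.single b ((X : k[X]) ^ i) := by
  induction z using TensorProduct.induction_on with
  | zero => exact Filter.Eventually.of_forall fun r => by simp
  | add x y hx hy =>
    filter_upwards [hx, hy] with r h1 h2
    simp only [map_add, add_tmul, Finset.sum_add_distrib]
    rw [← h1, ← h2]
  | tmul c q =>
    have h : ∀ᶠ r in Filter.atTop, ∀ b, (q b).natDegree < r + 1 :=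
      Filter.eventually_all.mpr fun b =>
        (Filter.eventually_ge_atTop (q b).natDegree).mono fun r hr => by omega
    filter_upwards [h] with r hr
    have e : q = ∑ i ∈ Finset.range (r + 1), ∑ b,
        (q b).coeff i • (Pi.single b ((X : k[X]) ^ i) : Fin n → k[X]) := by
      funext b'
      rw [Finset.sum_apply]
      refine ((q b').as_sum_range' _ (hr b')).trans (Finset.sum_congr rfl fun i _ => ?_)
      rw [Finset.sum_apply, Finset.sum_eq_single b' (fun b _ hb => by simp [Ne.symm hb])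
        (fun h => (h (Finset.mem_univ _)).elim)]
      simp [← C_mul_X_pow_eq_monomial, smul_eq_C_mul]
    conv_lhs => rw [e]
    simp only [tmul_sum]
    refine Finset.sum_congr rfl fun i _ => Finset.sum_congr rfl fun b _ => ?_
    simp [co, smul_tmul]

/-- the free module of rank one -/
abbrev U : XV k := ⟨k[X], LinearMap.mulLeft k X⟩

/-- evaluation at a vector -/
def ev (V : XV k) (v : V) : XH (U (k := k)) V :=
  ⟨(LinearMap.applyₗ v : Module.End k V →ₗ[k] V) ∘ₗ (aeval V.x).toLinearMap,
    LinearMap.ext fun q => by simp⟩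
theorem ev_pow (V : XV k) (v : V) (i : ℕ) :
    DFunLike.coe (F := k[X] →ₗ[k] V) (ev V v).1 (X ^ i) = (V.x ^ i) v := by simp [ev]
theorem ev_single {n : ℕ} (V : XV k) (v : V) (i : ℕ) (b : Fin n) :
    DFunLike.coe (F := (Fin n → k[X]) →ₗ[k] (Fin n → V)) ((ev V v).1.compLeft _)
      (Pi.single b (X ^ i)) = Pi.single b ((V.x ^ i) v) := by
  funext b'
  change DFunLike.coe (F := k[X] →ₗ[k] V) (ev V v).1 ((Pi.single b (X ^ i) : Fin n → k[X]) b') = _
  by_cases h : b' = b
  · subst h
    rw [Pi.single_eq_same, Pi.single_eq_same, ev_pow]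
  · rw [Pi.single_eq_of_ne h, Pi.single_eq_of_ne h, map_zero]
end YON

open YON in
theorem t_YON : S_YON k R := by
  intro n1 n0 D hD
  let z : Fin n1 → R ⊗[k] (Fin n0 → k[X]) := fun a =>
    D U ((1 : R) ⊗ₜ (Pi.single a (X ^ 0) : Fin n1 → k[X]))
  obtain ⟨r, hr⟩ := (Filter.eventually_all.mpr fun a => expand (z a)).exists
  refine ⟨r, fun i a b => co i b (z a), fun V => P_ext fun v => ?_⟩
  have h1 : ∀ a, D V ((1 : R) ⊗ₜ Pi.single a (v a)) = ∑ i ∈ Finset.range (r + 1), ∑ b,
      co i b (z a) ⊗ₜ[k] (Pi.single b ((V.x ^ i) (v a)) : Fin n0 → V) := fun a => by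
    have h := LinearMap.congr_fun (hD U V (ev V (v a)))
      ((1 : R) ⊗ₜ (Pi.single a (X ^ 0) : Fin n1 → k[X]))
    rw [LinearMap.comp_apply, LinearMap.comp_apply, Pmap_tmul] at h
    have e := ev_single V (v a) 0 a
    rw [pow_zero V.x, Module.End.one_apply] at e
    refine ((congrArg (fun y => D V ((1 : R) ⊗ₜ y)) e).symm.trans h).trans ?_
    refine (congrArg (Pmap ((ev V (v a)).1.compLeft (Fin n0))) (hr a)).trans ?_
    rw [map_sum]
    refine Finset.sum_congr rfl fun i _ => ?_
    rw [map_sum]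
    exact Finset.sum_congr rfl fun b _ => congrArg (fun y => co i b (z a) ⊗ₜ[k] y)
      (ev_single V (v a) i b)
  refine Eq.trans ?_ (Xd_one_tmul ⟨n0, n1, r, fun i a b => co i b (z a)⟩ V v).symm
  conv_lhs => rw [← Finset.univ_sum_single v, tmul_sum, map_sum]
  rw [Finset.sum_congr rfl fun a _ => h1 a]
  exact Finset.sum_comm

end
end Pool.Agent.P.MP_cf639b_al.Red
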