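import Pool.Agent.P.MP_cf639b_al.Red.Glue
import Pool.Agent.P.MP_cf639b_al.Red.AX1
import Pool.Agent.P.MP_cf639b_al.Red.AX2
import Pool.Agent.P.MP_cf639b_al.Red.AX3
import Pool.Agent.P.MP_cf639b_al.Red.AX4
import Pool.Agent.P.MP_cf639b_al.Red.CONJ
import Pool.Agent.P.MP_cf639b_al.Red.FIT
import Pool.Agent.P.MP_cf639b_al.Red.NILP
import Pool.Agent.P.MP_cf639b_al.Red.LEN
import Pool.Agent.P.MP_cf639b_al.Red.LOOPOK
import Pool.Agent.P.MP_cf639b_al.Red.P5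
import Pool.Agent.P.MP_cf639b_al.Red.DICH
import Pool.Agent.P.MP_cf639b_al.Red.CA
import Pool.Agent.P.MP_cf639b_al.Red.TEN
import Pool.Agent.P.MP_cf639b_al.Red.DEC1
import Pool.Agent.P.MP_cf639b_al.Red.DEC2
import Pool.Agent.P.MP_cf639b_al.Red.ADAPT
import Pool.Agent.P.MP_cf639b_al.Red.YON
import Pool.Agent.P.MP_cf639b_al.Red.BOCK
import Pool.Agent.P.MP_cf639b_al.Red.LIFT
import Pool.Agent.P.MP_cf639b_al.Red.DECO
import Pool.Agent.P.MP_cf639b_al.Red.TSUB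
import Pool.Agent.P.MP_cf639b_al.Red.REG
import Pool.Agent.P.MP_cf639b_al.Red.EDGE
import Pool.Agent.P.MP_cf639b_al.Red.DROP
import Pool.Agent.P.MP_cf639b_al.Red.JORD
import Pool.Agent.P.MP_cf639b_al.Red.LOOPTR
import Pool.Agent.P.MP_cf639b_al.Red.W0
import Pool.Agent.P.MP_cf639b_al.Red.W1
import Pool.Agent.P.MP_cf639b_al.Red.W2
import Pool.Agent.P.MP_cf639b_al.Red.INIT1
import Pool.Agent.P.MP_cf639b_al.Red.INIT2
import Pool.Agent.P.MP_cf639b_al.Red.TRINIT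
import Pool.Agent.P.MP_cf639b_al.Red.FAM
import Pool.Agent.P.MP_cf639b_al.Red.RD

/-! The reduction theorem, assembled. -/

set_option linter.dupNamespace false

namespace Pool.Agent.P.MP_cf639b_al.Red

universe u

variable {k : Type u} [Field k] {R : Type u} [Ring R] [Algebra k R]

theorem a_SUB : S_SUB k R := g_SUB t_AX1 t_AX2 t_AX3 t_AX4

theorem a_TSUB : S_TSUB k R := t_TSUB a_SUB t_LEN

theorem a_RED0 : S_RED0 k R :=
  g_RED a_SUB (t_REG t_CONJ a_TSUB) (t_EDGE a_TSUB) (t_DROP a_TSUB) t_FIT t_LOOPOK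
    (t_LOOPTR t_LOOPOK a_TSUB (t_JORD t_NILP)) t_P5 t_DICH (t_W1 t_CA (t_W0 t_LIFT))
    (t_W2 (t_W0 t_LIFT)) t_DEC1 t_DEC2 t_ADAPT (t_INIT1 t_TEN) (t_INIT2 t_TEN)
    (t_TRINIT (t_INIT1 t_TEN)) (t_FAM t_YON) (t_RD t_BOCK t_LIFT) t_DECO

end Pool.Agent.P.MP_cf639b_al.Red
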