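import Pool.Agent.P.MP_cf639b_al.Red.Defs

/-! Basic facts on matrix problems and substitutions. -/

set_option linter.dupNamespace false
set_option linter.unusedVariables false

namespace Pool.Agent.P.MP_cf639b_al.Red

universe u
open TensorProduct Polynomial

noncomputable section

variable {k : Type u} [Field k] {R : Type u} [Ring R] [Algebra k R]

theorem allowed_true {f : k[X]} {V : XV k} :
    Allowed true f V ↔ Function.Bijective (aeval V.x f) := by simp [Allowed]
theorem allowed_false {f : k[X]} {V : XV k} : Allowed false f V ↔ V.x = 0 := by simp [Allowed]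
theorem bij_of_dvd {W : Type u} [AddCommGroup W] [Module k W] (x : Module.End k W) {p q : k[X]}
    (h : p ∣ q) (hq : Function.Bijective (aeval x q)) : Function.Bijective (aeval x p) := by
  obtain ⟨c, rfl⟩ := h
  constructor
  · rw [mul_comm, map_mul] at hq
    exact Function.Injective.of_comp (f := aeval x c) hq.1
  · rw [map_mul] at hq
    exact Function.Surjective.of_comp (g := aeval x c) hq.2
theorem XH.comm_pol {V V' : XV k} (g : XH V V') (p : k[X]) (v : V) :
    g.1 (aeval V.x p v) = aeval V'.x p (g.1 v) := by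
  induction p using Polynomial.induction_on' with
  | add p q hp hq => simp [hp, hq]
  | monomial n c => simp [aeval_monomial, XH.comm_pow, Algebra.algebraMap_eq_smul_one]
theorem allowed_of_ok {b : Bool} {f : k[X]} (hf : f ≠ 0) {V : XV k}
    (h : if b then KSp V else V.x = 0) : Allowed b f V := by
  cases b
  · simpa [Allowed] using h
  · exact allowed_true.mpr ((by simpa using h : KSp V) f hf)
theorem allowed_of_subsingleton (b : Bool) (f : k[X]) (V : XV k) [Subsingleton V] :
    Allowed b f V := by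
  cases b
  · exact allowed_false.mpr (Subsingleton.elim _ _)
  · exact allowed_true.mpr ⟨fun _ _ _ => Subsingleton.elim _ _, fun z => ⟨z, Subsingleton.elim _ _⟩⟩
theorem allowed_at {ι : Type} (K : ι → Bool) (f : k[X]) (v0 : ι) (W : XV k)
    (h : Allowed (K v0) f W) (v : ι) : Allowed (K v) f (At v0 W v) := by
  by_cases hv : v = v0
  · subst hv
    cases hK : K v
    · rw [hK, allowed_false] at h
      exact allowed_false.mpr (LinearMap.ext fun z => funext fun a => LinearMap.congr_fun h (z a))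
    · rw [hK, allowed_true] at h
      refine allowed_true.mpr ⟨fun z z' e => funext fun a => h.1 ?_, fun z => ?_⟩
      · have e1 := XH.comm_pol (atP v W) f z
        have e2 := XH.comm_pol (atP v W) f z'
        rw [e] at e1
        exact e1.symm.trans e2
      · obtain ⟨y, hy⟩ := h.2 ((atP v W).1 z)
        exact ⟨(atI v W).1 y, by rw [← XH.comm_pol, hy]; rfl⟩
  · have := at_subsingleton hv W
    exact allowed_of_subsingleton _ _ _

section pairs
variable {ι : Type} {G : Bool → GF k R ι}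
theorem gm_comp {V V' V'' : ι → XV k} (g : FH V' V'') (f : FH V V') :
    gm G (FH.comp g f) = HH.comp (gm G g) (gm G f) := funext fun e => (G e).map_comp g f
theorem gm_id (V : ι → XV k) : gm G (FH.id V) = fun _ => LinearMap.id :=
  funext fun e => (G e).map_id V
end pairs

namespace PD
variable {P : PD k R}

theorem Al.semi {V : P.ι → XV k} (h : P.Al V) : P.Semi V := fun v hv => by
  have := h v
  rwa [hv, allowed_false] at this

theorem app_mem {ρ : Σ s t : P.ι, NR P.G s t} (h : ρ ∈ P.rad) (V V' : P.ι → XV k)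
    (w : V ρ.1 →ₗ[k] V' ρ.2.1) : ρ.2.2.app V V' w ∈ P.Rad V V' :=
  Submodule.subset_span ⟨ρ, h, w, rfl⟩

/-- spans of values of natural maps are stable under composition with families -/
theorem span_comp (Z : Set (Σ s t : P.ι, NR P.G s t)) {V0 V V' V1 : P.ι → XV k} (g : FH V' V1)
    (g' : FH V0 V) {r : HH P.G V V'}
    (hr : r ∈ Submodule.span k {φ | ∃ ρ ∈ Z, ∃ w, φ = ρ.2.2.app V V' w}) :
    HH.comp (gm P.G g) (HH.comp r (gm P.G g')) ∈
      Submodule.span k {φ | ∃ ρ ∈ Z, ∃ w, φ = ρ.2.2.app V0 V1 w} := by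
  induction hr using Submodule.span_induction with
  | mem φ h =>
    obtain ⟨ρ, hρ, w, rfl⟩ := h
    refine Submodule.subset_span ⟨ρ, hρ, (g _).1 ∘ₗ w ∘ₗ (g' _).1, funext fun e => ?_⟩
    rw [ρ.2.2.natl, ρ.2.2.natr]
    rfl
  | zero =>
    have : HH.comp (gm P.G g) (HH.comp (0 : HH P.G V V') (gm P.G g')) = 0 := by
      funext e; simp
    rw [this]; exact zero_mem _
  | add a b _ _ ha hb =>
    have : HH.comp (gm P.G g) (HH.comp (a + b) (gm P.G g')) =
        HH.comp (gm P.G g) (HH.comp a (gm P.G g')) + HH.comp (gm P.G g) (HH.comp b (gm P.G g')) := by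
      funext e; simp [LinearMap.add_comp, LinearMap.comp_add]
    rw [this]; exact add_mem ha hb
  | smul c a _ ha =>
    have : HH.comp (gm P.G g) (HH.comp (c • a) (gm P.G g')) =
        c • HH.comp (gm P.G g) (HH.comp a (gm P.G g')) := by
      funext e; ext z; simp
    rw [this]; exact Submodule.smul_mem _ _ ha
theorem span_left (Z : Set (Σ s t : P.ι, NR P.G s t)) {V V' V1 : P.ι → XV k} (g : FH V' V1)
    {r : HH P.G V V'} (hr : r ∈ Submodule.span k {φ | ∃ ρ ∈ Z, ∃ w, φ = ρ.2.2.app V V' w}) :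
    HH.comp (gm P.G g) r ∈ Submodule.span k {φ | ∃ ρ ∈ Z, ∃ w, φ = ρ.2.2.app V V1 w} := by
  have := span_comp Z g (FH.id V) hr
  rwa [gm_id] at this
theorem span_right (Z : Set (Σ s t : P.ι, NR P.G s t)) {V0 V V' : P.ι → XV k} (g : FH V0 V)
    {r : HH P.G V V'} (hr : r ∈ Submodule.span k {φ | ∃ ρ ∈ Z, ∃ w, φ = ρ.2.2.app V V' w}) :
    HH.comp r (gm P.G g) ∈ Submodule.span k {φ | ∃ ρ ∈ Z, ∃ w, φ = ρ.2.2.app V0 V' w} := by
  have := span_comp Z (FH.id V') g hr
  rwa [gm_id] at this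
theorem Rad_left {V V' V1 : P.ι → XV k} (g : FH V' V1) {r : HH P.G V V'} (hr : r ∈ P.Rad V V') :
    HH.comp (gm P.G g) r ∈ P.Rad V V1 := span_left _ g hr
theorem Rad_right {V0 V V' : P.ι → XV k} (g : FH V0 V) {r : HH P.G V V'} (hr : r ∈ P.Rad V V') :
    HH.comp r (gm P.G g) ∈ P.Rad V0 V' := span_right _ g hr

theorem ms_left {V V' V1 : P.ι → XV k} (g : FH V' V1) (w : P.W V V') :
    (P.G false).map g ∘ₗ P.ms V V' w = P.ms V V1 fun a => (g _).1 ∘ₗ w a := by
  rw [ms_apply, ms_apply]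
  ext z
  simp only [(P.m _).natl, LinearMap.comp_apply, LinearMap.sum_apply, map_sum]
theorem ms_right {V0 V V' : P.ι → XV k} (g : FH V0 V) (w : P.W V V') :
    P.ms V V' w ∘ₗ (P.G true).map g = P.ms V0 V' fun a => w a ∘ₗ (g _).1 := by
  rw [ms_apply, ms_apply]
  ext z
  simp only [(P.m _).natr, LinearMap.comp_apply, LinearMap.sum_apply]
open Classical in
theorem ms_single {V V' : P.ι → XV k} (a : P.A) (w : V (P.s a) →ₗ[k] V' (P.t a)) :
    P.ms V V' (Pi.single a w) = (P.m a).app V V' w := by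
  rw [ms_apply, Finset.sum_eq_single a (fun b _ h => by simp [h]) (by simp)]
  simp

/-- `r ∘ m(w)` has no component at minimal arrows -/
theorem Ax.rad_ms (hA : P.Ax) {V V' V'' : P.ι → XV k} {r : HH P.G V' V''} (hr : r ∈ P.Rad V' V'')
    (w : P.W V V') : ∃ z : P.W V V'', (∀ a, P.Min a → z a = 0) ∧
      r false ∘ₗ P.ms V V' w = P.ms V V'' z := by
  choose z hz using fun a => hA.r2l r hr a (w a)
  refine ⟨∑ a, z a, fun a ha => ?_, ?_⟩
  · rw [Finset.sum_apply]
    exact Finset.sum_eq_zero fun b _ => (hz b).1 a (ha b)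
  · rw [map_sum, ms_apply, ← Finset.sum_congr rfl fun a _ => (hz a).2]
    ext y
    simp
/-- `m(w) ∘ r` has no component at minimal arrows -/
theorem Ax.ms_rad (hA : P.Ax) {V V' V'' : P.ι → XV k} {r : HH P.G V V'} (hr : r ∈ P.Rad V V')
    (w : P.W V' V'') : ∃ z : P.W V V'', (∀ a, P.Min a → z a = 0) ∧
      P.ms V' V'' w ∘ₗ r true = P.ms V V'' z := by
  choose z hz using fun a => hA.r2r r hr a (w a)
  refine ⟨∑ a, z a, fun a ha => ?_, ?_⟩
  · rw [Finset.sum_apply]
    exact Finset.sum_eq_zero fun b _ => (hz b).1 a (ha b)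
  · rw [map_sum, ms_apply, ← Finset.sum_congr rfl fun a _ => (hz a).2]
    ext y
    simp

theorem Ax.br_gm (hA : P.Ax) {V V' : P.ι → XV k} (g : FH V V') : P.br V V' (gm P.G g) = 0 :=
  sub_eq_zero.mpr (hA.dnat g)

/-- a family commuting with the matrices is a chain map -/
theorem Ax.chain_gm (hA : P.Ax) {V V' : P.ι → XV k} {w : P.W V V} {w' : P.W V' V'} (g : FH V V')
    (h : ∀ a, w' a ∘ₗ (g _).1 = (g _).1 ∘ₗ w a) : P.Chain V w V' w' (gm P.G g) := by
  unfold Chain D
  rw [LinearMap.add_comp, LinearMap.comp_add, gm_apply, gm_apply, hA.dnat, ms_left, ms_right]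
  congr 2
  exact funext h

theorem Chain.comp {V V' V'' : P.ι → XV k} {w w' w''} {φ : HH P.G V' V''} {ψ : HH P.G V V'}
    (h : P.Chain V' w' V'' w'' φ) (h' : P.Chain V w V' w' ψ) :
    P.Chain V w V'' w'' (HH.comp φ ψ) := by
  unfold Chain at *
  rw [HH.comp_apply, HH.comp_apply, ← LinearMap.comp_assoc, h, LinearMap.comp_assoc, h',
    LinearMap.comp_assoc]
theorem Chain.add {V V' : P.ι → XV k} {w w'} {φ ψ : HH P.G V V'}
    (h : P.Chain V w V' w' φ) (h' : P.Chain V w V' w' ψ) : P.Chain V w V' w' (φ + ψ) := by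
  unfold Chain at *
  rw [Pi.add_apply, Pi.add_apply, LinearMap.add_comp, LinearMap.comp_add, h, h']
theorem Chain.sub {V V' : P.ι → XV k} {w w'} {φ ψ : HH P.G V V'}
    (h : P.Chain V w V' w' φ) (h' : P.Chain V w V' w' ψ) : P.Chain V w V' w' (φ - ψ) := by
  unfold Chain at *
  rw [Pi.sub_apply, Pi.sub_apply, LinearMap.sub_comp, LinearMap.comp_sub, h, h']
@[simp] theorem Hm_mk {V : P.ι → XV k} {w : P.W V V} {V' : P.ι → XV k} {w' : P.W V' V'}
    {φ : HH P.G V V'} (h : P.Chain V w V' w' φ) (z : (P.G false).obj V) :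
    Hm h (Submodule.Quotient.mk z) = Submodule.Quotient.mk (φ false z) := rfl

/-- the equation satisfied by a chain map at a minimal arrow -/
theorem Ax.comm (hA : P.Ax) {V V' : P.ι → XV k} {w : P.W V V} {w' : P.W V' V'} {g : FH V V'}
    {r : HH P.G V V'} (hr : r ∈ P.Rad V V') (h : P.Chain V w V' w' (gm P.G g + r))
    {u : P.W V V'} (hu : P.br V V' r = P.ms V V' u) {a : P.A} (ha : P.Min a) :
    w' a ∘ₗ (g _).1 - (g _).1 ∘ₗ w a + u a = 0 := by
  obtain ⟨z, hz, ez⟩ := hA.rad_ms hr w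
  obtain ⟨z', hz', ez'⟩ := hA.ms_rad hr w'
  have e : P.ms V V' ((fun a => w' a ∘ₗ (g _).1) - (fun a => (g _).1 ∘ₗ w a) + u + z' - z) =
      P.ms V V' 0 := by
    rw [map_sub, map_add, map_add, map_sub, ← ms_left, ← ms_right, ← hu, ← ez, ← ez', map_zero,
      br_apply]
    have h1 := hA.dnat g
    unfold Chain D at h
    simp only [Pi.add_apply, gm_apply, LinearMap.add_comp, LinearMap.comp_add, h1] at h
    ext y
    have h2 := LinearMap.congr_fun h y
    simp only [LinearMap.add_apply, LinearMap.comp_apply, LinearMap.sub_apply,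
      LinearMap.zero_apply] at h2 ⊢
    rw [← sub_eq_zero] at h2
    rw [← h2]
    abel
  have := congrFun (hA.minj V V' e) a
  simpa [hz a ha, hz' a ha] using this

theorem IsTr.al (hA : P.Ax) {F : Type u} [Field F] [Algebra k F] {E : Type u} [Ring E]
    {X : CX k R F} {V : P.ι → FXV k F} {w} {ρ : ∀ v, E →+* Module.End k (V v).V}
    (h : P.IsTr X V w ρ) : P.Al fun v => (V v).V := fun v => allowed_of_ok hA.hf (h.ok v)
end PD

namespace SD
variable {P : PD k R} (S : SD P)

theorem semi_T (V : S.ι → XV k) : P.Semi (S.T V) := fun v hv => by simp [hv]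
theorem T_x_true (V : S.ι → XV k) {v : P.ι} (hv : P.K v = true) (z : S.TT V v) (ω : S.U v) :
    (S.T V v).x z ω = (V (S.i ω.1)).x (z ω) := by simp [hv]
/-- projection to a slot over a transcendental vertex -/
def prjX (V : S.ι → XV k) {v : P.ι} (hv : P.K v = true) (ω : S.U v) :
    XH (S.T V v) (V (S.i ω.1)) := ⟨S.prj V ω, LinearMap.ext fun z => S.T_x_true V hv z ω⟩
theorem T_pol (V : S.ι → XV k) {v : P.ι} (hv : P.K v = true) (p : k[X]) (z : S.T V v)
    (ω : S.U v) : aeval (S.T V v).x p z ω = aeval (V (S.i ω.1)).x p (z ω) :=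
  XH.comm_pol (S.prjX V hv ω) p z
theorem T_bij (V : S.ι → XV k) {v : P.ι} (hv : P.K v = true) (p : k[X])
    (h : ∀ ω : S.U v, Function.Bijective (aeval (V (S.i ω.1)).x p)) :
    Function.Bijective (aeval (S.T V v).x p) := by
  refine ⟨fun z z' e => funext fun ω => (h ω).1 ?_, fun z => ?_⟩
  · rw [← S.T_pol V hv, ← S.T_pol V hv, e]
  · choose y hy using fun ω => (h ω).2 (z ω)
    exact ⟨y, funext fun ω => by rw [S.T_pol V hv, hy]⟩
theorem al_T (hd : P.f ∣ S.f) (hK : ∀ ω, P.K (S.base ω) = true → S.K (S.i ω) = true)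
    {V : S.ι → XV k} (h : S.new.Al V) : P.Al (S.T V) := fun v => by
  cases hv : P.K v
  · exact allowed_false.mpr (S.semi_T V v hv)
  · refine allowed_true.mpr (S.T_bij V hv _ fun ω => bij_of_dvd _ hd ?_)
    have := h (S.i ω.1)
    change Allowed (S.K _) S.f _ at this
    rwa [hK ω.1 (by rw [ω.2, hv]), allowed_true] at this
variable {S} in
theorem Ok.al (hS : S.Ok) {V : S.ι → XV k} (h : S.new.Al V) : P.Al (S.T V) :=
  S.al_T hS.dvd hS.Kc h

/-- maps between substituted spaces are determined by their components -/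
theorem comp_ext {V V' : S.ι → XV k} {v v' : P.ι} {φ ψ : S.TT V v →ₗ[k] S.TT V' v'}
    (h : ∀ α β, S.prj V' α ∘ₗ φ ∘ₗ S.inc V β = S.prj V' α ∘ₗ ψ ∘ₗ S.inc V β) : φ = ψ := by
  refine LinearMap.ext fun z => funext fun α => ?_
  rw [← S.sum_inc V z, map_sum, map_sum, Finset.sum_apply, Finset.sum_apply]
  exact Finset.sum_congr rfl fun β _ => LinearMap.congr_fun (h α β) (z β)
theorem fam_ext {V V' : S.ι → XV k} {g g' : FH (S.T V) (S.T V')}
    (h : ∀ v α β, S.prj V' α ∘ₗ (g v).1 ∘ₗ S.inc V β = S.prj V' α ∘ₗ (g' v).1 ∘ₗ S.inc V β) :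
    g = g' := funext fun v => Subtype.ext (S.comp_ext (h v))
/-- the map with given components -/
def asm {V V' : S.ι → XV k} {v v' : P.ι}
    (c : ∀ (α : S.U v') (β : S.U v), V (S.i β.1) →ₗ[k] V' (S.i α.1)) :
    S.TT V v →ₗ[k] S.TT V' v' :=
  ∑ α, ∑ β, S.inc V' α ∘ₗ c α β ∘ₗ S.prj V β
theorem asm_apply {V V' : S.ι → XV k} {v v' : P.ι}
    (c : ∀ (α : S.U v') (β : S.U v), V (S.i β.1) →ₗ[k] V' (S.i α.1)) (z : S.TT V v) (α : S.U v') :
    S.asm c z α = ∑ β, c α β (z β) := by
  simp only [asm, LinearMap.sum_apply, LinearMap.comp_apply, Finset.sum_apply]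
  rw [Finset.sum_eq_single α (fun α' _ h => Finset.sum_eq_zero fun β _ =>
    inc_ne _ _ _ (Ne.symm h) _) (by simp)]
  simp only [inc_self, prj_apply]
theorem asm_comp {V V' : S.ι → XV k} {v v' : P.ι}
    (c : ∀ (α : S.U v') (β : S.U v), V (S.i β.1) →ₗ[k] V' (S.i α.1)) (α : S.U v') (β : S.U v) :
    S.prj V' α ∘ₗ S.asm c ∘ₗ S.inc V β = c α β := by
  refine LinearMap.ext fun z => ?_
  change S.asm c (S.inc V β z) α = _
  rw [asm_apply, Finset.sum_eq_single β (fun β' _ h => by rw [inc_ne _ _ _ h, map_zero])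
    (by simp), inc_self]
theorem asm_self {V V' : S.ι → XV k} {v v' : P.ι} (φ : S.TT V v →ₗ[k] S.TT V' v') :
    S.asm (fun α β => S.prj V' α ∘ₗ φ ∘ₗ S.inc V β) = φ :=
  S.comp_ext fun α β => S.asm_comp _ α β

open Classical in
/-- the old tuple of matrices attached to a new one -/
def lift (V V' : S.ι → XV k) : S.NW V V' →ₗ[k] P.W (S.T V) (S.T V') where
  toFun w a := if h : S.fix a then 0 else S.asm fun α β => w ⟨⟨a, h⟩, β, α⟩
  map_add' w w' := funext fun a => by
    by_cases h : S.fix a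
    · simp [h]
    · simp only [h, dif_neg, not_false_eq_true, Pi.add_apply]
      refine LinearMap.ext fun z => funext fun α => ?_
      simp [asm_apply, Finset.sum_add_distrib]
  map_smul' c w := funext fun a => by
    by_cases h : S.fix a
    · simp [h]
    · simp only [h, dif_neg, not_false_eq_true, Pi.smul_apply, RingHom.id_apply]
      refine LinearMap.ext fun z => funext fun α => ?_
      simp [asm_apply, Finset.smul_sum]
theorem lift_fix {V V' : S.ι → XV k} (w : S.NW V V') {a : P.A} (h : S.fix a) :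
    S.lift V V' w a = 0 := by simp [lift, h]
theorem lift_nfix {V V' : S.ι → XV k} (w : S.NW V V') {a : P.A} (h : ¬ S.fix a) :
    S.lift V V' w a = S.asm fun α β => w ⟨⟨a, h⟩, β, α⟩ := by simp [lift, h]
/-- the new tuple of matrices attached to an old one -/
def unlift (V V' : S.ι → XV k) (w : P.W (S.T V) (S.T V')) : S.NW V V' := fun a =>
  S.prj V' a.2.2 ∘ₗ w a.1.1 ∘ₗ S.inc V a.2.1
theorem unlift_lift {V V' : S.ι → XV k} (w : S.NW V V') :
    S.unlift V V' (S.lift V V' w) = w := funext fun a => by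
  unfold unlift
  rw [S.lift_nfix w a.1.2, asm_comp]
theorem lift_unlift {V V' : S.ι → XV k} (w : P.W (S.T V) (S.T V'))
    (h : ∀ a, S.fix a → w a = 0) : S.lift V V' (S.unlift V V' w) = w := funext fun a => by
  by_cases ha : S.fix a
  · rw [S.lift_fix _ ha, h a ha]
  · rw [S.lift_nfix _ ha]
    exact S.asm_self (w a)
theorem new_ms (V V' : S.ι → XV k) (w : S.NW V V') :
    S.new.ms V V' w = P.ms (S.T V) (S.T V') (S.lift V V' w) := by
  classical
  have e1 := Fintype.sum_subtype_add_sum_subtype S.fix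
    fun a => (P.m a).app (S.T V) (S.T V') (S.lift V V' w a)
  have e2 : ∑ a : {a // S.fix a}, (P.m a.1).app (S.T V) (S.T V') (S.lift V V' w a.1) = 0 :=
    Finset.sum_eq_zero fun a _ => by rw [S.lift_fix _ a.2, map_zero]
  rw [e2, zero_add] at e1
  refine (S.new.ms_apply V V' w).trans (Eq.trans ?_ (e1.trans (P.ms_apply _ _ _).symm))
  refine (Fintype.sum_sigma _).trans (Finset.sum_congr rfl fun a _ => ?_)
  rw [S.lift_nfix _ a.2, asm, map_sum, Fintype.sum_prod_type_right]
  refine Finset.sum_congr rfl fun α _ => ?_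
  rw [map_sum]
  rfl
theorem new_D (V : S.ι → XV k) (w : S.NW V V) :
    S.new.D V w = P.D (S.T V) (S.w0 V + S.lift V V w) := by
  unfold PD.D
  rw [new_ms, map_add, ← add_assoc]
  rfl
theorem new_chain {V V' : S.ι → XV k} {w : S.NW V V} {w' : S.NW V' V'}
    (φ : HH P.G (S.T V) (S.T V')) : S.new.Chain V w V' w' φ ↔
      P.Chain (S.T V) (S.w0 V + S.lift V V w) (S.T V') (S.w0 V' + S.lift V' V' w') φ := by
  unfold PD.Chain
  rw [new_D, new_D]

theorem mem_new_Rad {V V' : S.ι → XV k} (φ : HH P.G (S.T V) (S.T V')) : φ ∈ S.new.Rad V V' ↔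
    ∃ r ∈ S.Rad0 (S.T V) (S.T V'), ∃ b ∈ S.Bsp V V', φ = r + gm P.G b := by
  have key : S.new.Rad V V' = S.Rad0 (S.T V) (S.T V') ⊔ (S.Bsp V V').map (gm P.G) := by
    apply le_antisymm
    · refine Submodule.span_le.mpr ?_
      rintro _ ⟨ρ, ⟨σ, hσ, β, α, rfl⟩ | ⟨b, hb, e⟩, w, rfl⟩
      · exact Submodule.mem_sup_left (Submodule.subset_span ⟨σ, hσ, _, rfl⟩)
      · rw [e]
        exact Submodule.mem_sup_right ⟨_, Submodule.subset_span ⟨_, _, b, hb, w, rfl⟩, rfl⟩
    · refine sup_le (Submodule.span_le.mpr ?_) ?_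
      · rintro _ ⟨σ, hσ, w, rfl⟩
        rw [← S.asm_self w, asm, map_sum]
        refine Submodule.sum_mem _ fun α _ => ?_
        rw [map_sum]
        exact Submodule.sum_mem _ fun β _ => Submodule.subset_span
          ⟨⟨_, _, S.cR σ.2.2 β α⟩, Or.inl ⟨σ, hσ, β, α, rfl⟩, S.prj V' α ∘ₗ w ∘ₗ S.inc V β, rfl⟩
      · rw [Submodule.map_le_iff_le_comap]
        refine Submodule.span_le.mpr ?_
        rintro _ ⟨s, t, b, hb, w, rfl⟩
        exact Submodule.subset_span ⟨⟨s, t, S.bR b⟩, Or.inr ⟨b, hb, rfl⟩, w, rfl⟩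
  rw [key, Submodule.mem_sup]
  constructor
  · rintro ⟨r, hr, _, ⟨b, hb, rfl⟩, rfl⟩
    exact ⟨r, hr, b, hb, rfl⟩
  · rintro ⟨r, hr, b, hb, rfl⟩
    exact ⟨r, hr, _, ⟨b, hb, rfl⟩, rfl⟩

variable {S} in
theorem Ok.rad0_le (hS : S.Ok) (V V' : P.ι → XV k) : S.Rad0 V V' ≤ P.Rad V V' :=
  Submodule.span_le.mpr (by
    rintro _ ⟨ρ, hρ, w, rfl⟩
    exact hS.r0in ρ hρ V V' w)
theorem Rad0_left {V V' V1 : P.ι → XV k} (g : FH V' V1) {r : HH P.G V V'} (hr : r ∈ S.Rad0 V V') :
    HH.comp (gm P.G g) r ∈ S.Rad0 V V1 := PD.span_left _ g hr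
theorem Rad0_right {V0 V V' : P.ι → XV k} (g : FH V0 V) {r : HH P.G V V'} (hr : r ∈ S.Rad0 V V') :
    HH.comp r (gm P.G g) ∈ S.Rad0 V0 V' := PD.span_right _ g hr

theorem Bsp_good {V V' : S.ι → XV k} {b : FH (S.T V) (S.T V')} (hb : b ∈ S.Bsp V V') :
    S.Up b ∧ S.Cm b := by
  induction hb using Submodule.span_induction with
  | mem φ h =>
    obtain ⟨s, t, b, hb, w, rfl⟩ := h
    exact hb V V' w
  | zero => exact ⟨fun v α β _ => by simp, fun a => by simp⟩
  | add a b _ _ ha hb =>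
    refine ⟨fun v α β h => ?_, fun c => ?_⟩
    · rw [Pi.add_apply, Submodule.coe_add, LinearMap.add_comp, LinearMap.comp_add, ha.1 v α β h,
        hb.1 v α β h, add_zero]
    · rw [Pi.add_apply, Pi.add_apply, Submodule.coe_add, Submodule.coe_add, LinearMap.add_comp,
        LinearMap.comp_add, ha.2, hb.2]
  | smul c a _ ha =>
    refine ⟨fun v α β h => ?_, fun d => ?_⟩
    · rw [Pi.smul_apply, Submodule.coe_smul, LinearMap.smul_comp, LinearMap.comp_smul,
        ha.1 v α β h, smul_zero]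
    · rw [Pi.smul_apply, Pi.smul_apply, Submodule.coe_smul, Submodule.coe_smul,
        LinearMap.smul_comp, LinearMap.comp_smul, ha.2]

/-- a diagonal family which raises weights vanishes -/
theorem eq_zero_of_Up (hs : Function.Surjective S.i) {V V' : S.ι → XV k} {g : FH V V'}
    (h : S.Up (S.TM g)) : g = 0 := funext fun j => by
  obtain ⟨ω, rfl⟩ := hs j
  have := h (S.base ω) ⟨ω, rfl⟩ ⟨ω, rfl⟩ (lt_irrefl _)
  rw [S.TM_inc, ← LinearMap.comp_assoc, S.prj_inc, LinearMap.id_comp] at this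
  exact Subtype.ext this

/-- the block map with coefficient matrix `c` -/
def blk (c : S.Ω → S.Ω → k) (hc : ∀ α β, P.K (S.base α) = true → c α β = 0) (s t : S.ι) :
    NB (k := k) P.K S.base S.i s t where
  app V V' :=
    { toFun := fun w v => ⟨S.asm fun α β => c α.1 β.1 • tf V V' s t _ _ w, by
        rw [mem_XH]
        cases hv : P.K v
        · rw [S.semi_T V v hv, S.semi_T V' v hv, LinearMap.comp_zero, LinearMap.zero_comp]
        · have : (S.asm fun (α : S.U v) (β : S.U v) => c α.1 β.1 • tf V V' s t _ _ w) = 0 :=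
            LinearMap.ext fun z => funext fun α => by
              simp [asm_apply, hc α.1 _ (by rw [α.2, hv])]
          rw [this, LinearMap.comp_zero, LinearMap.zero_comp]⟩
      map_add' := fun w w' => FH.ext fun v z => funext fun α => by
        simp [asm_apply, Finset.sum_add_distrib]
      map_smul' := fun a w => FH.ext fun v z => funext fun α => by
        simp [asm_apply, Finset.smul_sum, smul_comm a] }
  natl {V V' V''} g w := FH.ext fun v z => funext fun α => by
    change S.asm _ z α = (g _).1 (S.asm _ z α)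
    rw [asm_apply, asm_apply, map_sum]
    refine Finset.sum_congr rfl fun β _ => ?_
    rw [tf_natl (fun v => (g v).1)]
    simp
  natr {V V' V''} g w := FH.ext fun v z => funext fun α => by
    change S.asm _ z α = S.asm _ ((S.TM g v).1 z) α
    rw [asm_apply, asm_apply]
    refine Finset.sum_congr rfl fun β _ => ?_
    rw [tf_natr (fun v => (g v).1)]
    rfl
theorem blk_apply (c : S.Ω → S.Ω → k) (hc) (s t : S.ι) (V V' : S.ι → XV k) (w : V s →ₗ[k] V' t)
    (v : P.ι) (z : S.TT V v) (α : S.U v) :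
    DFunLike.coe (F := S.TT V v →ₗ[k] S.TT V' v) ((S.blk c hc s t).app V V' w v).1 z α =
      ∑ β : S.U v, c α.1 β.1 • tf V V' s t _ _ w (z β) := S.asm_apply _ z α
theorem blk_comp (c : S.Ω → S.Ω → k) (hc) (s t : S.ι) (V V' : S.ι → XV k) (w : V s →ₗ[k] V' t)
    (v : P.ι) (α β : S.U v) :
    S.prj V' α ∘ₗ ((S.blk c hc s t).app V V' w v).1 ∘ₗ S.inc V β =
      c α.1 β.1 • tf V V' s t _ _ w := S.asm_comp _ α β
end SD

end
end Pool.Agent.P.MP_cf639b_al.Red
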