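import Pool.Agent.P.MP_cf639b_al.Pairs

/-! Matrix problems for the reduction theorem: data, axioms, tracked objects, substitution. -/

set_option linter.dupNamespace false
set_option linter.unusedVariables false

namespace Pool.Agent.P.MP_cf639b_al.Red

universe u
open TensorProduct Polynomial

noncomputable section

variable {k : Type u} [Field k] {R : Type u} [Ring R] [Algebra k R]

section fam
variable {ι : Type}

/-- families of `k[x]`-linear maps -/
abbrev FH (V V' : ι → XV k) : Type u := ∀ v, XH (V v) (V' v)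
/-- identity family -/
def FH.id (V : ι → XV k) : FH V V := fun v => XH.id (V v)
/-- composite family -/
def FH.comp {V V' V'' : ι → XV k} (g : FH V' V'') (f : FH V V') : FH V V'' :=
  fun v => XH.comp (g v) (f v)
/-- a polynomial in `x` at every vertex -/
def FH.pol (V : ι → XV k) (h : k[X]) : FH V V := fun v => XH.pol (V v) h
@[simp] theorem FH.id_val (V : ι → XV k) (v : ι) : (FH.id V v).1 = LinearMap.id := rfl
@[simp] theorem FH.comp_val {V V' V'' : ι → XV k} (g : FH V' V'') (f : FH V V') (v : ι) :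
    (FH.comp g f v).1 = (g v).1 ∘ₗ (f v).1 := rfl
@[simp] theorem FH.pol_val (V : ι → XV k) (h : k[X]) (v : ι) :
    (FH.pol V h v).1 = aeval (V v).x h := rfl
theorem FH.ext {V V' : ι → XV k} {g g' : FH V V'} (h : ∀ v z, (g v).1 z = (g' v).1 z) : g = g' :=
  funext fun v => Subtype.ext (LinearMap.ext (h v))

/-- transport along an equality of vertices -/
def cs (V : ι → XV k) {a b : ι} (h : a = b) : V a →ₗ[k] V b := h ▸ LinearMap.id
@[simp] theorem cs_self (V : ι → XV k) {a : ι} (h : a = a) : cs V h = LinearMap.id := rfl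
/-- transport as a `k[x]`-linear map -/
def csX (V : ι → XV k) {a b : ι} (h : a = b) : XH (V a) (V b) := ⟨cs V h, by subst h; rfl⟩
@[simp] theorem csX_val (V : ι → XV k) {a b : ι} (h : a = b) : (csX V h).1 = cs V h := rfl
theorem cs_nat {V V' : ι → XV k} (g : ∀ v, V v →ₗ[k] V' v) {a b : ι} (h : a = b) :
    cs V' h ∘ₗ g a = g b ∘ₗ cs V h := by subst h; rfl

open Classical in
/-- a map `V s → V' t` seen as a map `V j → V' j'`, zero unless `j = s` and `j' = t` -/
def tf (V V' : ι → XV k) (s t j j' : ι) : (V s →ₗ[k] V' t) →ₗ[k] (V j →ₗ[k] V' j') :=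
  if h : j = s ∧ t = j' then LinearMap.llcomp k _ _ _ (cs V' h.2) ∘ₗ LinearMap.lcomp k _ (cs V h.1)
  else 0
@[simp] theorem tf_self (V V' : ι → XV k) (s t : ι) (w : V s →ₗ[k] V' t) :
    tf V V' s t s t w = w := by
  simp only [tf, and_self, dif_pos]
  rfl
theorem tf_of_ne {V V' : ι → XV k} {s t j j' : ι} (h : j ≠ s ∨ j' ≠ t) (w : V s →ₗ[k] V' t) :
    tf V V' s t j j' w = 0 := by
  have : ¬ (j = s ∧ t = j') := by
    rintro ⟨rfl, rfl⟩
    simp at h
  simp [tf, this]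
theorem tf_natl {V V' V'' : ι → XV k} (g : ∀ v, V' v →ₗ[k] V'' v) (s t j j' : ι)
    (w : V s →ₗ[k] V' t) : tf V V'' s t j j' (g t ∘ₗ w) = g j' ∘ₗ tf V V' s t j j' w := by
  by_cases h : j = s ∧ j' = t
  · obtain ⟨rfl, rfl⟩ := h
    simp
  · rw [tf_of_ne (by tauto), tf_of_ne (by tauto), LinearMap.comp_zero]
theorem tf_natr {V V' V'' : ι → XV k} (g : ∀ v, V v →ₗ[k] V' v) (s t j j' : ι)
    (w : V' s →ₗ[k] V'' t) : tf V V'' s t j j' (w ∘ₗ g s) = tf V' V'' s t j j' w ∘ₗ g j := by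
  by_cases h : j = s ∧ j' = t
  · obtain ⟨rfl, rfl⟩ := h
    simp
  · rw [tf_of_ne (by tauto), tf_of_ne (by tauto), LinearMap.zero_comp]

/-- the family with `W` at the vertex `v0` and zero elsewhere -/
abbrev At (v0 : ι) (W : XV k) : ι → XV k := fun v =>
  ⟨PLift (v = v0) → W, W.x.compLeft _⟩
/-- `W → At v0 W v0` -/
def atI (v0 : ι) (W : XV k) : XH W (At v0 W v0) := ⟨LinearMap.pi fun _ => LinearMap.id, rfl⟩
/-- `At v0 W v0 → W` -/
def atP (v0 : ι) (W : XV k) : XH (At v0 W v0) W := ⟨LinearMap.proj ⟨rfl⟩, rfl⟩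
@[simp] theorem atI_apply (v0 : ι) (W : XV k) (z : W) (h : PLift (v0 = v0)) :
    DFunLike.coe (F := W →ₗ[k] (PLift (v0 = v0) → W)) (atI v0 W).1 z h = z := rfl
@[simp] theorem atP_apply (v0 : ι) (W : XV k) (z : PLift (v0 = v0) → W) :
    DFunLike.coe (F := (PLift (v0 = v0) → W) →ₗ[k] W) (atP v0 W).1 z = z ⟨rfl⟩ := rfl
theorem atP_atI (v0 : ι) (W : XV k) : (atP v0 W).1 ∘ₗ (atI v0 W).1 = LinearMap.id := rfl
theorem atI_atP (v0 : ι) (W : XV k) : (atI v0 W).1 ∘ₗ (atP v0 W).1 = LinearMap.id := rfl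
theorem at_subsingleton {v0 v : ι} (h : v ≠ v0) (W : XV k) : Subsingleton (At v0 W v) :=
  ⟨fun _ _ => funext fun a => (h a.down).elim⟩
/-- functoriality of `At` -/
def atM (v0 : ι) {W W' : XV k} : XH W W' →ₗ[k] FH (At v0 W) (At v0 W') where
  toFun g v := ⟨g.1.compLeft _, LinearMap.ext fun z => funext fun a => XH.comm g (z a)⟩
  map_add' _ _ := rfl
  map_smul' _ _ := rfl
@[simp] theorem atM_apply (v0 : ι) {W W' : XV k} (g : XH W W') (v : ι) (z : PLift (v = v0) → W)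
    (a : PLift (v = v0)) : DFunLike.coe (F := (PLift (v = v0) → W) →ₗ[k] (PLift (v = v0) → W'))
      (atM v0 g v).1 z a = g.1 (z a) := rfl
open Classical in
/-- the family map out of `At v0 W` given by `W → V v0` -/
def fromAt {v0 : ι} {W : XV k} {V : ι → XV k} (g : XH W (V v0)) : FH (At v0 W) V := fun v =>
  if h : v = v0 then XH.comp (csX V h.symm) (XH.comp g ⟨LinearMap.proj ⟨h⟩, rfl⟩) else 0
/-- the family map into `At v0 W` given by `V v0 → W` -/
def toAt {v0 : ι} {W : XV k} {V : ι → XV k} (g : XH (V v0) W) : FH V (At v0 W) := fun v =>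
  ⟨LinearMap.pi fun a => g.1 ∘ₗ cs V a.down, LinearMap.ext fun z => funext fun a =>
    XH.comm (XH.comp g (csX V a.down)) z⟩
@[simp] theorem fromAt_self {v0 : ι} {W : XV k} {V : ι → XV k} (g : XH W (V v0)) :
    fromAt g v0 = XH.comp g (atP v0 W) := by
  simp only [fromAt, dif_pos]
  rfl
@[simp] theorem toAt_self {v0 : ι} {W : XV k} {V : ι → XV k} (g : XH (V v0) W) :
    toAt g v0 = XH.comp (atI v0 W) g := rfl
theorem fromAt_ne {v0 v : ι} (h : v ≠ v0) {W : XV k} {V : ι → XV k} (g : XH W (V v0)) :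
    fromAt g v = 0 := by simp [fromAt, h]
theorem toAt_ne {v0 v : ι} (h : v ≠ v0) {W : XV k} {V : ι → XV k} (g : XH (V v0) W) :
    toAt g v = 0 := Subtype.ext (LinearMap.ext fun _ => funext fun a => (h a.down).elim)

/-- binary product of `k[x]`-modules -/
abbrev XV.prod (A B : XV k) : XV k := ⟨A × B, A.x.prodMap B.x⟩
end fam

/-- the action of `k[x,y]` on `Hom(A,B)`: constants `C p` act by `p(x_B)` on the left, the outer
variable acts by `x_A` on the right -/
def act (A B : XV k) : k[X][X] →ₐ[k] Module.End k (A →ₗ[k] B) :=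
  eval₂AlgHom (aeval (LinearMap.llcomp k A B B B.x : Module.End k (A →ₗ[k] B)))
    (LinearMap.lcomp k B A.x : Module.End k (A →ₗ[k] B)) (fun p => by
      induction p using Polynomial.induction_on' with
      | add p q hp hq => rw [map_add]; exact hp.add_left hq
      | monomial n c =>
        rw [aeval_monomial]
        exact Commute.mul_left (Algebra.commutes c _) (Commute.pow_left (by ext; rfl) n))

variable (k R) in
/-- a linear functor from families to modules -/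
structure GF (ι : Type) where
  obj : (ι → XV k) → Md k R
  map : ∀ {V V' : ι → XV k}, FH V V' →ₗ[k] (obj V →ₗ[R] obj V')
  map_id : ∀ V, map (FH.id V) = LinearMap.id
  map_comp : ∀ {V V' V'' : ι → XV k} (g : FH V' V'') (f : FH V V'),
    map (FH.comp g f) = map g ∘ₗ map f

/-- the componentwise map on finite products of members of a family -/
def piM {ι B : Type} (ν : B → ι) {V V' : ι → XV k} (g : ∀ v, V v →ₗ[k] V' v) :
    (∀ β, V (ν β)) →ₗ[k] (∀ β, V' (ν β)) :=
  LinearMap.pi fun β => g (ν β) ∘ₗ LinearMap.proj β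
@[simp] theorem piM_apply {ι B : Type} (ν : B → ι) {V V' : ι → XV k} (g : ∀ v, V v →ₗ[k] V' v)
    (z : ∀ β, V (ν β)) (β : B) : piM ν g z β = g (ν β) (z β) := rfl

/-- `G` is a natural retract of a free functor -/
def GF.Proj {ι : Type} (G : GF k R ι) : Prop :=
  ∃ (B : Type) (_ : Fintype B) (ν : B → ι)
    (i : ∀ V, G.obj V →ₗ[R] R ⊗[k] (∀ β, V (ν β))) (p : ∀ V, R ⊗[k] (∀ β, V (ν β)) →ₗ[R] G.obj V),
    (∀ V, p V ∘ₗ i V = LinearMap.id) ∧
    (∀ V V' (g : FH V V'), i V' ∘ₗ G.map g = Pmap (piM ν fun v => (g v).1) ∘ₗ i V) ∧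
    ∀ V V' (g : FH V V'), p V' ∘ₗ Pmap (piM ν fun v => (g v).1) = G.map g ∘ₗ p V

section pairs
variable {ι : Type} (G : Bool → GF k R ι)

/-- pairs of maps -/
abbrev HH (V V' : ι → XV k) : Type u := ∀ e, (G e).obj V →ₗ[R] (G e).obj V'
/-- maps of degree one -/
abbrev H1 (V V' : ι → XV k) : Type u := (G true).obj V →ₗ[R] (G false).obj V'
/-- the pair of maps given by a family -/
def gm {V V' : ι → XV k} : FH V V' →ₗ[k] HH G V V' := LinearMap.pi fun e => (G e).map
@[simp] theorem gm_apply {V V' : ι → XV k} (g : FH V V') (e : Bool) :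
    gm G g e = (G e).map g := rfl
variable {G} in
/-- composite of pairs -/
def HH.comp {V V' V'' : ι → XV k} (φ : HH G V' V'') (ψ : HH G V V') : HH G V V'' :=
  fun e => φ e ∘ₗ ψ e
variable {G} in
@[simp] theorem HH.comp_apply {V V' V'' : ι → XV k} (φ : HH G V' V'') (ψ : HH G V V') (e : Bool) :
    HH.comp φ ψ e = φ e ∘ₗ ψ e := rfl

/-- natural maps of degree zero -/
structure NR (s t : ι) where
  app : ∀ V V' : ι → XV k, (V s →ₗ[k] V' t) →ₗ[k] HH G V V'
  natl : ∀ {V V' V'' : ι → XV k} (g : FH V' V'') (w : V s →ₗ[k] V' t) (e : Bool),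
    app V V'' ((g t).1 ∘ₗ w) e = (G e).map g ∘ₗ app V V' w e
  natr : ∀ {V V' V'' : ι → XV k} (g : FH V V') (w : V' s →ₗ[k] V'' t) (e : Bool),
    app V V'' (w ∘ₗ (g s).1) e = app V' V'' w e ∘ₗ (G e).map g

/-- natural maps of degree one -/
structure NA (s t : ι) where
  app : ∀ V V' : ι → XV k, (V s →ₗ[k] V' t) →ₗ[k] H1 G V V'
  natl : ∀ {V V' V'' : ι → XV k} (g : FH V' V'') (w : V s →ₗ[k] V' t),
    app V V'' ((g t).1 ∘ₗ w) = (G false).map g ∘ₗ app V V' w
  natr : ∀ {V V' V'' : ι → XV k} (g : FH V V') (w : V' s →ₗ[k] V'' t),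
    app V V'' (w ∘ₗ (g s).1) = app V' V'' w ∘ₗ (G true).map g
end pairs

variable (k R) in
/-- the data of a matrix problem -/
structure PD where
  ι : Type
  [fin : Fintype ι]
  K : ι → Bool
  f : k[X]
  G : Bool → GF k R ι
  d : ∀ V, H1 G V V
  A : Type
  [finA : Fintype A]
  s : A → ι
  t : A → ι
  m : ∀ a, NA G (s a) (t a)
  lt : A → A → Prop
  rad : Set (Σ s t : ι, NR G s t)

attribute [instance] PD.fin PD.finA

namespace PD
variable (P : PD k R)

/-- tuples of matrices -/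
abbrev W (V V' : P.ι → XV k) : Type u := ∀ a, V (P.s a) →ₗ[k] V' (P.t a)
/-- the map given by a tuple of matrices -/
def ms (V V' : P.ι → XV k) : P.W V V' →ₗ[k] H1 P.G V V' :=
  ∑ a, (P.m a).app V V' ∘ₗ LinearMap.proj a
theorem ms_apply (V V' : P.ι → XV k) (w : P.W V V') :
    P.ms V V' w = ∑ a, (P.m a).app V V' (w a) := by
  simp [ms]
/-- the differential of an object -/
def D (V : P.ι → XV k) (w : P.W V V) : H1 P.G V V := P.d V + P.ms V V w
/-- the radical -/
def Rad (V V' : P.ι → XV k) : Submodule k (HH P.G V V') :=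
  Submodule.span k {φ | ∃ ρ ∈ P.rad, ∃ w, φ = ρ.2.2.app V V' w}
/-- the part of the bimodule above the arrow `a` -/
def Mgt (a : P.A) (V V' : P.ι → XV k) : Submodule k (H1 P.G V V') where
  carrier := {φ | ∃ w : P.W V V', (∀ a', ¬ P.lt a a' → w a' = 0) ∧ φ = P.ms V V' w}
  add_mem' := by
    rintro _ _ ⟨w, hw, rfl⟩ ⟨w', hw', rfl⟩
    exact ⟨w + w', fun a' h => by simp [hw a' h, hw' a' h], (map_add _ _ _).symm⟩
  zero_mem' := ⟨0, fun _ _ => rfl, (map_zero _).symm⟩
  smul_mem' := by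
    rintro c _ ⟨w, hw, rfl⟩
    exact ⟨c • w, fun a' h => by simp [hw a' h], (map_smul _ _ _).symm⟩
/-- the commutator with `d` -/
def br (V V' : P.ι → XV k) : HH P.G V V' →ₗ[k] H1 P.G V V' where
  toFun r := P.d V' ∘ₗ r true - r false ∘ₗ P.d V
  map_add' r r' := by ext z; simp; abel
  map_smul' c r := by ext z; simp [smul_sub]
theorem br_apply (V V' : P.ι → XV k) (r : HH P.G V V') :
    P.br V V' r = P.d V' ∘ₗ r true - r false ∘ₗ P.d V := rfl
/-- chain maps -/
def Chain (V : P.ι → XV k) (w : P.W V V) (V' : P.ι → XV k) (w' : P.W V' V')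
    (φ : HH P.G V V') : Prop := P.D V' w' ∘ₗ φ true = φ false ∘ₗ P.D V w
/-- allowed families -/
def Al (V : P.ι → XV k) : Prop := ∀ v, Allowed (P.K v) P.f (V v)
/-- `x = 0` at the algebraic vertices -/
def Semi (V : P.ι → XV k) : Prop := ∀ v, P.K v = false → (V v).x = 0
/-- the cokernel of an object -/
abbrev H (V : P.ι → XV k) (w : P.W V V) : Md k R :=
  ⟨(P.G false).obj V ⧸ LinearMap.range (P.D V w)⟩
variable {P} in
/-- the map on cokernels -/
def Hm {V : P.ι → XV k} {w : P.W V V} {V' : P.ι → XV k} {w' : P.W V' V'} {φ : HH P.G V V'}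
    (h : P.Chain V w V' w' φ) : ((P.G false).obj V ⧸ LinearMap.range (P.D V w)) →ₗ[R]
      ((P.G false).obj V' ⧸ LinearMap.range (P.D V' w')) :=
  Submodule.mapQ _ _ (φ false) (by
    rintro _ ⟨z, rfl⟩
    exact ⟨φ true z, LinearMap.congr_fun h z⟩)
/-- a natural map with values in the radical -/
def InRad {s t : P.ι} (r : NR P.G s t) : Prop := ∀ V V' w, r.app V V' w ∈ P.Rad V V'
/-- minimal arrows -/
def Min (a : P.A) : Prop := ∀ a', ¬ P.lt a' a
/-- commutators of radical maps with `d` have no `a`-component -/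
def Zer (a : P.A) : Prop := ∀ V V', P.Semi V → P.Semi V' → ∀ r ∈ P.Rad V V', ∀ w : P.W V V',
  P.br V V' r = P.ms V V' w → w a = 0

/-- the axioms of a matrix problem -/
structure Ax : Prop where
  hf : P.f ≠ 0
  proj : ∀ e, (P.G e).Proj
  dnat : ∀ {V V' : P.ι → XV k} (g : FH V V'),
    P.d V' ∘ₗ (P.G true).map g = (P.G false).map g ∘ₗ P.d V
  trans : ∀ {a b c}, P.lt a b → P.lt b c → P.lt a c
  irrefl : ∀ a, ¬ P.lt a a
  minj : ∀ V V', Function.Injective (P.ms V V')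
  r2l : ∀ {V V' V'' : P.ι → XV k}, ∀ r ∈ P.Rad V' V'', ∀ a (w : V (P.s a) →ₗ[k] V' (P.t a)),
    r false ∘ₗ (P.m a).app V V' w ∈ P.Mgt a V V''
  r2r : ∀ {V V' V'' : P.ι → XV k}, ∀ r ∈ P.Rad V V', ∀ a (w : V' (P.s a) →ₗ[k] V'' (P.t a)),
    (P.m a).app V' V'' w ∘ₗ r true ∈ P.Mgt a V V''
  r3 : ∀ {V V' : P.ι → XV k}, ∀ r ∈ P.Rad V V', ∃ w, P.br V V' r = P.ms V V' w
  r1 : ∀ {V V' V'' : P.ι → XV k}, P.Al V → P.Al V' → P.Al V'' → ∀ r ∈ P.Rad V' V'',
    ∀ r' ∈ P.Rad V V', HH.comp r r' ∈ P.Rad V V''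
  nil : ∃ n : ℕ, ∀ V, P.Al V → ∀ l : List (∀ e, Module.End R ((P.G e).obj V)), l.length = n →
    (∀ r ∈ l, r ∈ P.Rad V V) → l.prod = 0
  r4 : ∀ {V V' : P.ι → XV k}, P.Al V → P.Al V' → ∀ g : FH V V', gm P.G g ∈ P.Rad V V' → g = 0
  full : ∀ {V V' : P.ι → XV k}, P.Al V → P.Al V' → ∀ w w' φ, P.Chain V w V' w' φ →
    ∃ g : FH V V', φ - gm P.G g ∈ P.Rad V V'

/-- chain maps vanishing on cokernels vanish at the transcendental vertices -/
def P5 : Prop := ∀ V V', P.Al V → P.Al V' → ∀ w w' (g : FH V V'), ∀ r ∈ P.Rad V V',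
  P.Chain V w V' w' (gm P.G g + r) →
  LinearMap.range ((gm P.G g + r) false) ≤ LinearMap.range (P.D V' w') →
  ∀ v, P.K v = true → g v = 0
end PD

/-- a vector space as a module through a ring homomorphism -/
def RM {E : Type u} [Ring E] {W : Type u} [AddCommGroup W] [Module k W]
    (_ρ : E →+* Module.End k W) : Type u := W
instance {E : Type u} [Ring E] {W : Type u} [AddCommGroup W] [Module k W]
    (ρ : E →+* Module.End k W) : AddCommGroup (RM ρ) := inferInstanceAs (AddCommGroup W)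
instance {E : Type u} [Ring E] {W : Type u} [AddCommGroup W] [Module k W]
    (ρ : E →+* Module.End k W) : Module E (RM ρ) := Module.compHom W ρ
theorem RM.smul_def {E : Type u} [Ring E] {W : Type u} [AddCommGroup W] [Module k W]
    (ρ : E →+* Module.End k W) (e : E) (z : RM ρ) : e • z = ρ e z := rfl
/-- the length of `W` over `E` -/
def ln {E : Type u} [Ring E] {W : Type u} [AddCommGroup W] [Module k W]
    (ρ : E →+* Module.End k W) : ℕ∞ := Module.length E (RM ρ)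

variable (k R) in
/-- a two-term complex of `F`-objects -/
structure CX (F : Type u) [Field F] [Algebra k F] where
  X : Bool → FO k R F
  d : (X true).X →ₗ[R] (X false).X

/-- the family of scalars -/
def scF {ι : Type} {F : Type u} [Field F] [Algebra k F] (V : ι → FXV k F) (c : F) :
    FH (fun v => (V v).V) (fun v => (V v).V) := fun v => (V v).sc c

/-- the object `(V, w)` presents the complex `X`, and `E` acts on it with finite length -/
structure PD.IsTr (P : PD k R) {F : Type u} [Field F] [Algebra k F] {E : Type u} [Ring E]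
    (X : CX k R F) (V : P.ι → FXV k F) (w : P.W (fun v => (V v).V) fun v => (V v).V)
    (ρ : ∀ v, E →+* Module.End k (V v).V) : Prop where
  ok : ∀ v, if P.K v then KSp (V v).V else (V v).V.x = 0
  wF : ∀ a c, w a ∘ₗ (V (P.s a)).act c = (V (P.t a)).act c ∘ₗ w a
  iso : ∃ φ : ∀ e, (P.G e).obj (fun v => (V v).V) ≃ₗ[R] (X.X e).X,
    (∀ e c z, φ e ((P.G e).map (scF V c) z) = (X.X e).act c (φ e z)) ∧
    ∀ z, φ false (P.D _ w z) = X.d (φ true z)
  ch : ∀ e : E, ∃ g : FH (fun v => (V v).V) fun v => (V v).V, (∀ v, (g v).1 = ρ v e) ∧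
    ∃ r ∈ P.Rad _ _, P.Chain _ w _ w (gm P.G g + r)
  fl : ∀ v, ln (ρ v) ≠ ⊤

section theta
variable {ι ι' Ω : Type} (K : ι → Bool) (base : Ω → ι) (i : Ω → ι')

/-- the slots over a vertex -/
abbrev Sl (v : ι) : Type := {ω : Ω // base ω = v}

/-- the underlying space of the substituted family -/
abbrev TT (V : ι' → XV k) (v : ι) : Type u := ∀ ω : Sl base v, V (i ω.1)

/-- the substituted family -/
abbrev Th (V : ι' → XV k) : ι → XV k := fun v =>
  ⟨TT base i V v, if K v then piM (fun ω : Sl base v => i ω.1) fun j => (V j).x else 0⟩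

/-- functoriality of the substitution -/
def ThM {V V' : ι' → XV k} : FH V V' →ₗ[k] FH (Th K base i V) (Th K base i V') where
  toFun g v := ⟨piM (fun ω : Sl base v => i ω.1) fun j => (g j).1, by
    rw [mem_XH]
    by_cases h : K v = true
    · simp only [h, if_true]
      exact LinearMap.ext fun z => funext fun ω => XH.comm (g _) _
    · simp [h]⟩
  map_add' _ _ := rfl
  map_smul' _ _ := rfl
@[simp] theorem ThM_apply {V V' : ι' → XV k} (g : FH V V') (v : ι) (z : TT base i V v)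
    (ω : Sl base v) : DFunLike.coe (F := TT base i V v →ₗ[k] TT base i V' v)
      (ThM K base i g v).1 z ω = (g (i ω.1)).1 (z ω) := rfl

open Classical in
/-- inclusion of a slot -/
def inc (V : ι' → XV k) {v : ι} (ω : Sl base v) : V (i ω.1) →ₗ[k] TT base i V v :=
  LinearMap.single k (fun ω : Sl base v => V (i ω.1)) ω
/-- projection to a slot -/
def prj (V : ι' → XV k) {v : ι} (ω : Sl base v) : TT base i V v →ₗ[k] V (i ω.1) :=
  LinearMap.proj (R := k) (φ := fun ω : Sl base v => V (i ω.1)) ω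

@[simp] theorem inc_self (V : ι' → XV k) {v : ι} (ω : Sl base v) (z : V (i ω.1)) :
    inc base i V ω z ω = z := by simp [inc]
theorem inc_ne (V : ι' → XV k) {v : ι} {ω ω' : Sl base v} (h : ω' ≠ ω) (z : V (i ω.1)) :
    inc base i V ω z ω' = 0 := by simp [inc, h]
@[simp] theorem prj_apply (V : ι' → XV k) {v : ι} (ω : Sl base v) (z : TT base i V v) :
    prj base i V ω z = z ω := rfl

/-- natural maps into substituted families -/
structure NB (s t : ι') where
  app : ∀ V V' : ι' → XV k, (V s →ₗ[k] V' t) →ₗ[k] FH (Th K base i V) (Th K base i V')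
  natl : ∀ {V V' V'' : ι' → XV k} (g : FH V' V'') (w : V s →ₗ[k] V' t),
    app V V'' ((g t).1 ∘ₗ w) = FH.comp (ThM K base i g) (app V V' w)
  natr : ∀ {V V' V'' : ι' → XV k} (g : FH V V') (w : V' s →ₗ[k] V'' t),
    app V V'' (w ∘ₗ (g s).1) = FH.comp (app V' V'' w) (ThM K base i g)
end theta

/-- substitution data -/
structure SD (P : PD k R) where
  ι : Type
  [fin : Fintype ι]
  K : ι → Bool
  f : k[X]
  Ω : Type
  [finΩ : Fintype Ω]
  base : Ω → P.ι
  i : Ω → ι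
  wt : Ω → ℤ
  fix : P.A → Prop
  w0 : ∀ V : ι → XV k, P.W (Th P.K base i V) (Th P.K base i V)
  rad0 : Set (Σ s t : P.ι, NR P.G s t)

attribute [instance] SD.fin SD.finΩ

namespace SD
variable {P : PD k R} (S : SD P)

/-- the substituted family -/
abbrev T (V : S.ι → XV k) : P.ι → XV k := Th P.K S.base S.i V
/-- the substituted map -/
abbrev TM {V V' : S.ι → XV k} : FH V V' →ₗ[k] FH (S.T V) (S.T V') := ThM P.K S.base S.i
/-- slots -/
abbrev U (v : P.ι) : Type := Sl S.base v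
open Classical in
instance (v : P.ι) : Fintype (S.U v) := Subtype.fintype _
/-- the underlying space of `S.T V v` -/
abbrev TT (V : S.ι → XV k) (v : P.ι) : Type u := Red.TT S.base S.i V v
/-- inclusion of a slot -/
abbrev inc (V : S.ι → XV k) {v : P.ι} (ω : S.U v) : V (S.i ω.1) →ₗ[k] S.TT V v :=
  Red.inc S.base S.i V ω
/-- projection to a slot -/
abbrev prj (V : S.ι → XV k) {v : P.ι} (ω : S.U v) : S.TT V v →ₗ[k] V (S.i ω.1) :=
  Red.prj S.base S.i V ω
/-- the new arrows -/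
abbrev Arr : Type := Σ a : {a // ¬ S.fix a}, S.U (P.s a.1) × S.U (P.t a.1)
/-- tuples of matrices for the new arrows -/
abbrev NW (V V' : S.ι → XV k) : Type u :=
  ∀ a : S.Arr, V (S.i a.2.1.1) →ₗ[k] V' (S.i a.2.2.1)

/-- the substituted functors -/
abbrev G (e : Bool) : GF k R S.ι where
  obj V := (P.G e).obj (S.T V)
  map := (P.G e).map ∘ₗ S.TM
  map_id V := (P.G e).map_id (S.T V)
  map_comp g f := (P.G e).map_comp (S.TM g) (S.TM f)

theorem TM_apply {V V' : S.ι → XV k} (g : FH V V') (v : P.ι) (z : S.TT V v) (ω : S.U v) :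
    DFunLike.coe (F := S.TT V v →ₗ[k] S.TT V' v) (S.TM g v).1 z ω = (g (S.i ω.1)).1 (z ω) := rfl
theorem TM_inc {V V' : S.ι → XV k} (g : FH V V') {v : P.ι} (ω : S.U v) :
    (S.TM g v).1 ∘ₗ S.inc V ω = S.inc V' ω ∘ₗ (g (S.i ω.1)).1 := by
  refine LinearMap.ext fun z => funext fun ω' => ?_
  rw [LinearMap.comp_apply, LinearMap.comp_apply, S.TM_apply]
  by_cases h : ω' = ω
  · subst h
    rw [inc_self, inc_self]
  · rw [inc_ne _ _ _ h, inc_ne _ _ _ h, map_zero]
theorem prj_inc (V : S.ι → XV k) {v : P.ι} (ω : S.U v) :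
    S.prj V ω ∘ₗ S.inc V ω = LinearMap.id := LinearMap.ext fun z => inc_self _ _ _ _ z
theorem prj_inc_ne (V : S.ι → XV k) {v : P.ι} {ω ω' : S.U v} (h : ω' ≠ ω) :
    S.prj V ω' ∘ₗ S.inc V ω = 0 := LinearMap.ext fun z => inc_ne _ _ _ h z
theorem sum_inc (V : S.ι → XV k) {v : P.ι} (z : S.TT V v) : ∑ ω, S.inc V ω (z ω) = z := by
  refine funext fun ω' => ?_
  rw [Finset.sum_apply, Finset.sum_eq_single ω' (fun ω _ h => inc_ne _ _ _ (Ne.symm h) _)
    (by simp), inc_self]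
theorem sum_inc_prj (V : S.ι → XV k) (v : P.ι) :
    ∑ ω : S.U v, S.inc V ω ∘ₗ S.prj V ω = LinearMap.id :=
  LinearMap.ext fun z => by
    rw [LinearMap.sum_apply]
    exact S.sum_inc V z
theorem prj_TM {V V' : S.ι → XV k} (g : FH V V') {v : P.ι} (ω : S.U v) :
    S.prj V' ω ∘ₗ (S.TM g v).1 = (g (S.i ω.1)).1 ∘ₗ S.prj V ω := rfl

/-- a component of a natural map of degree one -/
def cA {s t : P.ι} (m : NA P.G s t) (β : S.U s) (α : S.U t) : NA S.G (S.i β.1) (S.i α.1) where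
  app V V' := m.app (S.T V) (S.T V') ∘ₗ LinearMap.llcomp k _ _ _ (S.inc V' α) ∘ₗ
    LinearMap.lcomp k _ (S.prj V β)
  natl {V V' V''} g w := by
    refine Eq.trans ?_ (m.natl (V := S.T V) (S.TM g) (S.inc V' α ∘ₗ w ∘ₗ S.prj V β))
    have e := congrArg (fun z => z ∘ₗ (w ∘ₗ S.prj V β)) (S.TM_inc g α)
    exact congrArg (m.app (S.T V) (S.T V'')) e.symm
  natr {V V' V''} g w := m.natr (V'' := S.T V'') (S.TM g) (S.inc V'' α ∘ₗ w ∘ₗ S.prj V' β)
theorem cA_app {s t : P.ι} (m : NA P.G s t) (β : S.U s) (α : S.U t) (V V' : S.ι → XV k)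
    (w : V (S.i β.1) →ₗ[k] V' (S.i α.1)) :
    (S.cA m β α).app V V' w = m.app (S.T V) (S.T V') (S.inc V' α ∘ₗ w ∘ₗ S.prj V β) := rfl

/-- a component of a natural map of degree zero -/
def cR {s t : P.ι} (r : NR P.G s t) (β : S.U s) (α : S.U t) : NR S.G (S.i β.1) (S.i α.1) where
  app V V' := r.app (S.T V) (S.T V') ∘ₗ LinearMap.llcomp k _ _ _ (S.inc V' α) ∘ₗ
    LinearMap.lcomp k _ (S.prj V β)
  natl {V V' V''} g w e := by
    refine Eq.trans ?_ (r.natl (V := S.T V) (S.TM g) (S.inc V' α ∘ₗ w ∘ₗ S.prj V β) e)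
    have e' := congrArg (fun z => z ∘ₗ (w ∘ₗ S.prj V β)) (S.TM_inc g α)
    exact congrArg (fun z => r.app (S.T V) (S.T V'') z e) e'.symm
  natr {V V' V''} g w e :=
    r.natr (V'' := S.T V'') (S.TM g) (S.inc V'' α ∘ₗ w ∘ₗ S.prj V' β) e
theorem cR_app {s t : P.ι} (r : NR P.G s t) (β : S.U s) (α : S.U t) (V V' : S.ι → XV k)
    (w : V (S.i β.1) →ₗ[k] V' (S.i α.1)) :
    (S.cR r β α).app V V' w = r.app (S.T V) (S.T V') (S.inc V' α ∘ₗ w ∘ₗ S.prj V β) := rfl

/-- a block map as a natural map of degree zero -/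
def bR {s t : S.ι} (b : NB P.K S.base S.i s t (k := k)) : NR S.G s t where
  app V V' := gm P.G ∘ₗ b.app V V'
  natl g w e := by
    change (P.G e).map _ = _
    rw [b.natl]
    exact (P.G e).map_comp _ _
  natr g w e := by
    change (P.G e).map _ = _
    rw [b.natr]
    exact (P.G e).map_comp _ _
theorem bR_app {s t : S.ι} (b : NB P.K S.base S.i s t (k := k)) (V V' : S.ι → XV k)
    (w : V s →ₗ[k] V' t) : (S.bR b).app V V' w = gm P.G (b.app V V' w) := rfl

/-- the family strictly raises weights -/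
def Up {V V' : S.ι → XV k} (h : FH (S.T V) (S.T V')) : Prop :=
  ∀ v (α β : S.U v), ¬ S.wt β.1 < S.wt α.1 → S.prj V' α ∘ₗ (h v).1 ∘ₗ S.inc V β = 0
/-- the family commutes with the normal forms -/
def Cm {V V' : S.ι → XV k} (h : FH (S.T V) (S.T V')) : Prop :=
  ∀ a, S.w0 V' a ∘ₗ (h (P.s a)).1 = (h (P.t a)).1 ∘ₗ S.w0 V a
/-- good block maps -/
def Good {s t : S.ι} (b : NB P.K S.base S.i s t (k := k)) : Prop :=
  ∀ V V' w, S.Up (b.app V V' w) ∧ S.Cm (b.app V V' w)
/-- the span of good block maps -/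
def Bsp (V V' : S.ι → XV k) : Submodule k (FH (S.T V) (S.T V')) :=
  Submodule.span k {h | ∃ (s t : S.ι) (b : NB P.K S.base S.i s t), S.Good b ∧
    ∃ w, h = b.app V V' w}
/-- the span of the retained radical maps -/
def Rad0 (V V' : P.ι → XV k) : Submodule k (HH P.G V V') :=
  Submodule.span k {φ | ∃ ρ ∈ S.rad0, ∃ w, φ = ρ.2.2.app V V' w}

open Classical in
/-- the new problem -/
abbrev new : PD k R where
  ι := S.ι
  K := S.K
  f := S.f
  G := S.G
  d V := P.D (S.T V) (S.w0 V)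
  A := S.Arr
  s a := S.i a.2.1.1
  t a := S.i a.2.2.1
  m a := S.cA (P.m a.1.1) a.2.1 a.2.2
  lt a b := P.lt a.1.1 b.1.1 ∨
    (a.1.1 = b.1.1 ∧ S.wt a.2.2.1 - S.wt a.2.1.1 < S.wt b.2.2.1 - S.wt b.2.1.1)
  rad := {ρ | (∃ σ ∈ S.rad0, ∃ (β : S.U σ.1) (α : S.U σ.2.1), ρ = ⟨_, _, S.cR σ.2.2 β α⟩) ∨
    ∃ b : NB P.K S.base S.i ρ.1 ρ.2.1, S.Good b ∧ ρ.2.2 = S.bR b}

/-- the hypotheses on a substitution -/
structure Ok : Prop where
  hf : S.f ≠ 0
  dvd : P.f ∣ S.f
  surj : Function.Surjective S.i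
  Kc : ∀ ω, P.K (S.base ω) = true → S.K (S.i ω) = true
  min : ∀ a, S.fix a → P.Min a
  w0z : ∀ V a, ¬ S.fix a → S.w0 V a = 0
  w0n : ∀ {V V' : S.ι → XV k} (g : FH V V'), S.Cm (S.TM g)
  r0in : ∀ ρ ∈ S.rad0, P.InRad ρ.2.2
  r0z : ∀ V V' : S.ι → XV k, ∀ r ∈ S.Rad0 (S.T V) (S.T V'), ∀ w,
    P.br _ _ r = P.ms _ _ w → ∀ a, S.fix a → w a = 0
  r0full : ∀ V V' : S.ι → XV k, S.new.Al V → S.new.Al V' → ∀ r ∈ P.Rad (S.T V) (S.T V'), ∀ w,
    P.br _ _ r = P.ms _ _ w → ∀ g : FH (S.T V) (S.T V'),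
    (∀ a, S.fix a → S.w0 V' a ∘ₗ (g (P.s a)).1 - (g (P.t a)).1 ∘ₗ S.w0 V a + w a = 0) →
    r ∈ S.Rad0 (S.T V) (S.T V') ∧ ∃ g' : FH V V', g - S.TM g' ∈ S.Bsp V V'

/-- a tracked object passes to the new problem -/
def Trf {F : Type u} [Field F] [Algebra k F] {E : Type u} [Ring E] (X : CX k R F)
    (V : P.ι → FXV k F) (ρ : ∀ v, E →+* Module.End k (V v).V) : Prop :=
  ∃ (V' : S.ι → FXV k F) (w' : S.new.W (fun j => (V' j).V) fun j => (V' j).V)
    (ρ' : ∀ j, E →+* Module.End k (V' j).V), S.new.IsTr X V' w' ρ' ∧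
    (∀ v, ∑ ω : S.U v, ln (ρ' (S.i ω.1)) = ln (ρ v)) ∧
    ((∀ v, Module.Finite k (V v).V) → ∀ j, Module.Finite k (V' j).V)
end SD

end
end Pool.Agent.P.MP_cf639b_al.Red
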