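import Pool.Agent.P.MP_cf639b_al.Red.Basic

/-! Jordan blocks, the loop substitution, the initial problem. -/

set_option linter.dupNamespace false
set_option linter.unusedVariables false

namespace Pool.Agent.P.MP_cf639b_al.Red

universe u
open TensorProduct Polynomial

noncomputable section

variable {k : Type u} [Field k] {R : Type u} [Ring R] [Algebra k R]

section jordan
variable (E : Type u) [AddCommGroup E] [Module k E]
variable (k) in
/-- the shift `e_j ↦ e_{j+1}` on `E^n` -/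
def sh (n : ℕ) : Module.End k (Fin n → E) :=
  LinearMap.pi fun j => if h : 0 < j.1 then LinearMap.proj ⟨j.1 - 1, by omega⟩ else 0
variable {E}
theorem sh_apply {n : ℕ} (z : Fin n → E) (j : Fin n) :
    sh k E n z j = if h : 0 < j.1 then z ⟨j.1 - 1, by omega⟩ else 0 := by
  unfold sh
  rw [LinearMap.pi_apply]
  split_ifs <;> rfl
theorem sh_pow_apply {n : ℕ} (c : ℕ) (z : Fin n → E) (j : Fin n) :
    (sh k E n ^ c) z j = if h : c ≤ j.1 then z ⟨j.1 - c, by omega⟩ else 0 := by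
  induction c generalizing j with
  | zero => simp
  | succ c ih =>
    rw [pow_succ', Module.End.mul_apply, sh_apply]
    split_ifs with h1 h2 h2
    · rw [ih, dif_pos (by simp; omega)]
      congr 2
      simp
      omega
    · rw [ih, dif_neg (by simp; omega)]
    · omega
    · rfl
theorem sh_pow_eq_zero {n c : ℕ} (h : n ≤ c) : sh k E n ^ c = 0 :=
  LinearMap.ext fun z => funext fun j => by
    rw [sh_pow_apply, dif_neg (by omega)]
    rfl
variable (E)
/-- the Jordan block `J_n(μ) ⊗ E` -/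
abbrev Jb (μ : k) (n : ℕ) : XV k := ⟨Fin n → E, μ • 1 + sh k E n⟩
theorem Jb_bij (μ : k) (n : ℕ) {p : k[X]} (hp : p.eval μ ≠ 0) :
    Function.Bijective (aeval (μ • 1 + sh k E n) p) := by
  obtain ⟨q, hq⟩ : X - C μ ∣ p - C (p.eval μ) := X_sub_C_dvd_sub_C_eval
  have e : aeval (μ • 1 + sh k E n) p =
      algebraMap k _ (p.eval μ) + sh k E n * aeval (μ • 1 + sh k E n) q := by
    have := congrArg (aeval (μ • 1 + sh k E n)) hq
    rw [map_sub, map_mul, map_sub, aeval_X, aeval_C, aeval_C,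
      Algebra.algebraMap_eq_smul_one μ, add_sub_cancel_left] at this
    rw [← this]
    abel
  have hc : Commute (sh k E n) (aeval (μ • 1 + sh k E n) q) := by
    have h1 : sh k E n = aeval (μ • 1 + sh k E n) (X - C μ) := by
      rw [map_sub, aeval_X, aeval_C, Algebra.algebraMap_eq_smul_one μ, add_sub_cancel_left]
    nth_rw 1 [h1]
    exact (Commute.all _ _).map _
  have hn : IsNilpotent (sh k E n * aeval (μ • 1 + sh k E n) q) :=
    hc.isNilpotent_mul_right ⟨n, sh_pow_eq_zero le_rfl⟩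
  rw [← Module.End.isUnit_iff, e]
  exact hn.isUnit_add_left_of_commute ((IsUnit.mk0 _ hp).map _) (Algebra.commutes _ _).symm
variable {E}
/-- functoriality of Jordan blocks -/
def JbM {E' : Type u} [AddCommGroup E'] [Module k E'] (μ : k) (n : ℕ) (g : E →ₗ[k] E') :
    XH (Jb E μ n) (Jb E' μ n) :=
  ⟨g.compLeft _, LinearMap.ext fun z => funext fun j => by
    change g (μ • z j + sh k E n z j) = μ • g (z j) + sh k E' n (fun j => g (z j)) j
    rw [sh_apply, sh_apply, map_add, map_smul]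
    split_ifs <;> simp⟩
@[simp] theorem JbM_apply {E' : Type u} [AddCommGroup E'] [Module k E'] (μ : k) (n : ℕ)
    (g : E →ₗ[k] E') (z : Fin n → E) (j : Fin n) :
    DFunLike.coe (F := (Fin n → E) →ₗ[k] (Fin n → E')) (JbM μ n g).1 z j = g (z j) := rfl
end jordan

theorem act_C (A B : XV k) (p : k[X]) (w : A →ₗ[k] B) : act A B (C p) w = aeval B.x p ∘ₗ w := by
  have : act A B (C p) = aeval (LinearMap.llcomp k A B B B.x : Module.End k (A →ₗ[k] B)) p := by
    simp [act]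
  rw [this]
  clear this
  induction p using Polynomial.induction_on' with
  | add p q hp hq => simp [hp, hq, LinearMap.add_comp]
  | monomial n c =>
    simp only [aeval_monomial, Algebra.algebraMap_eq_smul_one, smul_mul_assoc, one_mul,
      LinearMap.smul_apply, LinearMap.smul_comp]
    congr 1
    induction n with
    | zero => rfl
    | succ n ih => rw [pow_succ', pow_succ', Module.End.mul_apply, ih]; rfl
theorem act_X (A B : XV k) (w : A →ₗ[k] B) : act A B X w = w ∘ₗ A.x := by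
  have : act A B X = (LinearMap.lcomp k B A.x : Module.End k (A →ₗ[k] B)) := by simp [act]
  rw [this]
  rfl
theorem act_map (A B : XV k) (q : k[X]) (w : A →ₗ[k] B) :
    act A B (q.map C) w = w ∘ₗ aeval A.x q := by
  induction q using Polynomial.induction_on' with
  | add p q hp hq => simp [hp, hq, LinearMap.comp_add, Polynomial.map_add]
  | monomial n c =>
    rw [Polynomial.map_monomial, ← C_mul_X_pow_eq_monomial, map_mul, Module.End.mul_apply, act_C,
      aeval_C, aeval_monomial, Algebra.algebraMap_eq_smul_one, Algebra.algebraMap_eq_smul_one,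
      smul_mul_assoc, one_mul, LinearMap.smul_comp, LinearMap.comp_smul, map_pow]
    congr 1
    induction n with
    | zero => rfl
    | succ n ih =>
      rw [pow_succ', pow_succ, Module.End.mul_apply, act_X]
      exact congrArg (fun z => z ∘ₗ A.x) ih
theorem act_natl {A B B' : XV k} (g : XH B B') (p : k[X][X]) (w : A →ₗ[k] B) :
    act A B' p (g.1 ∘ₗ w) = g.1 ∘ₗ act A B p w := by
  induction p using Polynomial.induction_on generalizing w with
  | C p =>
    rw [act_C, act_C]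
    exact LinearMap.ext fun z => (XH.comm_pol g p (w z)).symm
  | add p q hp hq => simp [hp, hq, LinearMap.comp_add]
  | monomial n p ih =>
    rw [pow_succ, ← mul_assoc, map_mul _ _ X, map_mul _ _ X, Module.End.mul_apply,
      Module.End.mul_apply, act_X, act_X, LinearMap.comp_assoc, ih]
theorem act_natr {A A' B : XV k} (g : XH A A') (p : k[X][X]) (w : A' →ₗ[k] B) :
    act A B p (w ∘ₗ g.1) = act A' B p w ∘ₗ g.1 := by
  induction p using Polynomial.induction_on generalizing w with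
  | C p => rw [act_C, act_C, LinearMap.comp_assoc]
  | add p q hp hq => simp [hp, hq, LinearMap.add_comp]
  | monomial n p ih =>
    rw [pow_succ, ← mul_assoc, map_mul _ _ X, map_mul _ _ X, Module.End.mul_apply,
      Module.End.mul_apply, act_X, act_X, LinearMap.comp_assoc, mem_XH.mp g.2,
      ← LinearMap.comp_assoc, ih]

/-- the functor `V ↦ R ⊗ V` -/
def PN : NF k R where
  obj V := P R V
  map :=
    { toFun := fun g => Pmap g.1
      map_add' := fun g g' => Pmap_add g.1 g'.1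
      map_smul' := fun c g => Pmap_smul c g.1 }
  map_id _ := Pmap_id
  map_comp g f := Pmap_comp g.1 f.1

/-- a complex of free objects -/
abbrev CXp {F : Type u} [Field F] [Algebra k F] (W : Bool → FXV k F)
    (d : R ⊗[k] (W true).V →ₗ[R] R ⊗[k] (W false).V) : CX k R F := ⟨fun e => PN.onF (W e), d⟩
/-- an `F`-space with `x = 0` -/
abbrev vsF {F : Type u} [Field F] [Algebra k F] (W : Type u) [AddCommGroup W] [Module k W]
    (a : F →ₐ[k] Module.End k W) : FXV k F := ⟨⟨W, 0⟩, a, fun _ => by simp⟩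
variable (k R) in
/-- the complex `R² → R²`, `(a,b) ↦ (a,0)` -/
abbrev CXc : CX k R k :=
  CXp (fun _ => vsF (k × k) (Algebra.ofId k _)) (Pmap (LinearMap.inl k k k ∘ₗ LinearMap.fst k k k))

/-- positions in Jordan blocks: `(n, j)` with `j ≤ n`, in a block of size `n + 1` -/
abbrev JS (N : ℕ) : Type := {p : Fin N × Fin N // p.2 ≤ p.1}
/-- the previous position -/
def JS.pred {N : ℕ} (σ : JS N) (h : 0 < σ.1.2.1) : JS N :=
  ⟨(σ.1.1, ⟨σ.1.2.1 - 1, by omega⟩), by
    have := σ.2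
    rw [Fin.le_def] at this ⊢
    simp only
    omega⟩

section loop
variable {ι : Type} (v0 : ι) (m N : ℕ)
/-- vertices after the loop reduction -/
abbrev Lι : Type := {v // v ≠ v0} ⊕ (Fin m × Fin N) ⊕ Unit
/-- slots of the loop reduction -/
abbrev LΩ : Type := {v // v ≠ v0} ⊕ (Fin m × JS N) ⊕ Unit
/-- base vertex of a slot -/
abbrev lbase : LΩ v0 m N → ι := Sum.elim Subtype.val fun _ => v0
/-- new vertex of a slot -/
abbrev li : LΩ v0 m N → Lι v0 m N := Sum.map id (Sum.map (fun σ => (σ.1, σ.2.1.1)) id)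
variable {m}
/-- the normal form of the loop -/
def ly (Λ : Fin m → k) (V : Lι v0 m N → XV k) :
    Module.End k (TT (lbase v0 m N) (li v0 m N) V v0) :=
  LinearMap.pi fun ω => match ω with
    | ⟨Sum.inl v, h⟩ => 0
    | ⟨Sum.inr (Sum.inl σ), h⟩ => Λ σ.1 • prj _ _ V ⟨Sum.inr (Sum.inl σ), h⟩ +
        if hj : 0 < σ.2.1.2.1 then prj _ _ V ⟨Sum.inr (Sum.inl (σ.1, σ.2.pred hj)), h⟩ else 0
    | ⟨Sum.inr (Sum.inr o), h⟩ => (V (Sum.inr (Sum.inr o))).x ∘ₗ prj _ _ V ⟨Sum.inr (Sum.inr o), h⟩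
theorem ly_blk (Λ : Fin m → k) (V : Lι v0 m N → XV k) (z : TT (lbase v0 m N) (li v0 m N) V v0)
    (σ : Fin m × JS N) : ly v0 N Λ V z ⟨Sum.inr (Sum.inl σ), rfl⟩ =
      Λ σ.1 • z ⟨Sum.inr (Sum.inl σ), rfl⟩ +
        if hj : 0 < σ.2.1.2.1 then z ⟨Sum.inr (Sum.inl (σ.1, σ.2.pred hj)), rfl⟩ else 0 := by
  unfold ly
  rw [LinearMap.pi_apply]
  split_ifs with h
  · simp only [dif_pos h]; rfl
  · simp only [dif_neg h]; rfl
theorem ly_gen (Λ : Fin m → k) (V : Lι v0 m N → XV k) (z : TT (lbase v0 m N) (li v0 m N) V v0) :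
    ly v0 N Λ V z ⟨Sum.inr (Sum.inr ()), rfl⟩ =
      (V (Sum.inr (Sum.inr ()))).x (z ⟨Sum.inr (Sum.inr ()), rfl⟩) := rfl
end loop

open Classical in
/-- the loop substitution -/
abbrev loopS (P : PD k R) (a : P.A) (h : P.s a = P.t a) {m : ℕ} (Λ : Fin m → k) (N : ℕ) :
    SD P where
  ι := Lι (P.s a) m N
  K := Sum.elim (fun v => P.K v.1) (Sum.elim (fun _ => false) fun _ => true)
  f := P.f * ∏ l, (X - C (Λ l))
  Ω := LΩ (P.s a) m N
  base := lbase (P.s a) m N
  i := li (P.s a) m N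
  wt := Sum.elim (fun _ => 0) (Sum.elim (fun σ => 2 * (σ.2.1.2.1 : ℤ) - σ.2.1.1.1) fun _ => 0)
  fix b := b = a
  w0 V := Pi.single a (cs (Th P.K (lbase (P.s a) m N) (li (P.s a) m N) V) h ∘ₗ ly (P.s a) N Λ V)
  rad0 := P.rad

/-- Fitting decomposition of an operator: a part killed by `Q` and a generic part -/
def Fit {F : Type u} [Field F] [Algebra k F] (V : FXV k F) (y : Module.End k V.V) (Q : k[X]) :
    Prop :=
  ∃ W1 W2 : Submodule k V.V, IsCompl W1 W2 ∧ (∀ c, ∀ z ∈ W1, V.act c z ∈ W1) ∧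
    (∀ c, ∀ z ∈ W2, V.act c z ∈ W2) ∧ (∀ z ∈ W1, y z ∈ W1) ∧ (∀ z ∈ W2, y z ∈ W2) ∧
    (∀ z ∈ W1, aeval y Q z = 0) ∧ ∀ p : k[X], p ≠ 0 →
      (∀ z ∈ W2, aeval y p z = 0 → z = 0) ∧ ∀ z ∈ W2, ∃ z' ∈ W2, aeval y p z' = z

variable (k R) in
/-- a decomposition of `R` into indecomposable projectives, sorted by isomorphism type -/
structure D1 where
  C : Type
  [fin : Fintype C]
  Q : C → Md k R
  fd : ∀ c, (Q c).fd
  B : C → Type
  [finB : ∀ c, Fintype (B c)]
  ne : ∀ c, Nonempty (B c)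
  i : ∀ c, B c → (Q c →ₗ[R] R)
  p : ∀ c, B c → (R →ₗ[R] Q c)
  pi_self : ∀ c b, p c b ∘ₗ i c b = LinearMap.id
  pi_ne : ∀ c b c' b', (⟨c, b⟩ : Σ c, B c) ≠ ⟨c', b'⟩ → p c' b' ∘ₗ i c b = 0
  sum : ∑ c, ∑ b, i c b ∘ₗ p c b = LinearMap.id
  nt : ∀ c, Nontrivial (Q c)
  loc : ∀ c (φ : Module.End R (Q c)), ∃ a : k, IsNilpotent (φ - a • 1)
  nil : ∀ c c', c ≠ c' → ∀ (φ : Q c →ₗ[R] Q c') (ψ : Q c' →ₗ[R] Q c),
    IsNilpotent (ψ ∘ₗ φ : Module.End R (Q c))

attribute [instance] D1.fin D1.finB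

/-- the radical filtration -/
structure Fil (D : D1 k R) where
  J : ℕ → ∀ c c', Submodule k (D.Q c →ₗ[R] D.Q c')
  J0 : ∀ c c', J 0 c c' = ⊤
  anti : ∀ n c c', J (n + 1) c c' ≤ J n c c'
  n0 : ℕ
  bot : ∀ c c', J n0 c c' = ⊥
  l : ∀ n c c' c'', ∀ φ ∈ J 1 c' c'', ∀ ψ ∈ J n c c', φ ∘ₗ ψ ∈ J (n + 1) c c''
  r : ∀ n c c' c'', ∀ φ ∈ J n c' c'', ∀ ψ ∈ J 1 c c', φ ∘ₗ ψ ∈ J (n + 1) c c''
  ne : ∀ c c', c ≠ c' → J 1 c c' = ⊤
  sc : ∀ c (φ : D.Q c →ₗ[R] D.Q c), ∃ a : k, φ - a • LinearMap.id ∈ J 1 c c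
  inj : ∀ c (a : k), a • LinearMap.id ∈ J 1 c c → a = 0

variable (k R) in
/-- the data for the initial problem -/
structure Dc extends D1 k R where
  F : Fil toD1
  I : C → C → Type
  [finI : ∀ c c', Fintype (I c c')]
  b : ∀ c c', Module.Basis (I c c') k (Q c →ₗ[R] Q c')
  lev : ∀ c c', I c c' → ℕ
  hb : ∀ n c c' φ, φ ∈ F.J n c c' ↔ ∀ j, lev c c' j < n → (b c c').repr φ j = 0

attribute [instance] Dc.finI

/-- `μ ⊗ w` -/
def tm {A B : Md k R} {V V' : Type u} [AddCommGroup V] [Module k V] [AddCommGroup V']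
    [Module k V'] (μ : A →ₗ[R] B) : (V →ₗ[k] V') →ₗ[k] (A ⊗[k] V →ₗ[R] B ⊗[k] V') where
  toFun w := AlgebraTensorModule.map μ w
  map_add' w w' := AlgebraTensorModule.ext fun _ _ => by simp [tmul_add]
  map_smul' c w := AlgebraTensorModule.ext fun _ _ => by simp
@[simp] theorem tm_tmul {A B : Md k R} {V V' : Type u} [AddCommGroup V] [Module k V]
    [AddCommGroup V'] [Module k V'] (μ : A →ₗ[R] B) (w : V →ₗ[k] V') (a : A) (v : V) :
    tm μ w (a ⊗ₜ v) = μ a ⊗ₜ w v := rfl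
theorem tm_comp {A B C : Md k R} {V V' V'' : Type u} [AddCommGroup V] [Module k V]
    [AddCommGroup V'] [Module k V'] [AddCommGroup V''] [Module k V''] (ν : B →ₗ[R] C)
    (μ : A →ₗ[R] B) (w' : V' →ₗ[k] V'') (w : V →ₗ[k] V') :
    tm ν w' ∘ₗ tm μ w = tm (ν ∘ₗ μ) (w' ∘ₗ w) := AlgebraTensorModule.ext fun _ _ => rfl

namespace Dc
variable (D : Dc k R)
/-- the underlying space of `D.G e V` -/
abbrev GT (e : Bool) (V : D.C × Bool → XV k) : Type u := ∀ c, D.Q c ⊗[k] V (c, e)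
/-- the functors of the initial problem -/
abbrev G (e : Bool) : GF k R (D.C × Bool) where
  obj V := ⟨D.GT e V⟩
  map :=
    { toFun := fun g => LinearMap.pi fun c => tm LinearMap.id (g (c, e)).1 ∘ₗ LinearMap.proj c
      map_add' := fun g g' => LinearMap.ext fun z => funext fun c => by simp
      map_smul' := fun a g => LinearMap.ext fun z => funext fun c => by simp }
  map_id V := LinearMap.ext fun z => funext fun c =>
    LinearMap.congr_fun (AlgebraTensorModule.map_id (R := k) (A := R)) (z c)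
  map_comp g f := LinearMap.ext fun z => funext fun c =>
    (LinearMap.congr_fun (tm_comp LinearMap.id LinearMap.id (g (c, e)).1 (f (c, e)).1) (z c)).symm
theorem G_map {e : Bool} {V V' : D.C × Bool → XV k} (g : FH V V') (z : D.GT e V) (c : D.C) :
    DFunLike.coe (F := D.GT e V →ₗ[R] D.GT e V') ((D.G e).map g) z c =
      tm LinearMap.id (g (c, e)).1 (z c) := rfl
open Classical in
/-- the map with the single entry `μ ⊗ w` -/
def ent {c c' : D.C} (μ : D.Q c →ₗ[R] D.Q c') (e e' : Bool) (V V' : D.C × Bool → XV k) :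
    (V (c, e) →ₗ[k] V' (c', e')) →ₗ[k] (D.GT e V →ₗ[R] D.GT e' V') where
  toFun w := LinearMap.single R (fun c => D.Q c ⊗[k] V' (c, e')) c' ∘ₗ tm μ w ∘ₗ LinearMap.proj c
  map_add' w w' := by simp [LinearMap.add_comp, LinearMap.comp_add]
  map_smul' a w := LinearMap.ext fun z => by simp [Pi.single_smul]
theorem ent_self {c c' : D.C} (μ : D.Q c →ₗ[R] D.Q c') (e e' : Bool) (V V' : D.C × Bool → XV k)
    (w : V (c, e) →ₗ[k] V' (c', e')) (z : D.GT e V) : D.ent μ e e' V V' w z c' = tm μ w (z c) := by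
  simp [ent]
theorem ent_ne {c c' c'' : D.C} (h : c'' ≠ c') (μ : D.Q c →ₗ[R] D.Q c') (e e' : Bool)
    (V V' : D.C × Bool → XV k) (w : V (c, e) →ₗ[k] V' (c', e')) (z : D.GT e V) :
    D.ent μ e e' V V' w z c'' = 0 := by
  simp [ent, h]
theorem ent_natl {c c' : D.C} (μ : D.Q c →ₗ[R] D.Q c') (e e' : Bool)
    {V V' V'' : D.C × Bool → XV k} (g : FH V' V'') (w : V (c, e) →ₗ[k] V' (c', e')) :
    D.ent μ e e' V V'' ((g _).1 ∘ₗ w) = (D.G e').map g ∘ₗ D.ent μ e e' V V' w := by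
  refine LinearMap.ext fun z => funext fun c'' => ?_
  change _ = tm LinearMap.id (g (c'', e')).1 (D.ent μ e e' V V' w z c'')
  by_cases h : c'' = c'
  · subst h
    rw [ent_self, ent_self]
    exact (LinearMap.congr_fun (tm_comp LinearMap.id μ (g _).1 w) (z c)).symm
  · rw [D.ent_ne h, D.ent_ne h, map_zero]
theorem ent_natr {c c' : D.C} (μ : D.Q c →ₗ[R] D.Q c') (e e' : Bool)
    {V V' V'' : D.C × Bool → XV k} (g : FH V V') (w : V' (c, e) →ₗ[k] V'' (c', e')) :
    D.ent μ e e' V V'' (w ∘ₗ (g _).1) = D.ent μ e e' V' V'' w ∘ₗ (D.G e).map g := by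
  refine LinearMap.ext fun z => funext fun c'' => ?_
  change _ = D.ent μ e e' V' V'' w ((D.G e).map g z) c''
  by_cases h : c'' = c'
  · subst h
    rw [ent_self, ent_self]
    exact (LinearMap.congr_fun (tm_comp μ LinearMap.id w (g _).1) (z c)).symm
  · rw [D.ent_ne h, D.ent_ne h]
/-- an arrow of the initial problem -/
def arr {c c' : D.C} (μ : D.Q c →ₗ[R] D.Q c') : NA D.G (c, true) (c', false) where
  app V V' := D.ent μ true false V V'
  natl g w := D.ent_natl μ true false g w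
  natr g w := D.ent_natr μ true false g w
/-- a radical map of the initial problem -/
def rd {c c' : D.C} (μ : D.Q c →ₗ[R] D.Q c') (e : Bool) : NR D.G (c, e) (c', e) where
  app V V' := LinearMap.pi fun e' =>
    D.ent μ e' e' V V' ∘ₗ tf V V' (c, e) (c', e) (c, e') (c', e')
  natl {V V' V''} g w e' := by
    refine Eq.trans ?_ (D.ent_natl μ e' e' g _)
    exact congrArg (D.ent μ e' e' V V'') (tf_natl (fun v => (g v).1) _ _ (c, e') (c', e') w)
  natr {V V' V''} g w e' := by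
    refine Eq.trans ?_ (D.ent_natr μ e' e' g _)
    exact congrArg (D.ent μ e' e' V V'') (tf_natr (fun v => (g v).1) _ _ (c, e') (c', e') w)
theorem rd_app {c c' : D.C} (μ : D.Q c →ₗ[R] D.Q c') (e e' : Bool) (V V' : D.C × Bool → XV k)
    (w : V (c, e) →ₗ[k] V' (c', e)) : (D.rd μ e).app V V' w e' =
      D.ent μ e' e' V V' (tf V V' (c, e) (c', e) (c, e') (c', e') w) := rfl
/-- the initial problem -/
abbrev P : PD k R where
  ι := D.C × Bool
  K _ := false
  f := 1
  G := D.G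
  d _ := 0
  A := Σ c c', D.I c c'
  s a := (a.1, true)
  t a := (a.2.1, false)
  m a := D.arr (D.b _ _ a.2.2)
  lt a a' := D.lev _ _ a.2.2 < D.lev _ _ a'.2.2
  rad := {ρ | ∃ c c' e, ∃ μ ∈ D.F.J 1 c c', ρ = ⟨(c, e), (c', e), D.rd μ e⟩}
end Dc

namespace PD
variable (P : PD k R)
/-- data for a regularization at the arrow `a` -/
def RegD (a : P.A) : Prop :=
  ∃ (r : NR P.G (P.s a) (P.t a)) (p q : k[X]), P.InRad r ∧ p ≠ 0 ∧ q ≠ 0 ∧
    (P.K (P.t a) = false → p.eval 0 ≠ 0) ∧ (P.K (P.s a) = false → q.eval 0 ≠ 0) ∧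
    ∀ V V', P.Semi V → P.Semi V' → ∀ w u, P.br V V' (r.app V V' w) = P.ms V V' u →
      u a = aeval (V' (P.t a)).x p ∘ₗ w ∘ₗ aeval (V (P.s a)).x q
/-- the commutators with `d` have `a`-component in `𝔞 Hom` -/
def IdD (a : P.A) (𝔞 : Ideal k[X][X]) : Prop :=
  ∀ V V', ∀ r ∈ P.Rad V V', ∀ u, P.br V V' r = P.ms V V' u →
    u a ∈ Submodule.span k {φ | ∃ p ∈ 𝔞, ∃ w, φ = act (V (P.s a)) (V' (P.t a)) p w}
/-- the family `d` describes the objects concentrated at `v` -/
def FamOk (v : P.ι) (d : Fam R) : Prop :=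
  ∃ ψ : ∀ W : XV k, M d W ≃ₗ[R] P.H (At v W) 0, ∀ (W W' : XV k) (g : XH W W')
    (h : P.Chain (At v W) 0 (At v W') 0 (gm P.G (atM v g))) (z : M d W),
    ψ W' ((MN d).map g z) = Hm h (ψ W z)
end PD

/-- every tracked object passes to the new problem -/
def SD.TrAll {P : PD k R} (S : SD P) : Prop :=
  ∀ (F : Type u) [Field F] [Algebra k F] (E : Type u) [Ring E] (X : CX k R F)
    (V : P.ι → FXV k F) (w : P.W (fun v => (V v).V) fun v => (V v).V)
    (ρ : ∀ v, E →+* Module.End k (V v).V), P.IsTr X V w ρ → S.Trf X V ρ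

end
end Pool.Agent.P.MP_cf639b_al.Red
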