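import Pool.Agent.P.MP_cf639b_al.Red.Iface

/-! The reduction theorem from its steps. -/

set_option linter.dupNamespace false
set_option linter.unusedVariables false

namespace Pool.Agent.P.MP_cf639b_al.Red

universe u
open TensorProduct Polynomial

noncomputable section

variable {k : Type u} [Field k] {R : Type u} [Ring R] [Algebra k R]

theorem g_SUB (h1 : S_AX1 k R) (h2 : S_AX2 k R) (h3 : S_AX3 k R) (h4 : S_AX4 k R) :
    S_SUB k R := fun P S hA hS =>
  { hf := hS.hf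
    proj := (h1 P S hA hS).1
    dnat := fun g => (h1 P S hA hS).2.1 _ _ g
    trans := by
      rintro a b c (h | ⟨h, h'⟩) (g | ⟨g, g'⟩)
      · exact Or.inl (hA.trans h g)
      · exact Or.inl (g ▸ h)
      · exact Or.inl (h ▸ g)
      · exact Or.inr ⟨h.trans g, h'.trans g'⟩
    irrefl := by
      rintro a (h | ⟨_, h⟩)
      · exact hA.irrefl _ h
      · exact lt_irrefl _ h
    minj := (h1 P S hA hS).2.2
    r2l := fun r hr => (h2 P S hA hS).1 _ _ _ r hr
    r2r := fun r hr => (h2 P S hA hS).2.1 _ _ _ r hr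
    r3 := fun r hr => (h2 P S hA hS).2.2 _ _ r hr
    r1 := fun a b c => (h3 P S hA hS).1 _ _ _ a b c
    nil := h4 P S hA hS
    r4 := fun a b => (h3 P S hA hS).2.1 _ _ a b
    full := fun a b => (h3 P S hA hS).2.2 _ _ a b }

theorem g_DC [IsAlgClosed k] [FiniteDimensional k R] (h1 : S_DEC1 k R) (h2 : S_DEC2 k R)
    (h3 : S_ADAPT k) : Nonempty (Dc k R) := by
  obtain ⟨D⟩ := h1
  obtain ⟨F⟩ := h2 D
  have fd : ∀ c c', FiniteDimensional k (D.Q c →ₗ[R] D.Q c') := fun c c' => by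
    have := D.fd c
    have := D.fd c'
    exact Module.Finite.of_injective (LinearMap.restrictScalarsₗ k R (D.Q c) (D.Q c') k)
      (LinearMap.restrictScalars_injective k)
  choose I fI b lev hb using fun c c' => h3 (D.Q c →ₗ[R] D.Q c') (fun n => F.J n c c') F.n0
    (F.J0 c c') (fun n => F.anti n c c') (F.bot c c')
  exact ⟨@Dc.mk k _ R _ _ D F I fI b lev fun n c c' φ => hb c c' n φ⟩

theorem g_INIT (h1 : S_INIT1 k R) (h2 : S_INIT2 k R) (D : Dc k R) : D.P.Ax :=
  { hf := one_ne_zero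
    proj := (h1 D).1
    dnat := fun g => by
      change (0 : H1 D.G _ _) ∘ₗ _ = _ ∘ₗ (0 : H1 D.G _ _)
      rw [LinearMap.zero_comp, LinearMap.comp_zero]
    trans := fun h g => lt_trans h g
    irrefl := fun a => lt_irrefl _
    minj := fun V V' => ((h1 D).2.1 V V').1
    r2l := fun r hr => (h1 D).2.2.1 _ _ _ r hr
    r2r := fun r hr => (h1 D).2.2.2 _ _ _ r hr
    r3 := fun r hr => by
      obtain ⟨w, hw⟩ := ((h1 D).2.1 _ _).2 (D.P.br _ _ r)
      exact ⟨w, hw.symm⟩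
    r1 := fun _ _ _ => (h2 D).1 _ _ _
    nil := by
      obtain ⟨n, hn⟩ := (h2 D).2.1
      exact ⟨n, fun V _ => hn V⟩
    r4 := fun _ _ => (h2 D).2.2.1 _ _
    full := fun a b _ _ φ _ => (h2 D).2.2.2 _ _ a b φ }

/-- a state of the reduction algorithm -/
structure St {F : Type u} [Field F] [Algebra k F] (E : Type u) [Ring E] (X : CX k R F) where
  P : PD k R
  ax : P.Ax
  V : P.ι → FXV k F
  w : P.W (fun v => (V v).V) fun v => (V v).V
  ρ : ∀ v, E →+* Module.End k (V v).V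
  tr : P.IsTr X V w ρ
  VC : P.ι → FXV k k
  wC : P.W (fun v => (VC v).V) fun v => (VC v).V
  ρC : ∀ v, k →+* Module.End k (VC v).V
  trC : P.IsTr (CXc k R) VC wC ρC
  fd : ∀ v, Module.Finite k (VC v).V

variable {F : Type u} [Field F] [Algebra k F] {E : Type u} [Ring E] {Xc : CX k R F}

/-- the size of a vertex -/
def St.L (s : St E Xc) (v : s.P.ι) : ℕ := (ln (s.ρ v)).toNat + (ln (s.ρC v)).toNat
/-- the measure -/
def St.mu (s : St E Xc) : ℕ := ∑ a, s.L (s.P.s a) * s.L (s.P.t a)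

theorem toNat_sum {ι : Type} [Fintype ι] {a : ι → ℕ∞} {b : ℕ∞} (ha : ∀ i, a i ≠ ⊤)
    (h : ∑ i, a i = b) : ∑ i, (a i).toNat = b.toNat := by
  lift a to ι → ℕ using ha
  subst h
  rw [← Nat.cast_sum, ENat.toNat_natCast]
  simp

theorem St.next (hSUB : S_SUB k R) (s : St E Xc) (S : SD s.P) (hS : S.Ok)
    (h1 : S.Trf Xc s.V s.ρ) (h2 : S.Trf (CXc k R) s.VC s.ρC) :
    ∃ s' : St E Xc, s'.mu ≤ s.mu ∧
      (∀ a, S.fix a → s'.mu + s.L (s.P.s a) * s.L (s.P.t a) ≤ s.mu) ∧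
      (Function.Injective S.base → (∀ ω, 0 < s.L (S.base ω)) → ∀ j, 0 < s'.L j) := by
  classical
  obtain ⟨V', w', ρ', t1, l1, -⟩ := h1
  obtain ⟨VC', wC', ρC', t2, l2, f2⟩ := h2
  let s' : St E Xc := ⟨S.new, hSUB _ S s.ax hS, V', w', ρ', t1, VC', wC', ρC', t2, f2 s.fd⟩
  have hL : ∀ v, ∑ ω : S.U v, s'.L (S.i ω.1) = s.L v := fun v => by
    unfold St.L
    rw [Finset.sum_add_distrib, toNat_sum (fun ω => t1.fl _) (l1 v),
      toNat_sum (fun ω => t2.fl _) (l2 v)]
  have hmu : s'.mu = ∑ a : {a // ¬ S.fix a}, s.L (s.P.s a.1) * s.L (s.P.t a.1) := by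
    refine (Fintype.sum_sigma _).trans (Finset.sum_congr rfl fun a _ => ?_)
    rw [Fintype.sum_prod_type, ← hL, ← hL, Finset.sum_mul_sum]
  have e := Fintype.sum_subtype_add_sum_subtype S.fix fun a => s.L (s.P.s a) * s.L (s.P.t a)
  refine ⟨s', ?_, fun a ha => ?_, fun hb hp j => ?_⟩
  · rw [hmu]
    unfold St.mu
    omega
  · have := Finset.single_le_sum (f := fun a : {a // S.fix a} => s.L (s.P.s a) * s.L (s.P.t a))
      (fun _ _ => Nat.zero_le _) (Finset.mem_univ ⟨a, ha⟩)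
    rw [hmu]
    unfold St.mu
    simp only at this
    omega
  · obtain ⟨ω, rfl⟩ := hS.surj j
    have := hL (S.base ω)
    rw [Finset.sum_eq_single (⟨ω, rfl⟩ : S.U (S.base ω))
      (fun ω' _ h => (h (Subtype.ext (hb ω'.2))).elim) (by simp)] at this
    exact lt_of_lt_of_eq (hp ω) this.symm

theorem subsingleton_of_ln {W : Type u} [AddCommGroup W] [Module k W]
    {ρ : E →+* Module.End k W} (h : ln ρ ≠ ⊤) (h0 : (ln ρ).toNat = 0) : Subsingleton W := by
  rw [ENat.toNat_eq_zero] at h0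
  exact (Module.length_eq_zero_iff (R := E) (M := RM ρ)).mp (h0.resolve_right h)

theorem St.drop (hSUB : S_SUB k R) (hD : S_DROP k R) (s : St E Xc) :
    ∃ s' : St E Xc, s'.mu ≤ s.mu ∧ ∀ j, 0 < s'.L j := by
  obtain ⟨S, hS, hT, hb, htr⟩ := hD s.P s.ax fun v => 0 < s.L v
  obtain ⟨s', h1, -, h3⟩ := s.next hSUB S hS
    (htr _ _ _ _ _ _ s.tr fun v hv => subsingleton_of_ln (s.tr.fl v) (by
      unfold St.L at hv; omega))
    (htr _ _ _ _ _ _ s.trC fun v hv => subsingleton_of_ln (s.trC.fl v) (by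
      unfold St.L at hv; omega))
  exact ⟨s', h1, h3 hb hT⟩

theorem Fit.mono {V : FXV k F} {y : Module.End k V.V} {Q Q' : k[X]} (h : Fit V y Q)
    (hQ : Q ∣ Q') : Fit V y Q' := by
  obtain ⟨W1, W2, a, b, c, d, e, f, g⟩ := h
  obtain ⟨p, rfl⟩ := hQ
  exact ⟨W1, W2, a, b, c, d, e, fun z hz => by
    rw [mul_comm, map_mul, Module.End.mul_apply, f z hz, map_zero], g⟩

theorem exists_split [IsAlgClosed k] {Q : k[X]} (hQ : Q ≠ 0) :
    ∃ (m : ℕ) (Λ : Fin m → k) (N : ℕ), Function.Injective Λ ∧ Q ∣ ∏ l, (X - C (Λ l)) ^ N := by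
  classical
  let e := Q.roots.toFinset.equivFin
  refine ⟨_, fun l => (e.symm l).1, Q.natDegree,
    Subtype.val_injective.comp e.symm.injective, ?_⟩
  have h1 : ∏ l, (X - C (e.symm l).1) ^ Q.natDegree =
      ∏ r ∈ Q.roots.toFinset, (X - C r) ^ Q.natDegree := by
    rw [Equiv.prod_comp e.symm fun r => (X - C r.1) ^ Q.natDegree, Finset.prod_coe_sort _
      fun r => (X - C r) ^ Q.natDegree]
  have h2 := C_leadingCoeff_mul_prod_multiset_X_sub_C
    (IsAlgClosed.card_roots_eq_natDegree (p := Q))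
  rw [h1]
  nth_rw 1 [← h2]
  rw [(isUnit_C.mpr (IsUnit.mk0 _ (leadingCoeff_ne_zero.mpr hQ))).mul_left_dvd,
    Finset.prod_multiset_map_count]
  exact Finset.prod_dvd_prod_of_dvd _ _ fun r _ =>
    pow_dvd_pow _ ((Multiset.count_le_card _ _).trans (card_roots' Q))

theorem fit_of_tr (hF : S_FIT k) {P : PD k R} (hA : P.Ax) {a : P.A} (ha : P.Min a)
    (h : P.s a = P.t a) (hZ : P.Zer a) {V : P.ι → FXV k F}
    {w : P.W (fun v => (V v).V) fun v => (V v).V} {ρ : ∀ v, E →+* Module.End k (V v).V}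
    (tr : P.IsTr Xc V w ρ) :
    ∃ Q : k[X], Q ≠ 0 ∧ Fit (V (P.s a)) (cs (fun v => (V v).V) h.symm ∘ₗ w a) Q := by
  refine hF F E (V (P.s a)) (ρ _) _ (tr.fl _) (fun e => ?_) fun c => ?_
  · obtain ⟨g, hg, r, hr, hc⟩ := tr.ch e
    obtain ⟨u, hu⟩ := hA.r3 r hr
    have h1 := hA.comm hr hc hu ha
    rw [hZ _ _ (tr.al hA).semi (tr.al hA).semi r hr u hu, add_zero, sub_eq_zero] at h1
    have h2 := cs_nat (V := fun v => (V v).V) (V' := fun v => (V v).V) (fun v => (g v).1) h.symm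
    rw [← hg]
    change (cs (fun v => (V v).V) h.symm ∘ₗ w a) ∘ₗ (g (P.s a)).1 =
      (g (P.s a)).1 ∘ₗ cs (fun v => (V v).V) h.symm ∘ₗ w a
    rw [LinearMap.comp_assoc, h1, ← LinearMap.comp_assoc, h2, LinearMap.comp_assoc]
  · have h2 := cs_nat (V := fun v => (V v).V) (V' := fun v => (V v).V) (fun v => (V v).act c)
      h.symm
    change (cs (fun v => (V v).V) h.symm ∘ₗ w a) ∘ₗ (V (P.s a)).act c =
      (V (P.s a)).act c ∘ₗ cs (fun v => (V v).V) h.symm ∘ₗ w a
    rw [LinearMap.comp_assoc, tr.wF, ← LinearMap.comp_assoc, h2, LinearMap.comp_assoc]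

theorem St.step [IsAlgClosed k] [FiniteDimensional k R] (hSUB : S_SUB k R) (hR : S_REG k R)
    (hE : S_EDGE k R) (hF : S_FIT k) (hLO : S_LOOPOK k R) (hLT : S_LOOPTR k R) (hP : S_P5 k R)
    (hD : S_DICH k R) (hW1 : S_W1 k R) (hW2 : S_W2 k R) (hW : ¬ Wild k R) (s : St E Xc)
    (hpos : ∀ j, 0 < s.L j) (hne : Nonempty s.P.A) : ∃ s' : St E Xc, s'.mu < s.mu := by
  have hA := s.ax
  have h5 : s.P.P5 := hP s.P hA k s.VC s.wC s.ρC s.trC s.fd
  have : IsTrans s.P.A s.P.lt := ⟨fun _ _ _ => hA.trans⟩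
  have : Std.Irrefl s.P.lt := ⟨hA.irrefl⟩
  obtain ⟨a, -, ha⟩ := (Finite.wellFounded_of_trans_of_irrefl s.P.lt).has_min Set.univ
    (Set.univ_nonempty)
  have ha' : s.P.Min a := fun a' => ha a' trivial
  have key : ∀ S : SD s.P, S.Ok → S.fix a → S.Trf Xc s.V s.ρ → S.Trf (CXc k R) s.VC s.ρC →
      ∃ s' : St E Xc, s'.mu < s.mu := fun S hS hf h1 h2 => by
    obtain ⟨s', -, h, -⟩ := s.next hSUB S hS h1 h2
    have := h a hf
    have := Nat.mul_pos (hpos (s.P.s a)) (hpos (s.P.t a))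
    exact ⟨s', by omega⟩
  rcases hD s.P hA a with h | ⟨hZ, hK⟩ | ⟨hs, ht, 𝔞, h1, h2⟩
  · obtain ⟨S, hS, hf, ht⟩ := hR s.P hA a ha' h
    exact key S hS hf (ht _ _ _ _ _ _ s.tr) (ht _ _ _ _ _ _ s.trC)
  · by_cases hKK : s.P.K (s.P.s a) = s.P.K (s.P.t a)
    · have hs : s.P.K (s.P.s a) = false := hK.elim id fun h => hKK.trans h
      by_cases hst : s.P.s a = s.P.t a
      · obtain ⟨Q1, hQ1, f1⟩ := fit_of_tr hF hA ha' hst hZ s.tr
        obtain ⟨Q2, hQ2, f2⟩ := fit_of_tr hF hA ha' hst hZ s.trC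
        obtain ⟨m, Λ, N, hΛ, hd⟩ := exists_split (mul_ne_zero hQ1 hQ2)
        exact key (loopS s.P a hst Λ N) (hLO s.P hA a ha' hs hst hZ m Λ hΛ N) rfl
          (hLT s.P hA a ha' hs hst hZ m Λ hΛ N _ _ _ _ _ _ s.tr
            (f1.mono ((dvd_mul_right _ _).trans hd)))
          (hLT s.P hA a ha' hs hst hZ m Λ hΛ N _ _ _ _ _ _ s.trC
            (f2.mono ((dvd_mul_left _ _).trans hd)))
      · obtain ⟨S, hS, hf, ht⟩ := hE s.P hA a ha' hs (hKK ▸ hs) hst hZ
        exact key S hS hf (ht _ _ _ _ _ _ s.tr) (ht _ _ _ _ _ _ s.trC)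
    · exact (hW (hW2 s.P hA h5 a ha' hKK hZ)).elim
  · exact (hW (hW1 s.P hA h5 a ha' hs ht 𝔞 h1 h2)).elim

theorem St.final (hstep : ∀ s : St E Xc, (∀ j, 0 < s.L j) → Nonempty s.P.A →
      ∃ s' : St E Xc, s'.mu < s.mu)
    (hdrop : ∀ s : St E Xc, ∃ s' : St E Xc, s'.mu ≤ s.mu ∧ ∀ j, 0 < s'.L j) (s : St E Xc) :
    ∃ s' : St E Xc, IsEmpty s'.P.A := by
  induction hn : s.mu using Nat.strong_induction_on generalizing s with
  | _ n ih =>
    obtain ⟨s1, h1, h2⟩ := hdrop s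
    rcases isEmpty_or_nonempty s1.P.A with h | h
    · exact ⟨s1, h⟩
    · obtain ⟨s2, h3⟩ := hstep s1 h2 h
      exact ih s2.mu (by omega) s2 rfl

section init
variable (N : FO k R F)
/-- the action of `F` by `k`-linear maps -/
def aN : F →ₐ[k] Module.End k N.X where
  toFun c := (N.act c).restrictScalars k
  map_one' := by rw [map_one]; rfl
  map_mul' a b := by rw [map_mul]; rfl
  map_zero' := by rw [map_zero]; rfl
  map_add' a b := by rw [map_add]; rfl
  commutes' c := by rw [AlgHom.commutes]; rfl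
variable (E) [Module E N.X] [SMulCommClass E R N.X]
/-- the action of `E` by `k`-linear maps -/
def rN : E →+* Module.End k N.X where
  toFun e := (DistribSMul.toLinearMap R N.X e).restrictScalars k
  map_one' := LinearMap.ext fun t => one_smul E t
  map_mul' a b := LinearMap.ext fun t => mul_smul a b t
  map_zero' := LinearMap.ext fun t => zero_smul E t
  map_add' a b := LinearMap.ext fun t => add_smul a b t
/-- the spaces of the standard presentation -/
def WN : Bool → FXV k F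
  | true => vsF (R ⊗[k] N.X) ((Module.End.lTensorAlgHom k N.X R).comp (aN N))
  | false => vsF N.X (aN N)
/-- the actions on the spaces of the standard presentation -/
def rW : ∀ e, E →+* Module.End k (WN N e).V
  | true => (Module.End.lTensorAlgHom k N.X R).toRingHom.comp (rN E N)
  | false => rN E N
end init

theorem pres_comm (T : Md k R) (g : T →ₗ[R] T) :
    presD k R T ∘ₗ Pmap (Module.End.lTensorAlgHom k T R (g.restrictScalars k)) =
      Pmap (g.restrictScalars k) ∘ₗ presD k R T := by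
  have e : Module.End.lTensorAlgHom k T R (g.restrictScalars k) =
      (Pmap (R := R) (g.restrictScalars k)).restrictScalars k :=
    TensorProduct.ext' fun _ _ => rfl
  rw [e]
  exact (presMap g).comm

theorem g_RED (hSUB : S_SUB k R) (hR : S_REG k R)
    (hE : S_EDGE k R) (hDr : S_DROP k R) (hF : S_FIT k) (hLO : S_LOOPOK k R) (hLT : S_LOOPTR k R)
    (hP : S_P5 k R) (hD : S_DICH k R) (hW1 : S_W1 k R) (hW2 : S_W2 k R) (h1 : S_DEC1 k R)
    (h2 : S_DEC2 k R) (h3 : S_ADAPT k) (i1 : S_INIT1 k R) (i2 : S_INIT2 k R) (hT : S_TRINIT k R)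
    (hFa : S_FAM k R) (hRD : S_RD k R) (hDe : S_DECO k R) : S_RED0 k R := by
  intro _ _ hW F _ _ N E _ _ _ hN
  obtain ⟨D⟩ := g_DC h1 h2 h3
  have l0 : ln (rN E N) ≠ ⊤ := by
    have e : RM (rN E N) ≃ₗ[E] N.X := LinearEquiv.refl E N.X
    unfold ln
    rw [e.length_eq]
    exact Module.length_ne_top_iff.mpr hN
  have l1 : ln (rW E N true) ≠ ⊤ := by
    let φ : RM (rW E N true) →ₗ[E] (Fin (Module.finrank k R) → RM (rN E N)) :=
      { toFun := fun z i => cf N.X i z
        map_add' := fun z z' => funext fun i => map_add _ _ _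
        map_smul' := fun e z => funext fun i => by
          change cf N.X i (LinearMap.lTensor R (rN E N e) z) = rN E N e (cf N.X i z)
          induction z using TensorProduct.induction_on with
          | zero => simp
          | tmul r t => simp
          | add x y hx hy => simp only [map_add, hx, hy] }
    have hφ : Function.Injective φ := fun z z' h => by
      refine (sum_cf (R := R) (V := N.X) z).symm.trans (Eq.trans ?_ (sum_cf z'))
      exact Finset.sum_congr rfl fun i _ => congrArg _ (congrFun h i)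
    refine ne_top_of_le_ne_top ?_ (Module.length_le_of_injective φ hφ)
    rw [Module.length_pi_of_fintype]
    exact ENat.sum_ne_top.mpr fun _ _ => l0
  obtain ⟨V, w, ρ, tr, -⟩ := hT D F E (WN N) (presD k R N.X) (rW E N)
    (fun c => pres_comm N.X (N.act c))
    (fun a => pres_comm N.X (DistribSMul.toLinearMap R N.X a)) (by
      rintro (_ | _)
      · exact l0
      · exact l1)
  obtain ⟨VC, wC, ρC, trC, fd⟩ := hT D k k (fun _ => vsF (k × k) (Algebra.ofId k _))
    (Pmap (LinearMap.inl k k k ∘ₗ LinearMap.fst k k k))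
    (fun _ => algebraMap k (Module.End k (k × k)))
    (fun c => by rw [← Pmap_comp, ← Pmap_comp]; exact congrArg _ (Algebra.commutes c _).symm)
    (fun c => by rw [← Pmap_comp, ← Pmap_comp]; exact congrArg _ (Algebra.commutes c _).symm)
    (fun _ => by
      have e : RM (algebraMap k (Module.End k (k × k))) ≃ₗ[k] (k × k) := LinearEquiv.refl k (k × k)
      unfold ln
      rw [e.length_eq]
      exact Module.length_ne_top)
  let s0 : St E (CXp (WN N) (presD k R N.X)) :=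
    ⟨D.P, g_INIT i1 i2 D, V, w, ρ, tr, VC, wC, ρC, trC, fd fun _ => inferInstance⟩
  obtain ⟨s, hs⟩ := St.final (St.step hSUB hR hE hF hLO hLT hP hD hW1 hW2 hW)
    (St.drop hSUB hDr) s0
  choose d hd using hFa s.P s.ax
  obtain ⟨J, n, j1, j2, j3, j4, j5, j6, j7⟩ :=
    hRD s.P s.ax (hP s.P s.ax k s.VC s.wC s.ρC s.trC s.fd) hs d hd
  refine ⟨@RD.mk k _ R _ _ s.P.ι _ s.P.K d s.P.f s.ax.hf J n (j1 _ _ _ _ _ _) (j2 _ _ _ _ _ _)
    (j3 _ _) (fun _ _ _ => j4 _ _ _ _) (j5 _ _ _ _) (j6 _ _ _) (j7 _ _ _),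
    s.V, s.tr.ok, hDe s.P s.ax hs d hd F E _ s.V s.w s.ρ s.tr N (Pmul k R N.X) ?_ ?_ ?_⟩
  · refine mem_HomF'.mpr fun c => ?_
    change Pmul k R N.X ∘ₗ Pmap ((N.act c).restrictScalars k) = N.act c ∘ₗ Pmul k R N.X
    exact P_ext fun v => by simp
  · exact fun t => ⟨(1 : R) ⊗ₜ t, (Pmul_tmul (1 : R) t).trans (one_smul R t)⟩
  · change LinearMap.ker (Pmul k R N.X) = LinearMap.range (presD k R N.X)
    apply le_antisymm
    · intro z hz
      exact ⟨(1 : R) ⊗ₜ z, by simp [LinearMap.mem_ker.mp hz]⟩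
    · rw [LinearMap.range_le_ker_iff]
      exact P_ext fun v => by simp

end
end Pool.Agent.P.MP_cf639b_al.Red
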