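import Pool.Agent.P.MP_cf639b_al.Red.Defs2

/-! Statements of the steps of the reduction theorem. -/

set_option linter.dupNamespace false
set_option linter.unusedVariables false

namespace Pool.Agent.P.MP_cf639b_al.Red

universe u
open TensorProduct Polynomial

noncomputable section

variable (k : Type u) [Field k] (R : Type u) [Ring R] [Algebra k R]

/-- axioms of the new problem, part 1 -/
def S_AX1 : Prop := ∀ (P : PD k R) (S : SD P), P.Ax → S.Ok →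
  (∀ e, (S.new.G e).Proj) ∧
  (∀ (V V' : S.ι → XV k) (g : FH V V'),
    S.new.d V' ∘ₗ (S.new.G true).map g = (S.new.G false).map g ∘ₗ S.new.d V) ∧
  ∀ V V', Function.Injective (S.new.ms V V')

/-- axioms of the new problem, part 2 -/
def S_AX2 : Prop := ∀ (P : PD k R) (S : SD P), P.Ax → S.Ok →
  (∀ V V' V'' : S.ι → XV k, ∀ r ∈ S.new.Rad V' V'', ∀ (a : S.Arr)
    (w : V (S.new.s a) →ₗ[k] V' (S.new.t a)),
    r false ∘ₗ (S.new.m a).app V V' w ∈ S.new.Mgt a V V'') ∧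
  (∀ V V' V'' : S.ι → XV k, ∀ r ∈ S.new.Rad V V', ∀ (a : S.Arr)
    (w : V' (S.new.s a) →ₗ[k] V'' (S.new.t a)),
    (S.new.m a).app V' V'' w ∘ₗ r true ∈ S.new.Mgt a V V'') ∧
  ∀ V V' : S.ι → XV k, ∀ r ∈ S.new.Rad V V', ∃ w, S.new.br V V' r = S.new.ms V V' w

/-- axioms of the new problem, part 3 -/
def S_AX3 : Prop := ∀ (P : PD k R) (S : SD P), P.Ax → S.Ok →
  (∀ V V' V'' : S.ι → XV k, S.new.Al V → S.new.Al V' → S.new.Al V'' → ∀ r ∈ S.new.Rad V' V'',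
    ∀ r' ∈ S.new.Rad V V', HH.comp r r' ∈ S.new.Rad V V'') ∧
  (∀ V V' : S.ι → XV k, S.new.Al V → S.new.Al V' → ∀ g : FH V V',
    gm S.new.G g ∈ S.new.Rad V V' → g = 0) ∧
  ∀ V V' : S.ι → XV k, S.new.Al V → S.new.Al V' → ∀ w w' φ, S.new.Chain V w V' w' φ →
    ∃ g : FH V V', φ - gm S.new.G g ∈ S.new.Rad V V'

/-- axioms of the new problem, part 4 -/
def S_AX4 : Prop := ∀ (P : PD k R) (S : SD P), P.Ax → S.Ok →
  ∃ n : ℕ, ∀ V, S.new.Al V → ∀ l : List (∀ e, Module.End R ((S.new.G e).obj V)), l.length = n →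
    (∀ r ∈ l, r ∈ S.new.Rad V V) → l.prod = 0

/-- the new problem satisfies the axioms -/
def S_SUB : Prop := ∀ (P : PD k R) (S : SD P), P.Ax → S.Ok → S.new.Ax

/-- additivity of lengths along a weight filtration -/
def S_LEN : Prop := ∀ (E : Type u) [Ring E] (Ω : Type) [Fintype Ω] (wt : Ω → ℤ) (A : Ω → XV k)
  (ρ' : ∀ ω, E →+* Module.End k (A ω)) (ρ : E →+* Module.End k (∀ ω, A ω)),
  (∀ e ω (z : ∀ ω, A ω), (∀ β, wt β < wt ω → z β = 0) → ρ e z ω = ρ' ω e (z ω)) →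
  ∑ ω, ln (ρ' ω) = ln ρ

/-- conjugation of a tracked object by `1 + r` -/
def S_CONJ : Prop := ∀ (P : PD k R), P.Ax → ∀ (F : Type u) [Field F] [Algebra k F] (E : Type u)
  [Ring E] (X : CX k R F) (V : P.ι → FXV k F) (w : P.W (fun v => (V v).V) fun v => (V v).V)
  (ρ : ∀ v, E →+* Module.End k (V v).V), P.IsTr X V w ρ →
  ∀ r ∈ P.Rad (fun v => (V v).V) fun v => (V v).V,
  (∀ c, HH.comp r (gm P.G (scF V c)) = HH.comp (gm P.G (scF V c)) r) →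
  ∀ u, P.br _ _ r = P.ms _ _ u → ∃ w1, P.IsTr X V w1 ρ ∧ ∀ a, P.Min a → w1 a = w a - u a

/-- transfer of a tracked object in normal form -/
def S_TSUB : Prop := ∀ (P : PD k R) (S : SD P), P.Ax → S.Ok →
  ∀ (F : Type u) [Field F] [Algebra k F] (E : Type u) [Ring E] (X : CX k R F)
    (V : P.ι → FXV k F) (w : P.W (fun v => (V v).V) fun v => (V v).V)
    (ρ : ∀ v, E →+* Module.End k (V v).V), P.IsTr X V w ρ → ∀ V' : S.ι → FXV k F,
    (∀ j, if S.K j then KSp (V' j).V else (V' j).V.x = 0) →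
    ∀ θ : ∀ v, (V v).V ≃ₗ[k] S.TT (fun j => (V' j).V) v,
    (∀ v, P.K v = true → ∀ z ω, θ v ((V v).V.x z) ω = (V' (S.i ω.1)).V.x (θ v z ω)) →
    (∀ v c z ω, θ v ((V v).act c z) ω = (V' (S.i ω.1)).act c (θ v z ω)) →
    (∀ a, S.fix a → ∀ z, θ _ (w a z) = S.w0 (fun j => (V' j).V) a (θ _ z)) → S.Trf X V ρ

/-- regularization -/
def S_REG : Prop := ∀ (P : PD k R), P.Ax → ∀ a, P.Min a → P.RegD a →
  ∃ S : SD P, S.Ok ∧ S.fix a ∧ S.TrAll

/-- edge reduction -/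
def S_EDGE : Prop := ∀ (P : PD k R), P.Ax → ∀ a, P.Min a → P.K (P.s a) = false →
  P.K (P.t a) = false → P.s a ≠ P.t a → P.Zer a → ∃ S : SD P, S.Ok ∧ S.fix a ∧ S.TrAll

/-- deletion of vertices -/
def S_DROP : Prop := ∀ (P : PD k R), P.Ax → ∀ T : P.ι → Prop,
  ∃ S : SD P, S.Ok ∧ (∀ ω, T (S.base ω)) ∧ Function.Injective S.base ∧
    ∀ (F : Type u) [Field F] [Algebra k F] (E : Type u) [Ring E] (X : CX k R F)
      (V : P.ι → FXV k F) (w : P.W (fun v => (V v).V) fun v => (V v).V)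
      (ρ : ∀ v, E →+* Module.End k (V v).V), P.IsTr X V w ρ →
      (∀ v, ¬ T v → Subsingleton (V v).V) → S.Trf X V ρ

/-- Fitting's lemma -/
def S_FIT : Prop := ∀ (F : Type u) [Field F] [Algebra k F] (E : Type u) [Ring E] (V : FXV k F)
  (ρ : E →+* Module.End k V.V) (y : Module.End k V.V), ln ρ ≠ ⊤ → (∀ e, y * ρ e = ρ e * y) →
  (∀ c, y * V.act c = V.act c * y) → ∃ Q : k[X], Q ≠ 0 ∧ Fit V y Q

/-- Jordan form of a nilpotent operator, any dimension -/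
def S_NILP : Prop := ∀ (F : Type u) [Field F] [Algebra k F] (N : ℕ) (V : FXV k F),
  V.V.x ^ N = 0 → ∃ (A : Fin N → FXV k F) (θ : V.V ≃ₗ[k] ∀ σ : JS N, (A σ.1.1).V),
    (∀ j, (A j).V.x = 0) ∧ (∀ c z σ, θ (V.act c z) σ = (A _).act c (θ z σ)) ∧
    ∀ z σ, θ (V.V.x z) σ = if h : 0 < σ.1.2.1 then θ z (σ.pred h) else 0

/-- Jordan form of an operator with a split annihilating polynomial -/
def S_JORD : Prop := ∀ (F : Type u) [Field F] [Algebra k F] (m : ℕ) (Λ : Fin m → k),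
  Function.Injective Λ → ∀ (N : ℕ) (V : FXV k F), aeval V.V.x (∏ l, (X - C (Λ l)) ^ N) = 0 →
  ∃ (A : Fin m × Fin N → FXV k F) (θ : V.V ≃ₗ[k] ∀ σ : Fin m × JS N, (A (σ.1, σ.2.1.1)).V),
    (∀ j, (A j).V.x = 0) ∧ (∀ c z σ, θ (V.act c z) σ = (A _).act c (θ z σ)) ∧
    ∀ z σ, θ (V.V.x z) σ = Λ σ.1 • θ z σ +
      if h : 0 < σ.2.1.2.1 then θ z (σ.1, σ.2.pred h) else 0

/-- the loop substitution is admissible -/
def S_LOOPOK : Prop := ∀ (P : PD k R), P.Ax → ∀ a, P.Min a → P.K (P.s a) = false →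
  ∀ h : P.s a = P.t a, P.Zer a → ∀ (m : ℕ) (Λ : Fin m → k), Function.Injective Λ → ∀ N : ℕ,
  (loopS P a h Λ N).Ok

/-- transfer along the loop substitution -/
def S_LOOPTR : Prop := ∀ (P : PD k R), P.Ax → ∀ a, P.Min a → P.K (P.s a) = false →
  ∀ h : P.s a = P.t a, P.Zer a → ∀ (m : ℕ) (Λ : Fin m → k), Function.Injective Λ → ∀ N : ℕ,
  ∀ (F : Type u) [Field F] [Algebra k F] (E : Type u) [Ring E] (X' : CX k R F)
    (V : P.ι → FXV k F) (w : P.W (fun v => (V v).V) fun v => (V v).V)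
    (ρ : ∀ v, E →+* Module.End k (V v).V), P.IsTr X' V w ρ →
    Fit (V (P.s a)) (cs (fun v => (V v).V) h.symm ∘ₗ w a) (∏ l, (X - C (Λ l)) ^ N) →
    (loopS P a h Λ N).Trf X' V ρ

/-- null-homotopic parts live at the algebraic vertices -/
def S_P5 : Prop := ∀ (P : PD k R), P.Ax → ∀ (E : Type u) [Ring E] (V : P.ι → FXV k k)
  (w : P.W (fun v => (V v).V) fun v => (V v).V) (ρ : ∀ v, E →+* Module.End k (V v).V),
  P.IsTr (CXc k R) V w ρ → (∀ v, Module.Finite k (V v).V) → P.P5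

/-- the case distinction at an arrow -/
def S_DICH : Prop := ∀ (P : PD k R), P.Ax → ∀ a, P.RegD a ∨
  (P.Zer a ∧ (P.K (P.s a) = false ∨ P.K (P.t a) = false)) ∨
  (P.K (P.s a) = true ∧ P.K (P.t a) = true ∧ ∃ 𝔞 : Ideal k[X][X],
    (∀ p q : k[X], p ≠ 0 → q ≠ 0 → C p * q.map C ∉ 𝔞) ∧ P.IdD a 𝔞)

/-- a point and a functional adapted to an ideal avoiding the products `p(x) q(y)` -/
def S_CA : Prop := ∀ [IsAlgClosed k] (𝔞 : Ideal k[X][X]) (f : k[X]), f ≠ 0 →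
  (∀ p q : k[X], p ≠ 0 → q ≠ 0 → C p * q.map C ∉ 𝔞) →
  ∃ (lam mu : k) (m : ℕ) (χ : k[X][X] →ₗ[k] k), f.eval lam ≠ 0 ∧ f.eval mu ≠ 0 ∧
    (∀ p ∈ 𝔞, χ p = 0) ∧ (∀ p, χ (C (X - C lam) ^ m * p) = 0) ∧
    (∀ p, χ ((X - C (C mu)) ^ 5 * p) = 0) ∧
    (∀ p, χ (C (X - C lam) * (X - C (C mu)) ^ 4 * p) = 0) ∧ χ ((X - C (C mu)) ^ 4) = 1

/-- modules attached to representations of a minimal arrow -/
def S_W0 : Prop := ∀ [FiniteDimensional k R] (P : PD k R), P.Ax → P.P5 → ∀ a, P.Min a →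
  ∀ T : ∀ A B : XV k, Submodule k (A →ₗ[k] B),
  (∀ V V', P.Al V → P.Al V' → ∀ r ∈ P.Rad V V', ∀ u, P.br V V' r = P.ms V V' u →
    u a ∈ T (V (P.s a)) (V' (P.t a))) →
  (∀ (A A' B B' : XV k) (g : XH A' A) (g' : XH B B'), ∀ φ ∈ T A B, g'.1 ∘ₗ φ ∘ₗ g.1 ∈ T A' B') →
  ∀ (A B : Sys k → XV k) (mA : ∀ S S', SysH S S' → XH (A S) (A S'))
    (mB : ∀ S S', SysH S S' → XH (B S) (B S')) (ω : ∀ S, A S →ₗ[k] B S),
  (∀ S S' S'' (g : SysH S' S'') (f : SysH S S'),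
    mA S S'' (g.comp f) = XH.comp (mA S' S'' g) (mA S S' f)) →
  (∀ S S' S'' (g : SysH S' S'') (f : SysH S S'),
    mB S S'' (g.comp f) = XH.comp (mB S' S'' g) (mB S S' f)) →
  (∀ S, Module.Finite k (A S)) → (∀ S, Module.Finite k (B S)) →
  (∀ S, Allowed (P.K (P.s a)) P.f (A S)) → (∀ S, Allowed (P.K (P.t a)) P.f (B S)) →
  (∀ S S' (f : SysH S S'), ω S' ∘ₗ (mA S S' f).1 = (mB S S' f).1 ∘ₗ ω S) →
  (∀ S S' (gA : XH (A S') (A S)) (gB : XH (B S') (B S)),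
    ω S ∘ₗ gA.1 - gB.1 ∘ₗ ω S' ∈ T (A S') (B S) → ∃ g : SysH S' S,
      ∀ S0 (u : SysH S0 S) (u' : SysH S0 S'),
        (P.K (P.s a) = true → mA S0 S u = XH.comp gA (mA S0 S' u')) →
        (P.K (P.t a) = true → mB S0 S u = XH.comp gB (mB S0 S' u')) → u.f = g.f ∘ₗ u'.f) →
  Wild k R

/-- wild configuration: two transcendental ends -/
def S_W1 : Prop := ∀ [IsAlgClosed k] [FiniteDimensional k R] (P : PD k R), P.Ax → P.P5 →
  ∀ a, P.Min a → P.K (P.s a) = true → P.K (P.t a) = true → ∀ 𝔞 : Ideal k[X][X],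
  (∀ p q : k[X], p ≠ 0 → q ≠ 0 → C p * q.map C ∉ 𝔞) → P.IdD a 𝔞 → Wild k R

/-- wild configurations: one transcendental end -/
def S_W2 : Prop := ∀ [IsAlgClosed k] [FiniteDimensional k R] (P : PD k R), P.Ax → P.P5 →
  ∀ a, P.Min a → P.K (P.s a) ≠ P.K (P.t a) → P.Zer a → Wild k R

/-- maps between `A ⊗ V` and `B ⊗ V'` -/
def S_TEN : Prop := ∀ (A B : Md k R), A.fd → B.fd → ∀ (I : Type) [Fintype I]
  (b : Module.Basis I k (A →ₗ[R] B)) (V V' : Type u) [AddCommGroup V] [Module k V]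
  [AddCommGroup V'] [Module k V'],
  Function.Bijective fun w : I → (V →ₗ[k] V') => ∑ j, tm (b j) (w j)

/-- decomposition of the regular module -/
def S_DEC1 : Prop := ∀ [IsAlgClosed k] [FiniteDimensional k R], Nonempty (D1 k R)

/-- the radical filtration exists -/
def S_DEC2 : Prop := ∀ D : D1 k R, Nonempty (Fil D)

/-- bases adapted to a filtration -/
def S_ADAPT : Prop := ∀ (H : Type u) [AddCommGroup H] [Module k H] [FiniteDimensional k H]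
  (J : ℕ → Submodule k H) (n0 : ℕ), J 0 = ⊤ → (∀ n, J (n + 1) ≤ J n) → J n0 = ⊥ →
  ∃ (I : Type) (_ : Fintype I) (b : Module.Basis I k H) (lev : I → ℕ),
    ∀ n φ, φ ∈ J n ↔ ∀ j, lev j < n → b.repr φ j = 0

/-- the initial problem satisfies the axioms, part 1 -/
def S_INIT1 : Prop := ∀ D : Dc k R,
  (∀ e, (D.P.G e).Proj) ∧ (∀ V V', Function.Bijective (D.P.ms V V')) ∧
  (∀ V V' V'' : D.C × Bool → XV k, ∀ r ∈ D.P.Rad V' V'', ∀ (a : D.P.A)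
    (w : V (D.P.s a) →ₗ[k] V' (D.P.t a)), r false ∘ₗ (D.P.m a).app V V' w ∈ D.P.Mgt a V V'') ∧
  ∀ V V' V'' : D.C × Bool → XV k, ∀ r ∈ D.P.Rad V V', ∀ (a : D.P.A)
    (w : V' (D.P.s a) →ₗ[k] V'' (D.P.t a)), (D.P.m a).app V' V'' w ∘ₗ r true ∈ D.P.Mgt a V V''

/-- the initial problem satisfies the axioms, part 2 -/
def S_INIT2 : Prop := ∀ D : Dc k R,
  (∀ V V' V'' : D.C × Bool → XV k, ∀ r ∈ D.P.Rad V' V'', ∀ r' ∈ D.P.Rad V V',
    HH.comp r r' ∈ D.P.Rad V V'') ∧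
  (∃ n : ℕ, ∀ V, ∀ l : List (∀ e, Module.End R ((D.P.G e).obj V)), l.length = n →
    (∀ r ∈ l, r ∈ D.P.Rad V V) → l.prod = 0) ∧
  (∀ (V V' : D.C × Bool → XV k) (g : FH V V'), gm D.P.G g ∈ D.P.Rad V V' → g = 0) ∧
  ∀ V V' : D.C × Bool → XV k, D.P.Al V → D.P.Al V' → ∀ φ : HH D.P.G V V',
    ∃ g : FH V V', φ - gm D.P.G g ∈ D.P.Rad V V'

/-- complexes of free modules are tracked by the initial problem -/
def S_TRINIT : Prop := ∀ (D : Dc k R) (F : Type u) [Field F] [Algebra k F] (E : Type u) [Ring E]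
  (W : Bool → FXV k F) (d : R ⊗[k] (W true).V →ₗ[R] R ⊗[k] (W false).V)
  (ρ : ∀ e, E →+* Module.End k (W e).V),
  (∀ c, d ∘ₗ Pmap ((W true).act c) = Pmap ((W false).act c) ∘ₗ d) →
  (∀ a, d ∘ₗ Pmap (ρ true a) = Pmap (ρ false a) ∘ₗ d) → (∀ e, ln (ρ e) ≠ ⊤) →
  ∃ (V : D.C × Bool → FXV k F) (w : D.P.W (fun v => (V v).V) fun v => (V v).V)
    (ρ' : ∀ v, E →+* Module.End k (V v).V), D.P.IsTr (CXp W d) V w ρ' ∧
    ((∀ e, Module.Finite k (W e).V) → ∀ v, Module.Finite k (V v).V)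

/-- natural maps between free functors are families -/
def S_YON : Prop := ∀ (n1 n0 : ℕ)
  (D : ∀ V : XV k, R ⊗[k] (Fin n1 → V) →ₗ[R] R ⊗[k] (Fin n0 → V)),
  (∀ (V V' : XV k) (g : XH V V'),
    D V' ∘ₗ Pmap (g.1.compLeft _) = Pmap (g.1.compLeft _) ∘ₗ D V) →
  ∃ (r : ℕ) (c : ℕ → Matrix (Fin n1) (Fin n0) R), ∀ V, D V = Xd ⟨n0, n1, r, c⟩ V

/-- the family at a vertex -/
def S_FAM : Prop := ∀ (P : PD k R), P.Ax → ∀ v, ∃ d : Fam R, P.FamOk v d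

/-- natural families of maps have zero Bockstein map -/
def S_BOCK : Prop := ∀ (d d' : Fam R)
  (j : ∀ V V' : XV k, (V →ₗ[k] V') →ₗ[k] (M d V →ₗ[R] M d' V')),
  (∀ (V V' V'' : XV k) (g : XH V' V'') (w : V →ₗ[k] V'),
    j V V'' (g.1 ∘ₗ w) = (MN d').map g ∘ₗ j V V' w) →
  (∀ (V V' V'' : XV k) (g : XH V V') (w : V' →ₗ[k] V''),
    j V V'' (w ∘ₗ g.1) = j V' V'' w ∘ₗ (MN d).map g) →
  ∀ (V V' : XV k) (w : V →ₗ[k] V'), Bock d V (j V V' w) = 0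

/-- maps of cokernels lift to chain maps -/
def S_LIFT : Prop := ∀ (P : PD k R), P.Ax → ∀ V w V' w' (a : P.H V w →ₗ[R] P.H V' w'),
  ∃ (φ : HH P.G V V') (h : P.Chain V w V' w' φ), PD.Hm h = a

/-- the junk ideal of a problem without arrows -/
def S_RD : Prop := ∀ (P : PD k R), P.Ax → P.P5 → IsEmpty P.A → ∀ d : P.ι → Fam R,
  (∀ v, P.FamOk v (d v)) →
  ∃ (J : ∀ (v : P.ι) (V : XV k) (w : P.ι) (V' : XV k),
      Submodule k (M (d v) V →ₗ[R] M (d w) V')) (s : ℕ),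
    (∀ v V w V' u V'', Allowed (P.K v) P.f V → Allowed (P.K w) P.f V' → Allowed (P.K u) P.f V'' →
      ∀ j ∈ J v V w V', ∀ g : M (d w) V' →ₗ[R] M (d u) V'', g ∘ₗ j ∈ J v V u V'') ∧
    (∀ v V w V' u V'', Allowed (P.K v) P.f V → Allowed (P.K w) P.f V' → Allowed (P.K u) P.f V'' →
      ∀ j ∈ J w V' u V'', ∀ g : M (d v) V →ₗ[R] M (d w) V', j ∘ₗ g ∈ J v V u V'') ∧
    (∀ v V, Allowed (P.K v) P.f V → ∀ l : List (Module.End R (M (d v) V)), l.length = s →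
      (∀ j ∈ l, j ∈ J v V v V) → l.prod = 0) ∧
    (∀ v V w V', ∀ j ∈ J v V w V', Bock (d v) V j = 0) ∧
    (∀ v V w V', Allowed (P.K v) P.f V → Allowed (P.K w) P.f V' → v ≠ w → J v V w V' = ⊤) ∧
    (∀ v V V', Allowed (P.K v) P.f V → Allowed (P.K v) P.f V' →
      ∀ a : M (d v) V →ₗ[R] M (d v) V', ∃ g : XH V V', a - (MN (d v)).map g ∈ J v V v V') ∧
    ∀ v V V', Allowed (P.K v) P.f V → Allowed (P.K v) P.f V' → P.K v = true →
      ∀ g : XH V V', (MN (d v)).map g ∈ J v V v V' → g = 0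

/-- the decomposition of the tracked module -/
def S_DECO : Prop := ∀ (P : PD k R), P.Ax → IsEmpty P.A → ∀ d : P.ι → Fam R,
  (∀ v, P.FamOk v (d v)) →
  ∀ (F : Type u) [Field F] [Algebra k F] (E : Type u) [Ring E] (X : CX k R F)
    (V : P.ι → FXV k F) (w : P.W (fun v => (V v).V) fun v => (V v).V)
    (ρ : ∀ v, E →+* Module.End k (V v).V), P.IsTr X V w ρ →
    ∀ (N : FO k R F) (ε : (X.X false).X →ₗ[R] N.X), ε ∈ HomF (X.X false) N →
    Function.Surjective ε → LinearMap.ker ε = LinearMap.range X.d →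
    Decomp N fun v => MF (d v) (V v)

/-- wild implies a dense system of pairs -/
def S_WT0 : Prop := Wild k R → ¬ ND k R

/-- the reduction theorem -/
def S_RED0 : Prop := ∀ [IsAlgClosed k] [FiniteDimensional k R], ¬ Wild k R →
  ∀ (F : Type u) [Field F] [Algebra k F] (N : FO k R F) (E : Type u) [Ring E] [Module E N.X]
    [SMulCommClass E R N.X], IsFiniteLength E N.X →
    ∃ (D : RD k R) (V : D.ι → FXV k F), (∀ v, if D.K v then KSp (V v).V else (V v).V.x = 0) ∧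
      Decomp N (fun v => MF (D.d v) (V v))

end
end Pool.Agent.P.MP_cf639b_al.Red
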