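import Pool.Agent.P.MP_cf639b_al.Red.Iface

/-! Null-homotopic parts live at the algebraic vertices. -/

set_option linter.dupNamespace false

namespace Pool.Agent.P.MP_cf639b_al.Red

universe u
open TensorProduct Polynomial

noncomputable section

variable {k : Type u} [Field k] {R : Type u} [Ring R] [Algebra k R]

namespace P5

variable {ι : Type} (V : ι → XV k) (Y : Type u) [AddCommGroup Y] [Module k Y]

/-- the family `V ⊗ Y` -/
abbrev Z : ι → XV k := fun v => ⟨V v ⊗[k] Y, (V v).x.rTensor Y⟩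

/-- the inclusion `v ↦ v ⊗ y` -/
def incl : Y →ₗ[k] FH V (Z V Y) where
  toFun y v := ⟨(TensorProduct.mk k (V v) Y).flip y, rfl⟩
  map_add' y y' := FH.ext fun _ z => tmul_add z y y'
  map_smul' c y := FH.ext fun _ z => tmul_smul c z y

variable {V}

/-- the map `R ⊗ Y → G (V ⊗ Y)` given by an element of `G V` -/
def Jm (G : GF k R ι) (z : G.obj V) : R ⊗[k] Y →ₗ[R] G.obj (Z V Y) :=
  Plift (LinearMap.applyₗ (R := k) z ∘ₗ LinearMap.restrictScalarsₗ k R _ _ k ∘ₗ G.map ∘ₗ incl V Y)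

theorem J_one (G : GF k R ι) (z : G.obj V) (y : Y) :
    Jm Y G z ((1 : R) ⊗ₜ y) = G.map (incl V Y y) z := by
  rw [Jm, Plift_tmul, one_smul]
  rfl

theorem exQ {G : GF k R ι} (hG : G.Proj) (q : G.obj V →ₗ[R] R) :
    ∃ Q : G.obj (Z V Y) →ₗ[R] R ⊗[k] Y, ∀ y z, Q (G.map (incl V Y y) z) = q z ⊗ₜ y := by
  classical
  obtain ⟨B, _, ν, i, p, h1, h2, -⟩ := hG
  let Q : R ⊗[k] (∀ b, V (ν b) ⊗[k] Y) →ₗ[R] R ⊗[k] Y := Plift (∑ b,
    ((q ∘ₗ p V).restrictScalars k ∘ₗ Pin _ ∘ₗ LinearMap.single k (fun b => V (ν b)) b).rTensor Y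
      ∘ₗ LinearMap.proj b)
  refine ⟨Q ∘ₗ i (Z V Y), fun y z => ?_⟩
  have e : Q ∘ₗ Pmap (piM ν fun v => (incl V Y y v).1) =
      (AlgebraTensorModule.mk k R R Y).flip y ∘ₗ q ∘ₗ p V := P_ext fun u => by
    have : q (p V ((1 : R) ⊗ₜ u)) = ∑ b, q (p V ((1 : R) ⊗ₜ Pi.single b (u b))) := by
      rw [← map_sum, ← map_sum, ← tmul_sum, Finset.univ_sum_single]
    change _ = q (p V ((1 : R) ⊗ₜ u)) ⊗ₜ[k] y
    rw [this, sum_tmul, LinearMap.comp_apply, Pmap_tmul, Plift_tmul, one_smul, LinearMap.sum_apply]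
    rfl
  refine (congrArg Q (LinearMap.congr_fun (h2 _ _ (incl V Y y)) z)).trans ?_
  refine (LinearMap.congr_fun e (i V z)).trans ?_
  exact congrArg (fun t => q t ⊗ₜ[k] y) (LinearMap.congr_fun (h1 V) z)

theorem sub_Z {v : ι} (h : Subsingleton (V v)) : Subsingleton (Z V Y v) :=
  subsingleton_of_forall_eq 0 fun z => by
    induction z using TensorProduct.induction_on with
    | zero => rfl
    | tmul a y => rw [Subsingleton.elim a 0, zero_tmul]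
    | add a b ha hb => rw [ha, hb, add_zero]

theorem fac {A1 A0 B1 B0 C1 C0 : Md k R} {T : Type u} [AddCommGroup T] [Module R T]
    (dA : A1 →ₗ[R] A0) (dB : B1 →ₗ[R] B0) (dC : C1 →ₗ[R] C0) (f1 : A1 →ₗ[R] B1)
    (s : A0 →ₗ[R] B1) (hf : dB ∘ₗ f1 = (dB ∘ₗ s) ∘ₗ dA)
    (i0 : A0 →ₗ[R] T) (p0 : T →ₗ[R] A0) (i1 : A1 →ₗ[R] T) (p1 : T →ₗ[R] A1)
    (e0 : p0 ∘ₗ i0 = LinearMap.id) (e1 : p1 ∘ₗ i1 = LinearMap.id)
    (j1 j2 : T →ₗ[R] C1) (q1 : C0 →ₗ[R] T) (q2 : C1 →ₗ[R] T) (h1 : dC ∘ₗ j2 = 0)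
    (h2 : q1 ∘ₗ dC ∘ₗ j1 = LinearMap.id) (h3 : q2 ∘ₗ j1 = 0) (h4 : q2 ∘ₗ j2 = LinearMap.id) :
    ∃ (a1 : A1 →ₗ[R] C1) (a0 : A0 →ₗ[R] C0) (b1 : C1 →ₗ[R] B1) (b0 : C0 →ₗ[R] B0),
      dC ∘ₗ a1 = a0 ∘ₗ dA ∧ dB ∘ₗ b1 = b0 ∘ₗ dC ∧ b1 ∘ₗ a1 = f1 ∧ b0 ∘ₗ a0 = dB ∘ₗ s := by
  have hf := LinearMap.congr_fun hf
  have e0 := LinearMap.congr_fun e0
  have e1 := LinearMap.congr_fun e1
  have h1 := LinearMap.congr_fun h1
  have h2 := LinearMap.congr_fun h2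
  have h3 := LinearMap.congr_fun h3
  have h4 := LinearMap.congr_fun h4
  simp only [LinearMap.comp_apply, LinearMap.id_apply, LinearMap.zero_apply] at *
  refine ⟨j1 ∘ₗ i0 ∘ₗ dA + j2 ∘ₗ i1, dC ∘ₗ j1 ∘ₗ i0,
    s ∘ₗ p0 ∘ₗ q1 ∘ₗ dC + (f1 - s ∘ₗ dA) ∘ₗ p1 ∘ₗ q2, dB ∘ₗ s ∘ₗ p0 ∘ₗ q1, ?_, ?_, ?_, ?_⟩ <;>
    ext z <;> simp [*]

end P5

open P5 in
theorem t_P5 : S_P5 k R := by
  intro P hA E _ V w ρ hT hfin V1 V2 a1 a2 w1 w2 g r hr hc hle v hv
  obtain ⟨φ, -, hφ⟩ := hT.iso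
  have hsub : ∀ v, P.K v = true → Subsingleton (V v).V := fun v hv => by
    have h := hT.ok v
    have := hfin v
    rw [if_pos hv] at h
    have h1 := (h _ (LinearMap.charpoly_monic (V v).V.x).ne_zero).1
    rw [LinearMap.aeval_self_charpoly] at h1
    exact ⟨fun _ _ => h1 rfl⟩
  obtain ⟨B0, _, ν0, i0, p0, e0, -, -⟩ := hA.proj false
  obtain ⟨B1, _, ν1, i1, p1, e1, -, -⟩ := hA.proj true
  let Y : Type u := (∀ b, V1 (ν0 b)) × (∀ b, V1 (ν1 b))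
  let VC : P.ι → XV k := fun v => (V v).V
  have aZ : P.Al (Z VC Y) := fun v => by
    cases hK : P.K v
    · have h := hT.ok v
      rw [hK, if_neg Bool.false_ne_true] at h
      refine allowed_false.2 ?_
      change LinearMap.rTensor Y (V v).V.x = 0
      rw [h, LinearMap.rTensor_zero]
    · have := sub_Z Y (V := VC) (hsub v hK)
      exact allowed_of_subsingleton _ _ _
  let wZ : P.W (Z VC Y) (Z VC Y) := fun a => (w a).rTensor Y
  have hD : ∀ z, P.D _ wZ ∘ₗ Jm Y (P.G true) z = Jm Y (P.G false) (P.D VC w z) := fun z =>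
    P_ext fun y => by
      rw [LinearMap.comp_apply, J_one, J_one]
      exact LinearMap.congr_fun (hA.chain_gm (w := w) (w' := wZ) (incl VC Y y) fun _ => rfl) z
  have := Module.Projective.of_split (i0 V1) (p0 V1) (e0 V1)
  obtain ⟨s, hs⟩ := Module.projective_lifting_property (P.D V2 w2).rangeRestrict
    (((gm P.G g + r) false).codRestrict _ fun z => hle ⟨z, rfl⟩)
    (LinearMap.surjective_rangeRestrict _)
  have hs' : P.D V2 w2 ∘ₗ s = (gm P.G g + r) false :=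
    LinearMap.ext fun z => congrArg Subtype.val (LinearMap.congr_fun hs z)
  let φ0 : (P.G false).obj VC ≃ₗ[R] R ⊗[k] (k × k) := φ false
  let φ1 : (P.G true).obj VC ≃ₗ[R] R ⊗[k] (k × k) := φ true
  have hφ' : ∀ z, φ0 (P.D VC w z) =
      Pmap (LinearMap.inl k k k ∘ₗ LinearMap.fst k k k) (φ1 z) := hφ
  obtain ⟨Q1, hQ1⟩ := exQ Y (hA.proj false)
    (Plift (Algebra.linearMap k R ∘ₗ LinearMap.fst k k k) ∘ₗ φ0.toLinearMap)
  obtain ⟨Q2, hQ2⟩ := exQ Y (hA.proj true)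
    (Plift (Algebra.linearMap k R ∘ₗ LinearMap.snd k k k) ∘ₗ φ1.toLinearMap)
  obtain ⟨α1, α0, β1, β0, c1, c2, c3, c4⟩ := fac (P.D V1 w1) (P.D V2 w2) (P.D _ wZ)
    ((gm P.G g + r) true) s (by rw [hs']; exact hc)
    (Pmap (LinearMap.inl k _ _) ∘ₗ i0 V1) (p0 V1 ∘ₗ Pmap (LinearMap.fst k _ _))
    (Pmap (LinearMap.inr k _ _) ∘ₗ i1 V1) (p1 V1 ∘ₗ Pmap (LinearMap.snd k _ _))
    (by rw [LinearMap.comp_assoc, ← LinearMap.comp_assoc (i0 V1), ← Pmap_comp,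
      LinearMap.fst_comp_inl, Pmap_id, LinearMap.id_comp, e0])
    (by rw [LinearMap.comp_assoc, ← LinearMap.comp_assoc (i1 V1), ← Pmap_comp,
      LinearMap.snd_comp_inr, Pmap_id, LinearMap.id_comp, e1])
    (Jm Y (P.G true) (φ1.symm ((1 : R) ⊗ₜ (1, 0)))) (Jm Y (P.G true) (φ1.symm ((1 : R) ⊗ₜ (0, 1))))
    Q1 Q2
    (by
      have : P.D VC w (φ1.symm ((1 : R) ⊗ₜ (0, 1))) = 0 := φ0.injective (by
        rw [hφ', map_zero]
        simp [Prod.mk_zero_zero])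
      rw [hD, this]
      exact P_ext fun y => by rw [J_one, map_zero, LinearMap.zero_apply])
    (by
      rw [hD]
      refine P_ext fun y => ?_
      rw [LinearMap.comp_apply, J_one, hQ1]
      simp [hφ'])
    (P_ext fun y => by
      rw [LinearMap.comp_apply, J_one, hQ2]
      simp)
    (P_ext fun y => by
      rw [LinearMap.comp_apply, J_one, hQ2]
      simp)
  let α : HH P.G V1 (Z VC Y) := fun e => match e with
    | true => α1
    | false => α0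
  let β : HH P.G (Z VC Y) V2 := fun e => match e with
    | true => β1
    | false => β0
  obtain ⟨g1, r1⟩ := hA.full a1 aZ w1 wZ α c1
  obtain ⟨g2, r2⟩ := hA.full aZ a2 wZ w2 β c2
  have hαβ : ∀ e, β e ∘ₗ α e = (gm P.G g + r) e := fun e => by
    cases e
    exacts [c4.trans hs', c3]
  have key : gm P.G (g - FH.comp g2 g1) =
      HH.comp (gm P.G g2) (α - gm P.G g1) + HH.comp (β - gm P.G g2) (gm P.G g1) +
        HH.comp (β - gm P.G g2) (α - gm P.G g1) - r := by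
    rw [map_sub, gm_comp]
    funext e
    have := hαβ e
    simp only [Pi.add_apply, Pi.sub_apply, HH.comp_apply, LinearMap.comp_sub,
      LinearMap.sub_comp] at this ⊢
    rw [this]
    abel
  have h0 := hA.r4 a1 a2 _ (key ▸ sub_mem (add_mem (add_mem (PD.Rad_left g2 r1)
    (PD.Rad_right g1 r2)) (hA.r1 a1 aZ a2 _ r2 _ r1)) hr)
  rw [sub_eq_zero.1 h0]
  have := sub_Z Y (V := VC) (hsub v hv)
  refine Subtype.ext (LinearMap.ext fun z => ?_)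
  change (g2 v).1 ((g1 v).1 z) = 0
  rw [Subsingleton.elim ((g1 v).1 z) 0, map_zero]

end
end Pool.Agent.P.MP_cf639b_al.Red
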