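import Pool.Agent.P.MP_cf639b_al.Red.Iface

/-! A complex of free objects is tracked by the initial problem. -/

set_option linter.dupNamespace false
set_option linter.unusedVariables false

namespace Pool.Agent.P.MP_cf639b_al.Red

universe u
open TensorProduct Polynomial

noncomputable section

variable {k : Type u} [Field k] {R : Type u} [Ring R] [Algebra k R]

namespace TRINIT

/-- componentwise action -/
def cw (B : Type) (W : Type u) [AddCommGroup W] [Module k W] :
    Module.End k W →ₐ[k] Module.End k (B → W) where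
  toFun a := a.compLeft B
  map_one' := rfl
  map_mul' _ _ := rfl
  map_zero' := rfl
  map_add' _ _ := rfl
  commutes' _ := rfl

section
variable (D : Dc k R) (W : Type u) [AddCommGroup W] [Module k W]

/-- from the sum of the indecomposable pieces to the free module -/
def fw : (∀ c, D.Q c ⊗[k] (D.B c → W)) →ₗ[R] R ⊗[k] W :=
  ∑ c, ∑ b, AlgebraTensorModule.map (D.i c b) (LinearMap.proj (R := k) (φ := fun _ => W) b) ∘ₗ
    LinearMap.proj c

open Classical in
/-- the inverse map -/
def bw : R ⊗[k] W →ₗ[R] (∀ c, D.Q c ⊗[k] (D.B c → W)) :=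
  LinearMap.pi fun c => ∑ b, AlgebraTensorModule.map (D.p c b) (LinearMap.single k (fun _ => W) b)

theorem fw_apply (z : ∀ c, D.Q c ⊗[k] (D.B c → W)) : fw D W z = ∑ c, ∑ b,
    AlgebraTensorModule.map (D.i c b) (LinearMap.proj (R := k) (φ := fun _ => W) b) (z c) := by
  simp [fw]

open Classical in
theorem bw_apply (y : R ⊗[k] W) (c : D.C) : bw D W y c =
    ∑ b, AlgebraTensorModule.map (D.p c b) (LinearMap.single k (fun _ => W) b) y := by
  simp [bw]

theorem fw_bw : fw D W ∘ₗ bw D W = LinearMap.id := by
  classical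
  refine AlgebraTensorModule.ext fun r v => ?_
  have h := LinearMap.congr_fun D.sum r
  simp only [LinearMap.sum_apply, LinearMap.comp_apply, LinearMap.id_apply] at h
  rw [LinearMap.comp_apply, fw_apply, LinearMap.id_apply]
  conv_rhs => rw [← h]
  simp only [sum_tmul, bw_apply, map_sum, AlgebraTensorModule.map_tmul]
  refine Finset.sum_congr rfl fun c _ => Finset.sum_congr rfl fun b _ => ?_
  rw [Finset.sum_eq_single b (fun b' _ hb => by simp [hb.symm]) (by simp)]
  simp

theorem bw_fw : bw D W ∘ₗ fw D W = LinearMap.id := by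
  classical
  refine LinearMap.ext fun z => funext fun c' => ?_
  rw [LinearMap.comp_apply, bw_apply, fw_apply, LinearMap.id_apply]
  have key : ∀ c (y : D.Q c ⊗[k] (D.B c → W)) b b', (⟨c, b⟩ : Σ c, D.B c) ≠ ⟨c', b'⟩ →
      AlgebraTensorModule.map (D.p c' b') (LinearMap.single k (fun _ => W) b')
        (AlgebraTensorModule.map (D.i c b) (LinearMap.proj (R := k) (φ := fun _ => W) b) y) = 0 := by
    intro c y b b' h
    induction y using TensorProduct.induction_on with
    | zero => simp
    | tmul q f =>
      have := LinearMap.congr_fun (D.pi_ne c b c' b' h) q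
      simp only [LinearMap.comp_apply, LinearMap.zero_apply] at this
      simp only [AlgebraTensorModule.map_tmul, this, zero_tmul]
    | add x y hx hy => simp only [map_add, hx, hy, add_zero]
  have e : ∀ b', AlgebraTensorModule.map (D.p c' b') (LinearMap.single k (fun _ => W) b')
      (∑ c, ∑ b, AlgebraTensorModule.map (D.i c b)
        (LinearMap.proj (R := k) (φ := fun _ => W) b) (z c)) =
      AlgebraTensorModule.map (D.p c' b') (LinearMap.single k (fun _ => W) b')
        (AlgebraTensorModule.map (D.i c' b')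
          (LinearMap.proj (R := k) (φ := fun _ => W) b') (z c')) := fun b' => by
    rw [map_sum, Finset.sum_eq_single c' (fun c _ hc => by
      rw [map_sum]
      exact Finset.sum_eq_zero fun b _ => key c _ b b' fun h => hc (congrArg Sigma.fst h))
      (by simp), map_sum, Finset.sum_eq_single b' (fun b _ hb => key c' _ b b' (by simpa using hb))
      (by simp)]
  simp only [e]
  generalize z c' = y
  induction y using TensorProduct.induction_on with
  | zero => simp
  | tmul q f =>
    have : ∀ b, D.p c' b (D.i c' b q) = q := fun b => LinearMap.congr_fun (D.pi_self c' b) q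
    simp only [AlgebraTensorModule.map_tmul, this, ← tmul_sum, LinearMap.single_apply,
      LinearMap.proj_apply, Finset.univ_sum_single]
  | add x y hx hy => simp only [map_add, Finset.sum_add_distrib, hx, hy]

/-- the isomorphism -/
def ph : (∀ c, D.Q c ⊗[k] (D.B c → W)) ≃ₗ[R] R ⊗[k] W :=
  LinearEquiv.ofLinear (fw D W) (bw D W) (fw_bw D W) (bw_fw D W)

theorem ph_nat (a : W →ₗ[k] W) (z : ∀ c, D.Q c ⊗[k] (D.B c → W)) :
    ph D W (fun c => tm LinearMap.id (a.compLeft (D.B c)) (z c)) = Pmap a (ph D W z) := by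
  change fw D W _ = Pmap a (fw D W z)
  rw [fw_apply, fw_apply, map_sum]
  refine Finset.sum_congr rfl fun c _ => ?_
  rw [map_sum]
  refine Finset.sum_congr rfl fun b _ => ?_
  generalize z c = y
  induction y using TensorProduct.induction_on with
  | zero => simp
  | tmul q f => simp
  | add x y hx hy => simp only [map_add, hx, hy]
end

theorem ln_pi {E : Type u} [Ring E] (B : Type) [Fintype B] {W : Type u} [AddCommGroup W]
    [Module k W] (ρ : E →+* Module.End k W) (h : ln ρ ≠ ⊤) :
    ln ((cw B W).toRingHom.comp ρ) ≠ ⊤ := by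
  let e : RM ((cw B W).toRingHom.comp ρ) ≃ₗ[E] (B → RM ρ) :=
    { toFun := fun z => z
      invFun := fun z => z
      map_add' := fun _ _ => rfl
      map_smul' := fun _ _ => rfl
      left_inv := fun _ => rfl
      right_inv := fun _ => rfl }
  rw [ln, e.length_eq, Module.length_pi_of_fintype]
  exact ENat.sum_ne_top.2 fun _ _ => h

variable (D : Dc k R) {F : Type u} [Field F] [Algebra k F] (W : Bool → FXV k F)

/-- the family attached to a pair of spaces -/
abbrev VV : D.C × Bool → FXV k F := fun v =>
  vsF (D.B v.1 → (W v.2).V) ((cw (D.B v.1) (W v.2).V).comp (W v.2).act)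

/-- the family of maps attached to a pair of maps -/
def gg (a : ∀ e, (W e).V →ₗ[k] (W e).V) :
    FH (fun v => (VV D W v).V) fun v => (VV D W v).V := fun v =>
  ⟨(a v.2).compLeft (D.B v.1), by rw [mem_XH]; simp⟩

theorem comm (d : R ⊗[k] (W true).V →ₗ[R] R ⊗[k] (W false).V)
    (δ : H1 D.G (fun v => (VV D W v).V) fun v => (VV D W v).V)
    (hδ : ∀ z, ph D (W false).V (δ z) = d (ph D (W true).V z))
    (a : ∀ e, (W e).V →ₗ[k] (W e).V) (ha : d ∘ₗ Pmap (a true) = Pmap (a false) ∘ₗ d) :
    δ ∘ₗ (D.G true).map (gg D W a) = (D.G false).map (gg D W a) ∘ₗ δ := by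
  refine LinearMap.ext fun z => (ph D (W false).V).injective ?_
  refine (hδ _).trans (Eq.trans ?_ (ph_nat D (W false).V (a false) (δ z)).symm)
  rw [hδ]
  exact (congrArg d (ph_nat D (W true).V (a true) z)).trans (LinearMap.congr_fun ha _)

end TRINIT

open TRINIT in
theorem t_TRINIT : S_INIT1 k R → S_TRINIT k R := by
  intro h1 D F _ _ E _ W d ρ hF hρ hl
  have hb := (h1 D).2.1 (fun v => (VV D W v).V) fun v => (VV D W v).V
  obtain ⟨w, hw⟩ := hb.2 ((ph D (W false).V).symm.toLinearMap ∘ₗ d ∘ₗ (ph D (W true).V).toLinearMap)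
  have hδ : ∀ z, ph D (W false).V (D.P.ms _ _ w z) = d (ph D (W true).V z) := fun z => by
    rw [hw]
    exact (ph D (W false).V).apply_symm_apply _
  have hD : D.P.D _ w = D.P.ms _ _ w := zero_add _
  refine ⟨VV D W, w, fun v => (cw (D.B v.1) (W v.2).V).toRingHom.comp (ρ v.2),
    ⟨fun v => rfl, fun a c => ?_, ⟨fun e => ph D (W e).V, fun e c z => ?_, fun z => ?_⟩,
      fun x => ⟨gg D W fun e => ρ e x, fun v => rfl, 0, zero_mem _, ?_⟩,
      fun v => ln_pi _ _ (hl _)⟩, fun h v => ?_⟩
  · have := comm D W d _ hδ (fun e => (W e).act c) (hF c)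
    have e1 := PD.ms_left (P := D.P) (gg D W fun e => (W e).act c) w
    have e2 := PD.ms_right (P := D.P) (gg D W fun e => (W e).act c) w
    exact congrFun (hb.1 (e2.symm.trans (this.trans e1))) a
  · exact ph_nat D (W e).V ((W e).act c) z
  · rw [hD]
    exact hδ z
  · rw [add_zero, PD.Chain, hD]
    exact comm D W d _ hδ (fun e => ρ e x) (hρ x)
  · have := h v.2
    exact inferInstanceAs (Module.Finite k (D.B v.1 → (W v.2).V))

end
end Pool.Agent.P.MP_cf639b_al.Red
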