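import Pool.Agent.P.MP_cf639b_al.Red.Iface

/-! Transfer of a tracked object in normal form along a substitution. -/

set_option linter.dupNamespace false
set_option linter.unusedVariables false

namespace Pool.Agent.P.MP_cf639b_al.Red

universe u
open TensorProduct Polynomial

noncomputable section

variable {k : Type u} [Field k] {R : Type u} [Ring R] [Algebra k R]

namespace TSUB

theorem ln_conj {E : Type u} [Ring E] {W W' : Type u} [AddCommGroup W] [Module k W]
    [AddCommGroup W'] [Module k W'] (θ : W ≃ₗ[k] W') (ρ : E →+* Module.End k W)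
    (ρ' : E →+* Module.End k W') (h : ∀ e z, θ (ρ e z) = ρ' e (θ z)) : ln ρ = ln ρ' := by
  let ψ : RM ρ ≃ₗ[E] RM ρ' :=
    { toFun := fun z => θ z
      invFun := fun z => θ.symm z
      map_add' := fun a b => θ.map_add a b
      map_smul' := fun e z => h e z
      left_inv := fun z => θ.symm_apply_apply z
      right_inv := fun z => θ.apply_symm_apply z }
  exact ψ.length_eq

/-- conjugation of a representation -/
def cj {E : Type u} [Ring E] {W W' : Type u} [AddCommGroup W] [Module k W]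
    [AddCommGroup W'] [Module k W'] (θ : W ≃ₗ[k] W') (ρ : E →+* Module.End k W) :
    E →+* Module.End k W' where
  toFun e := θ.toLinearMap ∘ₗ ρ e ∘ₗ θ.symm.toLinearMap
  map_one' := LinearMap.ext fun z => by simp
  map_mul' a b := LinearMap.ext fun z => by simp
  map_zero' := LinearMap.ext fun z => by simp
  map_add' a b := LinearMap.ext fun z => by simp
theorem cj_apply {E : Type u} [Ring E] {W W' : Type u} [AddCommGroup W] [Module k W]
    [AddCommGroup W'] [Module k W'] (θ : W ≃ₗ[k] W') (ρ : E →+* Module.End k W) (e : E) (z : W') :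
    cj θ ρ e z = θ (ρ e (θ.symm z)) := rfl
theorem ln_cj {E : Type u} [Ring E] {W W' : Type u} [AddCommGroup W] [Module k W]
    [AddCommGroup W'] [Module k W'] (θ : W ≃ₗ[k] W') (ρ : E →+* Module.End k W) :
    ln (cj θ ρ) = ln ρ :=
  (ln_conj θ ρ (cj θ ρ) fun e z => by rw [cj_apply, LinearEquiv.symm_apply_apply]).symm

variable {P : PD k R} (S : SD P)

/-- `h` is triangular with diagonal `g` -/
def Tri (V : S.ι → XV k) (h : ∀ v, Module.End k (S.TT V v)) (g : ∀ j, Module.End k (V j)) :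
    Prop :=
  ∀ v (z : S.TT V v) (ω : S.U v), (∀ β : S.U v, S.wt β.1 < S.wt ω.1 → z β = 0) →
    h v z ω = g (S.i ω.1) (z ω)

variable {S}

theorem Tri.uniq (hs : Function.Surjective S.i) {V : S.ι → XV k}
    {h : ∀ v, Module.End k (S.TT V v)} {g g' : ∀ j, Module.End k (V j)}
    (h1 : Tri S V h g) (h2 : Tri S V h g') (j : S.ι) : g j = g' j := by
  obtain ⟨ω, rfl⟩ := hs j
  refine LinearMap.ext fun y => ?_
  have hz : ∀ β : S.U (S.base ω), S.wt β.1 < S.wt ω →
      S.inc V (⟨ω, rfl⟩ : S.U (S.base ω)) y β = 0 := fun β hβ =>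
    inc_ne _ _ _ (fun e => by rw [e] at hβ; exact lt_irrefl _ hβ) _
  have e1 := h1 (S.base ω) _ ⟨ω, rfl⟩ hz
  have e2 := h2 (S.base ω) _ ⟨ω, rfl⟩ hz
  have e3 := e1.symm.trans e2
  rw [inc_self] at e3
  exact e3

theorem Tri.mul {V : S.ι → XV k} {h h' : ∀ v, Module.End k (S.TT V v)}
    {g g' : ∀ j, Module.End k (V j)} (h1 : Tri S V h g) (h2 : Tri S V h' g') :
    Tri S V (fun v => h v * h' v) fun j => g j * g' j := fun v z ω hz => by
  have e : ∀ β : S.U v, S.wt β.1 < S.wt ω.1 → h' v z β = 0 := fun β hβ => by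
    rw [h2 v z β fun γ hγ => hz γ (hγ.trans hβ), hz β hβ, map_zero]
  change h v (h' v z) ω = g _ (g' _ (z ω))
  rw [h1 v _ ω e, h2 v z ω hz]

theorem Tri.add {V : S.ι → XV k} {h h' : ∀ v, Module.End k (S.TT V v)}
    {g g' : ∀ j, Module.End k (V j)} (h1 : Tri S V h g) (h2 : Tri S V h' g') :
    Tri S V (fun v => h v + h' v) fun j => g j + g' j := fun v z ω hz => by
  change h v z ω + h' v z ω = g _ (z ω) + g' _ (z ω)
  rw [h1 v z ω hz, h2 v z ω hz]

theorem tri_hom (hs : Function.Surjective S.i) {E : Type u} [Ring E] {V : S.ι → XV k}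
    (ρ : ∀ v, E →+* Module.End k (S.TT V v)) (g : E → ∀ j, Module.End k (V j))
    (hg : ∀ e, Tri S V (fun v => ρ v e) (g e)) :
    ∃ ρ' : ∀ j, E →+* Module.End k (V j), ∀ j e, ρ' j e = g e j := by
  refine ⟨fun j =>
    { toFun := fun e => g e j
      map_one' := ?_
      map_mul' := fun a b => ?_
      map_zero' := ?_
      map_add' := fun a b => ?_ }, fun j e => rfl⟩
  · refine (hg 1).uniq hs (g' := fun _ => 1) (fun v z ω _ => ?_) j
    change ρ v 1 z ω = z ω
    rw [map_one]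
    rfl
  · refine (hg (a * b)).uniq hs (g' := fun j => g a j * g b j) (fun v z ω hz => ?_) j
    change ρ v (a * b) z ω = _
    rw [map_mul]
    exact (hg a).mul (hg b) v z ω hz
  · refine (hg 0).uniq hs (g' := fun _ => 0) (fun v z ω _ => ?_) j
    change ρ v 0 z ω = 0
    rw [map_zero]
    rfl
  · refine (hg (a + b)).uniq hs (g' := fun j => g a j + g b j) (fun v z ω hz => ?_) j
    change ρ v (a + b) z ω = _
    rw [map_add]
    exact (hg a).add (hg b) v z ω hz

theorem up_apply {V : S.ι → XV k} {b : FH (S.T V) (S.T V)} (hb : S.Up b) (v : P.ι)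
    (z : S.TT V v) (ω : S.U v) (hz : ∀ β : S.U v, S.wt β.1 < S.wt ω.1 → z β = 0) :
    S.prj V ω ((b v).1 z) = 0 := by
  rw [← S.sum_inc V z, map_sum, map_sum]
  refine Finset.sum_eq_zero fun β _ => ?_
  by_cases h : S.wt β.1 < S.wt ω.1
  · rw [hz β h, map_zero, map_zero, map_zero]
  · exact LinearMap.congr_fun (hb v ω β h) (z β)

/-- the endomorphisms pass to the new problem -/
theorem core (hA : P.Ax) (hS : S.Ok) (hN : S.new.Ax) {V0 : P.ι → XV k} {V1 : S.ι → XV k}
    (al : S.new.Al V1) (th : FH V0 (S.T V1)) (th' : FH (S.T V1) V0) {w : P.W V0 V0}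
    {w' : S.NW V1 V1}
    (c1 : P.Chain V0 w (S.T V1) (S.w0 V1 + S.lift V1 V1 w') (gm P.G th))
    (c2 : P.Chain (S.T V1) (S.w0 V1 + S.lift V1 V1 w') V0 w (gm P.G th'))
    (g : FH V0 V0) (r : HH P.G V0 V0) (hr : r ∈ P.Rad V0 V0)
    (hc : P.Chain V0 w V0 w (gm P.G g + r)) :
    ∃ g' : FH V1 V1, Tri S V1 (fun v => (th v).1 ∘ₗ (g v).1 ∘ₗ (th' v).1) (fun j => (g' j).1) ∧
      ∃ r' ∈ S.new.Rad V1 V1, S.new.Chain V1 w' V1 w' (gm S.new.G g' + r') := by
  have c3 := (S.new_chain _).2 (c1.comp (hc.comp c2))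
  obtain ⟨g', hg'⟩ := hN.full al al w' w' _ c3
  refine ⟨g', ?_, _, hg', ?_⟩
  · obtain ⟨r0, hr0, b, hb, e⟩ := (S.mem_new_Rad _).1 hg'
    have h1 : HH.comp (gm P.G th) (HH.comp r (gm P.G th')) ∈ P.Rad (S.T V1) (S.T V1) :=
      PD.Rad_left th (PD.Rad_right th' hr)
    have h2 : HH.comp (gm P.G th) (HH.comp (gm P.G g + r) (gm P.G th')) =
        gm P.G (FH.comp th (FH.comp g th')) + HH.comp (gm P.G th) (HH.comp r (gm P.G th')) := by
      rw [gm_comp, gm_comp]
      funext e
      simp only [HH.comp_apply, Pi.add_apply, LinearMap.add_comp, LinearMap.comp_add]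
    have h3 : gm P.G (FH.comp th (FH.comp g th') - S.TM g' - b) =
        r0 - HH.comp (gm P.G th) (HH.comp r (gm P.G th')) := by
      rw [h2] at e
      have e' : gm P.G (FH.comp th (FH.comp g th')) +
        HH.comp (gm P.G th) (HH.comp r (gm P.G th')) - gm P.G (S.TM g') = r0 + gm P.G b := e
      rw [map_sub, map_sub, eq_sub_iff_add_eq, ← sub_eq_zero, ← sub_eq_zero.2 e']
      abel
    have h4 := hA.r4 (hS.al al) (hS.al al) _
      (h3 ▸ sub_mem (hS.rad0_le _ _ hr0) h1)
    have h5 : FH.comp th (FH.comp g th') = S.TM g' + b := by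
      rw [sub_sub, sub_eq_zero] at h4
      exact h4
    intro v z ω hz
    have h6 : (FH.comp th (FH.comp g th') v).1 z = (S.TM g' v).1 z + (b v).1 z := by
      rw [h5]
      rfl
    have h7 := congrArg (S.prj V1 ω) h6
    rw [map_add, up_apply (S.Bsp_good hb).1 v z ω hz, add_zero] at h7
    exact h7
  · rw [add_sub_cancel]
    exact c3
end TSUB

open TSUB in
theorem t_TSUB : S_SUB k R → S_LEN k → S_TSUB k R := by
  intro hsub hlen P S hA hS F _ _ E _ X V w ρ tr V' ok' θ hx hact hw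
  have hN := hsub P S hA hS
  have al : S.new.Al fun j => (V' j).V := fun j => allowed_of_ok hS.hf (ok' j)
  have hx' : ∀ v z, θ v ((V v).V.x z) = (S.T (fun j => (V' j).V) v).x (θ v z) := fun v z => by
    cases hv : P.K v
    · have h0 : (V v).V.x = 0 := by simpa [hv] using tr.ok v
      rw [h0, S.semi_T _ v hv]
      exact map_zero _
    · exact funext fun ω => (hx v hv z ω).trans (S.T_x_true (fun j => (V' j).V) hv (θ v z) ω).symm
  let th : FH (fun v => (V v).V) (S.T fun j => (V' j).V) := fun v =>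
    ⟨(θ v).toLinearMap, LinearMap.ext (hx' v)⟩
  let th' : FH (S.T fun j => (V' j).V) (fun v => (V v).V) := fun v =>
    ⟨(θ v).symm.toLinearMap, LinearMap.ext fun z => (θ v).injective (by
      change θ v ((θ v).symm _) = θ v ((V v).V.x ((θ v).symm z))
      rw [hx', LinearEquiv.apply_symm_apply, LinearEquiv.apply_symm_apply])⟩
  have i1 : FH.comp th th' = FH.id _ := FH.ext fun v z => (θ v).apply_symm_apply z
  have i2 : FH.comp th' th = FH.id _ := FH.ext fun v z => (θ v).symm_apply_apply z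
  let w1 : P.W (S.T fun j => (V' j).V) (S.T fun j => (V' j).V) := fun a =>
    (θ _).toLinearMap ∘ₗ w a ∘ₗ (θ _).symm.toLinearMap
  have hw1 : S.w0 _ + S.lift _ _ (S.unlift _ _ (w1 - S.w0 _)) = w1 := by
    rw [S.lift_unlift _ fun a ha => ?_, add_sub_cancel]
    refine sub_eq_zero.2 (LinearMap.ext fun z => ?_)
    change θ _ (w a ((θ _).symm z)) = _
    rw [hw a ha, LinearEquiv.apply_symm_apply]
  have c1 : P.Chain _ w _ (S.w0 _ + S.lift _ _ (S.unlift _ _ (w1 - S.w0 _))) (gm P.G th) := by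
    rw [hw1]
    refine hA.chain_gm th fun a => LinearMap.ext fun z => ?_
    change θ _ (w a ((θ _).symm (θ _ z))) = θ _ (w a z)
    rw [LinearEquiv.symm_apply_apply]
  have c2 : P.Chain _ (S.w0 _ + S.lift _ _ (S.unlift _ _ (w1 - S.w0 _))) _ w (gm P.G th') := by
    rw [hw1]
    refine hA.chain_gm th' fun a => LinearMap.ext fun z => ?_
    change w a ((θ _).symm z) = (θ _).symm (θ _ (w a ((θ _).symm z)))
    rw [LinearEquiv.symm_apply_apply]
  choose g hg r hr hc using tr.ch
  choose g' hg' r' hr' hc' using fun e => core hA hS hN al th th' c1 c2 (g e) (r e) (hr e) (hc e)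
  have ht : ∀ e, Tri S (fun j => (V' j).V) (fun v => cj (θ v) (ρ v) e) fun j => (g' e j).1 :=
    fun e v z ω hz => by
      refine Eq.trans ?_ (hg' e v z ω hz)
      change θ v (ρ v e ((θ v).symm z)) ω = θ v ((g e v).1 ((θ v).symm z)) ω
      rw [hg e v]
  obtain ⟨ρ', hρ'⟩ := tri_hom hS.surj (fun v => cj (θ v) (ρ v)) _ ht
  have hl : ∀ v, ∑ ω : S.U v, ln (ρ' (S.i ω.1)) = ln (ρ v) := fun v => by
    rw [← ln_cj (θ v) (ρ v)]
    refine hlen E (S.U v) (fun ω => S.wt ω.1) (fun ω => (V' (S.i ω.1)).V)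
      (fun ω => ρ' (S.i ω.1)) (cj (θ v) (ρ v)) fun e ω z hz => ?_
    rw [hρ']
    exact ht e v z ω hz
  have hsc : ∀ c, FH.comp th' (S.TM (scF V' c)) = FH.comp (scF V c) th' := fun c =>
    FH.ext fun v z => (θ v).injective (by
      change θ v ((θ v).symm _) = θ v ((V v).act c ((θ v).symm z))
      rw [LinearEquiv.apply_symm_apply]
      refine funext fun ω => ?_
      rw [hact, LinearEquiv.apply_symm_apply]
      rfl)
  have hsc' : ∀ c v z, (S.TM (scF V' c) v).1 (θ v z) = θ v ((V v).act c z) := fun c v z =>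
    funext fun ω => (hact v c z ω).symm
  refine ⟨V', S.unlift _ _ (w1 - S.w0 _), ρ', ⟨ok', fun a c => ?_, ?_, fun e => ?_, fun j => ?_⟩,
    hl, fun hf j => ?_⟩
  · refine LinearMap.ext fun y => ?_
    have e1 := LinearMap.congr_fun (S.TM_inc (scF V' c) a.2.1) y
    have e2 : ∀ z, w1 a.1.1 ((S.TM (scF V' c) _).1 z) = (S.TM (scF V' c) _).1 (w1 a.1.1 z) :=
      fun z => by
        obtain ⟨z, rfl⟩ := (θ _).surjective z
        rw [hsc']
        change θ _ (w _ ((θ _).symm (θ _ _))) = (S.TM (scF V' c) _).1 (θ _ (w _ ((θ _).symm _)))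
        rw [hsc', LinearEquiv.symm_apply_apply, LinearEquiv.symm_apply_apply]
        exact congrArg (θ _) (LinearMap.congr_fun (tr.wF a.1.1 c) z)
    have e3 := LinearMap.congr_fun (hS.w0n (scF V' c) a.1.1) (S.inc (fun j => (V' j).V) a.2.1 y)
    have e4 := e2 (S.inc (fun j => (V' j).V) a.2.1 y)
    change S.prj (fun j => (V' j).V) a.2.2
        (w1 a.1.1 (S.inc (fun j => (V' j).V) a.2.1 ((scF V' c (S.i a.2.1.1)).1 y)) -
        S.w0 (fun j => (V' j).V) a.1.1
          (S.inc (fun j => (V' j).V) a.2.1 ((scF V' c (S.i a.2.1.1)).1 y))) =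
      S.prj (fun j => (V' j).V) a.2.2 ((S.TM (scF V' c) (P.t a.1.1)).1
        (w1 a.1.1 (S.inc (fun j => (V' j).V) a.2.1 y) -
        S.w0 (fun j => (V' j).V) a.1.1 (S.inc (fun j => (V' j).V) a.2.1 y)))
    simp only [LinearMap.comp_apply] at e1 e3
    rw [← e1, e3, e4, map_sub (S.TM (scF V' c) _).1]
  · obtain ⟨φ, h1, h2⟩ := tr.iso
    have j2 : ∀ e, (P.G e).map th' ∘ₗ (P.G e).map th = LinearMap.id := fun e => by
      rw [← (P.G e).map_comp, i2, (P.G e).map_id]
    have j1 : ∀ e, (P.G e).map th ∘ₗ (P.G e).map th' = LinearMap.id := fun e => by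
      rw [← (P.G e).map_comp, i1, (P.G e).map_id]
    let ψ : ∀ e, (P.G e).obj (S.T fun j => (V' j).V) ≃ₗ[R] (P.G e).obj fun v => (V v).V :=
      fun e => LinearEquiv.ofLinearMap ((P.G e).map th') ((P.G e).map th) (j2 e) (j1 e)
    refine ⟨fun e => (ψ e).trans (φ e), fun e c z => ?_, fun z => ?_⟩
    · change φ e ((P.G e).map th' ((P.G e).map (S.TM (scF V' c)) z)) =
        (X.X e).act c (φ e ((P.G e).map th' z))
      rw [← h1, ← LinearMap.comp_apply ((P.G e).map th'), ← (P.G e).map_comp, hsc,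
        (P.G e).map_comp]
      rfl
    · rw [S.new_D]
      change φ false ((P.G false).map th' (P.D _ _ z)) = X.d (φ true ((P.G true).map th' z))
      rw [← h2]
      exact congrArg (φ false) (LinearMap.congr_fun c2 z).symm
  · exact ⟨g' e, fun j => (hρ' j e).symm, r' e, hr' e, hc' e⟩
  · obtain ⟨ω, rfl⟩ := hS.surj j
    refine ne_top_of_le_ne_top (tr.fl (S.base ω)) ?_
    rw [← hl]
    exact Finset.single_le_sum (f := fun ω : S.U (S.base ω) => ln (ρ' (S.i ω.1)))
      (fun _ _ => zero_le) (Finset.mem_univ ⟨ω, rfl⟩)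
  · obtain ⟨ω, rfl⟩ := hS.surj j
    have := hf (S.base ω)
    refine Module.Finite.of_surjective
      (S.prj (fun j => (V' j).V) (⟨ω, rfl⟩ : S.U (S.base ω)) ∘ₗ (θ _).toLinearMap) fun y => ?_
    refine ⟨(θ _).symm (S.inc (fun j => (V' j).V) (⟨ω, rfl⟩ : S.U (S.base ω)) y), ?_⟩
    rw [LinearMap.comp_apply, LinearEquiv.coe_coe, LinearEquiv.apply_symm_apply]
    exact LinearMap.congr_fun (S.prj_inc (fun j => (V' j).V) (⟨ω, rfl⟩ : S.U (S.base ω))) y

end
end Pool.Agent.P.MP_cf639b_al.Red
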